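import Mathlib
import Pool.Agent.Lib.MP_79499b_co.Q38MertensAP
import Pool.Agent.Lib.MP_7b7e48_nt.GT.FundLemma

/-!
# UPPS: the sieve bound for numbers without prime factors `3 mod 4`
-/

set_option autoImplicit false

namespace Pool.Agent.Lib.DG

open Finset

open Classical in
/-- number of `k <= Y` without prime factor `3 mod 4` -/
noncomputable def SY (Y : ℕ) : ℕ :=
  ((Finset.range (Y + 1)).filter (fun k => ∀ p, p.Prime → p % 4 = 3 → ¬ p ∣ k)).card

theorem SY_le_self (Y : ℕ) : SY Y ≤ Y := by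
  classical
  unfold SY
  have h : (Finset.range (Y + 1)).filter (fun k => ∀ p, p.Prime → p % 4 = 3 → ¬ p ∣ k) ⊆
      Finset.Icc 1 Y := by
    intro k hk
    rw [Finset.mem_filter, Finset.mem_range] at hk
    rw [Finset.mem_Icc]
    refine ⟨?_, by omega⟩
    rcases Nat.eq_zero_or_pos k with h0 | h0
    · exact absurd (h0 ▸ dvd_zero 3) (hk.2 3 Nat.prime_three (by norm_num))
    · exact h0
  calc _ ≤ (Finset.Icc 1 Y).card := Finset.card_le_card h
    _ = Y := by simp

/-- primes `3 mod 4` up to `z` -/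
noncomputable def P3 (z : ℕ) : Finset ℕ := (Finset.range (z + 1)).filter (fun p => p.Prime ∧ p % 4 = 3)

theorem V3_le (C : ℝ) (hC : ∀ x : ℕ, 3 ≤ x → (1 / 2) * Real.log (Real.log x) - C ≤ MP_79499b_co.Q38.msum 4 3 x)
    (z : ℕ) (hz : 3 ≤ z) :
    ∏ r ∈ P3 z, (1 - ((1 : ℕ) : ℝ) / r) ≤ Real.exp C / √(Real.log z) := by
  have hlog : 0 < Real.log z := Real.log_pos (by exact_mod_cast (by omega : 1 < z))
  have h1 : ∏ r ∈ P3 z, (1 - ((1 : ℕ) : ℝ) / r) ≤ Real.exp (-(∑ r ∈ P3 z, (r : ℝ)⁻¹)) := by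
    rw [← Finset.sum_neg_distrib, Real.exp_sum]
    refine Finset.prod_le_prod (fun r hr => ?_) fun r hr => ?_
    · have : (1 : ℝ) ≤ r := by
        exact_mod_cast (Finset.mem_filter.mp hr).2.1.one_lt.le
      rw [sub_nonneg, Nat.cast_one]
      exact (div_le_one (by linarith)).mpr this
    · rw [Nat.cast_one, one_div]
      exact Real.one_sub_le_exp_neg _
  have h2 : MP_79499b_co.Q38.msum 4 3 z ≤ ∑ r ∈ P3 z, (r : ℝ)⁻¹ := by
    unfold MP_79499b_co.Q38.msum P3
    refine Finset.sum_le_sum_of_subset_of_nonneg ?_ fun _ _ _ => by positivity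
    exact Finset.filter_subset_filter _ (Finset.range_subset_range.mpr (by omega))
  refine h1.trans ?_
  calc Real.exp (-(∑ r ∈ P3 z, (r : ℝ)⁻¹)) ≤ Real.exp (C - (1 / 2) * Real.log (Real.log z)) := by
        apply Real.exp_le_exp.mpr
        linarith [hC z hz]
    _ = Real.exp C / √(Real.log z) := by
        rw [Real.exp_sub, Real.sqrt_eq_rpow, Real.rpow_def_of_pos hlog, mul_comm (1 / 2 : ℝ)]

theorem SY_le : ∃ C : ℝ, 0 < C ∧ ∀ Y : ℕ, 2 ≤ Y → (SY Y : ℝ) ≤ C * Y / √(Real.log Y) := by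
  classical
  obtain ⟨C0, hC0⟩ := MP_79499b_co.Q38.mertens_three_mod_four
  obtain ⟨K, hK1, hK⟩ := GT.fund_lemma
  have hK1r : (1 : ℝ) ≤ K := by exact_mod_cast hK1
  refine ⟨(1 + K) * Real.exp C0 * √(4 * K) + 1 + √(2 * K * Real.log 4), by positivity, ?_⟩
  intro Y hY
  have hY2 : (2 : ℝ) ≤ Y := by exact_mod_cast hY
  have hY0 : (0 : ℝ) < Y := by linarith
  have hL : 0 < Real.log Y := Real.log_pos (by linarith)
  have hsL : 0 < √(Real.log Y) := Real.sqrt_pos.mpr hL
  rw [le_div_iff₀ hsL]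
  by_cases hc : (Y : ℝ) < (4 : ℝ) ^ (2 * (K : ℝ))
  · have h1 : Real.log Y ≤ 2 * K * Real.log 4 := by
      calc Real.log Y ≤ Real.log ((4 : ℝ) ^ (2 * (K : ℝ))) := Real.log_le_log hY0 hc.le
        _ = 2 * K * Real.log 4 := Real.log_rpow (by norm_num) _
    have h2 : √(Real.log Y) ≤ √(2 * K * Real.log 4) := Real.sqrt_le_sqrt h1
    have h3 : (SY Y : ℝ) ≤ Y := by exact_mod_cast SY_le_self Y
    calc (SY Y : ℝ) * √(Real.log Y) ≤ Y * √(2 * K * Real.log 4) :=
          mul_le_mul h3 h2 hsL.le hY0.le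
      _ ≤ ((1 + K) * Real.exp C0 * √(4 * K) + 1 + √(2 * K * Real.log 4)) * Y := by
          have h4 : 0 ≤ (1 + K) * Real.exp C0 * √(4 * K) + 1 := by positivity
          nlinarith
  · rw [not_lt] at hc
    obtain ⟨t, ht⟩ : ∃ t : ℝ, t = (Y : ℝ) ^ (1 / (2 * (K : ℝ))) := ⟨_, rfl⟩
    have hK2 : (0 : ℝ) < 2 * K := by linarith
    have ht4 : 4 ≤ t := by
      rw [ht]
      calc (4 : ℝ) = ((4 : ℝ) ^ (2 * (K : ℝ))) ^ (1 / (2 * (K : ℝ))) := by
            rw [← Real.rpow_mul (by norm_num), mul_one_div_cancel hK2.ne', Real.rpow_one]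
        _ ≤ _ := Real.rpow_le_rpow (by positivity) hc (by positivity)
    have ht0 : 0 < t := by linarith
    obtain ⟨z, hz⟩ : ∃ z : ℕ, z = ⌊t⌋₊ := ⟨_, rfl⟩
    have hzt : (z : ℝ) ≤ t := by rw [hz]; exact Nat.floor_le ht0.le
    have hz3 : 3 ≤ z := by rw [hz]; exact Nat.le_floor (by push_cast; linarith)
    have hz1 : t - 1 ≤ z := by rw [hz]; exact (Nat.sub_one_lt_floor t).le
    have hsq : √t ≤ z := by
      refine le_trans ?_ hz1
      rw [Real.sqrt_le_left (by linarith)]
      nlinarith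
    have hz3r : (3 : ℝ) ≤ z := by exact_mod_cast hz3
    have hlogt : Real.log t = Real.log Y / (2 * K) := by
      rw [ht, Real.log_rpow hY0]; ring
    have hlogz : Real.log Y / (4 * K) ≤ Real.log z := by
      calc Real.log Y / (4 * K) = Real.log (√t) := by
            rw [Real.log_sqrt ht0.le, hlogt]; field_simp; norm_num
        _ ≤ Real.log z := Real.log_le_log (Real.sqrt_pos.mpr ht0) hsq
    have hlogz0 : 0 < Real.log z := Real.log_pos (by linarith)
    have hV := V3_le C0 hC0 z hz3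
    have hVle : ∏ r ∈ P3 z, (1 - ((1 : ℕ) : ℝ) / r) ≤ Real.exp C0 * √(4 * K) / √(Real.log Y) := by
      refine hV.trans ?_
      rw [div_le_div_iff₀ (Real.sqrt_pos.mpr hlogz0) hsL, mul_assoc, ← Real.sqrt_mul (by positivity)]
      refine mul_le_mul_of_nonneg_left (Real.sqrt_le_sqrt ?_) (Real.exp_pos _).le
      rw [div_le_iff₀ (by positivity)] at hlogz
      linarith
    have hV0 : 0 ≤ ∏ r ∈ P3 z, (1 - ((1 : ℕ) : ℝ) / r) := by
      refine Finset.prod_nonneg fun r hr => ?_
      have : (1 : ℝ) ≤ r := by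
        exact_mod_cast (Finset.mem_filter.mp hr).2.1.one_lt.le
      rw [sub_nonneg, Nat.cast_one]
      exact (div_le_one (by linarith)).mpr this
    have hmain := hK 1 le_rfl z (by omega) (P3 z) (fun r hr => by
        obtain ⟨h1, h2⟩ := Finset.mem_filter.mp hr
        rw [Finset.mem_range] at h1
        exact ⟨h2.1, by omega⟩) (fun _ => {0}) (fun r hr => by
        obtain ⟨h1, h2⟩ := Finset.mem_filter.mp hr
        refine ⟨by simp, by simpa using h2.1.one_lt, fun x hx => ?_⟩
        rw [Finset.mem_singleton] at hx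
        rw [hx]
        exact h2.1.pos) 1 Y
    simp only [Finset.card_singleton] at hmain
    have hcount : (SY Y : ℝ) ≤ (((Finset.range Y).filter
        (fun k => ∀ r ∈ P3 z, (1 + k) % r ∉ ({0} : Finset ℕ))).card : ℝ) := by
      unfold SY
      norm_cast
      refine Finset.card_le_card_of_injOn (fun k => k - 1) ?_ ?_
      · intro k hk
        have hk' := Finset.mem_filter.mp (Finset.mem_coe.mp hk)
        have hk0 : 1 ≤ k := by
          rcases Nat.eq_zero_or_pos k with h0 | h0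
          · exact absurd (h0 ▸ dvd_zero 3) (hk'.2 3 Nat.prime_three (by norm_num))
          · exact h0
        have hkY := Finset.mem_range.mp hk'.1
        refine Finset.mem_coe.mpr (Finset.mem_filter.mpr ⟨Finset.mem_range.mpr (by
          show k - 1 < Y
          omega), fun r hr => ?_⟩)
        have h2 := (Finset.mem_filter.mp hr).2
        rw [Finset.mem_singleton]
        intro hcon
        have h5 : 1 + (k - 1) = k := by omega
        have h6 : (1 + (k - 1)) % r = 0 := hcon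
        rw [h5] at h6
        exact hk'.2 r h2.1 h2.2 (Nat.dvd_of_mod_eq_zero h6)
      · intro k hk l hl hkl
        have hk' := Finset.mem_filter.mp (Finset.mem_coe.mp hk)
        have hl' := Finset.mem_filter.mp (Finset.mem_coe.mp hl)
        have hk0 : 1 ≤ k := by
          rcases Nat.eq_zero_or_pos k with h0 | h0
          · exact absurd (h0 ▸ dvd_zero 3) (hk'.2 3 Nat.prime_three (by norm_num))
          · exact h0
        have hl0 : 1 ≤ l := by
          rcases Nat.eq_zero_or_pos l with h0 | h0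
          · exact absurd (h0 ▸ dvd_zero 3) (hl'.2 3 Nat.prime_three (by norm_num))
          · exact h0
        have : k - 1 = l - 1 := hkl
        omega
    have hup := (abs_le.mp hmain).2
    have hzK : (z : ℝ) ^ (K * 1) ≤ √Y := by
      calc (z : ℝ) ^ (K * 1) ≤ t ^ (K * 1) := pow_le_pow_left₀ (by positivity) hzt _
        _ = √Y := by
          rw [mul_one, ht, ← Real.rpow_natCast, ← Real.rpow_mul hY0.le, Real.sqrt_eq_rpow]
          congr 1
          field_simp
    have hsYL : √(Y : ℝ) * √(Real.log Y) ≤ Y := by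
      rw [← Real.sqrt_mul hY0.le]
      refine Real.sqrt_le_iff.mpr ⟨hY0.le, ?_⟩
      have := Real.log_le_sub_one_of_pos hY0
      nlinarith
    obtain ⟨V, hVdef⟩ : ∃ V : ℝ, V = ∏ r ∈ P3 z, (1 - ((1 : ℕ) : ℝ) / r) := ⟨_, rfl⟩
    rw [← hVdef] at hup hVle hV0
    have hVL : V * √(Real.log Y) ≤ Real.exp C0 * √(4 * K) := by
      rwa [le_div_iff₀ hsL] at hVle
    have hS1 : (SY Y : ℝ) ≤ (1 + K) * (Y * V) + √Y := by
      have h7 : 0 ≤ (Y : ℝ) * V := mul_nonneg hY0.le hV0
      have h8 : (K : ℝ) * (1 / 2) ^ 1 * (Y * V) ≤ K * (Y * V) := by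
        refine mul_le_mul_of_nonneg_right ?_ h7
        linarith
      linarith
    calc (SY Y : ℝ) * √(Real.log Y) ≤ ((1 + K) * (Y * V) + √Y) * √(Real.log Y) :=
          mul_le_mul_of_nonneg_right hS1 hsL.le
      _ = (1 + K) * Y * (V * √(Real.log Y)) + √Y * √(Real.log Y) := by ring
      _ ≤ (1 + K) * Y * (Real.exp C0 * √(4 * K)) + Y :=
          add_le_add (mul_le_mul_of_nonneg_left hVL (by positivity)) hsYL
      _ ≤ ((1 + K) * Real.exp C0 * √(4 * K) + 1 + √(2 * K * Real.log 4)) * Y := by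
          have h9 : 0 ≤ √(2 * K * Real.log 4) * Y := by positivity
          nlinarith

end Pool.Agent.Lib.DG
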