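import Pool.Agent.Lib.MP_1a9bf8_co.Defs
import Pool.Agent.Lib.MP_1a9bf8_co.UPPS

/-!
# UPP: Erdos 1946 / Landau: few norms in the grid
The values `m = nq (a-b)`, `a, b ∈ box n`, are sums of two squares `<= 2 n^2 = X`.  If `m >= 1` is a sum of two squares then
`m = r^2 k` with no prime factor `3 mod 4` of `k` (`Nat.eq_sq_add_sq_iff_eq_sq_mul`).  So the number is at most
`1 + sum over r of SY (X/r^2)`; `SY_le` for `r^2 <= n`, the trivial bound for the other `r`.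
-/

set_option autoImplicit false

namespace Pool.Agent.Lib.DG

open Finset

theorem upp_SY_triv (Y : ℕ) : SY Y ≤ Y := by
  classical
  unfold SY
  have h : ((Finset.range (Y + 1)).filter (fun k => ∀ p, p.Prime → p % 4 = 3 → ¬ p ∣ k)) ⊆
      Finset.Icc 1 Y := by
    intro k hk
    obtain ⟨h1, h2⟩ := mem_filter.1 hk
    rw [mem_range] at h1
    rw [mem_Icc]
    refine ⟨Nat.one_le_iff_ne_zero.2 ?_, by omega⟩
    rintro rfl
    exact h2 3 Nat.prime_three rfl (dvd_zero 3)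
  have h2 := card_le_card h
  rw [Nat.card_Icc] at h2
  exact h2

theorem upp_sq_mul {m : ℕ} (hm : m ≠ 0) (h : ∃ x y : ℕ, m = x ^ 2 + y ^ 2) :
    ∃ a b : ℕ, m = a ^ 2 * b ∧ a ≠ 0 ∧ ∀ p, p.Prime → p % 4 = 3 → ¬ p ∣ b := by
  obtain ⟨a, b, hab, hsq⟩ := Nat.eq_sq_add_sq_iff_eq_sq_mul.1 h
  refine ⟨a, b, hab, ?_, ?_⟩
  · rintro rfl
    apply hm
    rw [hab]
    simp
  · intro p hp hp3 hpb
    haveI : Fact p.Prime := ⟨hp⟩
    have h1 := ZMod.isSquare_neg_one_of_dvd hpb hsq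
    exact (ZMod.exists_sq_eq_neg_one_iff.1 h1) hp3

theorem upp_nq_le {n : ℕ} {a b : ℤ × ℤ} (ha : a ∈ box n) (hb : b ∈ box n) :
    nq (a - b) ≤ 2 * n ^ 2 := by
  unfold box at ha hb
  rw [mem_product, mem_Ico, mem_Ico] at ha hb
  have h1 : (a - b).1.natAbs ≤ n := by
    show (a.1 - b.1).natAbs ≤ n
    omega
  have h2 : (a - b).2.natAbs ≤ n := by
    show (a.2 - b.2).natAbs ≤ n
    omega
  unfold nq
  have h3 := Nat.pow_le_pow_left h1 2
  have h4 := Nat.pow_le_pow_left h2 2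
  omega

theorem upp_card (n : ℕ) :
    ((box n ×ˢ box n).image (fun x => nq (x.1 - x.2))).card ≤
      1 + ∑ r ∈ Ioo 0 (2 * n + 1), SY (2 * n ^ 2 / r ^ 2) := by
  classical
  have h : ((box n ×ˢ box n).image (fun x => nq (x.1 - x.2))) ⊆
      insert 0 ((Ioo 0 (2 * n + 1)).biUnion fun r =>
        ((Finset.range (2 * n ^ 2 / r ^ 2 + 1)).filter
          (fun k => ∀ p, p.Prime → p % 4 = 3 → ¬ p ∣ k)).image fun k => r ^ 2 * k) := by
    intro m hm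
    obtain ⟨⟨a, b⟩, hx, rfl⟩ := mem_image.1 hm
    obtain ⟨ha, hb⟩ := mem_product.1 hx
    have hle : nq (a - b) ≤ 2 * n ^ 2 := upp_nq_le ha hb
    rw [mem_insert]
    by_cases h0 : nq (a - b) = 0
    · exact Or.inl h0
    right
    obtain ⟨r, k, hrk, hr0, hk⟩ := upp_sq_mul h0 ⟨_, _, rfl⟩
    have hk0 : k ≠ 0 := by
      rintro rfl
      apply h0
      rw [hrk]
      simp
    have hr2 : 0 < r ^ 2 := by positivity
    rw [mem_biUnion]
    refine ⟨r, ?_, ?_⟩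
    · rw [mem_Ioo]
      refine ⟨Nat.pos_of_ne_zero hr0, ?_⟩
      by_contra hcon
      have h1 : 2 * n + 1 ≤ r := not_lt.1 hcon
      have h2 : (2 * n + 1) ^ 2 ≤ r ^ 2 := Nat.pow_le_pow_left h1 2
      have h3 : r ^ 2 * 1 ≤ r ^ 2 * k := Nat.mul_le_mul_left _ (Nat.one_le_iff_ne_zero.2 hk0)
      rw [← hrk] at h3
      nlinarith
    · rw [mem_image]
      refine ⟨k, mem_filter.2 ⟨mem_range.2 ?_, hk⟩, hrk.symm⟩
      rw [Nat.lt_succ_iff, Nat.le_div_iff_mul_le hr2, mul_comm, ← hrk]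
      exact hle
  refine (card_le_card h).trans ((card_insert_le _ _).trans ?_)
  rw [add_comm]
  refine Nat.add_le_add_left (card_biUnion_le.trans (sum_le_sum fun r _ => ?_)) 1
  exact card_image_le

theorem upp : ∃ C : ℝ, 0 < C ∧ ∀ n : ℕ, 2 ≤ n →
    (((box n ×ˢ box n).image (fun x => nq (x.1 - x.2))).card : ℝ) ≤
      C * (n : ℝ) ^ 2 / √(Real.log n) := by
  obtain ⟨C, hC, hSY⟩ := SY_le
  refine ⟨5 + 4 * C, by positivity, fun n hn => ?_⟩
  have hn2 : (2 : ℝ) ≤ n := by exact_mod_cast hn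
  have hlog : 0 < Real.log n := Real.log_pos (by linarith)
  have hsl : 0 < √(Real.log n) := Real.sqrt_pos.2 hlog
  have hlogn : Real.log n ≤ n := (Real.log_le_sub_one_of_pos (by linarith)).trans (by linarith)
  have hsn : √(Real.log n) ≤ √(n : ℝ) := Real.sqrt_le_sqrt hlogn
  have hsnpos : 0 < √(n : ℝ) := Real.sqrt_pos.2 (by linarith)
  have hsn2 : √(n : ℝ) ^ 2 = n := Real.sq_sqrt (by linarith)
  set R := Nat.sqrt n with hR
  have hcast : (((box n ×ˢ box n).image (fun x => nq (x.1 - x.2))).card : ℝ) ≤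
      1 + ∑ r ∈ Ioo 0 (2 * n + 1), (SY (2 * n ^ 2 / r ^ 2) : ℝ) := by
    exact_mod_cast upp_card n
  refine hcast.trans ?_
  -- the terms
  have hterm : ∀ r ∈ Ioo 0 (2 * n + 1), (SY (2 * n ^ 2 / r ^ 2) : ℝ) ≤
      (if r < R + 1 then C * (2 * (n : ℝ) ^ 2) / √(Real.log n) * ((r : ℝ) ^ 2)⁻¹ else 0) +
        (if R < r then 2 * (n : ℝ) ^ 2 * ((r : ℝ) ^ 2)⁻¹ else 0) := by
    intro r hr
    obtain ⟨hr0, hr1⟩ := mem_Ioo.1 hr
    have hr2 : (0 : ℝ) < (r : ℝ) ^ 2 := by positivity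
    have hdiv : ((2 * n ^ 2 / r ^ 2 : ℕ) : ℝ) ≤ 2 * (n : ℝ) ^ 2 * ((r : ℝ) ^ 2)⁻¹ := by
      have h1 : ((2 * n ^ 2 / r ^ 2 : ℕ) : ℝ) ≤ ((2 * n ^ 2 : ℕ) : ℝ) / ((r ^ 2 : ℕ) : ℝ) :=
        Nat.cast_div_le
      push_cast at h1
      rw [← div_eq_mul_inv]
      exact h1
    by_cases hrR : R < r
    · rw [if_neg (by omega), if_pos hrR, zero_add]
      refine le_trans ?_ hdiv
      exact_mod_cast upp_SY_triv _
    · rw [if_pos (by omega), if_neg hrR, add_zero]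
      have hrn : r ^ 2 ≤ n := by
        have h1 : r ≤ R := not_lt.1 hrR
        have h2 : r * r ≤ n := (Nat.mul_self_le_mul_self h1).trans (Nat.sqrt_le n)
        rw [sq]
        exact h2
      have hY : n ≤ 2 * n ^ 2 / r ^ 2 := by
        rw [Nat.le_div_iff_mul_le (by positivity)]
        nlinarith
      have hY2 : 2 ≤ 2 * n ^ 2 / r ^ 2 := hn.trans hY
      refine (hSY _ hY2).trans ?_
      have hYr : (n : ℝ) ≤ ((2 * n ^ 2 / r ^ 2 : ℕ) : ℝ) := by exact_mod_cast hY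
      have hsY : √(Real.log n) ≤ √(Real.log ((2 * n ^ 2 / r ^ 2 : ℕ) : ℝ)) :=
        Real.sqrt_le_sqrt (Real.log_le_log (by linarith) hYr)
      calc C * ((2 * n ^ 2 / r ^ 2 : ℕ) : ℝ) / √(Real.log ((2 * n ^ 2 / r ^ 2 : ℕ) : ℝ))
          ≤ C * ((2 * n ^ 2 / r ^ 2 : ℕ) : ℝ) / √(Real.log n) :=
            div_le_div_of_nonneg_left (by positivity) hsl hsY
        _ ≤ C * (2 * (n : ℝ) ^ 2 * ((r : ℝ) ^ 2)⁻¹) / √(Real.log n) := by
            apply div_le_div_of_nonneg_right _ hsl.le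
            exact mul_le_mul_of_nonneg_left hdiv hC.le
        _ = C * (2 * (n : ℝ) ^ 2) / √(Real.log n) * ((r : ℝ) ^ 2)⁻¹ := by ring
  have hs := sum_le_sum hterm
  rw [sum_add_distrib, ← sum_filter, ← sum_filter] at hs
  have hf1 : (Ioo 0 (2 * n + 1)).filter (fun r => r < R + 1) ⊆ Ioo 0 (R + 1) := by
    intro r hr
    obtain ⟨h1, h2⟩ := mem_filter.1 hr
    exact mem_Ioo.2 ⟨(mem_Ioo.1 h1).1, h2⟩
  have hf2 : (Ioo 0 (2 * n + 1)).filter (fun r => R < r) ⊆ Ioo R (2 * n + 1) := by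
    intro r hr
    obtain ⟨h1, h2⟩ := mem_filter.1 hr
    exact mem_Ioo.2 ⟨h2, (mem_Ioo.1 h1).2⟩
  have hs1 : ∑ r ∈ (Ioo 0 (2 * n + 1)).filter (fun r => r < R + 1),
      C * (2 * (n : ℝ) ^ 2) / √(Real.log n) * ((r : ℝ) ^ 2)⁻¹ ≤
      C * (2 * (n : ℝ) ^ 2) / √(Real.log n) * 2 := by
    refine (sum_le_sum_of_subset_of_nonneg hf1 fun r _ _ => by positivity).trans ?_
    rw [← mul_sum]
    refine mul_le_mul_of_nonneg_left ?_ (by positivity)
    have h := sum_Ioo_inv_sq_le (α := ℝ) 0 (R + 1)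
    simpa using h
  have hs2 : ∑ r ∈ (Ioo 0 (2 * n + 1)).filter (fun r => R < r),
      2 * (n : ℝ) ^ 2 * ((r : ℝ) ^ 2)⁻¹ ≤ 2 * (n : ℝ) ^ 2 * (2 / √(n : ℝ)) := by
    refine (sum_le_sum_of_subset_of_nonneg hf2 fun r _ _ => by positivity).trans ?_
    rw [← mul_sum]
    refine mul_le_mul_of_nonneg_left ?_ (by positivity)
    refine (sum_Ioo_inv_sq_le (α := ℝ) R (2 * n + 1)).trans ?_
    refine div_le_div_of_nonneg_left (by norm_num) hsnpos ?_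
    rw [Real.sqrt_le_left (by positivity)]
    have h1 : n < (R + 1) * (R + 1) := Nat.lt_succ_sqrt n
    have h2 : (n : ℝ) < ((R : ℝ) + 1) * (R + 1) := by exact_mod_cast h1
    nlinarith
  have h1 : (1 : ℝ) ≤ (n : ℝ) ^ 2 / √(Real.log n) := by
    rw [le_div_iff₀ hsl, one_mul]
    have h2 : √(n : ℝ) ≤ n := by
      rw [Real.sqrt_le_left (by linarith)]
      nlinarith
    nlinarith
  have h3 : 2 * (n : ℝ) ^ 2 * (2 / √(n : ℝ)) ≤ 4 * ((n : ℝ) ^ 2 / √(Real.log n)) := by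
    have h4 : (n : ℝ) ^ 2 / √(n : ℝ) ≤ (n : ℝ) ^ 2 / √(Real.log n) :=
      div_le_div_of_nonneg_left (by positivity) hsl hsn
    calc 2 * (n : ℝ) ^ 2 * (2 / √(n : ℝ)) = 4 * ((n : ℝ) ^ 2 / √(n : ℝ)) := by ring
      _ ≤ _ := by linarith
  calc 1 + ∑ r ∈ Ioo 0 (2 * n + 1), (SY (2 * n ^ 2 / r ^ 2) : ℝ)
      ≤ (n : ℝ) ^ 2 / √(Real.log n) + (C * (2 * (n : ℝ) ^ 2) / √(Real.log n) * 2 +
          4 * ((n : ℝ) ^ 2 / √(Real.log n))) := by linarith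
    _ = (5 + 4 * C) * (n : ℝ) ^ 2 / √(Real.log n) := by ring

end Pool.Agent.Lib.DG
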