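import Pool.Agent.Lib.MP_1a9bf8_co.Defs

/-!
# ESYM: elementary symmetric sums
`e_k <= S^k / k!` (from `k e_k = sum_p τ_p e_(k-1)(Q \ p) <= S e_(k-1)`, or induction on `Q`), and the sum over
all subsets is `prod (1 + τ) <= exp S`.
-/

set_option autoImplicit false

namespace Pool.Agent.Lib.DG

open Finset

theorem esym_pow {a b : ℝ} (ha : 0 ≤ a) (hb : 0 ≤ b) (k : ℕ) :
    a ^ (k + 1) + (k + 1) * (b * a ^ k) ≤ (a + b) ^ (k + 1) := by
  induction k with
  | zero => simp
  | succ k ih =>
    have h1 : (a ^ (k + 1) + (k + 1) * (b * a ^ k)) * (a + b) ≤ (a + b) ^ (k + 1) * (a + b) :=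
      mul_le_mul_of_nonneg_right ih (by linarith)
    have h2 : 0 ≤ ((k : ℝ) + 1) * (b * a ^ k) * b := by positivity
    have e1 : (a + b) ^ (k + 1 + 1) = (a + b) ^ (k + 1) * (a + b) := pow_succ _ _
    rw [e1]
    refine le_trans ?_ h1
    push_cast
    have e2 : a ^ (k + 1 + 1) = a ^ k * a * a := by ring
    have e3 : a ^ (k + 1) = a ^ k * a := by ring
    rw [e2, e3]
    nlinarith [h2]

theorem esym_step (Q : Finset ℕ) (τ : ℕ → ℝ) {a : ℕ} (ha : a ∉ Q) (k : ℕ) :
    ∑ m ∈ (insert a Q).powerset with m.card = k + 1, ∏ p ∈ m, τ p =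
      ∑ m ∈ Q.powerset with m.card = k + 1, ∏ p ∈ m, τ p +
        τ a * ∑ m ∈ Q.powerset with m.card = k, ∏ p ∈ m, τ p := by
  rw [sum_filter, sum_powerset_insert ha, sum_filter, sum_filter, mul_sum]
  congr 1
  refine sum_congr rfl fun m hm => ?_
  have ham : a ∉ m := fun h => ha (mem_powerset.1 hm h)
  rw [card_insert_of_notMem ham, prod_insert ham]
  by_cases h : m.card = k
  · rw [if_pos h, if_pos (by rw [h])]
  · rw [if_neg h, if_neg (by omega), mul_zero]

theorem esym_exact (Q : Finset ℕ) (τ : ℕ → ℝ) (h0 : ∀ p ∈ Q, 0 ≤ τ p) (k : ℕ) :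
    ∑ m ∈ Q.powerset with m.card = k, ∏ p ∈ m, τ p ≤ (∑ p ∈ Q, τ p) ^ k / k.factorial := by
  induction Q using Finset.induction_on generalizing k with
  | empty =>
    rcases Nat.eq_zero_or_pos k with rfl | hk
    · have e : (∅ : Finset ℕ).powerset.filter (fun m => m.card = 0) = {∅} := by
        ext m
        simp only [mem_filter, powerset_empty, mem_singleton, card_eq_zero, and_self]
      rw [e, sum_singleton]
      simp
    · have e : (∅ : Finset ℕ).powerset.filter (fun m => m.card = k) = ∅ := by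
        apply filter_eq_empty_iff.2
        intro m hm h
        rw [powerset_empty, mem_singleton] at hm
        rw [hm, card_empty] at h
        omega
      rw [e, sum_empty]
      positivity
  | insert a Q ha ih =>
    have h0' : ∀ p ∈ Q, 0 ≤ τ p := fun p hp => h0 p (mem_insert_of_mem hp)
    have hS0 : 0 ≤ ∑ p ∈ Q, τ p := sum_nonneg h0'
    have ha0 : 0 ≤ τ a := h0 a (mem_insert_self _ _)
    cases k with
    | zero =>
      have e : (insert a Q).powerset.filter (fun m => m.card = 0) = {∅} := by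
        ext m
        simp only [mem_filter, mem_powerset, card_eq_zero, mem_singleton]
        exact ⟨fun h => h.2, fun h => ⟨by rw [h]; exact empty_subset _, h⟩⟩
      rw [e, sum_singleton]
      simp
    | succ k =>
      rw [esym_step Q τ ha k, sum_insert ha, add_comm (τ a)]
      have h1 := ih h0' (k + 1)
      have h2 := ih h0' k
      have h3 := esym_pow hS0 ha0 k
      have hf : (0 : ℝ) < (k + 1).factorial := by exact_mod_cast Nat.factorial_pos _
      have hf' : (0 : ℝ) < k.factorial := by exact_mod_cast Nat.factorial_pos _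
      have hff : ((k + 1).factorial : ℝ) = (k + 1) * k.factorial := by
        rw [Nat.factorial_succ]; push_cast; ring
      calc ∑ m ∈ Q.powerset with m.card = k + 1, ∏ p ∈ m, τ p +
            τ a * ∑ m ∈ Q.powerset with m.card = k, ∏ p ∈ m, τ p
          ≤ (∑ p ∈ Q, τ p) ^ (k + 1) / (k + 1).factorial +
            τ a * ((∑ p ∈ Q, τ p) ^ k / k.factorial) :=
            add_le_add h1 (mul_le_mul_of_nonneg_left h2 ha0)
        _ = ((∑ p ∈ Q, τ p) ^ (k + 1) + (k + 1) * (τ a * (∑ p ∈ Q, τ p) ^ k)) /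
            (k + 1).factorial := by
            rw [hff]
            field_simp
        _ ≤ _ := div_le_div_of_nonneg_right h3 hf.le

theorem esym (Q : Finset ℕ) (τ : ℕ → ℝ) (h0 : ∀ p ∈ Q, 0 ≤ τ p) (S : ℝ) (hS : ∑ p ∈ Q, τ p ≤ S)
    (k : ℕ) : ∑ m ∈ Q.powerset with m.card = k, ∏ p ∈ m, τ p ≤ S ^ k / k.factorial := by
  refine (esym_exact Q τ h0 k).trans ?_
  apply div_le_div_of_nonneg_right _ (Nat.cast_nonneg _)
  exact pow_le_pow_left₀ (sum_nonneg h0) hS k

theorem allsub (Q E : Finset ℕ) (τ : ℕ → ℝ) (h0 : ∀ p ∈ Q, 0 ≤ τ p) (S : ℝ)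
    (hS : ∑ p ∈ Q, τ p ≤ S) :
    ∑ m ∈ Q.powerset with E ∩ Q ⊆ m, ∏ p ∈ m \ E, τ p ≤ Real.exp S := by
  have e1 : ∑ m ∈ Q.powerset with E ∩ Q ⊆ m, ∏ p ∈ m \ E, τ p =
      ∑ m ∈ (Q \ E).powerset, ∏ p ∈ m, τ p := by
    refine sum_nbij' (fun m => m \ E) (fun m => (E ∩ Q) ∪ m) ?_ ?_ ?_ ?_ ?_
    · intro m hm
      rw [mem_filter, mem_powerset] at hm
      exact mem_powerset.2 (sdiff_subset_sdiff hm.1 (Subset.refl _))
    · intro m hm
      rw [mem_powerset] at hm
      rw [mem_filter, mem_powerset]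
      exact ⟨union_subset inter_subset_right (hm.trans sdiff_subset), subset_union_left⟩
    · intro m hm
      rw [mem_filter, mem_powerset] at hm
      ext x
      simp only [mem_union, mem_inter, mem_sdiff]
      constructor
      · rintro (h | h)
        · exact hm.2 (mem_inter.2 h)
        · exact h.1
      · intro h
        by_cases hx : x ∈ E
        · exact Or.inl ⟨hx, hm.1 h⟩
        · exact Or.inr ⟨h, hx⟩
    · intro m hm
      rw [mem_powerset] at hm
      ext x
      simp only [mem_union, mem_inter, mem_sdiff]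
      constructor
      · rintro ⟨h | h, hx⟩
        · exact absurd h.1 hx
        · exact h
      · intro h
        exact ⟨Or.inr h, (mem_sdiff.1 (hm h)).2⟩
    · intro m _
      rfl
  rw [e1, ← prod_one_add]
  have h1 : ∏ p ∈ Q \ E, (1 + τ p) ≤ ∏ p ∈ Q \ E, Real.exp (τ p) := by
    refine prod_le_prod (fun p hp => ?_) fun p _ => ?_
    · have := h0 p (mem_sdiff.1 hp).1
      linarith
    · have := Real.add_one_le_exp (τ p)
      linarith
  refine h1.trans ?_
  rw [← Real.exp_sum]
  apply Real.exp_le_exp.2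
  refine le_trans ?_ hS
  exact sum_le_sum_of_subset_of_nonneg sdiff_subset fun p hp _ => h0 p hp

end Pool.Agent.Lib.DG
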