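import Pool.Agent.Lib.MP_1a9bf8_co.BONF
import Pool.Agent.Lib.MP_1a9bf8_co.ESYM

/-!
# AB: bounds for one block
All four are immediate from BONF and ESYM: `al τ ∅`, `be τ ∅` are the sums of BONF; the absolute values are
at most the sum over all subsets; if `E` does not meet `Q` then `m \ E = m` for `m ⊆ Q`.
-/

set_option autoImplicit false

namespace Pool.Agent.Lib.DG

open Finset

theorem ab_al_empty (Q : Finset ℕ) (τ : ℕ → ℝ) (β : ℕ) :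
    al τ ∅ Q β = ∑ m ∈ Q.powerset, av β m * ((-1) ^ m.card * ∏ p ∈ m, τ p) := by
  unfold al
  rw [filter_true_of_mem (fun m _ => by rw [empty_inter]; exact empty_subset _)]
  apply sum_congr rfl
  intro m _
  rw [sdiff_empty]

theorem ab_be_empty (Q : Finset ℕ) (τ : ℕ → ℝ) (β : ℕ) :
    be τ ∅ Q β = ∑ m ∈ Q.powerset, ev β m * ((-1) ^ m.card * ∏ p ∈ m, τ p) := by
  unfold be
  rw [filter_true_of_mem (fun m _ => by rw [empty_inter]; exact empty_subset _)]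
  apply sum_congr rfl
  intro m _
  rw [sdiff_empty]

theorem al_ge (Q : Finset ℕ) (τ : ℕ → ℝ) (h0 : ∀ p ∈ Q, 0 ≤ τ p) (h1 : ∀ p ∈ Q, τ p ≤ 1) (β : ℕ) :
    ∏ p ∈ Q, (1 - τ p) ≤ al τ ∅ Q β := by
  rw [ab_al_empty]
  exact bonf_upper Q τ h0 h1 β

theorem ab_av (β : ℕ) (m : Finset ℕ) : |av β m| ≤ 1 := by
  unfold av
  split_ifs <;> simp

theorem ab_ev (β : ℕ) (m : Finset ℕ) : |ev β m| ≤ 1 := by
  unfold ev
  split_ifs <;> simp

theorem be_abs (Q : Finset ℕ) (τ : ℕ → ℝ) (h0 : ∀ p ∈ Q, 0 ≤ τ p) (S : ℝ)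
    (hS : ∑ p ∈ Q, τ p ≤ S) (β : ℕ) :
    |be τ ∅ Q β| ≤ S ^ (2 * β + 1) / (2 * β + 1).factorial := by
  rw [ab_be_empty]
  refine (abs_sum_le_sum_abs _ _).trans ?_
  refine le_trans (le_of_eq ?_) (esym Q τ h0 S hS (2 * β + 1))
  rw [sum_filter]
  apply sum_congr rfl
  intro m hm
  have hp : 0 ≤ ∏ p ∈ m, τ p := prod_nonneg fun p hpm => h0 p (mem_powerset.1 hm hpm)
  unfold ev
  split_ifs
  · rw [one_mul, abs_mul, abs_pow, abs_neg, abs_one, one_pow, one_mul, abs_of_nonneg hp]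
  · rw [zero_mul, abs_zero]

theorem ab_gen (Q E : Finset ℕ) (τ : ℕ → ℝ) (h0 : ∀ p ∈ Q, 0 ≤ τ p) (S : ℝ)
    (hS : ∑ p ∈ Q, τ p ≤ S) (c : Finset ℕ → ℝ) (hc : ∀ m, |c m| ≤ 1) :
    |∑ m ∈ Q.powerset with E ∩ Q ⊆ m, c m * ((-1) ^ m.card * ∏ p ∈ m \ E, τ p)| ≤ Real.exp S := by
  refine (abs_sum_le_sum_abs _ _).trans ?_
  refine le_trans (sum_le_sum ?_) (allsub Q E τ h0 S hS)
  intro m hm
  have hmQ : m ⊆ Q := mem_powerset.1 (mem_filter.1 hm).1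
  have hp : 0 ≤ ∏ p ∈ m \ E, τ p := prod_nonneg fun p hpm => h0 p (hmQ (mem_sdiff.1 hpm).1)
  rw [abs_mul, abs_mul, abs_pow, abs_neg, abs_one, one_pow, one_mul, abs_of_nonneg hp]
  exact mul_le_of_le_one_left hp (hc m)

theorem al_abs (Q E : Finset ℕ) (τ : ℕ → ℝ) (h0 : ∀ p ∈ Q, 0 ≤ τ p) (S : ℝ)
    (hS : ∑ p ∈ Q, τ p ≤ S) (β : ℕ) :
    |al τ E Q β| ≤ Real.exp S ∧ |be τ E Q β| ≤ Real.exp S := by
  exact ⟨ab_gen Q E τ h0 S hS (av β) (ab_av β), ab_gen Q E τ h0 S hS (ev β) (ab_ev β)⟩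

theorem al_disj (Q E : Finset ℕ) (τ : ℕ → ℝ) (h : Disjoint E Q) (β : ℕ) :
    al τ E Q β = al τ ∅ Q β ∧ be τ E Q β = be τ ∅ Q β := by
  have key : ∀ c : Finset ℕ → ℝ,
      ∑ m ∈ Q.powerset with E ∩ Q ⊆ m, c m * ((-1) ^ m.card * ∏ p ∈ m \ E, τ p) =
      ∑ m ∈ Q.powerset, c m * ((-1) ^ m.card * ∏ p ∈ m, τ p) := by
    intro c
    rw [filter_true_of_mem (fun m _ => by
      rw [disjoint_iff_inter_eq_empty.1 h]; exact empty_subset _)]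
    apply sum_congr rfl
    intro m hm
    have hd : Disjoint m E := (h.mono_right (mem_powerset.1 hm)).symm
    rw [sdiff_eq_self_of_disjoint hd]
  constructor
  · rw [ab_al_empty]
    exact key (av β)
  · rw [ab_be_empty]
    exact key (ev β)

end Pool.Agent.Lib.DG
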