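import Pool.Agent.Lib.MP_1a9bf8_co.Defs

/-!
# BES: Bessel inequality for almost orthogonal vectors
`S = sum |c_ψ|^2`, `c_ψ = sum_z f v_ψ`.  `S = sum_z f(z) (sum_ψ conj c_ψ v_ψ(z)) <= |f| |sum conj c_ψ v_ψ|`, and
`|sum conj c_ψ v_ψ|^2 <= sum_(ψ,ψ') |c_ψ||c_ψ'||<v_ψ,v_ψ'>| <= R S` by `2ab <= a^2+b^2` and symmetry.
-/

set_option autoImplicit false

namespace Pool.Agent.Lib.DG

open Finset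

theorem bes {X Ψ : Type*} [DecidableEq Ψ] (Z : Finset X) (Ξ : Finset Ψ) (v : Ψ → X → ℂ)
    (f : X → ℂ) (R : ℝ) (hR0 : 0 ≤ R)
    (hR : ∀ ψ ∈ Ξ, ∑ ψ' ∈ Ξ, ‖∑ z ∈ Z, v ψ z * starRingEnd ℂ (v ψ' z)‖ ≤ R) :
    ∑ ψ ∈ Ξ, ‖∑ z ∈ Z, f z * v ψ z‖ ^ 2 ≤ R * ∑ z ∈ Z, ‖f z‖ ^ 2 := by
  set c : Ψ → ℂ := fun ψ => ∑ z ∈ Z, f z * v ψ z with hc
  set S : ℝ := ∑ ψ ∈ Ξ, ‖c ψ‖ ^ 2 with hS
  have hS0 : 0 ≤ S := sum_nonneg fun _ _ => sq_nonneg _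
  have hF0 : 0 ≤ ∑ z ∈ Z, ‖f z‖ ^ 2 := sum_nonneg fun _ _ => sq_nonneg _
  set b : X → ℂ := fun z => ∑ ψ ∈ Ξ, starRingEnd ℂ (c ψ) * v ψ z with hb
  have h1 : ((S : ℝ) : ℂ) = ∑ z ∈ Z, f z * b z := by
    have e1 : ∀ z ∈ Z, f z * b z = ∑ ψ ∈ Ξ, starRingEnd ℂ (c ψ) * (f z * v ψ z) := by
      intro z _
      rw [hb]
      simp only
      rw [mul_sum]
      exact sum_congr rfl fun ψ _ => by ring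
    rw [sum_congr rfl e1, sum_comm, hS]
    push_cast
    refine sum_congr rfl fun ψ _ => ?_
    rw [← mul_sum]
    change ((‖c ψ‖ : ℝ) : ℂ) ^ 2 = starRingEnd ℂ (c ψ) * c ψ
    rw [Complex.conj_mul']
  have h2 : S ≤ ∑ z ∈ Z, ‖f z‖ * ‖b z‖ := by
    have e1 : S = ‖((S : ℝ) : ℂ)‖ := by
      rw [Complex.norm_real, Real.norm_of_nonneg hS0]
    rw [e1, h1]
    refine (norm_sum_le _ _).trans (sum_le_sum fun z _ => ?_)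
    rw [norm_mul]
  have h3 : S ^ 2 ≤ (∑ z ∈ Z, ‖f z‖ ^ 2) * ∑ z ∈ Z, ‖b z‖ ^ 2 :=
    le_trans (pow_le_pow_left₀ hS0 h2 2) (sum_mul_sq_le_sq_mul_sq _ _ _)
  have h4 : ∑ z ∈ Z, ‖b z‖ ^ 2 ≤ R * S := by
    have e1 : ((∑ z ∈ Z, ‖b z‖ ^ 2 : ℝ) : ℂ) = ∑ ψ ∈ Ξ, ∑ ψ' ∈ Ξ,
        starRingEnd ℂ (c ψ) * c ψ' * ∑ z ∈ Z, v ψ z * starRingEnd ℂ (v ψ' z) := by
      push_cast
      have e2 : ∀ z ∈ Z, ((‖b z‖ : ℝ) : ℂ) ^ 2 = ∑ ψ ∈ Ξ, ∑ ψ' ∈ Ξ,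
          starRingEnd ℂ (c ψ) * c ψ' * (v ψ z * starRingEnd ℂ (v ψ' z)) := by
        intro z _
        rw [← Complex.mul_conj', hb]
        simp only
        rw [map_sum, sum_mul_sum]
        refine sum_congr rfl fun ψ _ => sum_congr rfl fun ψ' _ => ?_
        rw [map_mul, Complex.conj_conj]
        ring
      rw [sum_congr rfl e2, sum_comm]
      refine sum_congr rfl fun ψ _ => ?_
      rw [sum_comm]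
      exact sum_congr rfl fun ψ' _ => (mul_sum _ _ _).symm
    have e3 : ∑ z ∈ Z, ‖b z‖ ^ 2 ≤ ∑ ψ ∈ Ξ, ∑ ψ' ∈ Ξ,
        ‖c ψ‖ * ‖c ψ'‖ * ‖∑ z ∈ Z, v ψ z * starRingEnd ℂ (v ψ' z)‖ := by
      have e4 : ∑ z ∈ Z, ‖b z‖ ^ 2 = ‖((∑ z ∈ Z, ‖b z‖ ^ 2 : ℝ) : ℂ)‖ := by
        rw [Complex.norm_real, Real.norm_of_nonneg (sum_nonneg fun _ _ => sq_nonneg _)]
      rw [e4, e1]
      refine (norm_sum_le _ _).trans (sum_le_sum fun ψ _ => ?_)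
      refine (norm_sum_le _ _).trans (sum_le_sum fun ψ' _ => ?_)
      rw [norm_mul, norm_mul, Complex.norm_conj]
    refine e3.trans ?_
    have hsym : ∀ ψ ψ' : Ψ, ‖∑ z ∈ Z, v ψ z * starRingEnd ℂ (v ψ' z)‖ =
        ‖∑ z ∈ Z, v ψ' z * starRingEnd ℂ (v ψ z)‖ := by
      intro ψ ψ'
      rw [← Complex.norm_conj, map_sum]
      congr 1
      refine sum_congr rfl fun z _ => ?_
      rw [map_mul, Complex.conj_conj]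
      ring
    have e5 : ∑ ψ ∈ Ξ, ∑ ψ' ∈ Ξ,
        ‖c ψ‖ * ‖c ψ'‖ * ‖∑ z ∈ Z, v ψ z * starRingEnd ℂ (v ψ' z)‖ ≤
        ∑ ψ ∈ Ξ, ∑ ψ' ∈ Ξ, ((1 / 2) * (‖c ψ‖ ^ 2 * ‖∑ z ∈ Z, v ψ z * starRingEnd ℂ (v ψ' z)‖) +
          (1 / 2) * (‖c ψ'‖ ^ 2 * ‖∑ z ∈ Z, v ψ' z * starRingEnd ℂ (v ψ z)‖)) := by
      refine sum_le_sum fun ψ _ => sum_le_sum fun ψ' _ => ?_
      rw [hsym ψ' ψ]
      have g1 : 0 ≤ ‖∑ z ∈ Z, v ψ z * starRingEnd ℂ (v ψ' z)‖ := norm_nonneg _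
      nlinarith [mul_nonneg (sq_nonneg (‖c ψ‖ - ‖c ψ'‖)) g1]
    refine e5.trans ?_
    simp only [sum_add_distrib]
    have e6 : ∑ ψ ∈ Ξ, ∑ ψ' ∈ Ξ,
        (1 / 2) * (‖c ψ'‖ ^ 2 * ‖∑ z ∈ Z, v ψ' z * starRingEnd ℂ (v ψ z)‖) =
        ∑ ψ ∈ Ξ, ∑ ψ' ∈ Ξ,
        (1 / 2) * (‖c ψ‖ ^ 2 * ‖∑ z ∈ Z, v ψ z * starRingEnd ℂ (v ψ' z)‖) := sum_comm
    rw [e6]
    have e7 : ∑ ψ ∈ Ξ, ∑ ψ' ∈ Ξ,
        (1 / 2) * (‖c ψ‖ ^ 2 * ‖∑ z ∈ Z, v ψ z * starRingEnd ℂ (v ψ' z)‖) ≤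
        ∑ ψ ∈ Ξ, (1 / 2) * (‖c ψ‖ ^ 2 * R) := by
      refine sum_le_sum fun ψ hψ => ?_
      rw [← mul_sum, ← mul_sum]
      exact mul_le_mul_of_nonneg_left (mul_le_mul_of_nonneg_left (hR ψ hψ) (sq_nonneg _))
        (by norm_num)
    have e8 : ∑ ψ ∈ Ξ, (1 / 2) * (‖c ψ‖ ^ 2 * R) = (1 / 2) * (S * R) := by
      rw [← mul_sum, ← sum_mul]
    rw [e8] at e7
    linarith
  by_cases hS1 : S = 0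
  · rw [hS1]
    exact mul_nonneg hR0 hF0
  · have hSp : 0 < S := lt_of_le_of_ne hS0 (Ne.symm hS1)
    have h5 : S * S ≤ S * (R * ∑ z ∈ Z, ‖f z‖ ^ 2) := by
      have h6 := mul_le_mul_of_nonneg_left h4 hF0
      nlinarith
    exact le_of_mul_le_mul_left h5 hSp

end Pool.Agent.Lib.DG
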