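import Pool.Agent.Lib.MP_1a9bf8_co.Defs

/-!
# BIG: from the sieve function to the number of representations
Split the primes `p | m`, `p = 1 mod 4`, `m = nq z`: `p <= w`: `v_p + 1 <= K`; `w < p <= y`: `(v_p + 1)(1 - T0 p z)` is `1` if
`v_p = 1` and `0` if `v_p >= 2` (and `1 - T0 p z = 1` for `v_p = 0`); `p > y`: `v_p + 1 <= 2^(v_p)` and
`(y+1)^(sum v_p) <= m <= 2 N^2 < (y+1)^(2s+1)`.
-/

set_option autoImplicit false

namespace Pool.Agent.Lib.DG

open Finset

/-- small primes -/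
theorem big_small (m K w : ℕ) (hK : 1 ≤ K) (hm : m ≠ 0) (S : Finset ℕ)
    (hS : ∀ p ∈ S, p.Prime ∧ p ≤ w ∧ ¬ p ^ K ∣ m) :
    ∏ p ∈ S, ((m.factorization p : ℝ) + 1) ≤ (K : ℝ) ^ w := by
  have h1 : ∀ p ∈ S, ((m.factorization p : ℝ) + 1) ≤ (K : ℝ) := by
    intro p hp
    obtain ⟨hpp, -, h3⟩ := hS p hp
    have h4 : m.factorization p < K := by
      by_contra h
      exact h3 ((hpp.pow_dvd_iff_le_factorization hm).2 (not_lt.1 h))
    have h5 : m.factorization p + 1 ≤ K := h4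
    exact_mod_cast h5
  have h2 : S.card ≤ w := by
    have h3 : S ⊆ Finset.Icc 1 w := by
      intro p hp
      obtain ⟨hpp, h4, -⟩ := hS p hp
      exact Finset.mem_Icc.2 ⟨hpp.one_lt.le, h4⟩
    have := Finset.card_le_card h3
    rwa [Nat.card_Icc, Nat.add_sub_cancel] at this
  have hK1 : (1 : ℝ) ≤ K := by exact_mod_cast hK
  calc ∏ p ∈ S, ((m.factorization p : ℝ) + 1) ≤ ∏ p ∈ S, (K : ℝ) :=
        Finset.prod_le_prod (fun p _ => by positivity) h1
    _ = (K : ℝ) ^ S.card := by rw [Finset.prod_const]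
    _ ≤ (K : ℝ) ^ w := pow_le_pow_right₀ hK1 h2

/-- large primes -/
theorem big_large (m y r : ℕ) (hm : m ≠ 0) (hmy : m < (y + 1) ^ (r + 1)) (hy : 1 ≤ y)
    (S : Finset ℕ) (hS : S ⊆ m.primeFactors) (hS2 : ∀ p ∈ S, y < p) :
    ∏ p ∈ S, ((m.factorization p : ℝ) + 1) ≤ 2 ^ r := by
  have h1 : ∏ p ∈ S, (y + 1) ^ m.factorization p ≤ m := by
    calc ∏ p ∈ S, (y + 1) ^ m.factorization p ≤ ∏ p ∈ S, p ^ m.factorization p :=
          Finset.prod_le_prod' fun p hp => Nat.pow_le_pow_left (hS2 p hp) _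
      _ ≤ ∏ p ∈ m.primeFactors, p ^ m.factorization p :=
          Finset.prod_le_prod_of_subset_of_one_le' hS fun p hp _ =>
            Nat.one_le_pow _ _ (Nat.prime_of_mem_primeFactors hp).pos
      _ = m := Nat.prod_factorization_pow_eq_self hm
  rw [Finset.prod_pow_eq_pow_sum] at h1
  have h2 : ∑ p ∈ S, m.factorization p < r + 1 :=
    (Nat.pow_lt_pow_iff_right (by omega : 1 < y + 1)).1 (h1.trans_lt hmy)
  calc ∏ p ∈ S, ((m.factorization p : ℝ) + 1) ≤ ∏ p ∈ S, (2 : ℝ) ^ m.factorization p := by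
        refine Finset.prod_le_prod (fun p _ => by positivity) fun p _ => ?_
        have h3 : m.factorization p + 1 ≤ 2 ^ m.factorization p := Nat.lt_two_pow_self
        exact_mod_cast h3
    _ = (2 : ℝ) ^ ∑ p ∈ S, m.factorization p := by rw [Finset.prod_pow_eq_pow_sum]
    _ ≤ 2 ^ r := pow_le_pow_right₀ one_le_two (by omega)

/-- middle primes -/
theorem big_mid (w y : ℕ) (z : ℤ × ℤ) (hz0 : nq z ≠ 0) :
    (∏ p ∈ (PP w y).filter (fun p => p ∣ nq z), (((nq z).factorization p : ℝ) + 1)) *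
      ∏ p ∈ PP w y, (1 - T0 p z) ≤ 1 ∧
    0 ≤ (∏ p ∈ (PP w y).filter (fun p => p ∣ nq z), (((nq z).factorization p : ℝ) + 1)) *
      ∏ p ∈ PP w y, (1 - T0 p z) := by
  rw [Finset.prod_filter, ← Finset.prod_mul_distrib]
  have key : ∀ p ∈ PP w y, 0 ≤ (if p ∣ nq z then ((nq z).factorization p : ℝ) + 1 else 1) *
      (1 - T0 p z) ∧ (if p ∣ nq z then ((nq z).factorization p : ℝ) + 1 else 1) *
      (1 - T0 p z) ≤ 1 := by
    intro p hp
    have hpp : p.Prime := by
      unfold PP at hp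
      exact (Finset.mem_filter.1 hp).2.1
    unfold T0
    by_cases h1 : p ^ 2 ∣ nq z
    · rw [if_pos h1]
      norm_num
    · rw [if_neg h1]
      by_cases h2 : p ∣ nq z
      · rw [if_pos h2, if_pos h2]
        have h3 : (nq z).factorization p ≤ 1 := by
          by_contra h
          exact h1 ((hpp.pow_dvd_iff_le_factorization hz0).2 (by omega))
        have h4 : ((nq z).factorization p : ℝ) ≤ 1 := by exact_mod_cast h3
        have h5 : (0 : ℝ) ≤ ((nq z).factorization p : ℝ) := by positivity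
        constructor
        · nlinarith
        · nlinarith
      · rw [if_neg h2, if_neg h2]
        norm_num
  exact ⟨Finset.prod_le_one (fun p hp => (key p hp).1) fun p hp => (key p hp).2,
    Finset.prod_nonneg fun p hp => (key p hp).1⟩

theorem big (K w y s N : ℕ) (hK : 1 ≤ K) (hN : N < (y + 1) ^ s) (hy : 1 ≤ y) (z : ℤ × ℤ)
    (hz0 : nq z ≠ 0) (hz : nq z ≤ 2 * N ^ 2)
    (hs : ∀ p : ℕ, p.Prime → p ≤ w → p % 4 = 1 → ¬ p ^ K ∣ nq z) :
    (∏ p ∈ (nq z).primeFactors.filter (fun p => p % 4 = 1), (((nq z).factorization p : ℝ) + 1)) *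
      ∏ p ∈ PP w y, (1 - T0 p z) ≤ (K : ℝ) ^ w * 2 ^ (2 * s) := by
  classical
  set S := (nq z).primeFactors.filter (fun p => p % 4 = 1) with hS
  have e1 := Finset.prod_filter_mul_prod_filter_not S (fun p => p ≤ w)
    (fun p => ((nq z).factorization p : ℝ) + 1)
  have e2 := Finset.prod_filter_mul_prod_filter_not (S.filter (fun p => ¬ p ≤ w)) (fun p => p ≤ y)
    (fun p => ((nq z).factorization p : ℝ) + 1)
  have hM : (S.filter (fun p => ¬ p ≤ w)).filter (fun p => p ≤ y) =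
      (PP w y).filter (fun p => p ∣ nq z) := by
    ext p
    unfold PP
    simp only [hS, Finset.mem_filter, Nat.mem_primeFactors, Finset.mem_Ioc, not_le]
    tauto
  rw [hM] at e2
  have h1 : ∏ p ∈ S.filter (fun p => p ≤ w), (((nq z).factorization p : ℝ) + 1) ≤ (K : ℝ) ^ w := by
    refine big_small _ K w hK hz0 _ fun p hp => ?_
    rw [Finset.mem_filter, hS, Finset.mem_filter] at hp
    exact ⟨Nat.prime_of_mem_primeFactors hp.1.1, hp.2,
      hs p (Nat.prime_of_mem_primeFactors hp.1.1) hp.2 hp.1.2⟩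
  have hlt : nq z < (y + 1) ^ (2 * s + 1) := by
    have h3 : N ^ 2 < ((y + 1) ^ s) ^ 2 := Nat.pow_lt_pow_left hN two_ne_zero
    have h4 : (y + 1) ^ (2 * s + 1) = ((y + 1) ^ s) ^ 2 * (y + 1) := by
      rw [← pow_mul, ← pow_succ]
      congr 1
      ring
    rw [h4]
    have h5 : 2 ≤ y + 1 := by omega
    nlinarith
  have h2 : ∏ p ∈ (S.filter (fun p => ¬ p ≤ w)).filter (fun p => ¬ p ≤ y),
      (((nq z).factorization p : ℝ) + 1) ≤ 2 ^ (2 * s) := by
    refine big_large _ y (2 * s) hz0 hlt hy _ ?_ ?_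
    · intro p hp
      rw [Finset.mem_filter, Finset.mem_filter, hS, Finset.mem_filter] at hp
      exact hp.1.1.1
    · intro p hp
      rw [Finset.mem_filter] at hp
      exact not_le.1 hp.2
  obtain ⟨h3, h4⟩ := big_mid w y z hz0
  rw [← e1, ← e2]
  set a := ∏ p ∈ S.filter (fun p => p ≤ w), (((nq z).factorization p : ℝ) + 1) with ha
  set b := ∏ p ∈ (PP w y).filter (fun p => p ∣ nq z), (((nq z).factorization p : ℝ) + 1) with hb
  set c := ∏ p ∈ (S.filter (fun p => ¬ p ≤ w)).filter (fun p => ¬ p ≤ y),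
      (((nq z).factorization p : ℝ) + 1) with hc
  set d := ∏ p ∈ PP w y, (1 - T0 p z) with hd
  have ha0 : 0 ≤ a := Finset.prod_nonneg fun p _ => by positivity
  have hc0 : 0 ≤ c := Finset.prod_nonneg fun p _ => by positivity
  calc a * (b * c) * d = a * c * (b * d) := by ring
    _ ≤ a * c * 1 := mul_le_mul_of_nonneg_left h3 (mul_nonneg ha0 hc0)
    _ = a * c := mul_one _
    _ ≤ (K : ℝ) ^ w * 2 ^ (2 * s) :=
        mul_le_mul h1 h2 hc0 (by positivity)

end Pool.Agent.Lib.DG
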