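import Pool.Agent.Lib.MP_1a9bf8_co.Defs

/-!
# CNTX: number of characters of small order
`G` is generated by `g1, g2`, so a character is determined by `(ψ g1, ψ g2)`; if `ψ (m^2 g) = 1` for all `g` these are
`m^2`-th roots of unity: at most `m^4` characters for each `m <= D`.
-/

set_option autoImplicit false

namespace Pool.Agent.Lib.DG

open Finset

theorem cntx {G : Type*} [AddCommGroup G] [Fintype G] [DecidableEq G] (g1 g2 : G)
    (hgen : ∀ g : G, ∃ x y : ℤ, g = x • g1 + y • g2) (D : ℕ) (Ξ : Finset (AddChar G ℂ))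
    (hΞ : ∀ ψ ∈ Ξ, ∃ m : ℕ, 1 ≤ m ∧ m ≤ D ∧ ∀ g : G, ψ ((m ^ 2) • g) = 1) :
    Ξ.card ≤ D ^ 5 := by
  classical
  have hsub : Ξ ⊆ (Finset.Icc 1 D).biUnion
      (fun m => Ξ.filter (fun ψ => ∀ g : G, ψ ((m ^ 2) • g) = 1)) := by
    intro ψ hψ
    obtain ⟨m, h1, h2, h3⟩ := hΞ ψ hψ
    exact Finset.mem_biUnion.2 ⟨m, Finset.mem_Icc.2 ⟨h1, h2⟩, Finset.mem_filter.2 ⟨hψ, h3⟩⟩
  refine (Finset.card_le_card hsub).trans (Finset.card_biUnion_le.trans ?_)
  have hm : ∀ m ∈ Finset.Icc 1 D,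
      (Ξ.filter (fun ψ => ∀ g : G, ψ ((m ^ 2) • g) = 1)).card ≤ D ^ 4 := by
    intro m hm
    obtain ⟨h1, h2⟩ := Finset.mem_Icc.1 hm
    have hpos : 0 < m ^ 2 := by positivity
    have hroot : ∀ g : G, ∀ ψ ∈ Ξ.filter (fun ψ => ∀ g : G, ψ ((m ^ 2) • g) = 1),
        ψ g ∈ Polynomial.nthRootsFinset (m ^ 2) (1 : ℂ) := by
      intro g ψ hψ
      rw [Polynomial.mem_nthRootsFinset hpos]
      rw [← AddChar.map_nsmul_eq_pow]
      exact (Finset.mem_filter.1 hψ).2 g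
    have hcard : (Polynomial.nthRootsFinset (m ^ 2) (1 : ℂ)).card ≤ m ^ 2 := by
      unfold Polynomial.nthRootsFinset
      exact (Multiset.toFinset_card_le _).trans (Polynomial.card_nthRoots _ _)
    have hinj : (Ξ.filter (fun ψ => ∀ g : G, ψ ((m ^ 2) • g) = 1)).card ≤
        (Polynomial.nthRootsFinset (m ^ 2) (1 : ℂ) ×ˢ
          Polynomial.nthRootsFinset (m ^ 2) (1 : ℂ)).card := by
      refine Finset.card_le_card_of_injOn (fun ψ => (ψ g1, ψ g2)) ?_ ?_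
      · intro ψ hψ
        exact Finset.mem_coe.2 (Finset.mem_product.2
          ⟨hroot g1 ψ (Finset.mem_coe.1 hψ), hroot g2 ψ (Finset.mem_coe.1 hψ)⟩)
      · intro ψ _ ψ' _ h
        have e1 : ψ g1 = ψ' g1 := congrArg Prod.fst h
        have e2 : ψ g2 = ψ' g2 := congrArg Prod.snd h
        ext g
        obtain ⟨x, y, rfl⟩ := hgen g
        rw [AddChar.map_add_eq_mul, AddChar.map_add_eq_mul, AddChar.map_zsmul_eq_zpow,
          AddChar.map_zsmul_eq_zpow, AddChar.map_zsmul_eq_zpow, AddChar.map_zsmul_eq_zpow, e1, e2]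
    refine hinj.trans ?_
    rw [Finset.card_product]
    calc _ ≤ m ^ 2 * m ^ 2 := Nat.mul_le_mul hcard hcard
      _ = m ^ 4 := by ring
      _ ≤ D ^ 4 := Nat.pow_le_pow_left h2 4
  calc _ ≤ ∑ _m ∈ Finset.Icc 1 D, D ^ 4 := Finset.sum_le_sum hm
    _ = D ^ 5 := by
      rw [Finset.sum_const, Nat.card_Icc, smul_eq_mul]
      simp only [Nat.add_sub_cancel]
      ring

end Pool.Agent.Lib.DG
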