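import Pool.Agent.Lib.MP_1a9bf8_co.Defs

/-!
# GEO: geometric sums
If `α ≠ 1`, `α^k = 1`, then sums over `k` consecutive exponents vanish, so `|sum_(x<N) α^x| <= k`; the other sum
is at most `N`.
-/

set_option autoImplicit false

namespace Pool.Agent.Lib.DG

open Finset

theorem geo_norm_one {k : ℕ} (hk : 1 ≤ k) {α : ℂ} (hα : α ^ k = 1) : ‖α‖ = 1 :=
  Complex.norm_eq_one_of_pow_eq_one hα (by omega)

theorem geo_triv (N : ℕ) {k : ℕ} (hk : 1 ≤ k) {α : ℂ} (hα : α ^ k = 1) :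
    ‖∑ x ∈ range N, α ^ x‖ ≤ N := by
  refine (norm_sum_le _ _).trans ?_
  rw [sum_congr rfl fun x _ => by rw [norm_pow, geo_norm_one hk hα, one_pow]]
  simp

theorem geo_one (N : ℕ) {k : ℕ} (hk : 1 ≤ k) {α : ℂ} (hα : α ^ k = 1) (h : α ≠ 1) :
    ‖∑ x ∈ range N, α ^ x‖ ≤ k := by
  have h1 : α - 1 ≠ 0 := sub_ne_zero.2 h
  have h2 : ∑ x ∈ range N, α ^ x = ∑ x ∈ range (N % k), α ^ x := by
    rw [geom_sum_eq h, geom_sum_eq h]
    congr 2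
    conv_lhs => rw [← Nat.div_add_mod N k]
    rw [pow_add, pow_mul, hα, one_pow, one_mul]
  rw [h2]
  refine (geo_triv _ hk hα).trans ?_
  exact_mod_cast (Nat.mod_lt N (by omega)).le

theorem geo (N k : ℕ) (hk : 1 ≤ k) (α β : ℂ) (hα : α ^ k = 1) (hβ : β ^ k = 1)
    (h : ¬ (α = 1 ∧ β = 1)) :
    ‖∑ x ∈ range N, ∑ y ∈ range N, α ^ x * β ^ y‖ ≤ (N : ℝ) * k := by
  rw [← sum_mul_sum, norm_mul]
  by_cases h1 : α = 1
  · have h2 : β ≠ 1 := fun h3 => h ⟨h1, h3⟩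
    exact mul_le_mul (geo_triv N hk hα) (geo_one N hk hβ h2) (norm_nonneg _) (Nat.cast_nonneg _)
  · rw [mul_comm]
    exact mul_le_mul (geo_triv N hk hβ) (geo_one N hk hα h1) (norm_nonneg _) (Nat.cast_nonneg _)

end Pool.Agent.Lib.DG
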