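import Pool.Agent.Lib.MP_1a9bf8_co.BES
import Pool.Agent.Lib.MP_1a9bf8_co.GEO
import Pool.Agent.Lib.MP_1a9bf8_co.CNTX

/-!
# BIL: bilinear sums over dense subsets of the box
`F(g) = sum_ψ Fh(ψ) ψ(-g)`, `Fh(ψ) = (sum_h F(h) ψ(h)) / |G|` (Fourier inversion / orthogonality of characters:
AddChar.sum_eq_ite, AddChar.sum_apply_eq_ite, card of AddChar).  So the double sum is
`sum_ψ Fh(ψ) (sum_a ψ(-φ a)) (sum_b ψ(φ b))`; `ψ = 0` is the main term; the other `ψ` with `Fh ≠ 0` form a set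
`Ξ` as in CNTX.  BES for `Z = box N` with `R = 2 N^2`: the diagonal gives `N^2`, the other entries are
`<= N D^4` by GEO (`k = (m m')^2`, `ψ/ψ' ≠ 1` hence not both values at `g1, g2` are `1`), and there are at most
`D^5` of them, `D^9 <= N`.  Cauchy-Schwarz.
-/

set_option autoImplicit false

namespace Pool.Agent.Lib.DG

open Finset

theorem bil_inv {G : Type*} [AddCommGroup G] [Fintype G] [DecidableEq G] (F : G → ℝ) (h : G) :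
    ((F h : ℝ) : ℂ) =
      ∑ ψ : AddChar G ℂ, ((∑ g : G, (F g : ℂ) * ψ g) / Fintype.card G) * ψ (-h) := by
  have hc : (Fintype.card G : ℂ) ≠ 0 := by exact_mod_cast Fintype.card_ne_zero
  have e1 : ∑ ψ : AddChar G ℂ, ((∑ g : G, (F g : ℂ) * ψ g) / Fintype.card G) * ψ (-h) =
      ∑ g : G, (F g : ℂ) / Fintype.card G * ∑ ψ : AddChar G ℂ, ψ (g - h) := by
    simp_rw [sum_div, sum_mul, mul_sum]
    rw [sum_comm]
    refine sum_congr rfl fun g _ => sum_congr rfl fun ψ _ => ?_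
    rw [sub_eq_add_neg, AddChar.map_add_eq_mul]
    ring
  rw [e1, sum_congr rfl fun g _ => by rw [AddChar.sum_apply_eq_ite]]
  rw [sum_eq_single h]
  · rw [sub_self, if_pos rfl]
    field_simp
  · intro g _ hg
    rw [if_neg (sub_ne_zero.2 hg), mul_zero]
  · intro hh; exact absurd (mem_univ h) hh

/-- the homomorphism -/
def phi {G : Type*} [AddCommGroup G] (g1 g2 : G) (z : ℤ × ℤ) : G := z.1 • g1 + z.2 • g2

theorem phi_sub {G : Type*} [AddCommGroup G] (g1 g2 : G) (a b : ℤ × ℤ) :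
    phi g1 g2 (a - b) = phi g1 g2 a - phi g1 g2 b := by
  simp only [phi, Prod.fst_sub, Prod.snd_sub, sub_smul]
  abel

theorem bil_off {G : Type*} [AddCommGroup G] [Fintype G] [DecidableEq G] (g1 g2 : G)
    (hgen : ∀ g : G, ∃ x y : ℤ, g = x • g1 + y • g2) (D N : ℕ)
    (ψ ψ' : AddChar G ℂ) (hne : ψ ≠ ψ')
    (h1 : ∃ m : ℕ, 1 ≤ m ∧ m ≤ D ∧ ∀ g : G, ψ ((m ^ 2) • g) = 1)
    (h2 : ∃ m : ℕ, 1 ≤ m ∧ m ≤ D ∧ ∀ g : G, ψ' ((m ^ 2) • g) = 1) :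
    ‖∑ z ∈ box N, ψ (phi g1 g2 z) * starRingEnd ℂ (ψ' (phi g1 g2 z))‖ ≤ (N : ℝ) * D ^ 4 := by
  obtain ⟨m, m1, mD, hm⟩ := h1
  obtain ⟨m', m1', mD', hm'⟩ := h2
  set χ : AddChar G ℂ := ψ - ψ' with hχ
  have hχv : ∀ g : G, χ g = ψ g * starRingEnd ℂ (ψ' g) := by
    intro g
    rw [hχ, AddChar.sub_apply, AddChar.map_neg_eq_conj]
  set k : ℕ := (m * m') ^ 2 with hk
  have hk1 : 1 ≤ k := Nat.one_le_pow _ _ (Nat.mul_pos m1 m1')
  have hpow : ∀ g : G, χ g ^ k = 1 := by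
    intro g
    have e1 : ψ (k • g) = 1 := by
      rw [hk, mul_pow, mul_smul]
      exact hm _
    have e2 : ψ' (k • g) = 1 := by
      rw [hk, mul_pow, mul_comm, mul_smul]
      exact hm' _
    rw [← AddChar.map_nsmul_eq_pow, hχv, e1, e2]
    simp
  have hval : ∀ z : ℤ × ℤ, χ (phi g1 g2 z) = χ g1 ^ z.1 * χ g2 ^ z.2 := by
    intro z
    rw [phi, AddChar.map_add_eq_mul, AddChar.map_zsmul_eq_zpow, AddChar.map_zsmul_eq_zpow]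
  have hnot : ¬ (χ g1 = 1 ∧ χ g2 = 1) := by
    rintro ⟨e1, e2⟩
    apply hne
    apply sub_eq_zero.1
    rw [← hχ]
    ext g
    obtain ⟨x, y, rfl⟩ := hgen g
    have := hval (x, y)
    rw [phi] at this
    simp only at this
    rw [this, e1, e2]
    simp
  have hsum : ∑ z ∈ box N, ψ (phi g1 g2 z) * starRingEnd ℂ (ψ' (phi g1 g2 z)) =
      ∑ x ∈ range N, ∑ y ∈ range N, χ g1 ^ x * χ g2 ^ y := by
    rw [sum_congr rfl fun z _ => by rw [← hχv, hval]]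
    rw [box, sum_product]
    have hb : ∀ f : ℤ → ℂ, ∑ x ∈ Finset.Ico (0 : ℤ) N, f x = ∑ x ∈ range N, f (x : ℤ) := by
      intro f
      rw [← Finset.sum_image (f := f) (s := range N) (g := fun n : ℕ => (n : ℤ))
        (fun a _ b _ hab => by simpa using hab)]
      congr 1
      ext t
      simp only [mem_Ico, mem_image, mem_range]
      constructor
      · rintro ⟨h0, h3⟩
        exact ⟨t.toNat, by omega, by omega⟩
      · rintro ⟨n, hn, rfl⟩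
        omega
    rw [hb]
    refine sum_congr rfl fun x _ => ?_
    rw [hb]
    refine sum_congr rfl fun y _ => ?_
    simp
  rw [hsum]
  refine (geo N k hk1 _ _ (hpow g1) (hpow g2) hnot).trans ?_
  have : (k : ℝ) ≤ (D : ℝ) ^ 4 := by
    have h3 : k ≤ D ^ 4 := by
      rw [hk]
      calc (m * m') ^ 2 ≤ (D * D) ^ 2 := Nat.pow_le_pow_left (Nat.mul_le_mul mD mD') 2
        _ = D ^ 4 := by ring
    exact_mod_cast h3
  exact mul_le_mul_of_nonneg_left this (Nat.cast_nonneg _)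

theorem card_box (N : ℕ) : (box N).card = N ^ 2 := by
  rw [box, card_product, Int.card_Ico]
  simp [sq]

theorem bil_row {G : Type*} [AddCommGroup G] [Fintype G] [DecidableEq G] (g1 g2 : G)
    (hgen : ∀ g : G, ∃ x y : ℤ, g = x • g1 + y • g2) (D N : ℕ) (hDN : D ^ 9 ≤ N)
    (Ξ : Finset (AddChar G ℂ))
    (hΞ : ∀ ψ ∈ Ξ, ∃ m : ℕ, 1 ≤ m ∧ m ≤ D ∧ ∀ g : G, ψ ((m ^ 2) • g) = 1)
    (ψ : AddChar G ℂ) (hψ : ψ ∈ Ξ) :
    ∑ ψ' ∈ Ξ, ‖∑ z ∈ box N, ψ (phi g1 g2 z) * starRingEnd ℂ (ψ' (phi g1 g2 z))‖ ≤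
      2 * (N : ℝ) ^ 2 := by
  classical
  rw [← add_sum_erase _ _ hψ]
  have h1 : ‖∑ z ∈ box N, ψ (phi g1 g2 z) * starRingEnd ℂ (ψ (phi g1 g2 z))‖ ≤ (N : ℝ) ^ 2 := by
    refine (norm_sum_le _ _).trans ?_
    have : ∀ z ∈ box N, ‖ψ (phi g1 g2 z) * starRingEnd ℂ (ψ (phi g1 g2 z))‖ ≤ 1 := by
      intro z _
      rw [norm_mul, RCLike.norm_conj, AddChar.norm_apply, one_mul]
    refine (sum_le_sum this).trans ?_
    rw [sum_const, card_box]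
    simp
  have h2 : ∑ ψ' ∈ Ξ.erase ψ, ‖∑ z ∈ box N, ψ (phi g1 g2 z) *
      starRingEnd ℂ (ψ' (phi g1 g2 z))‖ ≤ (N : ℝ) ^ 2 := by
    have h3 : ∀ ψ' ∈ Ξ.erase ψ, ‖∑ z ∈ box N, ψ (phi g1 g2 z) *
        starRingEnd ℂ (ψ' (phi g1 g2 z))‖ ≤ (N : ℝ) * D ^ 4 := by
      intro ψ' hψ'
      exact bil_off g1 g2 hgen D N ψ ψ' (ne_of_mem_erase hψ').symm (hΞ ψ hψ)
        (hΞ ψ' (mem_of_mem_erase hψ'))
    refine (sum_le_sum h3).trans ?_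
    rw [sum_const, nsmul_eq_mul]
    have h4 : ((Ξ.erase ψ).card : ℝ) ≤ (D : ℝ) ^ 5 := by
      have := (card_le_card (erase_subset ψ Ξ)).trans (cntx g1 g2 hgen D Ξ hΞ)
      exact_mod_cast this
    have h5 : (D : ℝ) ^ 9 ≤ N := by exact_mod_cast hDN
    calc ((Ξ.erase ψ).card : ℝ) * ((N : ℝ) * D ^ 4) ≤ (D : ℝ) ^ 5 * ((N : ℝ) * D ^ 4) :=
          mul_le_mul_of_nonneg_right h4 (by positivity)
      _ = (D : ℝ) ^ 9 * N := by ring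
      _ ≤ N * N := mul_le_mul_of_nonneg_right h5 (Nat.cast_nonneg _)
      _ = (N : ℝ) ^ 2 := by ring
  linarith

/-- mean square of the character sums over a subset of the box -/
theorem bil_ms {G : Type*} [AddCommGroup G] [Fintype G] [DecidableEq G] (g1 g2 : G)
    (hgen : ∀ g : G, ∃ x y : ℤ, g = x • g1 + y • g2) (D N : ℕ) (hDN : D ^ 9 ≤ N)
    (Ξ : Finset (AddChar G ℂ))
    (hΞ : ∀ ψ ∈ Ξ, ∃ m : ℕ, 1 ≤ m ∧ m ≤ D ∧ ∀ g : G, ψ ((m ^ 2) • g) = 1)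
    (A : Finset (ℤ × ℤ)) (hA : A ⊆ box N) :
    ∑ ψ ∈ Ξ, ‖∑ a ∈ A, ψ (phi g1 g2 a)‖ ^ 2 ≤ 2 * (N : ℝ) ^ 2 * A.card := by
  classical
  have h := bes (box N) Ξ (fun ψ z => ψ (phi g1 g2 z)) (fun z => if z ∈ A then 1 else 0)
    (2 * (N : ℝ) ^ 2) (by positivity) (fun ψ hψ => bil_row g1 g2 hgen D N hDN Ξ hΞ ψ hψ)
  have e1 : ∀ ψ : AddChar G ℂ, ∑ z ∈ box N, (if z ∈ A then (1 : ℂ) else 0) * ψ (phi g1 g2 z) =
      ∑ a ∈ A, ψ (phi g1 g2 a) := by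
    intro ψ
    rw [← sum_subset hA]
    · exact sum_congr rfl fun a ha => by rw [if_pos ha, one_mul]
    · intro z _ hz
      rw [if_neg hz, zero_mul]
  have e2 : ∑ z ∈ box N, ‖(if z ∈ A then (1 : ℂ) else 0)‖ ^ 2 = A.card := by
    rw [← sum_subset hA]
    · rw [sum_congr rfl fun a ha => by rw [if_pos ha]]
      simp
    · intro z _ hz
      rw [if_neg hz]
      simp
  rw [e2] at h
  refine le_trans (le_of_eq ?_) h
  exact sum_congr rfl fun ψ _ => by rw [e1]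

theorem bil {G : Type*} [AddCommGroup G] [Fintype G] [DecidableEq G] (g1 g2 : G)
    (hgen : ∀ g : G, ∃ x y : ℤ, g = x • g1 + y • g2) (F : G → ℝ) (D N : ℕ) (hD : 1 ≤ D)
    (hDN : D ^ 9 ≤ N)
    (hsupp : ∀ ψ : AddChar G ℂ, ∑ g : G, (F g : ℂ) * ψ g ≠ 0 →
      ∃ m : ℕ, 1 ≤ m ∧ m ≤ D ∧ ∀ g : G, ψ ((m ^ 2) • g) = 1)
    (ε : ℝ) (hε0 : 0 ≤ ε)
    (hε : ∀ ψ : AddChar G ℂ, ψ ≠ 1 → ‖∑ g : G, (F g : ℂ) * ψ g‖ ≤ ε * Fintype.card G)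
    (A B : Finset (ℤ × ℤ)) (hA : A ⊆ box N) (hB : B ⊆ box N) :
    |∑ a ∈ A, ∑ b ∈ B, F ((a - b).1 • g1 + (a - b).2 • g2) -
        (∑ g : G, F g) / Fintype.card G * (A.card * B.card)| ≤
      2 * ε * (N : ℝ) ^ 2 * √((A.card : ℝ) * B.card) := by
  classical
  have hc : (0 : ℝ) < Fintype.card G := by exact_mod_cast Fintype.card_pos
  set c : AddChar G ℂ → ℂ := fun ψ => (∑ g : G, (F g : ℂ) * ψ g) / Fintype.card G with hcdef
  set SA : AddChar G ℂ → ℂ := fun ψ => ∑ a ∈ A, ψ (phi g1 g2 a) with hSA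
  set SB : AddChar G ℂ → ℂ := fun ψ => ∑ b ∈ B, ψ (phi g1 g2 b) with hSB
  have hexp : ((∑ a ∈ A, ∑ b ∈ B, F ((a - b).1 • g1 + (a - b).2 • g2) : ℝ) : ℂ) =
      ∑ ψ : AddChar G ℂ, c ψ * starRingEnd ℂ (SA ψ) * SB ψ := by
    push_cast
    have e1 : ∀ a b : ℤ × ℤ, ((F ((a - b).1 • g1 + (a - b).2 • g2) : ℝ) : ℂ) =
        ∑ ψ : AddChar G ℂ, c ψ * (starRingEnd ℂ (ψ (phi g1 g2 a)) * ψ (phi g1 g2 b)) := by
      intro a b
      have e2 : (a - b).1 • g1 + (a - b).2 • g2 = phi g1 g2 a - phi g1 g2 b := by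
        rw [← phi_sub]; rfl
      rw [e2, bil_inv F]
      refine sum_congr rfl fun ψ _ => ?_
      rw [neg_sub, sub_eq_add_neg, AddChar.map_add_eq_mul, AddChar.map_neg_eq_conj]
      rw [mul_comm (ψ (phi g1 g2 b))]
    simp_rw [e1]
    rw [sum_congr rfl fun a _ => sum_comm]
    rw [sum_comm]
    refine sum_congr rfl fun ψ _ => ?_
    rw [hSA, hSB]
    simp only [map_sum, mul_sum, sum_mul]
    rw [sum_comm]
    refine sum_congr rfl fun b _ => sum_congr rfl fun a _ => by ring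
  set Ξ : Finset (AddChar G ℂ) := univ.filter fun ψ => ψ ≠ 1 ∧ ∑ g : G, (F g : ℂ) * ψ g ≠ 0
    with hΞdef
  have hΞ : ∀ ψ ∈ Ξ, ∃ m : ℕ, 1 ≤ m ∧ m ≤ D ∧ ∀ g : G, ψ ((m ^ 2) • g) = 1 := by
    intro ψ hψ
    exact hsupp ψ (mem_filter.1 hψ).2.2
  have hsplit : ∑ ψ : AddChar G ℂ, c ψ * starRingEnd ℂ (SA ψ) * SB ψ =
      c 1 * starRingEnd ℂ (SA 1) * SB 1 + ∑ ψ ∈ Ξ, c ψ * starRingEnd ℂ (SA ψ) * SB ψ := by
    rw [← add_sum_erase _ _ (mem_univ (1 : AddChar G ℂ))]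
    congr 1
    symm
    refine sum_subset ?_ ?_
    · intro ψ hψ
      exact mem_erase.2 ⟨(mem_filter.1 hψ).2.1, mem_univ _⟩
    · intro ψ hψ hn
      have : ∑ g : G, (F g : ℂ) * ψ g = 0 := by
        by_contra h0
        exact hn (mem_filter.2 ⟨mem_univ _, (mem_erase.1 hψ).1, h0⟩)
      simp only [hcdef, this, zero_div, zero_mul]
  have hone : c 1 * starRingEnd ℂ (SA 1) * SB 1 =
      (((∑ g : G, F g) / Fintype.card G * (A.card * B.card) : ℝ) : ℂ) := by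
    simp only [hcdef, hSA, hSB, AddChar.one_apply, mul_one, sum_const, nsmul_eq_mul]
    push_cast
    simp [mul_assoc]
  have hkey : ((∑ a ∈ A, ∑ b ∈ B, F ((a - b).1 • g1 + (a - b).2 • g2) -
      (∑ g : G, F g) / Fintype.card G * (A.card * B.card) : ℝ) : ℂ) =
      ∑ ψ ∈ Ξ, c ψ * starRingEnd ℂ (SA ψ) * SB ψ := by
    rw [Complex.ofReal_sub, hexp, hsplit, hone]
    ring
  rw [← Real.norm_eq_abs, ← Complex.norm_real, hkey]
  have hcb : ∀ ψ ∈ Ξ, ‖c ψ‖ ≤ ε := by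
    intro ψ hψ
    rw [hcdef]
    simp only [norm_div, Complex.norm_natCast]
    rw [div_le_iff₀ hc]
    exact hε ψ (mem_filter.1 hψ).2.1
  have h1 : ‖∑ ψ ∈ Ξ, c ψ * starRingEnd ℂ (SA ψ) * SB ψ‖ ≤ ε * ∑ ψ ∈ Ξ, ‖SA ψ‖ * ‖SB ψ‖ := by
    refine (norm_sum_le _ _).trans ?_
    rw [mul_sum]
    refine sum_le_sum fun ψ hψ => ?_
    rw [norm_mul, norm_mul, RCLike.norm_conj, mul_assoc]
    exact mul_le_mul_of_nonneg_right (hcb ψ hψ) (by positivity)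
  refine h1.trans ?_
  have h2 := Real.sum_mul_le_sqrt_mul_sqrt Ξ (fun ψ => ‖SA ψ‖) (fun ψ => ‖SB ψ‖)
  have h3 := bil_ms g1 g2 hgen D N hDN Ξ hΞ A hA
  have h4 := bil_ms g1 g2 hgen D N hDN Ξ hΞ B hB
  have h5 : √(∑ ψ ∈ Ξ, ‖SA ψ‖ ^ 2) * √(∑ ψ ∈ Ξ, ‖SB ψ‖ ^ 2) ≤
      2 * (N : ℝ) ^ 2 * √((A.card : ℝ) * B.card) := by
    rw [← Real.sqrt_mul (sum_nonneg fun _ _ => sq_nonneg _)]
    have h6 : 2 * (N : ℝ) ^ 2 * √((A.card : ℝ) * B.card) =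
        √((2 * (N : ℝ) ^ 2) ^ 2 * ((A.card : ℝ) * B.card)) := by
      rw [Real.sqrt_mul (by positivity : (0 : ℝ) ≤ (2 * (N : ℝ) ^ 2) ^ 2),
        Real.sqrt_sq (by positivity)]
    rw [h6]
    refine Real.sqrt_le_sqrt ?_
    calc (∑ ψ ∈ Ξ, ‖SA ψ‖ ^ 2) * ∑ ψ ∈ Ξ, ‖SB ψ‖ ^ 2 ≤
          (2 * (N : ℝ) ^ 2 * A.card) * (2 * (N : ℝ) ^ 2 * B.card) :=
          mul_le_mul h3 h4 (sum_nonneg fun _ _ => sq_nonneg _) (by positivity)
      _ = _ := by ring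
  calc ε * ∑ ψ ∈ Ξ, ‖SA ψ‖ * ‖SB ψ‖ ≤ ε * (2 * (N : ℝ) ^ 2 * √((A.card : ℝ) * B.card)) :=
        mul_le_mul_of_nonneg_left (h2.trans h5) hε0
    _ = _ := by ring

end Pool.Agent.Lib.DG
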