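import Pool.Agent.Lib.MP_1a9bf8_co.Defs
import Pool.Agent.Lib.MP_79499b_co.Q38MertensAP

/-!
# BLK: the blocks
`ys 0 = y`, `ys (j+1) = Nat.sqrt (ys j)`; `J` with `ys J <= 1`; `blk p = #{j < J : p <= ys (j+1)}`, so block `j`
is `ys (j+1) < p <= ys j` and `ys j <= y^(1/2^j)`.  The block sums of `1/p` are bounded by Mertens:
`Q38.msum_one_le` and `Q38.mertens_all` (msum 1 0 x = sum over primes `< x`):
`loglog (ys j + 1) - loglog (ys (j+1) + 1) + 2C <= log 4 + 2C` as `(ys (j+1) + 1)^2 > ys j`; small `ys j`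
directly.  (Implementation: `blk p` is the greatest `j` with `p^(2^j) <= y`.)
-/

set_option autoImplicit false

namespace Pool.Agent.Lib.DG

open Finset
open Pool.Agent.Lib.MP_79499b_co.Q38 (msum msum_one_le mertens_all)

theorem blk_sum : ∃ S1 : ℝ, 0 < S1 ∧ ∀ z : ℝ, ∀ Q : Finset ℕ,
    (∀ p ∈ Q, p.Prime ∧ (p : ℝ) ≤ z ∧ z < (p : ℝ) ^ 2) → ∑ p ∈ Q, (1 : ℝ) / p ≤ S1 := by
  obtain ⟨C1, hC1, h1⟩ := msum_one_le
  obtain ⟨C2, h2⟩ := mertens_all
  refine ⟨9 + (Real.log 4 + C1 + |C2|), by positivity, fun z Q hQ => ?_⟩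
  have hpos : 0 ≤ Real.log 4 + C1 + |C2| := by positivity
  rcases lt_or_ge z 9 with hz | hz
  · have e1 : Q ⊆ range 9 := by
      intro p hp
      obtain ⟨_, h3, _⟩ := hQ p hp
      rw [mem_range]
      exact_mod_cast h3.trans_lt hz
    have e2 : ∑ p ∈ Q, (1 : ℝ) / p ≤ ∑ p ∈ Q, (1 : ℝ) := by
      apply sum_le_sum
      intro p hp
      have : (1 : ℝ) ≤ p := by exact_mod_cast (hQ p hp).1.one_lt.le
      rw [div_le_one (by linarith)]
      exact this
    have e3 : ((Q.card : ℕ) : ℝ) ≤ 9 := by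
      have := card_le_card e1
      rw [card_range] at this
      exact_mod_cast this
    rw [sum_const, nsmul_eq_mul, mul_one] at e2
    linarith
  · set N := ⌊z⌋₊ with hN
    set m := ⌊Real.sqrt z⌋₊ + 1 with hm
    have hz0 : 0 < z := by linarith
    have hsq : 3 ≤ Real.sqrt z := by
      apply Real.le_sqrt_of_sq_le
      linarith
    have hmz : Real.sqrt z < m := by
      rw [hm]
      push_cast
      exact Nat.lt_floor_add_one _
    have hm3 : 3 ≤ m := by
      have : (3 : ℝ) < m := lt_of_le_of_lt hsq hmz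
      exact_mod_cast this.le
    have hN9 : 9 ≤ N := Nat.le_floor (by exact_mod_cast hz)
    have e1 : ∑ p ∈ Q, (1 : ℝ) / p + msum 1 0 m ≤ msum 1 0 (N + 1) := by
      unfold msum
      have hd : Disjoint Q ((range m).filter (fun p => p.Prime ∧ p % 1 = 0)) := by
        rw [disjoint_left]
        intro p hp hp'
        rw [mem_filter, mem_range] at hp'
        obtain ⟨_, _, h4⟩ := hQ p hp
        have h5 : Real.sqrt z < p := by
          rw [Real.sqrt_lt' (by exact_mod_cast (hQ p hp).1.pos)]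
          exact h4
        have h6 : ⌊Real.sqrt z⌋₊ < p := (Nat.floor_lt (Real.sqrt_nonneg z)).2 h5
        omega
      have e2 : ∑ p ∈ Q, (1 : ℝ) / p = ∑ p ∈ Q, ((p : ℝ))⁻¹ :=
        sum_congr rfl fun p _ => one_div _
      rw [e2, ← sum_union hd]
      apply sum_le_sum_of_subset_of_nonneg
      · intro p hp
        rw [mem_union] at hp
        rw [mem_filter, mem_range]
        rcases hp with hp | hp
        · refine ⟨?_, (hQ p hp).1, Nat.mod_one p⟩
          have := Nat.le_floor (hQ p hp).2.1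
          omega
        · rw [mem_filter, mem_range] at hp
          refine ⟨?_, hp.2⟩
          have h7 : m ≤ N + 1 := by
            rw [hm]
            apply Nat.add_le_add_right
            apply Nat.floor_le_floor
            rw [Real.sqrt_le_left (by linarith)]
            nlinarith
          omega
      · intro p _ _
        positivity
    have e3 := h1 (N + 1) (by omega)
    have e4 := h2 m hm3
    have hlz : 0 < Real.log z := Real.log_pos (by linarith)
    have hm0 : (0 : ℝ) < m := by linarith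
    have e5 : Real.log z ≤ 2 * Real.log m := by
      have h8 : z ≤ (m : ℝ) ^ 2 := by
        have := (Real.sqrt_lt' hm0).1 hmz
        exact this.le
      calc Real.log z ≤ Real.log ((m : ℝ) ^ 2) := Real.log_le_log hz0 h8
        _ = _ := by rw [Real.log_pow]; norm_num
    have e6 : Real.log ((N + 1 : ℕ) : ℝ) ≤ 2 * Real.log z := by
      have h8 : ((N + 1 : ℕ) : ℝ) ≤ z ^ 2 := by
        have := Nat.floor_le hz0.le
        push_cast
        nlinarith
      calc Real.log ((N + 1 : ℕ) : ℝ) ≤ Real.log (z ^ 2) := Real.log_le_log (by positivity) h8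
        _ = _ := by rw [Real.log_pow]; norm_num
    have hlm : 0 < Real.log m := by linarith
    have hlN : 0 < Real.log ((N + 1 : ℕ) : ℝ) := Real.log_pos (by
      have : (9 : ℝ) ≤ N := by exact_mod_cast hN9
      push_cast
      linarith)
    have e7 : Real.log (Real.log ((N + 1 : ℕ) : ℝ)) ≤ Real.log 4 + Real.log (Real.log m) := by
      rw [← Real.log_mul (by norm_num) hlm.ne']
      apply Real.log_le_log hlN
      linarith
    have e8 := neg_abs_le C2
    have e9 := le_abs_self C2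
    linarith

theorem blk : ∃ S1 : ℝ, 0 < S1 ∧ ∀ (y w : ℕ) (P : Finset ℕ), 2 ≤ w →
    (∀ p ∈ P, p.Prime ∧ w < p ∧ p ≤ y) → ∃ (blk : ℕ → ℕ) (J : ℕ), (∀ p ∈ P, blk p < J) ∧
      (∀ j, ∑ p ∈ PB P blk j, (1 : ℝ) / p ≤ S1) ∧
      ∀ p ∈ P, (p : ℝ) ≤ (y : ℝ) ^ ((1 / 2 : ℝ) ^ blk p) := by
  obtain ⟨S1, hS1, h⟩ := blk_sum
  refine ⟨S1, hS1, fun y w P hw hP => ?_⟩
  have hspec : ∀ p ∈ P, p ^ (2 ^ (Nat.findGreatest (fun j => p ^ (2 ^ j) ≤ y) y)) ≤ y := by
    intro p hp
    have h0 : p ^ (2 ^ 0) ≤ y := by simpa using (hP p hp).2.2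
    exact Nat.findGreatest_spec (P := fun j => p ^ (2 ^ j) ≤ y) (Nat.zero_le y) h0
  have hmax : ∀ p ∈ P, y < p ^ (2 ^ (Nat.findGreatest (fun j => p ^ (2 ^ j) ≤ y) y + 1)) := by
    intro p hp
    set k := Nat.findGreatest (fun j => p ^ (2 ^ j) ≤ y) y with hk
    rcases Nat.lt_or_ge y (k + 1) with h1 | h1
    · have h2 : 2 ≤ p := (hP p hp).1.two_le
      calc y < k + 1 := h1
        _ < 2 ^ (k + 1) := Nat.lt_two_pow_self
        _ < 2 ^ (2 ^ (k + 1)) := Nat.lt_two_pow_self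
        _ ≤ _ := Nat.pow_le_pow_left h2 _
    · by_contra hc
      rw [not_lt] at hc
      exact Nat.findGreatest_is_greatest (P := fun j => p ^ (2 ^ j) ≤ y) (Nat.lt_succ_self k) h1 hc
  have hinv : ∀ k : ℕ, (1 / 2 : ℝ) ^ k = (((2 ^ k : ℕ) : ℝ))⁻¹ := by
    intro k
    push_cast
    rw [one_div, inv_pow]
  have hle : ∀ p ∈ P, (p : ℝ) ≤
      (y : ℝ) ^ ((1 / 2 : ℝ) ^ (Nat.findGreatest (fun j => p ^ (2 ^ j) ≤ y) y)) := by
    intro p hp
    set k := Nat.findGreatest (fun j => p ^ (2 ^ j) ≤ y) y with hk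
    have e1 : ((p : ℝ) ^ (2 ^ k)) ≤ y := by exact_mod_cast hspec p hp
    rw [hinv]
    calc (p : ℝ) = ((p : ℝ) ^ (2 ^ k)) ^ (((2 ^ k : ℕ) : ℝ))⁻¹ :=
          (Real.pow_rpow_inv_natCast (Nat.cast_nonneg p) (by positivity)).symm
      _ ≤ _ := Real.rpow_le_rpow (by positivity) e1 (by positivity)
  refine ⟨fun p => Nat.findGreatest (fun j => p ^ (2 ^ j) ≤ y) y, y + 1,
    fun p _ => Nat.lt_succ_of_le (Nat.findGreatest_le y), fun j => ?_, hle⟩
  apply h ((y : ℝ) ^ ((1 / 2 : ℝ) ^ j))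
  intro p hp
  rw [PB, mem_filter] at hp
  obtain ⟨hpP, hpj⟩ := hp
  have e1 := hle p hpP
  have e2 := hmax p hpP
  rw [hpj] at e1 e2
  refine ⟨(hP p hpP).1, e1, ?_⟩
  have e3 : (y : ℝ) < (p : ℝ) ^ (2 ^ (j + 1)) := by exact_mod_cast e2
  rw [hinv]
  calc (y : ℝ) ^ (((2 ^ j : ℕ) : ℝ))⁻¹ < ((p : ℝ) ^ (2 ^ (j + 1))) ^ (((2 ^ j : ℕ) : ℝ))⁻¹ :=
        Real.rpow_lt_rpow (by positivity) e3 (by positivity)
    _ = (((p : ℝ) ^ 2) ^ (2 ^ j)) ^ (((2 ^ j : ℕ) : ℝ))⁻¹ := by
        rw [← pow_mul]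
        congr 2
        ring
    _ = _ := Real.pow_rpow_inv_natCast (by positivity) (by positivity)

end Pool.Agent.Lib.DG
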