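import Pool.Agent.Lib.MP_1a9bf8_co.Defs

/-!
# BONF: Bonferroni inequalities for numbers in [0,1]
`B_r(P) = sum over m ⊆ P, |m| <= r of (-1)^|m| prod_m x`.  `B_r(P ∪ q) = B_r(P) - x_q B_(r-1)(P)`, so
`(-1)^r (B_r - prod (1-x)) >= 0` by induction on `P` (all `r` at once; treat `r = 0` separately:
`1 >= prod (1 - x)`).
-/

set_option autoImplicit false

namespace Pool.Agent.Lib.DG

open Finset

/-- partial sum over the subsets with fewer than `n` elements -/
noncomputable def bonfB (n : ℕ) (Q : Finset ℕ) (x : ℕ → ℝ) : ℝ :=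
  ∑ m ∈ Q.powerset, (if m.card < n then (1 : ℝ) else 0) * ((-1) ^ m.card * ∏ p ∈ m, x p)

theorem bonf_insert (n : ℕ) (Q : Finset ℕ) (x : ℕ → ℝ) (q : ℕ) (hq : q ∉ Q) :
    bonfB (n + 1) (insert q Q) x = bonfB (n + 1) Q x - x q * bonfB n Q x := by
  unfold bonfB
  rw [Finset.sum_powerset_insert hq, sub_eq_add_neg, Finset.mul_sum, ← Finset.sum_neg_distrib]
  congr 1
  refine Finset.sum_congr rfl fun m hm => ?_
  have hqm : q ∉ m := fun h => hq (Finset.mem_powerset.1 hm h)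
  rw [Finset.card_insert_of_notMem hqm, Finset.prod_insert hqm]
  by_cases h : m.card < n
  · rw [if_pos h, if_pos (by omega), pow_succ]
    ring
  · rw [if_neg h, if_neg (by omega)]
    ring

theorem bonf_all (Q : Finset ℕ) (x : ℕ → ℝ) (h0 : ∀ p ∈ Q, 0 ≤ x p) (h1 : ∀ p ∈ Q, x p ≤ 1) :
    ∀ n : ℕ, 0 ≤ (-1 : ℝ) ^ n * (∏ p ∈ Q, (1 - x p) - bonfB n Q x) := by
  induction Q using Finset.induction_on with
  | empty =>
    intro n
    unfold bonfB
    rcases Nat.eq_zero_or_pos n with h | h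
    · subst h
      simp
    · simp [h]
  | insert q Q hq ih =>
    have ih' := ih (fun p hp => h0 p (Finset.mem_insert_of_mem hp))
      (fun p hp => h1 p (Finset.mem_insert_of_mem hp))
    have hx0 := h0 q (Finset.mem_insert_self _ _)
    have hx1 := h1 q (Finset.mem_insert_self _ _)
    intro n
    rcases Nat.eq_zero_or_pos n with h | h
    · subst h
      have e : bonfB 0 (insert q Q) x = 0 := by
        unfold bonfB
        refine Finset.sum_eq_zero fun m _ => ?_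
        simp
      rw [e, pow_zero, one_mul, sub_zero]
      exact Finset.prod_nonneg fun p hp => sub_nonneg.2 (h1 p hp)
    · obtain ⟨k, rfl⟩ : ∃ k, n = k + 1 := ⟨n - 1, by omega⟩
      rw [bonf_insert k Q x q hq, Finset.prod_insert hq]
      have a := ih' (k + 1)
      have b := mul_nonneg hx0 (ih' k)
      rw [pow_succ] at a ⊢
      nlinarith [a, b]

theorem bonf_upper (Q : Finset ℕ) (x : ℕ → ℝ) (h0 : ∀ p ∈ Q, 0 ≤ x p) (h1 : ∀ p ∈ Q, x p ≤ 1)
    (β : ℕ) : ∏ p ∈ Q, (1 - x p) ≤ ∑ m ∈ Q.powerset, av β m * ((-1) ^ m.card * ∏ p ∈ m, x p) := by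
  have h := bonf_all Q x h0 h1 (2 * β + 1)
  have e : (-1 : ℝ) ^ (2 * β + 1) = -1 := by
    rw [pow_succ, pow_mul]; norm_num
  rw [e] at h
  have e2 : bonfB (2 * β + 1) Q x =
      ∑ m ∈ Q.powerset, av β m * ((-1) ^ m.card * ∏ p ∈ m, x p) := by
    unfold bonfB
    refine Finset.sum_congr rfl fun m _ => ?_
    unfold av
    by_cases h : m.card ≤ 2 * β
    · rw [if_pos h, if_pos (by omega)]
    · rw [if_neg h, if_neg (by omega)]
  rw [← e2]
  linarith

theorem bonf_lower (Q : Finset ℕ) (x : ℕ → ℝ) (h0 : ∀ p ∈ Q, 0 ≤ x p) (h1 : ∀ p ∈ Q, x p ≤ 1)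
    (β : ℕ) : ∑ m ∈ Q.powerset, av β m * ((-1) ^ m.card * ∏ p ∈ m, x p) +
      ∑ m ∈ Q.powerset, ev β m * ((-1) ^ m.card * ∏ p ∈ m, x p) ≤ ∏ p ∈ Q, (1 - x p) := by
  have h := bonf_all Q x h0 h1 (2 * β + 2)
  have e : (-1 : ℝ) ^ (2 * β + 2) = 1 := by
    rw [pow_add, pow_mul]; norm_num
  rw [e, one_mul] at h
  have e2 : bonfB (2 * β + 2) Q x =
      ∑ m ∈ Q.powerset, av β m * ((-1) ^ m.card * ∏ p ∈ m, x p) +
      ∑ m ∈ Q.powerset, ev β m * ((-1) ^ m.card * ∏ p ∈ m, x p) := by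
    unfold bonfB
    rw [← Finset.sum_add_distrib]
    refine Finset.sum_congr rfl fun m _ => ?_
    unfold av ev
    by_cases h : m.card < 2 * β + 2
    · rw [if_pos h]
      by_cases h' : m.card ≤ 2 * β
      · rw [if_pos h', if_neg (by omega)]
        ring
      · rw [if_neg h', if_pos (by omega)]
        ring
    · rw [if_neg h, if_neg (by omega), if_neg (by omega)]
      ring
  rw [← e2]
  linarith

end Pool.Agent.Lib.DG
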