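import Pool.Agent.Lib.MP_1a9bf8_co.Defs

/-!
# PRIN: product inequality
Induction on `J`: `g G = U U' - (U - g) U' - g (U' - G) >= U U' - V U' - U (U' - G)`.
-/

set_option autoImplicit false

namespace Pool.Agent.Lib.DG

open Finset

theorem prin (J : ℕ) (g U V : ℕ → ℝ) (hg : ∀ j < J, 0 ≤ g j) (hgU : ∀ j < J, g j ≤ U j)
    (hV : ∀ j < J, U j - V j ≤ g j) :
    ∏ j ∈ range J, U j - ∑ i ∈ range J, V i * ∏ j ∈ (range J).erase i, U j ≤
      ∏ j ∈ range J, g j := by
  induction J with
  | zero => simp
  | succ J ih =>
    have ih' := ih (fun j hj => hg j (by omega)) (fun j hj => hgU j (by omega))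
      (fun j hj => hV j (by omega))
    set P := ∏ j ∈ range J, U j with hP
    set G := ∏ j ∈ range J, g j with hG
    set T := ∑ i ∈ range J, V i * ∏ j ∈ (range J).erase i, U j with hT
    have hG0 : 0 ≤ G := prod_nonneg fun j hj => hg j (by have := mem_range.1 hj; omega)
    have hGP : G ≤ P := prod_le_prod (fun j hj => hg j (by have := mem_range.1 hj; omega))
      fun j hj => hgU j (by have := mem_range.1 hj; omega)
    have h1 := hg J (by omega)
    have h2 := hgU J (by omega)
    have h3 := hV J (by omega)
    have e1 : ∏ j ∈ range (J + 1), U j = P * U J := prod_range_succ _ _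
    have e2 : ∏ j ∈ range (J + 1), g j = G * g J := prod_range_succ _ _
    have e3 : ∑ i ∈ range (J + 1), V i * ∏ j ∈ (range (J + 1)).erase i, U j =
        T * U J + V J * P := by
      rw [sum_range_succ, hT, sum_mul]
      congr 1
      · refine sum_congr rfl fun i hi => ?_
        have hi' := mem_range.1 hi
        have e : (range (J + 1)).erase i = insert J ((range J).erase i) := by
          ext x
          simp only [mem_erase, mem_range, mem_insert]
          omega
        rw [e, prod_insert (by simp), mul_comm (U J), mul_assoc]
      · congr 1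
        rw [hP]
        apply prod_congr _ fun _ _ => rfl
        ext x
        simp only [mem_erase, mem_range]
        omega
    rw [e1, e2, e3]
    have h4 : G * (U J - g J) ≤ P * V J := mul_le_mul hGP (by linarith) (by linarith) (by linarith)
    have h5 : (P - T) * U J ≤ G * U J := mul_le_mul_of_nonneg_right ih' (by linarith)
    nlinarith

end Pool.Agent.Lib.DG
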