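import Pool.Agent.Lib.MP_1a9bf8_co.FACT
import Pool.Agent.Lib.MP_1a9bf8_co.BONF
import Pool.Agent.Lib.MP_1a9bf8_co.PRIN

/-!
# CB1: the sieve function is a lower bound
Write `(-1)^|n| prod_n x` as a product over the blocks, apply `fact` to the `J + 1` summands of `cf`: the
left side is `prod U_j + sum_i (-V_i) prod_(j≠i) U_j` with `U_j = sum av ...`, `-V_j = sum ev ...`;
`g_j = prod over P_j of (1 - x)`; then PRIN with BONF, and `prod_j g_j = prod_P (1 - x)`.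
-/

set_option autoImplicit false

namespace Pool.Agent.Lib.DG

open Finset

theorem cb1_blocks (P : Finset ℕ) (blk : ℕ → ℕ) (J : ℕ) (hb : ∀ p ∈ P, blk p < J) (n : Finset ℕ)
    (hn : n ⊆ P) (f : ℕ → ℝ) :
    ∏ p ∈ n, f p = ∏ j ∈ range J, ∏ p ∈ n ∩ PB P blk j, f p := by
  rw [← prod_fiberwise_of_maps_to (t := range J) (g := blk)
    (fun p hpn => mem_range.2 (hb p (hn hpn)))]
  apply prod_congr rfl
  intro j _
  apply prod_congr _ fun _ _ => rfl
  ext p
  simp only [PB, mem_filter, mem_inter]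
  constructor
  · rintro ⟨h3, h4⟩
    exact ⟨h3, hn h3, h4⟩
  · rintro ⟨h3, _, h4⟩
    exact ⟨h3, h4⟩

theorem cb1_erase (J i : ℕ) (hi : i ∈ range J) (A : ℝ) (U : ℕ → ℝ) :
    ∏ j ∈ range J, (if j = i then A else U j) = A * ∏ j ∈ (range J).erase i, U j := by
  rw [← mul_prod_erase (range J) _ hi, if_pos rfl]
  congr 1
  apply prod_congr rfl
  intro j hj
  rw [if_neg (ne_of_mem_erase hj)]

theorem cb1_sum (P : Finset ℕ) (blk b : ℕ → ℕ) (J : ℕ) (hb : ∀ p ∈ P, blk p < J) (x : ℕ → ℝ) :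
    ∑ n ∈ P.powerset, cf P blk b J n * ∏ p ∈ n, x p =
      ∏ j ∈ range J, (∑ m ∈ (PB P blk j).powerset, av (b j) m * ((-1) ^ m.card * ∏ p ∈ m, x p)) +
      ∑ i ∈ range J, (∑ m ∈ (PB P blk i).powerset, ev (b i) m * ((-1) ^ m.card * ∏ p ∈ m, x p)) *
        ∏ j ∈ (range J).erase i,
          (∑ m ∈ (PB P blk j).powerset, av (b j) m * ((-1) ^ m.card * ∏ p ∈ m, x p)) := by
  have hw : ∀ m : Finset ℕ, (-1 : ℝ) ^ m.card * ∏ p ∈ m, x p = ∏ p ∈ m, (-x p) := by
    intro m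
    rw [prod_neg]
  have e1 : ∀ n ∈ P.powerset, cf P blk b J n * ∏ p ∈ n, x p =
      ∏ j ∈ range J, (av (b j) (n ∩ PB P blk j) *
        ((-1) ^ (n ∩ PB P blk j).card * ∏ p ∈ n ∩ PB P blk j, x p)) +
      ∑ i ∈ range J, ∏ j ∈ range J, (if j = i then (ev (b i) (n ∩ PB P blk j) *
        ((-1) ^ (n ∩ PB P blk j).card * ∏ p ∈ n ∩ PB P blk j, x p)) else
        (av (b j) (n ∩ PB P blk j) *
        ((-1) ^ (n ∩ PB P blk j).card * ∏ p ∈ n ∩ PB P blk j, x p))) := by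
    intro n hn
    have hn' : n ⊆ P := mem_powerset.1 hn
    have e2 : (-1 : ℝ) ^ n.card * ∏ p ∈ n, x p =
        ∏ j ∈ range J, ((-1) ^ (n ∩ PB P blk j).card * ∏ p ∈ n ∩ PB P blk j, x p) := by
      rw [hw, cb1_blocks P blk J hb n hn']
      apply prod_congr rfl
      intro j _
      rw [hw]
    unfold cf
    rw [show ∀ a s t : ℝ, a * s * t = s * (a * t) by intro a s t; ring, e2, add_mul,
      ← prod_mul_distrib, sum_mul]
    congr 1
    apply sum_congr rfl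
    intro i hi
    rw [← mul_prod_erase (range J) (fun j => (-1 : ℝ) ^ (n ∩ PB P blk j).card *
      ∏ p ∈ n ∩ PB P blk j, x p) hi]
    have e3 : ∏ j ∈ range J, (if j = i then (ev (b i) (n ∩ PB P blk j) *
        ((-1) ^ (n ∩ PB P blk j).card * ∏ p ∈ n ∩ PB P blk j, x p)) else
        (av (b j) (n ∩ PB P blk j) *
        ((-1) ^ (n ∩ PB P blk j).card * ∏ p ∈ n ∩ PB P blk j, x p))) =
        (ev (b i) (n ∩ PB P blk i) *
        ((-1) ^ (n ∩ PB P blk i).card * ∏ p ∈ n ∩ PB P blk i, x p)) *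
        ∏ j ∈ (range J).erase i, (av (b j) (n ∩ PB P blk j) *
        ((-1) ^ (n ∩ PB P blk j).card * ∏ p ∈ n ∩ PB P blk j, x p)) := by
      rw [← cb1_erase J i hi]
      apply prod_congr rfl
      intro j _
      by_cases hj : j = i
      · subst hj
        simp
      · simp [hj]
    have e4 : ∏ j ∈ (range J).erase i, (av (b j) (n ∩ PB P blk j) *
        ((-1) ^ (n ∩ PB P blk j).card * ∏ p ∈ n ∩ PB P blk j, x p)) =
        (∏ j ∈ (range J).erase i, av (b j) (n ∩ PB P blk j)) *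
        ∏ j ∈ (range J).erase i, ((-1 : ℝ) ^ (n ∩ PB P blk j).card *
          ∏ p ∈ n ∩ PB P blk j, x p) := prod_mul_distrib
    rw [e3, e4]
    ring
  rw [sum_congr rfl e1, sum_add_distrib, sum_comm]
  congr 1
  · exact fact P blk J hb (fun j m => av (b j) m * ((-1) ^ m.card * ∏ p ∈ m, x p))
  · apply sum_congr rfl
    intro i hi
    rw [fact P blk J hb (fun j m => if j = i then (ev (b i) m * ((-1) ^ m.card * ∏ p ∈ m, x p))
      else av (b j) m * ((-1) ^ m.card * ∏ p ∈ m, x p)), ← cb1_erase J i hi]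
    apply prod_congr rfl
    intro j _
    by_cases hj : j = i
    · subst hj
      simp
    · simp [hj]

theorem cb1 (P : Finset ℕ) (blk b : ℕ → ℕ) (J : ℕ) (hb : ∀ p ∈ P, blk p < J) (x : ℕ → ℝ)
    (h0 : ∀ p ∈ P, 0 ≤ x p) (h1 : ∀ p ∈ P, x p ≤ 1) :
    ∑ n ∈ P.powerset, cf P blk b J n * ∏ p ∈ n, x p ≤ ∏ p ∈ P, (1 - x p) := by
  rw [cb1_sum P blk b J hb x]
  have hPB : ∀ j, PB P blk j ⊆ P := fun j => filter_subset _ _
  have h := prin J (fun j => ∏ p ∈ PB P blk j, (1 - x p))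
    (fun j => ∑ m ∈ (PB P blk j).powerset, av (b j) m * ((-1) ^ m.card * ∏ p ∈ m, x p))
    (fun j => -∑ m ∈ (PB P blk j).powerset, ev (b j) m * ((-1) ^ m.card * ∏ p ∈ m, x p))
    (fun j _ => prod_nonneg fun p hp => sub_nonneg.2 (h1 p (hPB j hp)))
    (fun j _ => bonf_upper _ x (fun p hp => h0 p (hPB j hp)) (fun p hp => h1 p (hPB j hp)) _)
    (fun j _ => by
      have := bonf_lower _ x (fun p hp => h0 p (hPB j hp)) (fun p hp => h1 p (hPB j hp)) (b j)
      linarith)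
  have e1 : ∏ j ∈ range J, ∏ p ∈ PB P blk j, (1 - x p) = ∏ p ∈ P, (1 - x p) := by
    rw [cb1_blocks P blk J hb P subset_rfl]
    apply prod_congr rfl
    intro j _
    rw [inter_eq_right.2 (hPB j)]
  rw [← e1]
  refine le_trans (le_of_eq ?_) h
  rw [sub_eq_add_neg, ← sum_neg_distrib]
  congr 1
  apply sum_congr rfl
  intro i _
  ring

end Pool.Agent.Lib.DG
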