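import Pool.Agent.Lib.MP_1a9bf8_co.SS
import Pool.Agent.Lib.MP_1a9bf8_co.AB

/-!
# CB2: the main term
`u_j = al τ ∅ P_j (b_j) >= prod over P_j of (1 - τ) >= exp(-2 S)` (as `1 - t >= exp(-2t)` on `[0,1/2]`), and
`|be τ ∅ P_i| <= S^(2b+1)/(2b+1)! <= η_i u_i`, `η_i = exp(2S) S^(2b+1)/(2b+1)!`.  By SS with `E = ∅`:
`Ssum ∅ >= prod u (1 - sum η) >= 1/2 prod u >= 1/2 prod_P (1 - τ)`.
-/

set_option autoImplicit false

namespace Pool.Agent.Lib.DG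

open Finset

theorem cb2_blocks (P : Finset ℕ) (blk : ℕ → ℕ) (J : ℕ) (hb : ∀ p ∈ P, blk p < J) (f : ℕ → ℝ) :
    ∏ p ∈ P, f p = ∏ j ∈ range J, ∏ p ∈ PB P blk j, f p := by
  rw [← prod_fiberwise_of_maps_to (t := range J) (g := blk)
    (fun p hp => mem_range.2 (hb p hp))]
  rfl

theorem cb2_exp {t : ℝ} (h0 : 0 ≤ t) (h1 : t ≤ 1 / 2) : Real.exp (-(2 * t)) ≤ 1 - t := by
  have h2 : 2 * t + 1 ≤ Real.exp (2 * t) := Real.add_one_le_exp _
  have h3 : 1 ≤ (1 - t) * Real.exp (2 * t) := by nlinarith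
  rw [Real.exp_neg, inv_le_iff_one_le_mul₀ (Real.exp_pos _)]
  exact h3

theorem cb2_prod (Q : Finset ℕ) (τ : ℕ → ℝ) (h0 : ∀ p ∈ Q, 0 ≤ τ p) (h1 : ∀ p ∈ Q, τ p ≤ 1 / 2)
    (S : ℝ) (hS : ∑ p ∈ Q, τ p ≤ S) : Real.exp (-(2 * S)) ≤ ∏ p ∈ Q, (1 - τ p) := by
  calc Real.exp (-(2 * S)) ≤ Real.exp (∑ p ∈ Q, -(2 * τ p)) := by
        apply Real.exp_le_exp.2
        rw [sum_neg_distrib, ← mul_sum]
        linarith
    _ = ∏ p ∈ Q, Real.exp (-(2 * τ p)) := Real.exp_sum _ _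
    _ ≤ _ := prod_le_prod (fun p _ => (Real.exp_pos _).le) (fun p hp => cb2_exp (h0 p hp) (h1 p hp))

theorem cb2 (P : Finset ℕ) (blk b : ℕ → ℕ) (J : ℕ) (hb : ∀ p ∈ P, blk p < J) (τ : ℕ → ℝ)
    (h0 : ∀ p ∈ P, 0 ≤ τ p) (h1 : ∀ p ∈ P, τ p ≤ 1 / 2) (S : ℝ) (hS0 : 0 ≤ S)
    (hS : ∀ j < J, ∑ p ∈ PB P blk j, τ p ≤ S)
    (hη : ∑ j ∈ range J, Real.exp (2 * S) * (S ^ (2 * b j + 1) / (2 * b j + 1).factorial) ≤ 1 / 2) :
    (1 / 2) * ∏ j ∈ range J, al τ ∅ (PB P blk j) (b j) ≤ Ssum P (cf P blk b J) τ ∅ ∧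
    (1 / 2) * ∏ p ∈ P, (1 - τ p) ≤ Ssum P (cf P blk b J) τ ∅ ∧
    0 < ∏ j ∈ range J, al τ ∅ (PB P blk j) (b j) ∧
    ∀ j < J, Real.exp (-(2 * S)) ≤ al τ ∅ (PB P blk j) (b j) := by
  have hPB : ∀ j, PB P blk j ⊆ P := fun j => filter_subset _ _
  have hge : ∀ j, ∏ p ∈ PB P blk j, (1 - τ p) ≤ al τ ∅ (PB P blk j) (b j) := fun j =>
    al_ge _ τ (fun p hp => h0 p (hPB j hp)) (fun p hp => by linarith [h1 p (hPB j hp)]) (b j)
  have hu : ∀ j < J, Real.exp (-(2 * S)) ≤ al τ ∅ (PB P blk j) (b j) := fun j hj =>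
    (cb2_prod _ τ (fun p hp => h0 p (hPB j hp)) (fun p hp => h1 p (hPB j hp)) S (hS j hj)).trans
      (hge j)
  have hu0 : ∀ j < J, 0 < al τ ∅ (PB P blk j) (b j) := fun j hj =>
    (Real.exp_pos _).trans_le (hu j hj)
  have hU : 0 < ∏ j ∈ range J, al τ ∅ (PB P blk j) (b j) :=
    prod_pos fun j hj => hu0 j (mem_range.1 hj)
  have hbe : ∀ i ∈ range J, |be τ ∅ (PB P blk i) (b i) *
      ∏ j ∈ (range J).erase i, al τ ∅ (PB P blk j) (b j)| ≤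
      (Real.exp (2 * S) * (S ^ (2 * b i + 1) / (2 * b i + 1).factorial)) *
        ∏ j ∈ range J, al τ ∅ (PB P blk j) (b j) := by
    intro i hi
    have hi' := mem_range.1 hi
    have e1 := be_abs _ τ (fun p hp => h0 p (hPB i hp)) S (hS i hi') (b i)
    have e2 : 0 < ∏ j ∈ (range J).erase i, al τ ∅ (PB P blk j) (b j) :=
      prod_pos fun j hj => hu0 j (mem_range.1 (mem_of_mem_erase hj))
    have e3 : 1 ≤ Real.exp (2 * S) * al τ ∅ (PB P blk i) (b i) := by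
      have := mul_le_mul_of_nonneg_left (hu i hi') (Real.exp_pos (2 * S)).le
      rwa [← Real.exp_add, add_neg_cancel, Real.exp_zero] at this
    have e4 : 0 ≤ S ^ (2 * b i + 1) / ((2 * b i + 1).factorial : ℝ) := by positivity
    rw [abs_mul, abs_of_pos e2, ← mul_prod_erase (range J) _ hi]
    calc |be τ ∅ (PB P blk i) (b i)| * ∏ j ∈ (range J).erase i, al τ ∅ (PB P blk j) (b j)
        ≤ (S ^ (2 * b i + 1) / ((2 * b i + 1).factorial : ℝ)) *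
          ∏ j ∈ (range J).erase i, al τ ∅ (PB P blk j) (b j) :=
          mul_le_mul_of_nonneg_right e1 e2.le
      _ = (S ^ (2 * b i + 1) / ((2 * b i + 1).factorial : ℝ)) * 1 *
          ∏ j ∈ (range J).erase i, al τ ∅ (PB P blk j) (b j) := by rw [mul_one]
      _ ≤ (S ^ (2 * b i + 1) / ((2 * b i + 1).factorial : ℝ)) *
          (Real.exp (2 * S) * al τ ∅ (PB P blk i) (b i)) *
          ∏ j ∈ (range J).erase i, al τ ∅ (PB P blk j) (b j) := by gcongr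
      _ = _ := by ring
  have hmain : (1 / 2) * ∏ j ∈ range J, al τ ∅ (PB P blk j) (b j) ≤
      Ssum P (cf P blk b J) τ ∅ := by
    rw [ssum_eq P blk b J hb τ ∅ (empty_subset _)]
    have e5 : |∑ i ∈ range J, be τ ∅ (PB P blk i) (b i) *
        ∏ j ∈ (range J).erase i, al τ ∅ (PB P blk j) (b j)| ≤
        (1 / 2) * ∏ j ∈ range J, al τ ∅ (PB P blk j) (b j) := by
      calc _ ≤ ∑ i ∈ range J, |be τ ∅ (PB P blk i) (b i) *
            ∏ j ∈ (range J).erase i, al τ ∅ (PB P blk j) (b j)| := abs_sum_le_sum_abs _ _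
        _ ≤ ∑ i ∈ range J, (Real.exp (2 * S) * (S ^ (2 * b i + 1) / (2 * b i + 1).factorial)) *
            ∏ j ∈ range J, al τ ∅ (PB P blk j) (b j) := sum_le_sum hbe
        _ = (∑ i ∈ range J, (Real.exp (2 * S) *
            (S ^ (2 * b i + 1) / (2 * b i + 1).factorial))) *
            ∏ j ∈ range J, al τ ∅ (PB P blk j) (b j) := by rw [sum_mul]
        _ ≤ _ := mul_le_mul_of_nonneg_right hη hU.le
    have e6 := (abs_le.1 e5).1
    linarith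
  refine ⟨hmain, ?_, hU, hu⟩
  refine le_trans ?_ hmain
  apply mul_le_mul_of_nonneg_left _ (by norm_num)
  rw [cb2_blocks P blk J hb]
  apply prod_le_prod
  · intro j _
    exact prod_nonneg fun p hp => by linarith [h1 p (hPB j hp)]
  · intro j _
    exact hge j

end Pool.Agent.Lib.DG
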