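import Pool.Agent.Lib.MP_1a9bf8_co.CB2

/-!
# CB3: the nonzero frequencies
Let `K = exp(3S)`, `u_j = al τ ∅ P_j`.  By SS and AB: for blocks that meet `E`, `|al τ E|, |be τ E| <= exp S
<= K u_j`; for the other blocks `al τ E = u_j`, `|be τ E| <= η_j u_j`.  With `k >= 1` the number of blocks
that meet `E` (`k <= |E|`): `|Ssum E| <= prod u * K^k (1 + 1/2 + k) <= prod u * (3K)^|E|` (`3/2 + k <= 3^k`,
`K >= 1`), so `prod_E τ |Ssum E| <= prod u (3 K ρ)^|E| <= 3 K ρ prod u <= 6 K ρ Ssum ∅` by CB2.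
-/

set_option autoImplicit false

namespace Pool.Agent.Lib.DG

open Finset

theorem cb3 (P : Finset ℕ) (blk b : ℕ → ℕ) (J : ℕ) (hb : ∀ p ∈ P, blk p < J) (τ : ℕ → ℝ)
    (h0 : ∀ p ∈ P, 0 ≤ τ p) (h1 : ∀ p ∈ P, τ p ≤ 1 / 2) (S : ℝ) (hS0 : 0 ≤ S)
    (hS : ∀ j < J, ∑ p ∈ PB P blk j, τ p ≤ S)
    (hη : ∑ j ∈ range J, Real.exp (2 * S) * (S ^ (2 * b j + 1) / (2 * b j + 1).factorial) ≤ 1 / 2)
    (ρ : ℝ) (hρ : ∀ p ∈ P, τ p ≤ ρ) (hρ0 : 0 ≤ ρ) (hρ1 : 3 * Real.exp (3 * S) * ρ ≤ 1)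
    (E : Finset ℕ) (hE : E ⊆ P) (hne : E.Nonempty) :
    (∏ p ∈ E, τ p) * |Ssum P (cf P blk b J) τ E| ≤
      6 * Real.exp (3 * S) * ρ * Ssum P (cf P blk b J) τ ∅ := by
  classical
  obtain ⟨hm1, _, hpos, hu⟩ := cb2 P blk b J hb τ h0 h1 S hS0 hS hη
  obtain ⟨u, hudef⟩ : ∃ u : ℕ → ℝ, u = fun j => al τ ∅ (PB P blk j) (b j) := ⟨_, rfl⟩
  have huj : ∀ j, al τ ∅ (PB P blk j) (b j) = u j := fun j => by rw [hudef]
  obtain ⟨K, hKdef⟩ : ∃ K : ℝ, K = Real.exp (3 * S) := ⟨_, rfl⟩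
  obtain ⟨η, hηdef⟩ : ∃ η : ℕ → ℝ, η = fun j =>
    Real.exp (2 * S) * (S ^ (2 * b j + 1) / (2 * b j + 1).factorial) := ⟨_, rfl⟩
  have hηj : ∀ j, Real.exp (2 * S) * (S ^ (2 * b j + 1) / (2 * b j + 1).factorial) = η j :=
    fun j => by rw [hηdef]
  have hη0 : ∀ j, 0 ≤ η j := fun j => by rw [← hηj j]; positivity
  have hηs : ∑ j ∈ range J, η j ≤ 1 / 2 := by
    calc ∑ j ∈ range J, η j = _ := Finset.sum_congr rfl fun j _ => (hηj j).symm
      _ ≤ 1 / 2 := hη
  have hK1 : 1 ≤ K := by rw [hKdef]; exact Real.one_le_exp (by linarith)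
  have hK0 : 0 < K := by linarith
  have hul : ∀ j < J, Real.exp (-(2 * S)) ≤ u j := fun j hj => by rw [← huj j]; exact hu j hj
  have hup : ∀ j < J, 0 < u j := fun j hj => lt_of_lt_of_le (Real.exp_pos _) (hul j hj)
  have hprod : 0 < ∏ j ∈ range J, u j :=
    Finset.prod_pos fun j hj => hup j (Finset.mem_range.mp hj)
  have hm1' : (1 / 2) * ∏ j ∈ range J, u j ≤ Ssum P (cf P blk b J) τ ∅ := by
    rw [hudef]; exact hm1
  -- bounds for the blocks
  have hexpS : ∀ j < J, Real.exp S ≤ K * u j := by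
    intro j hj
    calc Real.exp S = K * Real.exp (-(2 * S)) := by
          rw [hKdef, ← Real.exp_add]; congr 1; ring
      _ ≤ K * u j := mul_le_mul_of_nonneg_left (hul j hj) hK0.le
  have hτB : ∀ j, ∀ p ∈ PB P blk j, 0 ≤ τ p := fun j p hp => h0 p (Finset.mem_filter.mp hp).1
  obtain ⟨T, hTdef⟩ : ∃ T : Finset ℕ, T = (range J).filter (fun j => ¬ Disjoint E (PB P blk j)) :=
    ⟨_, rfl⟩
  have hTsub : T ⊆ E.image blk := by
    intro j hj
    rw [hTdef, Finset.mem_filter, Finset.not_disjoint_iff] at hj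
    obtain ⟨_, p, hp, hpB⟩ := hj
    exact Finset.mem_image.mpr ⟨p, hp, (Finset.mem_filter.mp hpB).2⟩
  have hTcard : T.card ≤ E.card := (Finset.card_le_card hTsub).trans Finset.card_image_le
  have hT1 : 1 ≤ T.card := by
    obtain ⟨p, hp⟩ := hne
    have : blk p ∈ T := by
      rw [hTdef, Finset.mem_filter, Finset.not_disjoint_iff]
      exact ⟨Finset.mem_range.mpr (hb p (hE hp)), p, hp, Finset.mem_filter.mpr ⟨hE hp, rfl⟩⟩
    exact Finset.card_pos.mpr ⟨_, this⟩
  have hTJ : T ⊆ range J := by rw [hTdef]; exact Finset.filter_subset _ _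
  obtain ⟨a, ha⟩ : ∃ a : ℕ → ℝ, a = fun j => if j ∈ T then K else 1 := ⟨_, rfl⟩
  obtain ⟨d, hd⟩ : ∃ d : ℕ → ℝ, d = fun j => if j ∈ T then 1 else η j := ⟨_, rfl⟩
  have ha1 : ∀ j, 1 ≤ a j := by
    intro j; rw [ha]; dsimp only; split_ifs
    · exact hK1
    · exact le_rfl
  have hd0 : ∀ j, 0 ≤ d j := by
    intro j; rw [hd]; dsimp only; split_ifs
    · exact zero_le_one
    · exact hη0 j
  have hal : ∀ j < J, |al τ E (PB P blk j) (b j)| ≤ a j * u j := by
    intro j hj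
    by_cases hjT : j ∈ T
    · have : a j = K := by rw [ha]; exact if_pos hjT
      rw [this]
      exact (al_abs _ E τ (hτB j) S (hS j hj) (b j)).1.trans (hexpS j hj)
    · have : a j = 1 := by rw [ha]; exact if_neg hjT
      have hdis : Disjoint E (PB P blk j) := by
        by_contra hc
        exact hjT (by rw [hTdef]; exact Finset.mem_filter.mpr ⟨Finset.mem_range.mpr hj, hc⟩)
      rw [this, (al_disj _ E τ hdis (b j)).1, huj j, abs_of_pos (hup j hj), one_mul]
  have hbe : ∀ j < J, |be τ E (PB P blk j) (b j)| ≤ d j * (a j * u j) := by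
    intro j hj
    by_cases hjT : j ∈ T
    · have h1 : a j = K := by rw [ha]; exact if_pos hjT
      have h2 : d j = 1 := by rw [hd]; exact if_pos hjT
      rw [h1, h2, one_mul]
      exact (al_abs _ E τ (hτB j) S (hS j hj) (b j)).2.trans (hexpS j hj)
    · have h1 : a j = 1 := by rw [ha]; exact if_neg hjT
      have h2 : d j = η j := by rw [hd]; exact if_neg hjT
      have hdis : Disjoint E (PB P blk j) := by
        by_contra hc
        exact hjT (by rw [hTdef]; exact Finset.mem_filter.mpr ⟨Finset.mem_range.mpr hj, hc⟩)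
      rw [h1, h2, one_mul, (al_disj _ E τ hdis (b j)).2]
      refine (be_abs _ τ (hτB j) S (hS j hj) (b j)).trans ?_
      have h3 : 0 ≤ S ^ (2 * b j + 1) / ((2 * b j + 1).factorial : ℝ) := by positivity
      calc S ^ (2 * b j + 1) / ((2 * b j + 1).factorial : ℝ)
          = η j * Real.exp (-(2 * S)) := by
            rw [← hηj j, mul_assoc, mul_comm (S ^ (2 * b j + 1) / _) _, ← mul_assoc, ← Real.exp_add,
              add_neg_cancel, Real.exp_zero, one_mul]
        _ ≤ η j * u j := mul_le_mul_of_nonneg_left (hul j hj) (hη0 j)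
  have hau : ∀ j < J, 0 ≤ a j * u j := fun j hj =>
    mul_nonneg (by linarith [ha1 j]) (hup j hj).le
  have hPa : ∏ j ∈ range J, (a j * u j) = K ^ T.card * ∏ j ∈ range J, u j := by
    rw [Finset.prod_mul_distrib]
    congr 1
    rw [ha, Finset.prod_ite, Finset.prod_const, Finset.prod_const, one_pow, mul_one]
    congr 2
    ext j
    rw [Finset.mem_filter]
    exact ⟨fun h => h.2, fun h => ⟨hTJ h, h⟩⟩
  have hds : ∑ j ∈ range J, d j ≤ T.card + 1 / 2 := by
    calc ∑ j ∈ range J, d j ≤ ∑ j ∈ range J, ((if j ∈ T then 1 else 0) + η j) := by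
          refine Finset.sum_le_sum fun j _ => ?_
          rw [hd]; dsimp only
          split_ifs
          · linarith [hη0 j]
          · linarith
      _ = (T.card : ℝ) + ∑ j ∈ range J, η j := by
          rw [Finset.sum_add_distrib, Finset.sum_ite_mem, Finset.inter_eq_right.mpr hTJ]
          simp
      _ ≤ T.card + 1 / 2 := by linarith
  have hSs : |Ssum P (cf P blk b J) τ E| ≤
      (K ^ T.card * ∏ j ∈ range J, u j) * (3 / 2 + T.card) := by
    rw [ssum_eq P blk b J hb τ E hE]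
    have e1 : |∏ j ∈ range J, al τ E (PB P blk j) (b j)| ≤ ∏ j ∈ range J, (a j * u j) := by
      rw [Finset.abs_prod]
      exact Finset.prod_le_prod (fun j _ => abs_nonneg _) fun j hj => hal j (Finset.mem_range.mp hj)
    have e2 : |∑ i ∈ range J, be τ E (PB P blk i) (b i) *
        ∏ j ∈ (range J).erase i, al τ E (PB P blk j) (b j)| ≤
        ∑ i ∈ range J, d i * ∏ j ∈ range J, (a j * u j) := by
      refine (Finset.abs_sum_le_sum_abs _ _).trans (Finset.sum_le_sum fun i hi => ?_)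
      rw [abs_mul, Finset.abs_prod, ← Finset.mul_prod_erase _ _ hi, ← mul_assoc]
      refine mul_le_mul (hbe i (Finset.mem_range.mp hi)) ?_ ?_ ?_
      · exact Finset.prod_le_prod (fun j _ => abs_nonneg _) fun j hj =>
          hal j (Finset.mem_range.mp (Finset.mem_of_mem_erase hj))
      · exact Finset.prod_nonneg fun j _ => abs_nonneg _
      · exact mul_nonneg (hd0 i) (hau i (Finset.mem_range.mp hi))
    have hnn : 0 ≤ ∏ j ∈ range J, (a j * u j) :=
      Finset.prod_nonneg fun j hj => hau j (Finset.mem_range.mp hj)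
    rw [← Finset.sum_mul] at e2
    refine (abs_add_le _ _).trans ((add_le_add e1 e2).trans ?_)
    rw [← hPa]
    nlinarith [mul_le_mul_of_nonneg_right hds hnn]
  have h3k : (3 / 2 + (T.card : ℝ)) ≤ 3 ^ T.card := by
    have : ∀ k : ℕ, 1 ≤ k → (3 / 2 + (k : ℝ)) ≤ 3 ^ k := by
      intro k hk
      induction k, hk using Nat.le_induction with
      | base => norm_num
      | succ n hn ih =>
        rw [pow_succ]
        push_cast
        have : (0 : ℝ) ≤ n := Nat.cast_nonneg n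
        linarith
    exact this _ hT1
  have hSs2 : |Ssum P (cf P blk b J) τ E| ≤ (3 * K) ^ E.card * ∏ j ∈ range J, u j := by
    refine hSs.trans ?_
    have h4 : K ^ T.card * (3 / 2 + (T.card : ℝ)) ≤ (3 * K) ^ E.card := by
      calc K ^ T.card * (3 / 2 + (T.card : ℝ)) ≤ K ^ T.card * 3 ^ T.card :=
            mul_le_mul_of_nonneg_left h3k (by positivity)
        _ = (3 * K) ^ T.card := by rw [mul_pow]; ring
        _ ≤ (3 * K) ^ E.card := pow_le_pow_right₀ (by linarith) hTcard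
    calc (K ^ T.card * ∏ j ∈ range J, u j) * (3 / 2 + (T.card : ℝ))
        = (K ^ T.card * (3 / 2 + (T.card : ℝ))) * ∏ j ∈ range J, u j := by ring
      _ ≤ _ := mul_le_mul_of_nonneg_right h4 hprod.le
  have hτE : ∏ p ∈ E, τ p ≤ ρ ^ E.card := by
    rw [← Finset.prod_const]
    exact Finset.prod_le_prod (fun p hp => h0 p (hE hp)) fun p hp => hρ p (hE hp)
  have hτE0 : 0 ≤ ∏ p ∈ E, τ p := Finset.prod_nonneg fun p hp => h0 p (hE hp)
  have hρ1' : 3 * K * ρ ≤ 1 := by rw [hKdef]; exact hρ1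
  have hx0 : 0 ≤ 3 * K * ρ := by positivity
  have hc1 : 1 ≤ E.card := hT1.trans hTcard
  calc (∏ p ∈ E, τ p) * |Ssum P (cf P blk b J) τ E|
      ≤ ρ ^ E.card * ((3 * K) ^ E.card * ∏ j ∈ range J, u j) :=
        mul_le_mul hτE hSs2 (abs_nonneg _) (by positivity)
    _ = (3 * K * ρ) ^ E.card * ∏ j ∈ range J, u j := by rw [mul_pow (3 * K) ρ]; ring
    _ ≤ (3 * K * ρ) * ∏ j ∈ range J, u j := by
        refine mul_le_mul_of_nonneg_right ?_ hprod.le
        calc (3 * K * ρ) ^ E.card ≤ (3 * K * ρ) ^ 1 := pow_le_pow_of_le_one hx0 hρ1' hc1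
          _ = _ := pow_one _
    _ ≤ (3 * K * ρ) * (2 * Ssum P (cf P blk b J) τ ∅) :=
        mul_le_mul_of_nonneg_left (by linarith) hx0
    _ = 6 * Real.exp (3 * S) * ρ * Ssum P (cf P blk b J) τ ∅ := by rw [hKdef]; ring

end Pool.Agent.Lib.DG
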