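import Pool.Agent.Lib.MP_1a9bf8_co.Defs

/-!
# CHB: choice of `b0`
The terms are tails of the exponential series: `sum_j S^(2(b0+j)+1)/(2(b0+j)+1)! <= sum_(k >= 2 b0 + 1) S^k/k!`,
which tends to `0` (Real.summable_pow_div_factorial).
-/

set_option autoImplicit false

namespace Pool.Agent.Lib.DG

open Finset

theorem chb (S M : ℝ) (hS : 0 ≤ S) (hM : 0 ≤ M) : ∃ b0 : ℕ, ∀ J : ℕ,
    ∑ j ∈ range J, M * (S ^ (2 * (b0 + j) + 1) / (2 * (b0 + j) + 1).factorial) ≤ 1 / 2 := by
  have hsum : Summable fun k : ℕ => M * (S ^ k / (k.factorial : ℝ)) :=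
    (Real.summable_pow_div_factorial S).mul_left M
  have hinj : Function.Injective fun j : ℕ => 2 * j + 1 := fun a b h => by
    simp only at h
    omega
  have hg : Summable fun j : ℕ => M * (S ^ (2 * j + 1) / ((2 * j + 1).factorial : ℝ)) :=
    hsum.comp_injective hinj
  have ht := tendsto_sum_nat_add fun j : ℕ => M * (S ^ (2 * j + 1) / ((2 * j + 1).factorial : ℝ))
  have h1 := (ht.eventually (gt_mem_nhds (show (0 : ℝ) < 1 / 2 by norm_num))).exists
  obtain ⟨b0, hb⟩ := h1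
  refine ⟨b0, fun J => ?_⟩
  have h2 : ∑ j ∈ range J, M * (S ^ (2 * (b0 + j) + 1) / (2 * (b0 + j) + 1).factorial) ≤
      ∑' j : ℕ, M * (S ^ (2 * (j + b0) + 1) / ((2 * (j + b0) + 1).factorial : ℝ)) := by
    have h3 : ∑ j ∈ range J, M * (S ^ (2 * (b0 + j) + 1) / (2 * (b0 + j) + 1).factorial) =
        ∑ j ∈ range J, M * (S ^ (2 * (j + b0) + 1) / ((2 * (j + b0) + 1).factorial : ℝ)) :=
      sum_congr rfl fun j _ => by rw [add_comm b0 j]
    rw [h3]
    exact Summable.sum_le_tsum _ (fun j _ => by positivity) ((summable_nat_add_iff b0).2 hg)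
  exact h2.trans hb.le

end Pool.Agent.Lib.DG
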