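import Pool.Agent.Lib.MP_1a9bf8_co.Defs

/-!
# CNT: counting distances
For `m ≠ 0` in the image: `sum over pairs with nq (a-b) = m of 1/r(m) <= (1/r(m)) * sum over z of norm m of
#{(a,b) : a - b = z} <= (1/r(m)) r(m) |B|`.
-/

set_option autoImplicit false

namespace Pool.Agent.Lib.DG

open Finset

theorem cnt_fib (A : Finset (ℤ × ℤ)) (b : ℤ × ℤ) (m : ℕ) :
    (A.filter (fun a => nq (a - b) = m)).card ≤ rp m := by
  unfold rp
  refine Finset.card_le_card_of_injOn (fun a => a - b) ?_ ?_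
  · intro a ha
    have h := (Finset.mem_filter.1 ha).2
    have h1 : (a - b).1.natAbs ≤ m := by
      unfold nq at h
      nlinarith [Nat.zero_le ((a - b).2.natAbs ^ 2), Nat.le_self_pow (two_ne_zero) (a - b).1.natAbs]
    have h2 : (a - b).2.natAbs ≤ m := by
      unfold nq at h
      nlinarith [Nat.zero_le ((a - b).1.natAbs ^ 2), Nat.le_self_pow (two_ne_zero) (a - b).2.natAbs]
    have h3 : -(m : ℤ) ≤ (a - b).1 ∧ (a - b).1 ≤ m := by omega
    have h4 : -(m : ℤ) ≤ (a - b).2 ∧ (a - b).2 ≤ m := by omega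
    rw [Finset.mem_coe, Finset.mem_filter, Finset.mem_product, Finset.mem_Icc, Finset.mem_Icc]
    exact ⟨⟨h3, h4⟩, h⟩
  · intro a _ a' _ haa
    exact sub_left_injective haa

theorem cnt (A B : Finset (ℤ × ℤ)) :
    ∑ a ∈ A, ∑ b ∈ B, (if a = b then (0 : ℝ) else 1 / rp (nq (a - b))) ≤
      (B.card : ℝ) * ((A ×ˢ B).image (fun x => nq (x.1 - x.2))).card := by
  have hz : ∀ z : ℤ × ℤ, nq z = 0 → z = 0 := by
    intro z hz
    unfold nq at hz
    have h1 : z.1.natAbs = 0 := by
      have : z.1.natAbs ^ 2 = 0 := by omega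
      exact pow_eq_zero_iff (two_ne_zero) |>.1 this
    have h2 : z.2.natAbs = 0 := by
      have : z.2.natAbs ^ 2 = 0 := by omega
      exact pow_eq_zero_iff (two_ne_zero) |>.1 this
    exact Prod.ext (Int.natAbs_eq_zero.1 h1) (Int.natAbs_eq_zero.1 h2)
  rw [← Finset.sum_product']
  rw [← Finset.sum_fiberwise_of_maps_to (s := A ×ˢ B)
    (t := (A ×ˢ B).image (fun x => nq (x.1 - x.2))) (g := fun x => nq (x.1 - x.2))
    (fun x hx => Finset.mem_image_of_mem _ hx)]
  rw [mul_comm, ← nsmul_eq_mul]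
  refine Finset.sum_le_card_nsmul _ _ _ fun m _ => ?_
  by_cases hm : m = 0
  · refine le_trans (le_of_eq (Finset.sum_eq_zero fun x hx => ?_)) (Nat.cast_nonneg _)
    have h := (Finset.mem_filter.1 hx).2
    rw [if_pos]
    exact sub_eq_zero.1 (hz _ (h.trans hm))
  · have h1 : ∑ x ∈ (A ×ˢ B).filter (fun x => nq (x.1 - x.2) = m),
        (if x.1 = x.2 then (0 : ℝ) else 1 / rp (nq (x.1 - x.2))) ≤
        ∑ x ∈ (A ×ˢ B).filter (fun x => nq (x.1 - x.2) = m), 1 / (rp m : ℝ) := by
      refine Finset.sum_le_sum fun x hx => ?_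
      rw [(Finset.mem_filter.1 hx).2]
      split_ifs
      · positivity
      · exact le_rfl
    refine h1.trans ?_
    rw [Finset.sum_const, nsmul_eq_mul]
    have h2 : ((A ×ˢ B).filter (fun x => nq (x.1 - x.2) = m)).card ≤ B.card * rp m := by
      rw [Finset.card_eq_sum_card_fiberwise (f := Prod.snd) (t := B)
        (fun x hx => (Finset.mem_product.1 (Finset.mem_filter.1 hx).1).2)]
      rw [← smul_eq_mul]
      refine Finset.sum_le_card_nsmul _ _ _ fun b _ => ?_
      refine le_trans ?_ (cnt_fib A b m)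
      refine Finset.card_le_card_of_injOn Prod.fst ?_ ?_
      · intro x hx
        rw [Finset.mem_coe, Finset.mem_filter, Finset.mem_filter, Finset.mem_product] at hx
        rw [Finset.mem_coe, Finset.mem_filter, ← hx.2]
        exact ⟨hx.1.1.1, hx.1.2⟩
      · intro x hx x' hx' hxx
        rw [Finset.mem_coe, Finset.mem_filter] at hx hx'
        exact Prod.ext hxx (hx.2.trans hx'.2.symm)
    rcases Nat.eq_zero_or_pos (rp m) with h0 | h0
    · rw [h0, Nat.cast_zero, div_zero, mul_zero]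
      exact Nat.cast_nonneg _
    · have h3 : (0 : ℝ) < rp m := by exact_mod_cast h0
      rw [mul_one_div, div_le_iff₀ h3]
      exact_mod_cast h2

end Pool.Agent.Lib.DG
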