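import Pool.Agent.Lib.MP_1a9bf8_co.DefsT

/-!
# CNTT: counting distances (as CNT; every `z` with `nqT z = m >= 1` has coordinates `<= 2 m`)
-/

set_option autoImplicit false

namespace Pool.Agent.Lib.DG

open Finset

theorem cntT_nq (z : ℤ × ℤ) : ((nqT z : ℕ) : ℤ) = z.1 ^ 2 + z.1 * z.2 + z.2 ^ 2 := by
  unfold nqT
  rw [Int.natCast_natAbs, abs_of_nonneg]
  nlinarith [sq_nonneg (z.1 + z.2), sq_nonneg z.1, sq_nonneg z.2]

theorem cntT_size (z : ℤ × ℤ) (m : ℕ) (h : nqT z = m) :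
    (-(2 * m : ℤ) ≤ z.1 ∧ z.1 ≤ 2 * m) ∧ (-(2 * m : ℤ) ≤ z.2 ∧ z.2 ≤ 2 * m) := by
  have h1 := cntT_nq z
  rw [h] at h1
  have h2 : 3 * z.1 ^ 2 ≤ 4 * m := by nlinarith [sq_nonneg (z.1 + 2 * z.2)]
  have h3 : 3 * z.2 ^ 2 ≤ 4 * m := by nlinarith [sq_nonneg (2 * z.1 + z.2)]
  have h0 : (0 : ℤ) ≤ m := Int.natCast_nonneg m
  have key : ∀ x : ℤ, 3 * x ^ 2 ≤ 4 * m → -(2 * m : ℤ) ≤ x ∧ x ≤ 2 * m := by
    intro x hx
    constructor
    · by_contra hc
      rw [not_le] at hc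
      nlinarith
    · by_contra hc
      rw [not_le] at hc
      nlinarith
  exact ⟨key _ h2, key _ h3⟩

theorem cntT_zero (z : ℤ × ℤ) (hz : nqT z = 0) : z = 0 := by
  have h1 := cntT_nq z
  rw [hz, Nat.cast_zero] at h1
  have h2 : z.1 ^ 2 = 0 := by
    have h4 := sq_nonneg (z.1 + 2 * z.2)
    have h5 := sq_nonneg z.1
    nlinarith
  have h3 : z.2 ^ 2 = 0 := by
    have h4 := sq_nonneg (2 * z.1 + z.2)
    have h5 := sq_nonneg z.2
    nlinarith
  exact Prod.ext (pow_eq_zero_iff (two_ne_zero) |>.1 h2) (pow_eq_zero_iff (two_ne_zero) |>.1 h3)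

theorem cntT_fib (A : Finset (ℤ × ℤ)) (b : ℤ × ℤ) (m : ℕ) :
    (A.filter (fun a => nqT (a - b) = m)).card ≤ rpT m := by
  unfold rpT
  refine Finset.card_le_card_of_injOn (fun a => a - b) ?_ ?_
  · intro a ha
    have h := (Finset.mem_filter.1 ha).2
    rw [Finset.mem_coe, Finset.mem_filter, Finset.mem_product, Finset.mem_Icc, Finset.mem_Icc]
    exact ⟨cntT_size _ m h, h⟩
  · intro a _ a' _ haa
    exact sub_left_injective haa

theorem cntT (A B : Finset (ℤ × ℤ)) :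
    ∑ a ∈ A, ∑ b ∈ B, (if a = b then (0 : ℝ) else 1 / rpT (nqT (a - b))) ≤
      (B.card : ℝ) * ((A ×ˢ B).image (fun x => nqT (x.1 - x.2))).card := by
  rw [← Finset.sum_product']
  rw [← Finset.sum_fiberwise_of_maps_to (s := A ×ˢ B)
    (t := (A ×ˢ B).image (fun x => nqT (x.1 - x.2))) (g := fun x => nqT (x.1 - x.2))
    (fun x hx => Finset.mem_image_of_mem _ hx)]
  rw [mul_comm, ← nsmul_eq_mul]
  refine Finset.sum_le_card_nsmul _ _ _ fun m _ => ?_
  by_cases hm : m = 0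
  · refine le_trans (le_of_eq (Finset.sum_eq_zero fun x hx => ?_)) (Nat.cast_nonneg _)
    have h := (Finset.mem_filter.1 hx).2
    rw [if_pos]
    exact sub_eq_zero.1 (cntT_zero _ (h.trans hm))
  · have h1 : ∑ x ∈ (A ×ˢ B).filter (fun x => nqT (x.1 - x.2) = m),
        (if x.1 = x.2 then (0 : ℝ) else 1 / rpT (nqT (x.1 - x.2))) ≤
        ∑ x ∈ (A ×ˢ B).filter (fun x => nqT (x.1 - x.2) = m), 1 / (rpT m : ℝ) := by
      refine Finset.sum_le_sum fun x hx => ?_
      rw [(Finset.mem_filter.1 hx).2]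
      split_ifs
      · positivity
      · exact le_rfl
    refine h1.trans ?_
    rw [Finset.sum_const, nsmul_eq_mul]
    have h2 : ((A ×ˢ B).filter (fun x => nqT (x.1 - x.2) = m)).card ≤ B.card * rpT m := by
      rw [Finset.card_eq_sum_card_fiberwise (f := Prod.snd) (t := B)
        (fun x hx => (Finset.mem_product.1 (Finset.mem_filter.1 hx).1).2)]
      rw [← smul_eq_mul]
      refine Finset.sum_le_card_nsmul _ _ _ fun b _ => ?_
      refine le_trans ?_ (cntT_fib A b m)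
      refine Finset.card_le_card_of_injOn Prod.fst ?_ ?_
      · intro x hx
        rw [Finset.mem_coe, Finset.mem_filter, Finset.mem_filter, Finset.mem_product] at hx
        rw [Finset.mem_coe, Finset.mem_filter, ← hx.2]
        exact ⟨hx.1.1.1, hx.1.2⟩
      · intro x hx x' hx' hxx
        rw [Finset.mem_coe, Finset.mem_filter] at hx hx'
        exact Prod.ext hxx (hx.2.trans hx'.2.symm)
    rcases Nat.eq_zero_or_pos (rpT m) with h0 | h0
    · rw [h0, Nat.cast_zero, div_zero, mul_zero]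
      exact Nat.cast_nonneg _
    · have h3 : (0 : ℝ) < rpT m := by exact_mod_cast h0
      rw [mul_one_div, div_le_iff₀ h3]
      exact_mod_cast h2

end Pool.Agent.Lib.DG
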