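import Mathlib

/-!
# MP_1a9bf8_co: cross distances of dense subsets of the integer grid, definitions

THEOREM (FIN).  For every C > 0 there is c > 0 such that for all n >= 1 and all n-point sets A, B of the
plane that lie in a square lattice patch of side 2 C sqrt n one has |D(A,B)| >= c n / sqrt(log 2n) and
|D(A,B)| >= c f(2n).

PLAN.  `nq z = x^2 + y^2`.  For an odd prime `p = 1 mod 4` put `T p z = 1` if `p^2 | nq z`, `1/2` if
`p || nq z`, `0` otherwise; then `1 - T p z <= 1/(v_p(nq z) + 1)`.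
(1) REP, CNT: `|D| * |B| >= sum over pairs of 1/r(nq (a-b))`, `r(m) <= 4 prod (v_p(m) + 1)`.
(2) SML: pass to residue classes modulo a fixed `Q` so that primes `<= w` cost a constant.
(3) BIG: primes `> y = N^(1/s)` cost a constant.
(4) SIE: for the primes in `(w, y]` the sum over pairs of `prod (1 - T p (a-b))` is at least
`1/4 prod (1 - tau p) |A| |B|`: Brun-Hooley truncation (coefficients `cf`, supported on level `D`), and
equidistribution LEV of `a - b` for dense sets up to level `N^(1/9)`: Bessel inequality for characters of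
denominator `m^2`, `m <= D`; the Fourier coefficients at nonzero characters are at most
`K rho * main term`, `rho = max tau p <= C0 / w`.
(5) PRD: `prod (1 - tau p) >= c / sqrt (log y)` (Mertens modulo 4, in the pool).
-/

set_option autoImplicit false

namespace Pool.Agent.Lib.DG

open Finset

/-- the square norm -/
def nq (z : ℤ × ℤ) : ℕ := z.1.natAbs ^ 2 + z.2.natAbs ^ 2

/-- the box `[0, N) ^ 2` -/
noncomputable def box (N : ℕ) : Finset (ℤ × ℤ) := Finset.Ico (0 : ℤ) N ×ˢ Finset.Ico (0 : ℤ) N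

/-- number of integer points of square norm `m` -/
noncomputable def rp (m : ℕ) : ℕ :=
  ((Finset.Icc (-(m : ℤ)) m ×ˢ Finset.Icc (-(m : ℤ)) m).filter (fun z => nq z = m)).card

/-- local functions: values in `[0,1]`, periodic modulo `p ^ 2`, mean value `τ` -/
structure Loc (T : ℤ × ℤ → ℝ) (p : ℕ) (τ : ℝ) : Prop where
  nonneg : ∀ z, 0 ≤ T z
  le_one : ∀ z, T z ≤ 1
  per : ∀ z w : ℤ × ℤ, T (z + ((p : ℤ) ^ 2) • w) = T z
  mean : ∑ x ∈ Finset.range (p ^ 2), ∑ y ∈ Finset.range (p ^ 2), T ((x : ℤ), (y : ℤ)) = τ * (p : ℝ) ^ 4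

/-- the block `j` of `P` -/
def PB (P : Finset ℕ) (blk : ℕ → ℕ) (j : ℕ) : Finset ℕ := P.filter (fun p => blk p = j)

/-- indicator of at most `2 β` elements -/
noncomputable def av (β : ℕ) (m : Finset ℕ) : ℝ := if m.card ≤ 2 * β then 1 else 0

/-- indicator of exactly `2 β + 1` elements -/
noncomputable def ev (β : ℕ) (m : Finset ℕ) : ℝ := if m.card = 2 * β + 1 then 1 else 0

/-- the sieve coefficients -/
noncomputable def cf (P : Finset ℕ) (blk b : ℕ → ℕ) (J : ℕ) (n : Finset ℕ) : ℝ :=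
  (-1) ^ n.card * (∏ j ∈ range J, av (b j) (n ∩ PB P blk j) +
    ∑ i ∈ range J, ev (b i) (n ∩ PB P blk i) *
      ∏ j ∈ (range J).erase i, av (b j) (n ∩ PB P blk j))

/-- `sum over E ⊆ n ⊆ P of c n * prod over n \ E of τ` -/
noncomputable def Ssum (P : Finset ℕ) (c : Finset ℕ → ℝ) (τ : ℕ → ℝ) (E : Finset ℕ) : ℝ :=
  ∑ n ∈ P.powerset with E ⊆ n, c n * ∏ p ∈ n \ E, τ p

/-- one block, at most `2 β` primes -/
noncomputable def al (τ : ℕ → ℝ) (E Q : Finset ℕ) (β : ℕ) : ℝ :=
  ∑ m ∈ Q.powerset with E ∩ Q ⊆ m, av β m * ((-1) ^ m.card * ∏ p ∈ m \ E, τ p)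

/-- one block, exactly `2 β + 1` primes -/
noncomputable def be (τ : ℕ → ℝ) (E Q : Finset ℕ) (β : ℕ) : ℝ :=
  ∑ m ∈ Q.powerset with E ∩ Q ⊆ m, ev β m * ((-1) ^ m.card * ∏ p ∈ m \ E, τ p)

/-- the local function of the problem -/
noncomputable def T0 (p : ℕ) (z : ℤ × ℤ) : ℝ :=
  if p ^ 2 ∣ nq z then 1 else if p ∣ nq z then 1 / 2 else 0

/-- its mean value -/
noncomputable def tau0 (p : ℕ) : ℝ :=
  (∑ x ∈ Finset.range (p ^ 2), ∑ y ∈ Finset.range (p ^ 2), T0 p ((x : ℤ), (y : ℤ))) / (p : ℝ) ^ 4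

/-- the primes of the sieve -/
noncomputable def PP (w y : ℕ) : Finset ℕ := (Finset.Ioc w y).filter (fun p => p.Prime ∧ p % 4 = 1)

end Pool.Agent.Lib.DG
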