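import Pool.Agent.Lib.MP_1a9bf8_co.Defs

/-!
# Triangular lattice version, definitions (`nqT z = x^2 + x y + y^2`, primes `1 mod 3`)
-/

set_option autoImplicit false

namespace Pool.Agent.Lib.DG

open Finset

/-- the norm form of the triangular lattice -/
def nqT (z : ℤ × ℤ) : ℕ := (z.1 ^ 2 + z.1 * z.2 + z.2 ^ 2).natAbs

/-- number of integer points with `nqT z = m` -/
noncomputable def rpT (m : ℕ) : ℕ :=
  ((Finset.Icc (-(2 * m : ℤ)) (2 * m) ×ˢ Finset.Icc (-(2 * m : ℤ)) (2 * m)).filter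
    (fun z => nqT z = m)).card

/-- the local function -/
noncomputable def TT (p : ℕ) (z : ℤ × ℤ) : ℝ :=
  if p ^ 2 ∣ nqT z then 1 else if p ∣ nqT z then 1 / 2 else 0

/-- its mean value -/
noncomputable def tauT (p : ℕ) : ℝ :=
  (∑ x ∈ Finset.range (p ^ 2), ∑ y ∈ Finset.range (p ^ 2), TT p ((x : ℤ), (y : ℤ))) / (p : ℝ) ^ 4

/-- the primes of the sieve -/
noncomputable def PPT (w y : ℕ) : Finset ℕ := (Finset.Ioc w y).filter (fun p => p.Prime ∧ p % 3 = 1)

end Pool.Agent.Lib.DG
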