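import Pool.Agent.Lib.MP_1a9bf8_co.Defs

/-!
# FACT: distributive law over the blocks
Proof: induction on `J` (for all `P`); `P = P' ∪ PB P blk J`, disjoint, `P' = P.filter (blk · < J)`; the
powerset of a disjoint union is the product of the powersets; for `j < J` the set `n ∩ PB P blk j` only
sees `n ∩ P'`.  (Or Finset.prod_univ_sum / Finset.prod_sum with a bijection.)
-/

set_option autoImplicit false

namespace Pool.Agent.Lib.DG

open Finset

theorem fact_sum {P₁ P₂ : Finset ℕ} (hd : Disjoint P₁ P₂) (F : Finset ℕ → ℝ) :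
    ∑ n ∈ (P₁ ∪ P₂).powerset, F n = ∑ x ∈ P₁.powerset ×ˢ P₂.powerset, F (x.1 ∪ x.2) := by
  refine Finset.sum_bij' (fun n _ => (n ∩ P₁, n ∩ P₂)) (fun x _ => x.1 ∪ x.2) ?_ ?_ ?_ ?_ ?_
  · intro n hn
    rw [mem_product, mem_powerset, mem_powerset]
    exact ⟨inter_subset_right, inter_subset_right⟩
  · intro x hx
    rw [mem_product, mem_powerset, mem_powerset] at hx
    rw [mem_powerset]
    exact union_subset_union hx.1 hx.2
  · intro n hn
    rw [mem_powerset] at hn
    show n ∩ P₁ ∪ n ∩ P₂ = n
    rw [← inter_union_distrib_left]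
    exact inter_eq_left.2 hn
  · intro x hx
    rw [mem_product, mem_powerset, mem_powerset] at hx
    obtain ⟨a, b⟩ := x
    obtain ⟨h1, h2⟩ := hx
    have h1' : a ⊆ P₁ := h1
    have h2' : b ⊆ P₂ := h2
    rw [Finset.disjoint_left] at hd
    show ((a ∪ b) ∩ P₁, (a ∪ b) ∩ P₂) = (a, b)
    refine Prod.ext ?_ ?_
    · ext y
      simp only [mem_inter, mem_union]
      constructor
      · rintro ⟨h | h, h3⟩
        · exact h
        · exact absurd (h2' h) (hd h3)
      · intro h
        exact ⟨Or.inl h, h1' h⟩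
    · ext y
      simp only [mem_inter, mem_union]
      constructor
      · rintro ⟨h | h, h3⟩
        · exact absurd h3 (hd (h1' h))
        · exact h
      · intro h
        exact ⟨Or.inr h, h2' h⟩
  · intro n hn
    rw [mem_powerset] at hn
    show F n = F (n ∩ P₁ ∪ n ∩ P₂)
    rw [← inter_union_distrib_left, inter_eq_left.2 hn]

theorem fact (P : Finset ℕ) (blk : ℕ → ℕ) (J : ℕ) (hb : ∀ p ∈ P, blk p < J)
    (h : ℕ → Finset ℕ → ℝ) :
    ∑ n ∈ P.powerset, ∏ j ∈ range J, h j (n ∩ PB P blk j) =
      ∏ j ∈ range J, ∑ m ∈ (PB P blk j).powerset, h j m := by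
  induction J generalizing P with
  | zero =>
    have hP : P = ∅ := by
      rw [Finset.eq_empty_iff_forall_notMem]
      intro p hp
      exact absurd (hb p hp) (Nat.not_lt_zero _)
    subst hP
    simp
  | succ J ih =>
    obtain ⟨P₁, hP₁⟩ : ∃ P₁ : Finset ℕ, P₁ = P.filter (fun p => blk p < J) := ⟨_, rfl⟩
    obtain ⟨P₂, hP₂⟩ : ∃ P₂ : Finset ℕ, P₂ = PB P blk J := ⟨_, rfl⟩
    have hd : Disjoint P₁ P₂ := by
      rw [Finset.disjoint_left, hP₁, hP₂]
      intro p h1 h2
      unfold PB at h2
      rw [mem_filter] at h1 h2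
      omega
    have hu : P₁ ∪ P₂ = P := by
      rw [hP₁, hP₂]
      unfold PB
      ext p
      rw [mem_union, mem_filter, mem_filter]
      constructor
      · rintro (h1 | h1)
        · exact h1.1
        · exact h1.1
      · intro h1
        have := hb p h1
        by_cases h2 : blk p < J
        · exact Or.inl ⟨h1, h2⟩
        · exact Or.inr ⟨h1, by omega⟩
    have hPB : ∀ j ∈ range J, PB P₁ blk j = PB P blk j := by
      intro j hj
      rw [mem_range] at hj
      rw [hP₁]
      unfold PB
      ext p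
      rw [mem_filter, mem_filter, mem_filter]
      constructor
      · rintro ⟨⟨h1, -⟩, h2⟩
        exact ⟨h1, h2⟩
      · rintro ⟨h1, h2⟩
        exact ⟨⟨h1, by omega⟩, h2⟩
    have hsub : ∀ j ∈ range J, PB P blk j ⊆ P₁ := by
      intro j hj
      rw [← hPB j hj]
      exact filter_subset _ _
    have h1 : ∑ n ∈ P.powerset, ∏ j ∈ range (J + 1), h j (n ∩ PB P blk j) =
        ∑ x ∈ P₁.powerset ×ˢ P₂.powerset,
          ∏ j ∈ range (J + 1), h j ((x.1 ∪ x.2) ∩ PB P blk j) := by
      rw [← hu]
      exact fact_sum hd (fun n => ∏ j ∈ range (J + 1), h j (n ∩ PB (P₁ ∪ P₂) blk j))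
    have h2 : ∀ x ∈ P₁.powerset ×ˢ P₂.powerset,
        ∏ j ∈ range (J + 1), h j ((x.1 ∪ x.2) ∩ PB P blk j) =
          (∏ j ∈ range J, h j (x.1 ∩ PB P₁ blk j)) * h J x.2 := by
      intro x hx
      rw [mem_product, mem_powerset, mem_powerset] at hx
      obtain ⟨hx1, hx2⟩ := hx
      rw [Finset.disjoint_left] at hd
      rw [prod_range_succ]
      congr 1
      · refine prod_congr rfl fun j hj => ?_
        have h3 : (x.1 ∪ x.2) ∩ PB P blk j = x.1 ∩ PB P₁ blk j := by
          rw [hPB j hj]
          ext p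
          simp only [mem_inter, mem_union]
          constructor
          · rintro ⟨h4 | h4, h5⟩
            · exact ⟨h4, h5⟩
            · exact absurd (hx2 h4) (hd (hsub j hj h5))
          · rintro ⟨h4, h5⟩
            exact ⟨Or.inl h4, h5⟩
        rw [h3]
      · have h3 : (x.1 ∪ x.2) ∩ PB P blk J = x.2 := by
          rw [← hP₂]
          ext p
          simp only [mem_inter, mem_union]
          constructor
          · rintro ⟨h4 | h4, h5⟩
            · exact absurd h5 (hd (hx1 h4))
            · exact h4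
          · intro h4
            exact ⟨Or.inr h4, hx2 h4⟩
        rw [h3]
    rw [h1, sum_congr rfl h2, sum_product, prod_range_succ]
    have h3 : ∀ a ∈ P₁.powerset, ∑ b ∈ P₂.powerset,
        (∏ j ∈ range J, h j (a ∩ PB P₁ blk j)) * h J b =
        (∏ j ∈ range J, h j (a ∩ PB P₁ blk j)) * ∑ b ∈ P₂.powerset, h J b := by
      intro a _
      rw [mul_sum]
    rw [sum_congr rfl h3, ← sum_mul]
    have h4 : ∀ p ∈ P₁, blk p < J := by
      intro p hp
      rw [hP₁, mem_filter] at hp
      exact hp.2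
    rw [ih P₁ h4, hP₂]
    congr 1
    exact prod_congr rfl fun j hj => by rw [hPB j hj]

end Pool.Agent.Lib.DG
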