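import Pool.Agent.Lib.MP_1a9bf8_co.MAIN
import Pool.Agent.Lib.MP_1a9bf8_co.UPP

/-!
# FIN: the theorem in the plane
`rot (u1,u2) = (-u2,u1)`.  If `p = o + x v + y rot v`, `p' = o + x' v + y' rot v` then `dist p p' = |v| sqrt(nq ((x,y) -
(x',y')))`.  `v ≠ 0` if `n >= 2`; for `n = 1` and all small `n` use `|D| >= 1`, `f(2n) <= (2n)^2`.  Shift by
`(⌊C sqrt n⌋, ⌊C sqrt n⌋)` into `box N`, `N = 2⌊C sqrt n⌋ + 1`, `n >= δ N^2`, and `log N <= C' log(2n)`, apply MAIN.
Upper bound for `f(2n)`: a `2n`-point subset of `box m`, `m = ⌈sqrt(2n)⌉`, and UPP.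
-/

set_option autoImplicit false

namespace Pool.Agent.Lib.DG

open Finset

/-- least number of distances of `N` points of the plane -/
noncomputable def fmin (N : ℕ) : ℕ :=
  sInf {k : ℕ | ∃ P : Finset (EuclideanSpace ℝ (Fin 2)), P.card = N ∧
    k = (P.offDiag.image fun x => dist x.1 x.2).card}

theorem fin_nq (z : ℤ × ℤ) : (nq z : ℝ) = (z.1 : ℝ) ^ 2 + (z.2 : ℝ) ^ 2 := by
  unfold nq
  push_cast
  rw [Nat.cast_natAbs, Nat.cast_natAbs]
  push_cast
  rw [sq_abs, sq_abs]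

theorem fin_dist (o v : EuclideanSpace ℝ (Fin 2)) (x y x' y' : ℝ) :
    dist (o + x • v + y • !₂[-(v 1), v 0]) (o + x' • v + y' • !₂[-(v 1), v 0]) =
      ‖v‖ * √((x - x') ^ 2 + (y - y') ^ 2) := by
  rw [EuclideanSpace.dist_eq, EuclideanSpace.norm_eq, ← Real.sqrt_mul (by positivity)]
  congr 1
  simp only [Fin.sum_univ_two, Real.dist_eq, sq_abs, Real.norm_eq_abs, PiLp.add_apply,
    PiLp.smul_apply, smul_eq_mul]
  simp
  ring

/-- a large subset of the plane is not in one point -/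
theorem fin_v {A : Finset (EuclideanSpace ℝ (Fin 2))} {o v : EuclideanSpace ℝ (Fin 2)}
    (h : ∀ p ∈ A, ∃ x y : ℤ, p = o + (x : ℝ) • v + (y : ℝ) • !₂[-(v 1), v 0])
    (hA : 2 ≤ A.card) : v ≠ 0 := by
  rintro rfl
  have h1 : A ⊆ {o} := by
    intro p hp
    obtain ⟨x, y, hxy⟩ := h p hp
    rw [mem_singleton, hxy]
    have h2 : (!₂[-((0 : EuclideanSpace ℝ (Fin 2)) 1), (0 : EuclideanSpace ℝ (Fin 2)) 0] :
        EuclideanSpace ℝ (Fin 2)) = 0 := by
      ext i
      fin_cases i <;> simp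
    rw [h2]
    simp
  have h3 := card_le_card h1
  rw [card_singleton] at h3
  omega

theorem fin_inj (o v : EuclideanSpace ℝ (Fin 2)) (hv : v ≠ 0) (A : Finset (ℤ × ℤ))
    (B : Finset (ℤ × ℤ)) :
    ((A ×ˢ B).image fun x => nq (x.1 - x.2)).card ≤
      ((A ×ˢ B).image fun x : (ℤ × ℤ) × (ℤ × ℤ) =>
        dist (o + (x.1.1 : ℝ) • v + (x.1.2 : ℝ) • !₂[-(v 1), v 0])
          (o + (x.2.1 : ℝ) • v + (x.2.2 : ℝ) • !₂[-(v 1), v 0])).card := by
  classical
  refine card_le_card_of_injOn (fun m : ℕ => ‖v‖ * √(m : ℝ)) ?_ ?_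
  · intro m hm
    obtain ⟨x, hx, rfl⟩ := mem_image.1 (mem_coe.1 hm)
    refine mem_coe.2 (mem_image.2 ⟨x, hx, ?_⟩)
    rw [fin_dist]
    show _ = ‖v‖ * √((nq (x.1 - x.2) : ℕ) : ℝ)
    rw [fin_nq]
    simp
  · intro m _ m' _ h
    have h0 : 0 < ‖v‖ := norm_pos_iff.2 hv
    have h1 : √(m : ℝ) = √(m' : ℝ) := mul_left_cancel₀ h0.ne' h
    have h2 : (m : ℝ) = m' := by
      have h3 := congrArg (fun t : ℝ => t ^ 2) h1
      simpa [Real.sq_sqrt (Nat.cast_nonneg m), Real.sq_sqrt (Nat.cast_nonneg m')] using h3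
    exact_mod_cast h2

theorem fin_low (C : ℝ) (hC : 0 < C) : ∃ c : ℝ, 0 < c ∧ ∃ n0 : ℕ, ∀ (n : ℕ)
    (A B : Finset (EuclideanSpace ℝ (Fin 2))), n0 ≤ n → 1 ≤ n → A.card = n → B.card = n →
    (∃ o v : EuclideanSpace ℝ (Fin 2), ∀ p ∈ A ∪ B, ∃ x y : ℤ, |(x : ℝ)| ≤ C * √n ∧
      |(y : ℝ)| ≤ C * √n ∧ p = o + (x : ℝ) • v + (y : ℝ) • !₂[-(v 1), v 0]) →
    c * n / √(Real.log (2 * n)) ≤ ((A ×ˢ B).image fun x => dist x.1 x.2).card := by
  classical
  obtain ⟨c1, hc1, N0, hmain⟩ := main_grid (1 / (2 * C + 1) ^ 2) (by positivity)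
  -- `log N ≤ K log (2 n)`
  set K : ℝ := Real.log (2 * C + 1) / Real.log 2 + 1 with hK
  have hlog2 : 0 < Real.log 2 := Real.log_pos (by norm_num)
  have hlogC : 0 < Real.log (2 * C + 1) := Real.log_pos (by linarith)
  have hKpos : 0 < K := by positivity
  refine ⟨c1 / √K, by positivity, max 2 (N0 ^ 2), ?_⟩
  intro n A B hn hn1 hA hB ⟨o, v, hov⟩
  have hn2 : 2 ≤ n := (le_max_left _ _).trans hn
  have hnN : N0 ^ 2 ≤ n := (le_max_right _ _).trans hn
  have hnpos : (0 : ℝ) < n := by exact_mod_cast hn1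
  have hv : v ≠ 0 := by
    refine fin_v (A := A) (o := o) (fun p hp => ?_) (by rw [hA]; exact hn2)
    obtain ⟨x, y, -, -, h⟩ := hov p (mem_union_left _ hp)
    exact ⟨x, y, h⟩
  set m : ℕ := ⌊C * √n⌋₊ with hm
  set N : ℕ := 2 * m + 1 with hN
  -- choice of the coordinates
  have hch : ∀ p : EuclideanSpace ℝ (Fin 2), ∃ z : ℤ × ℤ, p ∈ A ∪ B →
      (z ∈ box N ∧ p = (o - (m : ℝ) • v - (m : ℝ) • !₂[-(v 1), v 0]) + (z.1 : ℝ) • v +
        (z.2 : ℝ) • !₂[-(v 1), v 0]) := by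
    intro p
    by_cases hp : p ∈ A ∪ B
    · obtain ⟨x, y, hx, hy, hxy⟩ := hov p hp
      have hbd : ∀ t : ℤ, |(t : ℝ)| ≤ C * √n → 0 ≤ t + m ∧ t + m < N := by
        intro t ht
        have h1 : (t.natAbs : ℝ) ≤ C * √n := by
          rw [Nat.cast_natAbs]
          push_cast
          exact ht
        have h2 : t.natAbs ≤ m := Nat.le_floor h1
        rw [hN]
        push_cast
        omega
      refine ⟨(x + m, y + m), fun _ => ⟨?_, ?_⟩⟩
      · unfold box
        rw [mem_product, mem_Ico, mem_Ico]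
        exact ⟨hbd x hx, hbd y hy⟩
      · rw [hxy]
        push_cast
        module
    · exact ⟨0, fun h => absurd h hp⟩
  choose g hg using hch
  set o' : EuclideanSpace ℝ (Fin 2) := o - (m : ℝ) • v - (m : ℝ) • !₂[-(v 1), v 0] with ho'
  have hgA : ∀ p ∈ A, g p ∈ box N ∧ p = o' + ((g p).1 : ℝ) • v +
      ((g p).2 : ℝ) • !₂[-(v 1), v 0] := fun p hp => hg p (mem_union_left _ hp)
  have hgB : ∀ p ∈ B, g p ∈ box N ∧ p = o' + ((g p).1 : ℝ) • v +
      ((g p).2 : ℝ) • !₂[-(v 1), v 0] := fun p hp => hg p (mem_union_right _ hp)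
  have hiA : Set.InjOn g A := by
    intro p hp q hq hpq
    rw [(hgA p hp).2, (hgA q hq).2, hpq]
  have hiB : Set.InjOn g B := by
    intro p hp q hq hpq
    rw [(hgB p hp).2, (hgB q hq).2, hpq]
  have hcA : (A.image g).card = n := by rw [card_image_of_injOn hiA, hA]
  have hcB : (B.image g).card = n := by rw [card_image_of_injOn hiB, hB]
  have hsA : A.image g ⊆ box N := by
    intro z hz
    obtain ⟨p, hp, rfl⟩ := mem_image.1 hz
    exact (hgA p hp).1
  have hsB : B.image g ⊆ box N := by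
    intro z hz
    obtain ⟨p, hp, rfl⟩ := mem_image.1 hz
    exact (hgB p hp).1
  -- sizes
  have hsq : 1 ≤ √(n : ℝ) := by
    rw [Real.one_le_sqrt]
    exact_mod_cast hn1
  have hsq2 : √(n : ℝ) ^ 2 = n := Real.sq_sqrt hnpos.le
  have hNle : (N : ℝ) ≤ (2 * C + 1) * √n := by
    rw [hN]
    push_cast
    have h1 : (m : ℝ) ≤ C * √n := Nat.floor_le (by positivity)
    nlinarith
  have hNn : n ≤ N ^ 2 := by
    have h1 := card_le_card hsA
    rw [hcA] at h1
    unfold box at h1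
    rw [card_product, Int.card_Ico, sub_zero, Int.toNat_natCast] at h1
    rw [sq]
    exact h1
  have hNN0 : N0 ≤ N := by
    by_contra hcon
    have h1 : N < N0 := not_le.1 hcon
    have h2 : N ^ 2 < N0 ^ 2 := Nat.pow_lt_pow_left h1 (by norm_num)
    omega
  have hN1 : 2 ≤ N := by
    by_contra hcon
    have h1 : N ≤ 1 := by omega
    have h2 : N ^ 2 ≤ 1 := by nlinarith
    omega
  have hδ : 1 / (2 * C + 1) ^ 2 * (N : ℝ) ^ 2 ≤ n := by
    have h1 : (N : ℝ) ^ 2 ≤ ((2 * C + 1) * √n) ^ 2 := pow_le_pow_left₀ (by positivity) hNle 2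
    rw [mul_pow, hsq2] at h1
    rw [div_mul_eq_mul_div, one_mul, div_le_iff₀ (by positivity)]
    linarith
  have key := hmain N (A.image g) (B.image g) hNN0 hsA hsB (by rw [hcA]; exact hδ)
    (by rw [hcB]; exact hδ)
  have hinj := fin_inj o' v hv (A.image g) (B.image g)
  have himg : ((A.image g ×ˢ B.image g).image fun x : (ℤ × ℤ) × (ℤ × ℤ) =>
        dist (o' + (x.1.1 : ℝ) • v + (x.1.2 : ℝ) • !₂[-(v 1), v 0])
          (o' + (x.2.1 : ℝ) • v + (x.2.2 : ℝ) • !₂[-(v 1), v 0])) ⊆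
      ((A ×ˢ B).image fun x => dist x.1 x.2) := by
    intro t ht
    obtain ⟨x, hx, rfl⟩ := mem_image.1 ht
    obtain ⟨hx1, hx2⟩ := mem_product.1 hx
    obtain ⟨p, hp, hp'⟩ := mem_image.1 hx1
    obtain ⟨q, hq, hq'⟩ := mem_image.1 hx2
    refine mem_image.2 ⟨(p, q), mem_product.2 ⟨hp, hq⟩, ?_⟩
    show dist p q = _
    rw [← hp', ← hq', ← (hgA p hp).2, ← (hgB q hq).2]
  have hD : ((((A.image g) ×ˢ (B.image g)).image fun x => nq (x.1 - x.2)).card : ℝ) ≤
      ((A ×ˢ B).image fun x => dist x.1 x.2).card := by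
    exact_mod_cast hinj.trans (card_le_card himg)
  refine le_trans ?_ (key.trans hD)
  -- `c1 / √K * n / √log (2 n) ≤ c1 * N ^ 2 / √log N`
  have hNpos : (0 : ℝ) < N := by
    have : 0 < N := by omega
    exact_mod_cast this
  have hlogN : 0 < Real.log N := Real.log_pos (by exact_mod_cast (by omega : 1 < N))
  have hlog2n : Real.log 2 ≤ Real.log (2 * n) := by
    apply Real.log_le_log (by norm_num)
    have : (1 : ℝ) ≤ n := by exact_mod_cast hn1
    linarith
  have hlog2npos : 0 < Real.log (2 * n) := lt_of_lt_of_le hlog2 hlog2n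
  have hlogNle : Real.log N ≤ K * Real.log (2 * n) := by
    have h1 : Real.log N ≤ Real.log ((2 * C + 1) * √n) := Real.log_le_log hNpos hNle
    rw [Real.log_mul (by positivity) (by positivity), Real.log_sqrt hnpos.le] at h1
    have h2 : Real.log n ≤ Real.log (2 * n) := Real.log_le_log hnpos (by linarith)
    have h3 : 0 ≤ Real.log n := Real.log_nonneg (by exact_mod_cast hn1)
    have h4 : Real.log (2 * C + 1) ≤ Real.log (2 * C + 1) / Real.log 2 * Real.log (2 * n) := by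
      rw [div_mul_eq_mul_div, le_div_iff₀ hlog2]
      exact mul_le_mul_of_nonneg_left hlog2n hlogC.le
    rw [hK, add_mul, one_mul]
    linarith
  have hsqle : √(Real.log N) ≤ √K * √(Real.log (2 * n)) := by
    rw [← Real.sqrt_mul hKpos.le]
    exact Real.sqrt_le_sqrt hlogNle
  have hsN : 0 < √(Real.log N) := Real.sqrt_pos.2 hlogN
  have hs2n : 0 < √(Real.log (2 * n)) := Real.sqrt_pos.2 hlog2npos
  have hsK : 0 < √K := Real.sqrt_pos.2 hKpos
  have hNn' : (n : ℝ) ≤ (N : ℝ) ^ 2 := by exact_mod_cast hNn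
  calc c1 / √K * n / √(Real.log (2 * n)) = c1 * n / (√K * √(Real.log (2 * n))) := by
        field_simp
    _ ≤ c1 * n / √(Real.log N) := div_le_div_of_nonneg_left (by positivity) hsN hsqle
    _ ≤ c1 * (N : ℝ) ^ 2 / √(Real.log N) := by
        apply div_le_div_of_nonneg_right _ hsN.le
        exact mul_le_mul_of_nonneg_left hNn' hc1.le

/-- points of the plane -/
noncomputable def finPt (z : ℤ × ℤ) : EuclideanSpace ℝ (Fin 2) := !₂[(z.1 : ℝ), (z.2 : ℝ)]

theorem fin_pt_inj : Function.Injective finPt := by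
  intro z w h
  have h0 : finPt z 0 = finPt w 0 := by rw [h]
  have h1 : finPt z 1 = finPt w 1 := by rw [h]
  unfold finPt at h0 h1
  simp at h0 h1
  exact Prod.ext h0 h1

theorem fin_pt_dist (z w : ℤ × ℤ) : dist (finPt z) (finPt w) = √(nq (z - w) : ℝ) := by
  rw [EuclideanSpace.dist_eq, fin_nq]
  unfold finPt
  simp [Fin.sum_univ_two, Real.dist_eq, sq_abs]

theorem fin_fmin_le {N : ℕ} (P : Finset (ℤ × ℤ)) (hP : P.card = N) :
    fmin N ≤ ((P ×ˢ P).image fun x => nq (x.1 - x.2)).card := by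
  classical
  have h1 : fmin N ≤ ((P.image finPt).offDiag.image fun x => dist x.1 x.2).card := by
    unfold fmin
    refine Nat.sInf_le ⟨P.image finPt, ?_, rfl⟩
    rw [card_image_of_injective _ fin_pt_inj, hP]
  refine h1.trans ?_
  have h2 : ((P.image finPt).offDiag.image fun x => dist x.1 x.2) ⊆
      ((P ×ˢ P).image fun x => nq (x.1 - x.2)).image fun m : ℕ => √(m : ℝ) := by
    intro t ht
    obtain ⟨⟨a, b⟩, hx, rfl⟩ := mem_image.1 ht
    obtain ⟨ha, hb, -⟩ := mem_offDiag.1 hx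
    obtain ⟨z, hz, rfl⟩ := mem_image.1 ha
    obtain ⟨w, hw, rfl⟩ := mem_image.1 hb
    refine mem_image.2 ⟨nq (z - w), mem_image.2 ⟨(z, w), mem_product.2 ⟨hz, hw⟩, rfl⟩, ?_⟩
    exact (fin_pt_dist z w).symm
  exact (card_le_card h2).trans card_image_le

theorem fin_upper : ∃ C : ℝ, 0 < C ∧ ∀ n : ℕ, 1 ≤ n →
    (fmin (2 * n) : ℝ) ≤ C * n / √(Real.log (2 * n)) := by
  classical
  obtain ⟨C, hC, hupp⟩ := upp
  refine ⟨C * 8 * √2, by positivity, fun n hn => ?_⟩
  have hn' : (1 : ℝ) ≤ n := by exact_mod_cast hn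
  set m : ℕ := ⌈√(2 * n : ℝ)⌉₊ with hm
  have hm1 : √(2 * n : ℝ) ≤ m := Nat.le_ceil _
  have hm2 : (m : ℝ) < √(2 * n : ℝ) + 1 := Nat.ceil_lt_add_one (Real.sqrt_nonneg _)
  have hsq : 1 < √(2 * n : ℝ) := by
    rw [Real.lt_sqrt (by norm_num)]
    linarith
  have hsq2 : √(2 * n : ℝ) ^ 2 = 2 * n := Real.sq_sqrt (by positivity)
  have hmge : 2 ≤ m := by
    have h1 : (1 : ℝ) < m := lt_of_lt_of_le hsq hm1
    have h2 : 1 < m := by exact_mod_cast h1
    omega
  have hmsq : 2 * n ≤ m ^ 2 := by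
    have h1 : (2 * n : ℝ) ≤ (m : ℝ) ^ 2 := by
      rw [← hsq2]
      exact pow_le_pow_left₀ (Real.sqrt_nonneg _) hm1 2
    exact_mod_cast h1
  have hcard : (box m).card = m ^ 2 := by
    unfold box
    rw [card_product, Int.card_Ico, sub_zero, Int.toNat_natCast, sq]
  obtain ⟨P, hPs, hPc⟩ := exists_subset_card_eq (s := box m) (n := 2 * n) (by rw [hcard]; exact hmsq)
  have h1 := fin_fmin_le P hPc
  have h2 : ((P ×ˢ P).image fun x => nq (x.1 - x.2)).card ≤
      ((box m ×ˢ box m).image fun x => nq (x.1 - x.2)).card :=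
    card_le_card (image_subset_image (product_subset_product hPs hPs))
  have h3 : (fmin (2 * n) : ℝ) ≤ ((box m ×ˢ box m).image fun x => nq (x.1 - x.2)).card := by
    exact_mod_cast h1.trans h2
  refine h3.trans ((hupp m hmge).trans ?_)
  have hlogm : Real.log (2 * n) / 2 ≤ Real.log m := by
    rw [← Real.log_sqrt (by positivity)]
    exact Real.log_le_log (by positivity) hm1
  have hlog2n : 0 < Real.log (2 * n) := Real.log_pos (by linarith)
  have hs : √(Real.log (2 * n)) ≤ √2 * √(Real.log m) := by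
    rw [← Real.sqrt_mul (by norm_num)]
    exact Real.sqrt_le_sqrt (by linarith)
  have hsm : 0 < √(Real.log m) := Real.sqrt_pos.2 (by linarith)
  have hs2n : 0 < √(Real.log (2 * n)) := Real.sqrt_pos.2 hlog2n
  have hm8 : (m : ℝ) ^ 2 ≤ 8 * n := by nlinarith
  rw [div_le_div_iff₀ hsm hs2n]
  have h4 : C * (m : ℝ) ^ 2 * √(Real.log (2 * n)) ≤ C * (8 * n) * (√2 * √(Real.log m)) :=
    mul_le_mul (mul_le_mul_of_nonneg_left hm8 hC.le) hs hs2n.le (by positivity)
  calc C * (m : ℝ) ^ 2 * √(Real.log (2 * n)) ≤ C * (8 * n) * (√2 * √(Real.log m)) := h4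
    _ = C * 8 * √2 * n * √(Real.log m) := by ring

theorem fin_fmin_triv (n : ℕ) : fmin (2 * n) ≤ (2 * n) ^ 2 := by
  classical
  have h1 : ∃ P : Finset (ℤ × ℤ), P.card = 2 * n := by
    refine ⟨(range (2 * n)).image fun i : ℕ => ((i : ℤ), (0 : ℤ)), ?_⟩
    rw [card_image_of_injective, card_range]
    intro i j hij
    have := congrArg Prod.fst hij
    simpa using this
  obtain ⟨P, hP⟩ := h1
  refine (fin_fmin_le P hP).trans (card_image_le.trans ?_)
  rw [card_product, hP, sq]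

theorem fin : ∀ C : ℝ, 0 < C → ∃ c : ℝ, 0 < c ∧ ∀ (n : ℕ)
    (A B : Finset (EuclideanSpace ℝ (Fin 2))), 1 ≤ n → A.card = n → B.card = n →
    (∃ o v : EuclideanSpace ℝ (Fin 2), ∀ p ∈ A ∪ B, ∃ x y : ℤ, |(x : ℝ)| ≤ C * √n ∧
      |(y : ℝ)| ≤ C * √n ∧ p = o + (x : ℝ) • v + (y : ℝ) • !₂[-(v 1), v 0]) →
    c * n / √(Real.log (2 * n)) ≤ ((A ×ˢ B).image fun x => dist x.1 x.2).card ∧
    c * fmin (2 * n) ≤ ((A ×ˢ B).image fun x => dist x.1 x.2).card := by
  classical
  intro C hC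
  obtain ⟨c1, hc1, n0, hlow⟩ := fin_low C hC
  obtain ⟨C2, hC2, hupp⟩ := fin_upper
  have hlog2 : 0 < Real.log 2 := Real.log_pos (by norm_num)
  have hs2 : 0 < √(Real.log 2) := Real.sqrt_pos.2 hlog2
  -- constant for the first inequality
  set c3 : ℝ := min c1 (√(Real.log 2) / (n0 + 1)) with hc3
  have hc3pos : 0 < c3 := lt_min hc1 (by positivity)
  refine ⟨min c3 (c3 / C2), lt_min hc3pos (by positivity), ?_⟩
  intro n A B hn hA hB hov
  have hn' : (1 : ℝ) ≤ n := by exact_mod_cast hn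
  have hlog2n : Real.log 2 ≤ Real.log (2 * n) :=
    Real.log_le_log (by norm_num) (by linarith)
  have hs2n : √(Real.log 2) ≤ √(Real.log (2 * n)) := Real.sqrt_le_sqrt hlog2n
  have hs2npos : 0 < √(Real.log (2 * n)) := lt_of_lt_of_le hs2 hs2n
  have hD : c3 * n / √(Real.log (2 * n)) ≤ ((A ×ˢ B).image fun x => dist x.1 x.2).card := by
    by_cases hn0 : n0 ≤ n
    · refine le_trans ?_ (hlow n A B hn0 hn hA hB hov)
      apply div_le_div_of_nonneg_right _ hs2npos.le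
      exact mul_le_mul_of_nonneg_right (min_le_left _ _) (by linarith)
    · have h1 : (n : ℝ) ≤ n0 + 1 := by
        have : n ≤ n0 + 1 := by omega
        exact_mod_cast this
      have h2 : 1 ≤ ((A ×ˢ B).image fun x => dist x.1 x.2).card := by
        rw [Nat.one_le_iff_ne_zero, ← Nat.pos_iff_ne_zero, card_pos]
        have hAne : A.Nonempty := by rw [← card_pos, hA]; exact hn
        have hBne : B.Nonempty := by rw [← card_pos, hB]; exact hn
        exact (hAne.product hBne).image _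
      have h3 : (1 : ℝ) ≤ ((A ×ˢ B).image fun x => dist x.1 x.2).card := by exact_mod_cast h2
      refine le_trans ?_ h3
      rw [div_le_one hs2npos]
      refine le_trans ?_ hs2n
      have h4 : c3 ≤ √(Real.log 2) / (n0 + 1) := min_le_right _ _
      calc c3 * n ≤ √(Real.log 2) / (n0 + 1) * (n0 + 1) :=
            mul_le_mul h4 h1 (by linarith) (by positivity)
        _ = √(Real.log 2) := by field_simp
  refine ⟨le_trans ?_ hD, le_trans ?_ hD⟩
  · apply div_le_div_of_nonneg_right _ hs2npos.le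
    exact mul_le_mul_of_nonneg_right (min_le_left _ _) (by linarith)
  · have h5 := hupp n hn
    calc min c3 (c3 / C2) * (fmin (2 * n) : ℝ) ≤ c3 / C2 * (fmin (2 * n) : ℝ) :=
          mul_le_mul_of_nonneg_right (min_le_right _ _) (Nat.cast_nonneg _)
      _ ≤ c3 / C2 * (C2 * n / √(Real.log (2 * n))) :=
          mul_le_mul_of_nonneg_left h5 (by positivity)
      _ = c3 * n / √(Real.log (2 * n)) := by field_simp

end Pool.Agent.Lib.DG
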