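import Pool.Agent.Lib.MP_1a9bf8_co.Defs

/-!
# FPI: Fourier coefficients on a product group
`ψ g = prod_i ψ_i (g_i)`, `ψ_i x = ψ (Pi.single i x)`, and the sum over the product group factorises
(Finset.prod_univ_sum, Fintype.piFinset_univ).  For the summand `n`: the factor `i ∈ n` is `sum_x t_i(x) ψ_i(x)`
(`= τ_i card` if `i ∉ E`), the factor `i ∉ n` is `sum_x ψ_i(x) = card` (`i ∉ E`) or `0` (`i ∈ E`, AddChar.sum_eq_ite).  So
only `n ⊇ E` contribute, and `z = prod_(i in E) (sum_x t_i ψ_i) / card (H i)`.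
-/

set_option autoImplicit false

namespace Pool.Agent.Lib.DG

open Finset

theorem fpi_prod {ι : Type*} [Fintype ι] [DecidableEq ι] (H : ι → Type*)
    [∀ i, AddCommGroup (H i)] [∀ i, DecidableEq (H i)]
    (ψ : AddChar (∀ i, H i) ℂ) (g : ∀ i, H i) : ψ g = ∏ i, ψ (Pi.single i (g i)) := by
  conv_lhs => rw [← Finset.univ_sum_single g]
  have key : ∀ s : Finset ι, ψ (∑ i ∈ s, Pi.single i (g i)) = ∏ i ∈ s, ψ (Pi.single i (g i)) := by
    intro s
    induction s using Finset.induction_on with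
    | empty => rw [Finset.sum_empty, Finset.prod_empty, AddChar.map_zero_eq_one]
    | insert i s hi ih =>
      rw [Finset.sum_insert hi, Finset.prod_insert hi, AddChar.map_add_eq_mul, ih]
  exact key _

/-- the local character -/
def fpiChar {ι : Type*} [DecidableEq ι] (H : ι → Type*) [∀ i, AddCommGroup (H i)]
    (ψ : AddChar (∀ i, H i) ℂ) (i : ι) : AddChar (H i) ℂ where
  toFun x := ψ (Pi.single i x)
  map_zero_eq_one' := by rw [Pi.single_zero, AddChar.map_zero_eq_one]
  map_add_eq_mul' x y := by rw [Pi.single_add, AddChar.map_add_eq_mul]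

theorem fpi_sum_zero {ι : Type*} [DecidableEq ι] (H : ι → Type*) [∀ i, AddCommGroup (H i)]
    [∀ i, Fintype (H i)] (ψ : AddChar (∀ i, H i) ℂ) {i : ι}
    (h : ∃ x, ψ (Pi.single i x) ≠ 1) : ∑ x : H i, ψ (Pi.single i x) = 0 := by
  have h1 : fpiChar H ψ i ≠ 0 := by
    obtain ⟨x, hx⟩ := h
    intro h0
    apply hx
    have : fpiChar H ψ i x = 1 := by rw [h0]; rfl
    exact this
  exact AddChar.sum_eq_zero_iff_ne_zero.2 h1

theorem fpi {ι : Type*} [Fintype ι] [DecidableEq ι] (H : ι → Type*) [∀ i, AddCommGroup (H i)]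
    [∀ i, Fintype (H i)] [∀ i, DecidableEq (H i)] (t : ∀ i, H i → ℝ) (τ : ι → ℝ)
    (ht : ∀ i x, 0 ≤ t i x) (hτ : ∀ i, ∑ x, t i x = τ i * Fintype.card (H i))
    (c : Finset ι → ℝ) (ψ : AddChar (∀ i, H i) ℂ) (E : Finset ι)
    (hE : ∀ i, i ∈ E ↔ ∃ x, ψ (Pi.single i x) ≠ 1) :
    ∃ z : ℂ, ‖z‖ ≤ ∏ i ∈ E, τ i ∧
      ∑ g : (∀ i, H i), ((∑ n : Finset ι, c n * ∏ i ∈ n, t i (g i) : ℝ) : ℂ) * ψ g =
        (Fintype.card (∀ i, H i) : ℂ) * z *
          ((∑ n : Finset ι with E ⊆ n, c n * ∏ i ∈ n \ E, τ i : ℝ) : ℂ) := by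
  classical
  set zi : ι → ℂ := fun i => (∑ x, (t i x : ℂ) * ψ (Pi.single i x)) / Fintype.card (H i) with hzi
  have hcard : ∀ i, (0 : ℝ) < Fintype.card (H i) := fun i => by
    have : 0 < Fintype.card (H i) := Fintype.card_pos
    exact_mod_cast this
  have hcardC : ∀ i, (Fintype.card (H i) : ℂ) ≠ 0 := fun i => by
    have := (hcard i).ne'
    exact_mod_cast this
  have hz1 : ∀ i, ‖zi i‖ ≤ τ i := by
    intro i
    rw [hzi]
    simp only [norm_div]
    rw [Complex.norm_natCast, div_le_iff₀ (hcard i), ← hτ i]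
    refine (norm_sum_le _ _).trans (Finset.sum_le_sum fun x _ => ?_)
    rw [norm_mul, AddChar.norm_apply, mul_one, Complex.norm_real, Real.norm_of_nonneg (ht i x)]
  have hτ0 : ∀ i, 0 ≤ τ i := fun i => (norm_nonneg _).trans (hz1 i)
  refine ⟨∏ i ∈ E, zi i, ?_, ?_⟩
  · rw [norm_prod]
    exact Finset.prod_le_prod (fun _ _ => norm_nonneg _) fun i _ => hz1 i
  have hloc : ∀ i, ∑ x, (t i x : ℂ) * ψ (Pi.single i x) = Fintype.card (H i) * zi i := by
    intro i
    rw [hzi]
    field_simp [hcardC i]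
  have hzE : ∀ i, i ∉ E → zi i = τ i := by
    intro i hi
    have h1 : ∀ x, ψ (Pi.single i x) = 1 := by
      intro x
      by_contra h
      exact hi ((hE i).2 ⟨x, h⟩)
    have h2 : ∑ x, (t i x : ℂ) * ψ (Pi.single i x) = (τ i : ℂ) * Fintype.card (H i) := by
      simp only [h1, mul_one]
      have := hτ i
      exact_mod_cast this
    rw [hloc i] at h2
    rw [mul_comm] at h2
    exact mul_right_cancel₀ (hcardC i) h2
  have hone : ∀ i, ∑ x, ψ (Pi.single i x) = if i ∈ E then (0 : ℂ) else Fintype.card (H i) := by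
    intro i
    split_ifs with h
    · exact fpi_sum_zero H ψ ((hE i).1 h)
    · have h1 : ∀ x, ψ (Pi.single i x) = 1 := by
        intro x
        by_contra h'
        exact h ((hE i).2 ⟨x, h'⟩)
      simp only [h1, Finset.sum_const, Finset.card_univ, nsmul_eq_mul, mul_one]
  have hterm : ∀ n : Finset ι, ∑ g : (∀ i, H i), ((∏ i ∈ n, t i (g i) : ℝ) : ℂ) * ψ g =
      if E ⊆ n then (Fintype.card (∀ i, H i) : ℂ) * (∏ i ∈ E, zi i) *
        ((∏ i ∈ n \ E, τ i : ℝ) : ℂ) else 0 := by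
    intro n
    have e1 : ∑ g : (∀ i, H i), ((∏ i ∈ n, t i (g i) : ℝ) : ℂ) * ψ g =
        ∑ g : (∀ i, H i), ∏ i, ((if i ∈ n then (t i (g i) : ℂ) else 1) * ψ (Pi.single i (g i))) := by
      refine Finset.sum_congr rfl fun g _ => ?_
      rw [Finset.prod_mul_distrib, ← fpi_prod H ψ g]
      congr 1
      rw [Complex.ofReal_prod, Finset.prod_ite_mem, Finset.univ_inter]
    have e2 : ∑ g : (∀ i, H i), ∏ i, ((if i ∈ n then (t i (g i) : ℂ) else 1) *
        ψ (Pi.single i (g i))) =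
        ∏ i, ∑ x : H i, ((if i ∈ n then (t i x : ℂ) else 1) * ψ (Pi.single i x)) := by
      rw [Finset.prod_univ_sum, Fintype.piFinset_univ]
    have e3 : ∀ i, ∑ x : H i, ((if i ∈ n then (t i x : ℂ) else 1) * ψ (Pi.single i x)) =
        Fintype.card (H i) * (if i ∈ n then zi i else if i ∈ E then 0 else 1) := by
      intro i
      by_cases h : i ∈ n
      · simp only [if_pos h]
        exact hloc i
      · simp only [if_neg h, one_mul]
        rw [hone i]
        split_ifs
        · rw [mul_zero]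
        · rw [mul_one]
    rw [e1, e2]
    simp only [e3]
    rw [Finset.prod_mul_distrib]
    have e4 : ∏ i, (Fintype.card (H i) : ℂ) = Fintype.card (∀ i, H i) := by
      rw [Fintype.card_pi]
      push_cast
      rfl
    rw [e4]
    split_ifs with hEn
    · rw [mul_assoc]
      congr 1
      have e5 : ∏ i, (if i ∈ n then zi i else if i ∈ E then 0 else 1) =
          ∏ i ∈ n, zi i := by
        rw [← Finset.univ_inter n, ← Finset.prod_ite_mem, Finset.univ_inter]
        refine Finset.prod_congr rfl fun i _ => ?_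
        by_cases h : i ∈ n
        · rw [if_pos h, if_pos h]
        · rw [if_neg h, if_neg h, if_neg fun h' => h (hEn h')]
      rw [e5, ← Finset.prod_sdiff hEn, mul_comm]
      congr 1
      rw [Complex.ofReal_prod]
      exact Finset.prod_congr rfl fun i hi => hzE i (Finset.mem_sdiff.1 hi).2
    · obtain ⟨i, hi, hin⟩ := Finset.not_subset.1 hEn
      rw [Finset.prod_eq_zero (Finset.mem_univ i), mul_zero]
      rw [if_neg hin, if_pos hi]
  have e6 : ∑ g : (∀ i, H i), ((∑ n : Finset ι, c n * ∏ i ∈ n, t i (g i) : ℝ) : ℂ) * ψ g =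
      ∑ n : Finset ι, (c n : ℂ) * ∑ g : (∀ i, H i), ((∏ i ∈ n, t i (g i) : ℝ) : ℂ) * ψ g := by
    simp only [Finset.mul_sum]
    rw [Finset.sum_comm]
    refine Finset.sum_congr rfl fun g _ => ?_
    rw [Complex.ofReal_sum, Finset.sum_mul]
    refine Finset.sum_congr rfl fun n _ => ?_
    rw [Complex.ofReal_mul]
    ring
  rw [e6]
  simp only [hterm, mul_ite, mul_zero]
  rw [← Finset.sum_filter, Complex.ofReal_sum, Finset.mul_sum]
  refine Finset.sum_congr rfl fun n _ => ?_
  rw [Complex.ofReal_mul]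
  ring

end Pool.Agent.Lib.DG
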