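import Pool.Agent.Lib.MP_1a9bf8_co.BIL
import Pool.Agent.Lib.MP_1a9bf8_co.FPI

/-!
# LEV: equidistribution of differences of dense sets up to level `D`, `D^9 <= N`
Take `ι = P` (subtype), `H p = ZMod (p^2) × ZMod (p^2)`, `t p x = T p (x.1.val, x.2.val)` (by periodicity
`t p (z mod p^2) = T p z`), `g1 = (1,0)`, `g2 = (0,1)` in every component: they generate by the Chinese
remainder theorem (ZMod.prodEquivPi, or Nat.chineseRemainderOfFinset).  BIL with FPI: the coefficient at `ψ`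
vanishes unless some `n ⊇ E(ψ)` has `c n ≠ 0`, then `m = prod_n p <= D` kills `ψ` (`m^2 • g` is `0` in the components of
`n`, and `ψ` is trivial on the others); for `ψ ≠ 1` the set `E(ψ)` is not empty, so the coefficient is at most
`ε`.  The reindexing between subsets of `P` and `Finset P` is Finset.map / subtype.
-/

set_option autoImplicit false

namespace Pool.Agent.Lib.DG

open Finset

/-- sets of elements of `P` as sets of numbers -/
def levUp {P : Finset ℕ} (n : Finset {p // p ∈ P}) : Finset ℕ :=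
  n.map (Function.Embedding.subtype _)

/-- the local group -/
abbrev LevH {P : Finset ℕ} (i : {p // p ∈ P}) : Type :=
  ZMod ((i : ℕ) ^ 2) × ZMod ((i : ℕ) ^ 2)

theorem lev_mem {P : Finset ℕ} (n : Finset {p // p ∈ P}) (a : ℕ) :
    a ∈ levUp n ↔ ∃ h : a ∈ P, (⟨a, h⟩ : {p // p ∈ P}) ∈ n := by
  unfold levUp
  rw [Finset.mem_map]
  constructor
  · rintro ⟨x, hx, rfl⟩
    exact ⟨x.2, hx⟩
  · rintro ⟨h, hx⟩
    exact ⟨_, hx, rfl⟩

theorem lev_sub {P : Finset ℕ} (n : Finset {p // p ∈ P}) : levUp n ⊆ P := by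
  intro a ha
  exact ((lev_mem n a).1 ha).1

theorem lev_subtype {P : Finset ℕ} (n : Finset {p // p ∈ P}) :
    (levUp n).subtype (· ∈ P) = n := by
  ext x
  rw [Finset.mem_subtype, lev_mem]
  constructor
  · rintro ⟨_, h⟩
    exact h
  · intro h
    exact ⟨x.2, h⟩

theorem lev_up_subtype {P : Finset ℕ} {m : Finset ℕ} (hm : m ⊆ P) :
    levUp (m.subtype (· ∈ P)) = m :=
  Finset.subtype_map_of_mem hm

theorem lev_le {P : Finset ℕ} (m n : Finset {p // p ∈ P}) : levUp m ⊆ levUp n ↔ m ⊆ n :=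
  Finset.map_subset_map

theorem lev_sum_sub {P : Finset ℕ} (E : Finset {p // p ∈ P}) (f : Finset ℕ → ℝ) :
    ∑ n : Finset {p // p ∈ P} with E ⊆ n, f (levUp n) =
      ∑ n ∈ P.powerset with levUp E ⊆ n, f n := by
  refine Finset.sum_bij' (fun n _ => levUp n) (fun n _ => n.subtype (· ∈ P)) ?_ ?_ ?_ ?_ ?_
  · intro n hn
    rw [Finset.mem_filter] at hn
    rw [Finset.mem_filter, Finset.mem_powerset]
    exact ⟨lev_sub n, (lev_le E n).2 hn.2⟩
  · intro n hn
    rw [Finset.mem_filter, Finset.mem_powerset] at hn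
    rw [Finset.mem_filter]
    refine ⟨Finset.mem_univ _, ?_⟩
    rw [← lev_le, lev_up_subtype hn.1]
    exact hn.2
  · intro n _
    exact lev_subtype n
  · intro n hn
    rw [Finset.mem_filter, Finset.mem_powerset] at hn
    exact lev_up_subtype hn.1
  · intro n _
    rfl

theorem lev_sum {P : Finset ℕ} (f : Finset ℕ → ℝ) :
    ∑ n : Finset {p // p ∈ P}, f (levUp n) = ∑ n ∈ P.powerset, f n := by
  have h := lev_sum_sub (P := P) ∅ f
  have h1 : (Finset.univ : Finset (Finset {p // p ∈ P})).filter (fun n => ∅ ⊆ n) =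
      Finset.univ := by
    apply Finset.filter_true_of_mem
    intro n _
    exact Finset.empty_subset n
  have h2 : P.powerset.filter (fun n => levUp (∅ : Finset {p // p ∈ P}) ⊆ n) = P.powerset := by
    apply Finset.filter_true_of_mem
    intro n _
    unfold levUp
    rw [Finset.map_empty]
    exact Finset.empty_subset n
  rw [h1, h2] at h
  exact h

theorem lev_prod {P : Finset ℕ} (n : Finset {p // p ∈ P}) (f : ℕ → ℝ) :
    ∏ i ∈ n, f i = ∏ p ∈ levUp n, f p := by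
  unfold levUp
  rw [Finset.prod_map]
  rfl

theorem lev_prod_nat {P : Finset ℕ} (n : Finset {p // p ∈ P}) (f : ℕ → ℕ) :
    ∏ i ∈ n, f i = ∏ p ∈ levUp n, f p := by
  unfold levUp
  rw [Finset.prod_map]
  rfl

theorem lev_sdiff {P : Finset ℕ} (m n : Finset {p // p ∈ P}) :
    levUp (m \ n) = levUp m \ levUp n := by
  unfold levUp
  ext a
  rw [Finset.mem_sdiff, Finset.mem_map, Finset.mem_map, Finset.mem_map]
  constructor
  · rintro ⟨x, hx, rfl⟩
    rw [Finset.mem_sdiff] at hx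
    refine ⟨⟨x, hx.1, rfl⟩, ?_⟩
    rintro ⟨y, hy, hxy⟩
    have : y = x := Subtype.ext hxy
    exact hx.2 (this ▸ hy)
  · rintro ⟨⟨x, hx, rfl⟩, h⟩
    refine ⟨x, ?_, rfl⟩
    rw [Finset.mem_sdiff]
    refine ⟨hx, fun hx' => h ⟨x, hx', rfl⟩⟩

theorem lev_Ssum {P : Finset ℕ} (c : Finset ℕ → ℝ) (τ : ℕ → ℝ) (E : Finset {p // p ∈ P}) :
    ∑ n : Finset {p // p ∈ P} with E ⊆ n, c (levUp n) * ∏ i ∈ n \ E, τ i =
      Ssum P c τ (levUp E) := by
  unfold Ssum
  rw [← lev_sum_sub E (fun n => c n * ∏ p ∈ n \ levUp E, τ p)]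
  refine Finset.sum_congr rfl fun n _ => ?_
  rw [← lev_sdiff, ← lev_prod]

theorem lev_range (n : ℕ) [NeZero n] (f : ℕ → ℝ) :
    ∑ x : ZMod n, f x.val = ∑ x ∈ Finset.range n, f x := by
  refine Finset.sum_nbij' (fun x => x.val) (fun k => (k : ZMod n)) ?_ ?_ ?_ ?_ ?_
  · intro x _
    exact Finset.mem_range.2 (ZMod.val_lt x)
  · intro k _
    exact Finset.mem_univ _
  · intro x _
    exact ZMod.natCast_zmod_val x
  · intro k hk
    exact ZMod.val_natCast_of_lt (Finset.mem_range.1 hk)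
  · intro x _
    rfl

theorem lev_mean {T : ℤ × ℤ → ℝ} {p : ℕ} {τ : ℝ} (h : Loc T p τ) [NeZero (p ^ 2)] :
    ∑ x : ZMod (p ^ 2) × ZMod (p ^ 2), T ((x.1.val : ℤ), (x.2.val : ℤ)) =
      τ * Fintype.card (ZMod (p ^ 2) × ZMod (p ^ 2)) := by
  rw [Fintype.sum_prod_type]
  have h1 : ∀ x : ZMod (p ^ 2), ∑ y : ZMod (p ^ 2), T ((x.val : ℤ), (y.val : ℤ)) =
      ∑ y ∈ Finset.range (p ^ 2), T ((x.val : ℤ), (y : ℤ)) := fun x =>
    lev_range (p ^ 2) (fun y => T ((x.val : ℤ), (y : ℤ)))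
  simp only [h1]
  rw [lev_range (p ^ 2) (fun x => ∑ y ∈ Finset.range (p ^ 2), T ((x : ℤ), (y : ℤ))), h.mean]
  rw [Fintype.card_prod, ZMod.card]
  push_cast
  ring

theorem lev_per {T : ℤ × ℤ → ℝ} {p : ℕ} {τ : ℝ} (h : Loc T p τ) [NeZero (p ^ 2)] (z : ℤ × ℤ) :
    T (((z.1 : ZMod (p ^ 2)).val : ℤ), ((z.2 : ZMod (p ^ 2)).val : ℤ)) = T z := by
  rw [ZMod.val_intCast, ZMod.val_intCast]
  have h1 := h.per (z.1 % ((p ^ 2 : ℕ) : ℤ), z.2 % ((p ^ 2 : ℕ) : ℤ))
    (z.1 / ((p ^ 2 : ℕ) : ℤ), z.2 / ((p ^ 2 : ℕ) : ℤ))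
  rw [← h1]
  congr 1
  have e1 := Int.emod_add_mul_ediv z.1 ((p ^ 2 : ℕ) : ℤ)
  have e2 := Int.emod_add_mul_ediv z.2 ((p ^ 2 : ℕ) : ℤ)
  push_cast at e1 e2 ⊢
  ext
  · simp only [Prod.fst_add, Prod.smul_fst, smul_eq_mul]
    exact e1
  · simp only [Prod.snd_add, Prod.smul_snd, smul_eq_mul]
    exact e2

theorem lev_gen {P : Finset ℕ} (hP : ∀ p ∈ P, p.Prime)
    [∀ i : {p // p ∈ P}, NeZero ((i : ℕ) ^ 2)] (g : ∀ i : {p // p ∈ P}, LevH i) :
    ∃ x y : ℤ, g = x • (fun i => ((1, 0) : LevH i)) + y • (fun i => ((0, 1) : LevH i)) := by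
  have hc : Pairwise (Function.onFun Nat.Coprime (fun i : {p // p ∈ P} => (i : ℕ) ^ 2)) := by
    intro i j hij
    apply Nat.Coprime.pow
    rw [Nat.coprime_primes (hP i i.2) (hP j j.2)]
    intro h
    exact hij (Subtype.ext h)
  set e := ZMod.prodEquivPi (fun i : {p // p ∈ P} => (i : ℕ) ^ 2) hc with he
  have key : ∀ f : ∀ i : {p // p ∈ P}, ZMod ((i : ℕ) ^ 2), ∃ x : ℤ,
      ∀ i : {p // p ∈ P}, (x : ZMod ((i : ℕ) ^ 2)) = f i := by
    intro f
    obtain ⟨x, hx⟩ := ZMod.intCast_surjective (e.symm f)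
    refine ⟨x, fun i => ?_⟩
    have h1 : e (x : ZMod _) = f := by rw [hx]; exact e.apply_symm_apply f
    rw [map_intCast] at h1
    rw [← h1]
    rfl
  obtain ⟨x, hx⟩ := key (fun i => (g i).1)
  obtain ⟨y, hy⟩ := key (fun i => (g i).2)
  refine ⟨x, y, ?_⟩
  funext i
  rw [Pi.add_apply, Pi.smul_apply, Pi.smul_apply, zsmul_eq_mul, zsmul_eq_mul]
  ext
  · rw [Prod.fst_add, Prod.fst_mul, Prod.fst_mul, Prod.fst_intCast, Prod.fst_intCast]
    simp only [mul_one, mul_zero, add_zero]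
    exact (hx i).symm
  · rw [Prod.snd_add, Prod.snd_mul, Prod.snd_mul, Prod.snd_intCast, Prod.snd_intCast]
    simp only [mul_one, mul_zero, zero_add]
    exact (hy i).symm

theorem lev_main {ι : Type*} [Fintype ι] [DecidableEq ι] (H : ι → Type*)
    [∀ i, Fintype (H i)] (t : ∀ i, H i → ℝ) (τ : ι → ℝ)
    (hτ : ∀ i, ∑ x, t i x = τ i * Fintype.card (H i)) (c : Finset ι → ℝ) :
    ∑ g : (∀ i, H i), ∑ n : Finset ι, c n * ∏ i ∈ n, t i (g i) =
      Fintype.card (∀ i, H i) * ∑ n : Finset ι, c n * ∏ i ∈ n, τ i := by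
  rw [Finset.sum_comm, Finset.mul_sum]
  refine Finset.sum_congr rfl fun n _ => ?_
  rw [← Finset.mul_sum]
  have h1 : ∑ g : (∀ i, H i), ∏ i ∈ n, t i (g i) =
      ∏ i, ∑ x : H i, (if i ∈ n then t i x else 1) := by
    rw [Finset.prod_univ_sum, Fintype.piFinset_univ]
    refine Finset.sum_congr rfl fun g _ => ?_
    rw [Finset.prod_ite_mem, Finset.univ_inter]
  rw [h1]
  have h2 : ∀ i, ∑ x : H i, (if i ∈ n then t i x else 1) =
      (if i ∈ n then τ i else 1) * Fintype.card (H i) := by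
    intro i
    by_cases hi : i ∈ n
    · simp only [if_pos hi]
      exact hτ i
    · simp only [if_neg hi]
      simp
  rw [Finset.prod_congr rfl fun i _ => h2 i, Finset.prod_mul_distrib, Finset.prod_ite_mem,
    Finset.univ_inter, Fintype.card_pi]
  push_cast
  ring

theorem lev_char {ι : Type*} [Fintype ι] [DecidableEq ι] (H : ι → Type*)
    [∀ i, AddCommGroup (H i)] (ψ : AddChar (∀ i, H i) ℂ) (g : ∀ i, H i)
    (h : ∀ i, ψ (Pi.single i (g i)) = 1) : ψ g = 1 := by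
  have h1 : g = ∑ i, Pi.single i (g i) := (Finset.univ_sum_single g).symm
  have h2 : ∀ s : Finset ι, ψ (∑ i ∈ s, Pi.single i (g i)) = 1 := by
    intro s
    induction s using Finset.induction_on with
    | empty => rw [Finset.sum_empty]; exact ψ.map_zero_eq_one
    | insert a s ha ih => rw [Finset.sum_insert ha, AddChar.map_add_eq_mul, ih, h a, one_mul]
  rw [h1]
  exact h2 _

theorem lev {P : Finset ℕ} (hP : ∀ p ∈ P, p.Prime) {T : ℕ → ℤ × ℤ → ℝ} {τ : ℕ → ℝ}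
    (hT : ∀ p ∈ P, Loc (T p) p (τ p)) (c : Finset ℕ → ℝ) {D N : ℕ} (hD1 : 1 ≤ D)
    (hD : ∀ n ∈ P.powerset, c n ≠ 0 → ∏ p ∈ n, p ≤ D) (hDN : D ^ 9 ≤ N) {ε : ℝ} (hε0 : 0 ≤ ε)
    (hε : ∀ E ⊆ P, E.Nonempty → (∏ p ∈ E, τ p) * |Ssum P c τ E| ≤ ε) {A B : Finset (ℤ × ℤ)}
    (hA : A ⊆ box N) (hB : B ⊆ box N) :
    |∑ a ∈ A, ∑ b ∈ B, ∑ n ∈ P.powerset, c n * ∏ p ∈ n, T p (a - b) -
        Ssum P c τ ∅ * (A.card * B.card)| ≤
      2 * ε * (N : ℝ) ^ 2 * √((A.card : ℝ) * B.card) := by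
  classical
  have : ∀ i : {p // p ∈ P}, NeZero ((i : ℕ) ^ 2) :=
    fun i => ⟨pow_ne_zero 2 (hP i i.2).ne_zero⟩
  set t : ∀ i : {p // p ∈ P}, LevH i → ℝ :=
    fun i x => T i ((x.1.val : ℤ), (x.2.val : ℤ)) with ht
  set F : (∀ i : {p // p ∈ P}, LevH i) → ℝ :=
    fun g => ∑ n : Finset {p // p ∈ P}, c (levUp n) * ∏ i ∈ n, t i (g i) with hF
  have ht0 : ∀ (i : {p // p ∈ P}) (x : LevH i), 0 ≤ t i x := fun i x => (hT i i.2).nonneg _
  have hτ : ∀ i : {p // p ∈ P}, ∑ x, t i x = τ i * Fintype.card (LevH i) := fun i =>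
    lev_mean (hT i i.2)
  have hfpi := fun (ψ : AddChar (∀ i : {p // p ∈ P}, LevH i) ℂ) (E : Finset {p // p ∈ P})
    (hE : ∀ i, i ∈ E ↔ ∃ x, ψ (Pi.single i x) ≠ 1) =>
    fpi (fun i : {p // p ∈ P} => LevH i) t (fun i => τ i) ht0 hτ (fun n => c (levUp n)) ψ E hE
  have hEex : ∀ ψ : AddChar (∀ i : {p // p ∈ P}, LevH i) ℂ, ∃ E : Finset {p // p ∈ P},
      ∀ i, i ∈ E ↔ ∃ x, ψ (Pi.single i x) ≠ 1 := by
    intro ψ
    refine ⟨Finset.univ.filter (fun i => ∃ x, ψ (Pi.single i x) ≠ 1), fun i => ?_⟩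
    rw [Finset.mem_filter]
    exact ⟨fun h => h.2, fun h => ⟨Finset.mem_univ _, h⟩⟩
  have hmain : (∑ g, F g) / Fintype.card (∀ i : {p // p ∈ P}, LevH i) = Ssum P c τ ∅ := by
    have h1 := lev_main (fun i : {p // p ∈ P} => LevH i) t (fun i => τ i) hτ
      (fun n => c (levUp n))
    have h2 := lev_Ssum c τ (∅ : Finset {p // p ∈ P})
    have h3 : levUp (∅ : Finset {p // p ∈ P}) = ∅ := by
      unfold levUp
      exact Finset.map_empty _
    rw [h3] at h2
    have h4 : (Finset.univ : Finset (Finset {p // p ∈ P})).filter (fun n => ∅ ⊆ n) =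
        Finset.univ := by
      apply Finset.filter_true_of_mem
      intro n _
      exact Finset.empty_subset n
    rw [h4] at h2
    simp only [Finset.sdiff_empty] at h2
    rw [hF]
    rw [h1, h2]
    have hcard : (Fintype.card (∀ i : {p // p ∈ P}, LevH i) : ℝ) ≠ 0 := by
      exact_mod_cast Fintype.card_ne_zero
    field_simp
  have hsupp : ∀ ψ : AddChar (∀ i : {p // p ∈ P}, LevH i) ℂ,
      ∑ g, (F g : ℂ) * ψ g ≠ 0 →
      ∃ m : ℕ, 1 ≤ m ∧ m ≤ D ∧ ∀ g, ψ ((m ^ 2) • g) = 1 := by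
    intro ψ hψ
    obtain ⟨E, hE⟩ := hEex ψ
    obtain ⟨z, hz, hsum⟩ := hfpi ψ E hE
    have h5 : (∑ n : Finset {p // p ∈ P} with E ⊆ n,
        c (levUp n) * ∏ i ∈ n \ E, τ i) ≠ 0 := by
      intro h0
      apply hψ
      rw [hF]
      simp only
      rw [hsum, h0]
      simp
    obtain ⟨n, hn, hn0⟩ := Finset.exists_ne_zero_of_sum_ne_zero h5
    rw [Finset.mem_filter] at hn
    have hcn : c (levUp n) ≠ 0 := left_ne_zero_of_mul hn0
    have hmD := hD (levUp n) (Finset.mem_powerset.2 (lev_sub n)) hcn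
    refine ⟨∏ p ∈ levUp n, p, ?_, hmD, ?_⟩
    · apply Nat.one_le_iff_ne_zero.2
      rw [Finset.prod_ne_zero_iff]
      intro a ha
      exact (hP a (lev_sub n ha)).ne_zero
    · intro g
      apply lev_char (fun i : {p // p ∈ P} => LevH i)
      intro i
      by_cases hi : i ∈ n
      · have hdvd : ((i : ℕ)) ^ 2 ∣ (∏ p ∈ levUp n, p) ^ 2 := by
          apply pow_dvd_pow_of_dvd
          apply Finset.dvd_prod_of_mem (fun p : ℕ => p)
          rw [lev_mem]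
          exact ⟨i.2, hi⟩
        have h6 : (((∏ p ∈ levUp n, p) ^ 2) • g) i = 0 := by
          rw [Pi.smul_apply, nsmul_eq_mul]
          have h7 : (((∏ p ∈ levUp n, p) ^ 2 : ℕ) : ZMod ((i : ℕ) ^ 2)) = 0 :=
            (ZMod.natCast_eq_zero_iff _ _).2 hdvd
          ext
          · rw [Prod.fst_mul, Prod.fst_natCast, h7, zero_mul]; rfl
          · rw [Prod.snd_mul, Prod.snd_natCast, h7, zero_mul]; rfl
        rw [h6, Pi.single_zero]
        exact ψ.map_zero_eq_one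
      · have hiE : i ∉ E := fun h => hi (hn.2 h)
        by_contra h8
        exact hiE ((hE i).2 ⟨_, h8⟩)
  have hεψ : ∀ ψ : AddChar (∀ i : {p // p ∈ P}, LevH i) ℂ, ψ ≠ 1 →
      ‖∑ g, (F g : ℂ) * ψ g‖ ≤ ε * Fintype.card (∀ i : {p // p ∈ P}, LevH i) := by
    intro ψ hψ
    obtain ⟨E, hE⟩ := hEex ψ
    obtain ⟨z, hz, hsum⟩ := hfpi ψ E hE
    have hEne : (levUp E).Nonempty := by
      by_contra hne
      have h9 : ∀ i, i ∉ E := by
        intro i hi
        exact hne ⟨i, (lev_mem E i).2 ⟨i.2, hi⟩⟩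
      apply hψ
      ext g
      rw [AddChar.one_apply]
      apply lev_char (fun i : {p // p ∈ P} => LevH i)
      intro i
      by_contra h8
      exact h9 i ((hE i).2 ⟨_, h8⟩)
    have h10 := hε (levUp E) (lev_sub E) hEne
    have h11 : ∑ g, (F g : ℂ) * ψ g = (Fintype.card (∀ i : {p // p ∈ P}, LevH i) : ℂ) * z *
        ((Ssum P c τ (levUp E) : ℝ) : ℂ) := by
      rw [← lev_Ssum c τ E, ← hsum]
    rw [h11, norm_mul, norm_mul, Complex.norm_natCast, Complex.norm_real, Real.norm_eq_abs]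
    rw [lev_prod] at hz
    calc (Fintype.card (∀ i : {p // p ∈ P}, LevH i) : ℝ) * ‖z‖ * |Ssum P c τ (levUp E)|
        = Fintype.card (∀ i : {p // p ∈ P}, LevH i) * (‖z‖ * |Ssum P c τ (levUp E)|) := by ring
      _ ≤ Fintype.card (∀ i : {p // p ∈ P}, LevH i) *
          ((∏ p ∈ levUp E, τ p) * |Ssum P c τ (levUp E)|) := by
          apply mul_le_mul_of_nonneg_left _ (Nat.cast_nonneg _)
          exact mul_le_mul_of_nonneg_right hz (abs_nonneg _)
      _ ≤ Fintype.card (∀ i : {p // p ∈ P}, LevH i) * ε :=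
          mul_le_mul_of_nonneg_left h10 (Nat.cast_nonneg _)
      _ = ε * Fintype.card (∀ i : {p // p ∈ P}, LevH i) := mul_comm _ _
  have hb := bil (G := ∀ i : {p // p ∈ P}, LevH i) (fun i => ((1, 0) : LevH i))
    (fun i => ((0, 1) : LevH i)) (fun g => lev_gen hP g) F D N hD1 hDN hsupp ε hε0 hεψ A B hA hB
  rw [hmain] at hb
  have hFval : ∀ a b : ℤ × ℤ, F ((a - b).1 • (fun i : {p // p ∈ P} => ((1, 0) : LevH i)) +
      (a - b).2 • (fun i : {p // p ∈ P} => ((0, 1) : LevH i))) =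
      ∑ n ∈ P.powerset, c n * ∏ p ∈ n, T p (a - b) := by
    intro a b
    rw [hF, ← lev_sum (fun n => c n * ∏ p ∈ n, T p (a - b))]
    simp only
    refine Finset.sum_congr rfl fun n _ => ?_
    congr 1
    rw [← lev_prod n (fun p => T p (a - b))]
    refine Finset.prod_congr rfl fun i _ => ?_
    have hv : ((a - b).1 • (fun i : {p // p ∈ P} => ((1, 0) : LevH i)) +
      (a - b).2 • (fun i : {p // p ∈ P} => ((0, 1) : LevH i))) i =
      ((((a - b).1 : ℤ) : ZMod ((i : ℕ) ^ 2)), (((a - b).2 : ℤ) : ZMod ((i : ℕ) ^ 2))) := by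
      rw [Pi.add_apply, Pi.smul_apply, Pi.smul_apply, zsmul_eq_mul, zsmul_eq_mul]
      ext
      · rw [Prod.fst_add, Prod.fst_mul, Prod.fst_mul, Prod.fst_intCast, Prod.fst_intCast]
        simp only [mul_one, mul_zero, add_zero]
      · rw [Prod.snd_add, Prod.snd_mul, Prod.snd_mul, Prod.snd_intCast, Prod.snd_intCast]
        simp only [mul_one, mul_zero, zero_add]
    rw [ht]
    simp only
    rw [hv]
    exact lev_per (hT i i.2) (a - b)
  simp only [hFval] at hb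
  exact hb

end Pool.Agent.Lib.DG
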