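import Pool.Agent.Lib.MP_1a9bf8_co.Defs

/-!
# LOCT: the local functions of the problem
Periodicity: `nq (z + p^2 w) = nq z mod p^2`.  Mean: `z -> c0 + Q z` permutes the residues mod `p^2` when `p` does not
divide `Q`.  Size: modulo `p` there is `i` with `i^2 = -1`; `p | x^2+y^2` iff `x = ± i y mod p`: at most `2 p^3`
pairs modulo `p^2`; `p^2 | x^2 + y^2`: if `p` does not divide `y`, `x` is one of `2` classes (Hensel, or:
`p^2 | (x-x')(x+x')` and `p` cannot divide both factors), if `p | y` then `p | x`: at most `2 p^2 + p^2`.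
So `τ <= 1/2 (2/p + 3/p^2)`.
-/

set_option autoImplicit false

namespace Pool.Agent.Lib.DG

open Finset

theorem loct_nq (z : ℤ × ℤ) : ((nq z : ℕ) : ℤ) = z.1 ^ 2 + z.2 ^ 2 := by
  unfold nq
  push_cast
  rw [sq_abs, sq_abs]

theorem loct_dvd {d : ℕ} {z z' : ℤ × ℤ} (h1 : (d : ℤ) ∣ z.1 - z'.1) (h2 : (d : ℤ) ∣ z.2 - z'.2) :
    d ∣ nq z ↔ d ∣ nq z' := by
  rw [← Int.natCast_dvd_natCast, ← Int.natCast_dvd_natCast (n := nq z'), loct_nq, loct_nq]
  have h : (d : ℤ) ∣ (z.1 ^ 2 + z.2 ^ 2) - (z'.1 ^ 2 + z'.2 ^ 2) := by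
    have e : (z.1 ^ 2 + z.2 ^ 2) - (z'.1 ^ 2 + z'.2 ^ 2) =
        (z.1 - z'.1) * (z.1 + z'.1) + (z.2 - z'.2) * (z.2 + z'.2) := by ring
    rw [e]
    exact dvd_add (h1.mul_right _) (h2.mul_right _)
  constructor
  · intro h'
    have := dvd_sub h' h
    rwa [sub_sub_cancel] at this
  · intro h'
    have := dvd_add h h'
    rwa [sub_add_cancel] at this

theorem loct_congr {p : ℕ} {z z' : ℤ × ℤ} (h1 : ((p ^ 2 : ℕ) : ℤ) ∣ z.1 - z'.1)
    (h2 : ((p ^ 2 : ℕ) : ℤ) ∣ z.2 - z'.2) : T0 p z = T0 p z' := by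
  have hp : (p : ℤ) ∣ ((p ^ 2 : ℕ) : ℤ) := by
    push_cast
    exact dvd_pow_self _ two_ne_zero
  unfold T0
  simp only [loct_dvd h1 h2, loct_dvd (hp.trans h1) (hp.trans h2)]

theorem loct_sum (n : ℕ) [NeZero n] (g : ℕ → ℝ) :
    ∑ x ∈ Finset.range n, g x = ∑ u : ZMod n, g u.val := by
  refine Finset.sum_nbij' (fun x => (x : ZMod n)) (fun u => u.val) ?_ ?_ ?_ ?_ ?_
  · intro x _
    exact Finset.mem_univ _
  · intro u _
    exact Finset.mem_range.2 (ZMod.val_lt u)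
  · intro x hx
    exact ZMod.val_natCast_of_lt (Finset.mem_range.1 hx)
  · intro u _
    exact ZMod.natCast_zmod_val u
  · intro x hx
    rw [ZMod.val_natCast_of_lt (Finset.mem_range.1 hx)]

theorem loct_aff (n : ℕ) [NeZero n] (Q c : ℤ) (hQ : IsCoprime (n : ℤ) Q) (f : ZMod n → ℝ) :
    ∑ u : ZMod n, f ((c : ZMod n) + (Q : ZMod n) * u) = ∑ u : ZMod n, f u := by
  have hu : IsUnit (Q : ZMod n) := (ZMod.coe_int_isUnit_iff_isCoprime Q n).2 hQ
  have hb : Function.Bijective (fun u : ZMod n => (c : ZMod n) + (Q : ZMod n) * u) := by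
    rw [← Finite.injective_iff_bijective]
    intro u v huv
    exact hu.mul_left_cancel (add_left_cancel huv)
  exact hb.sum_comp f

theorem loct_T0_split (p : ℕ) (z : ℤ × ℤ) :
    T0 p z = (1 / 2) * (if p ∣ nq z then (1 : ℝ) else 0) + (1 / 2) *
      (if p ^ 2 ∣ nq z then (1 : ℝ) else 0) := by
  unfold T0
  have h : p ^ 2 ∣ nq z → p ∣ nq z := fun h => (dvd_pow_self p two_ne_zero).trans h
  by_cases h2 : p ^ 2 ∣ nq z
  · rw [if_pos h2, if_pos h2, if_pos (h h2)]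
    norm_num
  · rw [if_neg h2, if_neg h2]
    split_ifs <;> norm_num

theorem loct_c1 {p : ℕ} (hp : 0 < p) (a : ℤ) :
    ((Finset.range (p ^ 2)).filter (fun y : ℕ => (p : ℤ) ∣ (y : ℤ) - a)).card ≤ p := by
  conv_rhs => rw [← Finset.card_range p]
  refine Finset.card_le_card_of_injOn (fun y => y / p) ?_ ?_
  · intro y hy
    rw [Finset.mem_coe, Finset.mem_filter, Finset.mem_range] at hy
    rw [Finset.mem_coe, Finset.mem_range]
    exact Nat.div_lt_of_lt_mul (by rw [← sq]; exact hy.1)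
  · intro y hy y' hy' h
    rw [Finset.mem_coe, Finset.mem_filter] at hy hy'
    have h1 : (p : ℤ) ∣ (y : ℤ) - y' := by
      have := dvd_sub hy.2 hy'.2
      rwa [sub_sub_sub_cancel_right] at this
    have h2 : y' % p = y % p := by
      have := (Int.emod_emod_of_dvd (y : ℤ) (dvd_refl (p : ℤ)))
      have h3 : (y' : ℤ) ≡ y [ZMOD p] := Int.modEq_iff_dvd.2 h1
      exact (Int.natCast_modEq_iff.1 h3)
    have h' : y / p = y' / p := h
    rw [← Nat.div_add_mod y p, ← Nat.div_add_mod y' p, h', h2]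

theorem loct_c2 (n : ℕ) (a : ℤ) :
    ((Finset.range n).filter (fun y : ℕ => (n : ℤ) ∣ (y : ℤ) - a)).card ≤ 1 := by
  rw [Finset.card_le_one]
  intro y hy y' hy'
  rw [Finset.mem_filter, Finset.mem_range] at hy hy'
  have h1 : (n : ℤ) ∣ (y : ℤ) - y' := by
    have := dvd_sub hy.2 hy'.2
    rwa [sub_sub_sub_cancel_right] at this
  have h3 : (y' : ℤ) ≡ y [ZMOD n] := Int.modEq_iff_dvd.2 h1
  have h4 : y' % n = y % n := Int.natCast_modEq_iff.1 h3
  rw [Nat.mod_eq_of_lt hy.1, Nat.mod_eq_of_lt hy'.1] at h4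
  exact h4.symm

theorem loct_cc1 {p : ℕ} (hp : p.Prime) (x : ℤ) :
    ((Finset.range (p ^ 2)).filter (fun y : ℕ => p ∣ nq (x, (y : ℤ)))).card ≤ 2 * p := by
  rcases Finset.eq_empty_or_nonempty
    ((Finset.range (p ^ 2)).filter (fun y : ℕ => p ∣ nq (x, (y : ℤ)))) with h0 | ⟨y0, hy0⟩
  · rw [h0, Finset.card_empty]
    exact Nat.zero_le _
  have hpz : Prime (p : ℤ) := Nat.prime_iff_prime_int.1 hp
  have hsub : (Finset.range (p ^ 2)).filter (fun y : ℕ => p ∣ nq (x, (y : ℤ))) ⊆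
      (Finset.range (p ^ 2)).filter (fun y : ℕ => (p : ℤ) ∣ (y : ℤ) - (y0 : ℤ)) ∪
      (Finset.range (p ^ 2)).filter (fun y : ℕ => (p : ℤ) ∣ (y : ℤ) - (-(y0 : ℤ))) := by
    intro y hy
    have h1 := (Finset.mem_filter.1 hy).2
    have h2 := (Finset.mem_filter.1 hy0).2
    rw [← Int.natCast_dvd_natCast, loct_nq] at h1 h2
    have h3 : (p : ℤ) ∣ ((y : ℤ) - y0) * ((y : ℤ) - (-(y0 : ℤ))) := by
      have := dvd_sub h1 h2
      have e : (x ^ 2 + (y : ℤ) ^ 2) - (x ^ 2 + (y0 : ℤ) ^ 2) =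
        ((y : ℤ) - y0) * ((y : ℤ) - (-(y0 : ℤ))) := by ring
      rw [← e]
      exact this
    rcases hpz.dvd_or_dvd h3 with h | h
    · exact Finset.mem_union_left _ (Finset.mem_filter.2 ⟨(Finset.mem_filter.1 hy).1, h⟩)
    · exact Finset.mem_union_right _ (Finset.mem_filter.2 ⟨(Finset.mem_filter.1 hy).1, h⟩)
  refine (Finset.card_le_card hsub).trans ((Finset.card_union_le _ _).trans ?_)
  have e1 := loct_c1 hp.pos (y0 : ℤ)
  have e2 := loct_c1 hp.pos (-(y0 : ℤ))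
  omega

theorem loct_cc2 {p : ℕ} (hp : p.Prime) (hp2 : p ≠ 2) (x : ℤ) (hx : ¬ (p : ℤ) ∣ x) :
    ((Finset.range (p ^ 2)).filter (fun y : ℕ => p ^ 2 ∣ nq (x, (y : ℤ)))).card ≤ 2 := by
  rcases Finset.eq_empty_or_nonempty
    ((Finset.range (p ^ 2)).filter (fun y : ℕ => p ^ 2 ∣ nq (x, (y : ℤ)))) with h0 | ⟨y0, hy0⟩
  · rw [h0, Finset.card_empty]
    exact Nat.zero_le _
  have hpz : Prime (p : ℤ) := Nat.prime_iff_prime_int.1 hp
  have h2 := (Finset.mem_filter.1 hy0).2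
  rw [← Int.natCast_dvd_natCast, loct_nq] at h2
  have hpp : (p : ℤ) ∣ ((p ^ 2 : ℕ) : ℤ) := by
    push_cast
    exact dvd_pow_self _ two_ne_zero
  have hy0n : ¬ (p : ℤ) ∣ (y0 : ℤ) := by
    intro h
    apply hx
    have h3 : (p : ℤ) ∣ x ^ 2 + (y0 : ℤ) ^ 2 := hpp.trans h2
    have h4 : (p : ℤ) ∣ (y0 : ℤ) ^ 2 := h.trans (dvd_pow_self _ two_ne_zero)
    exact hpz.dvd_of_dvd_pow ((dvd_add_left h4).1 h3)
  have hsub : (Finset.range (p ^ 2)).filter (fun y : ℕ => p ^ 2 ∣ nq (x, (y : ℤ))) ⊆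
      (Finset.range (p ^ 2)).filter (fun y : ℕ => ((p ^ 2 : ℕ) : ℤ) ∣ (y : ℤ) - (y0 : ℤ)) ∪
      (Finset.range (p ^ 2)).filter (fun y : ℕ => ((p ^ 2 : ℕ) : ℤ) ∣ (y : ℤ) - (-(y0 : ℤ))) := by
    intro y hy
    have h1 := (Finset.mem_filter.1 hy).2
    rw [← Int.natCast_dvd_natCast, loct_nq] at h1
    have h3 : ((p ^ 2 : ℕ) : ℤ) ∣ ((y : ℤ) - y0) * ((y : ℤ) - (-(y0 : ℤ))) := by
      have := dvd_sub h1 h2
      have e : (x ^ 2 + (y : ℤ) ^ 2) - (x ^ 2 + (y0 : ℤ) ^ 2) =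
        ((y : ℤ) - y0) * ((y : ℤ) - (-(y0 : ℤ))) := by ring
      rw [← e]
      exact this
    push_cast at h3
    have hcp : ∀ t : ℤ, ¬ (p : ℤ) ∣ t → IsCoprime ((p : ℤ) ^ 2) t := by
      intro t ht
      exact IsCoprime.pow_left ((Prime.coprime_iff_not_dvd hpz).2 ht)
    by_cases h : (p : ℤ) ∣ (y : ℤ) - y0
    · have h' : ¬ (p : ℤ) ∣ (y : ℤ) - (-(y0 : ℤ)) := by
        intro h'
        have h5 : (p : ℤ) ∣ 2 * (y0 : ℤ) := by
          have := dvd_sub h' h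
          have e : ((y : ℤ) - (-(y0 : ℤ))) - ((y : ℤ) - y0) = 2 * (y0 : ℤ) := by ring
          rwa [e] at this
        rcases hpz.dvd_or_dvd h5 with h6 | h6
        · apply hp2
          have h7 : p ∣ 2 := by exact_mod_cast h6
          exact (Nat.prime_dvd_prime_iff_eq hp Nat.prime_two).1 h7
        · exact hy0n h6
      have h8 := (hcp _ h').dvd_of_dvd_mul_right h3
      refine Finset.mem_union_left _ (Finset.mem_filter.2 ⟨(Finset.mem_filter.1 hy).1, ?_⟩)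
      push_cast
      exact h8
    · have h8 := (hcp _ h).dvd_of_dvd_mul_left h3
      refine Finset.mem_union_right _ (Finset.mem_filter.2 ⟨(Finset.mem_filter.1 hy).1, ?_⟩)
      push_cast
      exact h8
  refine (Finset.card_le_card hsub).trans ((Finset.card_union_le _ _).trans ?_)
  have e1 := loct_c2 (p ^ 2) (y0 : ℤ)
  have e2 := loct_c2 (p ^ 2) (-(y0 : ℤ))
  omega

theorem loct_cc3 {p : ℕ} (hp : p.Prime) (x : ℤ) (hx : (p : ℤ) ∣ x) :
    ((Finset.range (p ^ 2)).filter (fun y : ℕ => p ^ 2 ∣ nq (x, (y : ℤ)))).card ≤ p := by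
  refine le_trans (Finset.card_le_card ?_) (loct_c1 hp.pos 0)
  intro y hy
  have hpz : Prime (p : ℤ) := Nat.prime_iff_prime_int.1 hp
  have h1 := (Finset.mem_filter.1 hy).2
  rw [← Int.natCast_dvd_natCast, loct_nq] at h1
  have hpp : (p : ℤ) ∣ ((p ^ 2 : ℕ) : ℤ) := by
    push_cast
    exact dvd_pow_self _ two_ne_zero
  have h3 : (p : ℤ) ∣ x ^ 2 + (y : ℤ) ^ 2 := hpp.trans h1
  have h4 : (p : ℤ) ∣ x ^ 2 := hx.trans (dvd_pow_self _ two_ne_zero)
  refine Finset.mem_filter.2 ⟨(Finset.mem_filter.1 hy).1, ?_⟩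
  rw [sub_zero]
  exact hpz.dvd_of_dvd_pow ((dvd_add_right h4).1 h3)

theorem loc_T0 {p : ℕ} (hp : p.Prime) (h4 : p % 4 = 1) (Q : ℤ) (hQ : ¬ (p : ℤ) ∣ Q) (c0 : ℤ × ℤ) :
    Loc (fun z => T0 p (c0 + Q • z)) p (tau0 p) := by
  have hp0 : (0 : ℝ) < p := by exact_mod_cast hp.pos
  haveI : NeZero (p ^ 2) := ⟨(pow_pos hp.pos 2).ne'⟩
  refine ⟨?_, ?_, ?_, ?_⟩
  · intro z
    show 0 ≤ T0 p _
    unfold T0
    split_ifs <;> norm_num
  · intro z
    show T0 p _ ≤ 1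
    unfold T0
    split_ifs <;> norm_num
  · intro z w
    refine loct_congr ?_ ?_
    · refine ⟨Q * w.1, ?_⟩
      simp only [Prod.fst_add, Prod.smul_fst, smul_eq_mul]
      push_cast
      ring
    · refine ⟨Q * w.2, ?_⟩
      simp only [Prod.snd_add, Prod.smul_snd, smul_eq_mul]
      push_cast
      ring
  · have hcop : IsCoprime ((p ^ 2 : ℕ) : ℤ) Q := by
      push_cast
      exact IsCoprime.pow_left
        ((Prime.coprime_iff_not_dvd (Nat.prime_iff_prime_int.1 hp)).2 hQ)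
    have hval : ∀ t : ℤ, ((p ^ 2 : ℕ) : ℤ) ∣ t - (((t : ZMod (p ^ 2)).val : ℕ) : ℤ) := by
      intro t
      rw [← ZMod.intCast_zmod_eq_zero_iff_dvd]
      push_cast
      rw [ZMod.natCast_zmod_val, sub_self]
    have e1 : tau0 p * (p : ℝ) ^ 4 =
        ∑ x ∈ Finset.range (p ^ 2), ∑ y ∈ Finset.range (p ^ 2), T0 p ((x : ℤ), (y : ℤ)) := by
      unfold tau0
      rw [div_mul_cancel₀]
      positivity
    rw [e1]
    have e2 : ∀ g : ℕ → ℕ → ℝ, ∑ x ∈ Finset.range (p ^ 2), ∑ y ∈ Finset.range (p ^ 2), g x y =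
        ∑ u : ZMod (p ^ 2), ∑ v : ZMod (p ^ 2), g u.val v.val := by
      intro g
      rw [loct_sum (p ^ 2) (fun x => ∑ y ∈ Finset.range (p ^ 2), g x y)]
      exact Finset.sum_congr rfl fun u _ => loct_sum (p ^ 2) (fun y => g u.val y)
    rw [e2, e2]
    rw [← loct_aff (p ^ 2) Q c0.1 hcop
      (fun u => ∑ v : ZMod (p ^ 2), T0 p (((u.val : ℕ) : ℤ), ((v.val : ℕ) : ℤ)))]
    refine Finset.sum_congr rfl fun u _ => ?_
    rw [← loct_aff (p ^ 2) Q c0.2 hcop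
      (fun v => T0 p (((((c0.1 : ZMod (p ^ 2)) + (Q : ZMod (p ^ 2)) * u).val : ℕ) : ℤ),
        ((v.val : ℕ) : ℤ)))]
    refine Finset.sum_congr rfl fun v _ => ?_
    refine loct_congr ?_ ?_
    · have h := hval (c0.1 + Q * (u.val : ℤ))
      push_cast at h
      rw [ZMod.natCast_zmod_val] at h
      simp only [Prod.fst_add, Prod.smul_fst, smul_eq_mul]
      push_cast
      exact h
    · have h := hval (c0.2 + Q * (v.val : ℤ))
      push_cast at h
      rw [ZMod.natCast_zmod_val] at h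
      simp only [Prod.snd_add, Prod.smul_snd, smul_eq_mul]
      push_cast
      exact h

theorem tau0_le {p : ℕ} (hp : p.Prime) (h4 : p % 4 = 1) : tau0 p ≤ 1 / p + 2 / (p : ℝ) ^ 2 := by
  have hp0 : (0 : ℝ) < p := by exact_mod_cast hp.pos
  have hp2 : p ≠ 2 := by rintro rfl; norm_num at h4
  have hrow : ∀ x ∈ Finset.range (p ^ 2), ∑ y ∈ Finset.range (p ^ 2), T0 p ((x : ℤ), (y : ℤ)) ≤
      (p : ℝ) + (1 / 2) * (2 + (if (p : ℤ) ∣ (x : ℤ) - 0 then (p : ℝ) else 0)) := by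
    intro x _
    have e1 : ∑ y ∈ Finset.range (p ^ 2), T0 p ((x : ℤ), (y : ℤ)) =
        (1 / 2) * (((Finset.range (p ^ 2)).filter (fun y : ℕ => p ∣ nq ((x : ℤ), (y : ℤ)))).card : ℝ) +
        (1 / 2) * (((Finset.range (p ^ 2)).filter
          (fun y : ℕ => p ^ 2 ∣ nq ((x : ℤ), (y : ℤ)))).card : ℝ) := by
      have e0 : ∀ y ∈ Finset.range (p ^ 2), T0 p ((x : ℤ), (y : ℤ)) =
          (1 / 2) * (if p ∣ nq ((x : ℤ), (y : ℤ)) then (1 : ℝ) else 0) + (1 / 2) *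
          (if p ^ 2 ∣ nq ((x : ℤ), (y : ℤ)) then (1 : ℝ) else 0) :=
        fun y _ => loct_T0_split p ((x : ℤ), (y : ℤ))
      rw [Finset.sum_congr rfl e0]
      rw [Finset.sum_add_distrib, ← Finset.mul_sum, ← Finset.mul_sum, Finset.sum_boole,
        Finset.sum_boole]
    rw [e1]
    have h1 : (((Finset.range (p ^ 2)).filter
        (fun y : ℕ => p ∣ nq ((x : ℤ), (y : ℤ)))).card : ℝ) ≤ 2 * p := by
      exact_mod_cast loct_cc1 hp (x : ℤ)
    have h2 : (((Finset.range (p ^ 2)).filter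
        (fun y : ℕ => p ^ 2 ∣ nq ((x : ℤ), (y : ℤ)))).card : ℝ) ≤
        2 + (if (p : ℤ) ∣ (x : ℤ) - 0 then (p : ℝ) else 0) := by
      rw [sub_zero]
      split_ifs with h
      · have := loct_cc3 hp (x : ℤ) h
        have h' : (((Finset.range (p ^ 2)).filter
          (fun y : ℕ => p ^ 2 ∣ nq ((x : ℤ), (y : ℤ)))).card : ℝ) ≤ p := by exact_mod_cast this
        linarith
      · have := loct_cc2 hp hp2 (x : ℤ) h
        have h' : (((Finset.range (p ^ 2)).filter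
          (fun y : ℕ => p ^ 2 ∣ nq ((x : ℤ), (y : ℤ)))).card : ℝ) ≤ 2 := by exact_mod_cast this
        linarith
    linarith
  have htot : ∑ x ∈ Finset.range (p ^ 2), ∑ y ∈ Finset.range (p ^ 2), T0 p ((x : ℤ), (y : ℤ)) ≤
      (p : ℝ) ^ 3 + 2 * (p : ℝ) ^ 2 := by
    refine (Finset.sum_le_sum hrow).trans ?_
    rw [Finset.sum_add_distrib, ← Finset.mul_sum, Finset.sum_add_distrib, Finset.sum_const,
      Finset.sum_const, Finset.card_range, ← Finset.sum_filter, Finset.sum_const, nsmul_eq_mul,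
      nsmul_eq_mul, nsmul_eq_mul]
    have h3 : (((Finset.range (p ^ 2)).filter (fun y : ℕ => (p : ℤ) ∣ (y : ℤ) - 0)).card : ℝ) ≤ p := by
      exact_mod_cast loct_c1 hp.pos 0
    have h4 : (((Finset.range (p ^ 2)).filter (fun y : ℕ => (p : ℤ) ∣ (y : ℤ) - 0)).card : ℝ) * p ≤
        p * p := mul_le_mul_of_nonneg_right h3 hp0.le
    push_cast
    nlinarith [sq_nonneg (p : ℝ)]
  unfold tau0
  rw [div_le_iff₀ (by positivity)]
  refine htot.trans (le_of_eq ?_)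
  field_simp

end Pool.Agent.Lib.DG
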