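import Pool.Agent.Lib.MP_1a9bf8_co.DefsT
import Pool.Agent.Lib.MP_1a9bf8_co.LOCT

/-!
# LOCTT: the local functions (as LOCT)
Modulo `p = 1 mod 3` there is `ρ` with `ρ^2 + ρ + 1 = 0`, the other root is `-1 - ρ ≠ ρ`; `p | nqT (x,y)` iff `x = ρ y` or
`x = (-1-ρ) y mod p`: at most `2 p^3` pairs modulo `p^2`; `p^2 | nqT`: if `p` does not divide `y`, at most `2` classes of
`x` modulo `p^2` (`p^2 | (x - x')(x + x' + y)` and `p` cannot divide both factors, as `(2x+y)^2 = -3y^2`), if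
`p | y` then `p | x`: at most `2 p^2 + p^2`.
-/

set_option autoImplicit false

namespace Pool.Agent.Lib.DG

open Finset

theorem loctt_nq (z : ℤ × ℤ) (d : ℕ) : d ∣ nqT z ↔ (d : ℤ) ∣ z.1 ^ 2 + z.1 * z.2 + z.2 ^ 2 := by
  unfold nqT
  rw [← Int.natCast_dvd]

theorem loctt_dvd {d : ℕ} {z z' : ℤ × ℤ} (h1 : (d : ℤ) ∣ z.1 - z'.1) (h2 : (d : ℤ) ∣ z.2 - z'.2) :
    d ∣ nqT z ↔ d ∣ nqT z' := by
  rw [loctt_nq, loctt_nq]
  have h : (d : ℤ) ∣ (z.1 ^ 2 + z.1 * z.2 + z.2 ^ 2) - (z'.1 ^ 2 + z'.1 * z'.2 + z'.2 ^ 2) := by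
    have e : (z.1 ^ 2 + z.1 * z.2 + z.2 ^ 2) - (z'.1 ^ 2 + z'.1 * z'.2 + z'.2 ^ 2) =
        (z.1 - z'.1) * (z.1 + z'.1 + z.2) + (z.2 - z'.2) * (z'.1 + z.2 + z'.2) := by ring
    rw [e]
    exact dvd_add (h1.mul_right _) (h2.mul_right _)
  constructor
  · intro h'
    have := dvd_sub h' h
    rwa [sub_sub_cancel] at this
  · intro h'
    have := dvd_add h h'
    rwa [sub_add_cancel] at this

theorem loctt_congr {p : ℕ} {z z' : ℤ × ℤ} (h1 : ((p ^ 2 : ℕ) : ℤ) ∣ z.1 - z'.1)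
    (h2 : ((p ^ 2 : ℕ) : ℤ) ∣ z.2 - z'.2) : TT p z = TT p z' := by
  have hp : (p : ℤ) ∣ ((p ^ 2 : ℕ) : ℤ) := by
    push_cast
    exact dvd_pow_self _ two_ne_zero
  unfold TT
  simp only [loctt_dvd h1 h2, loctt_dvd (hp.trans h1) (hp.trans h2)]

theorem loctt_split (p : ℕ) (z : ℤ × ℤ) :
    TT p z = (1 / 2) * (if p ∣ nqT z then (1 : ℝ) else 0) + (1 / 2) *
      (if p ^ 2 ∣ nqT z then (1 : ℝ) else 0) := by
  unfold TT
  have h : p ^ 2 ∣ nqT z → p ∣ nqT z := fun h => (dvd_pow_self p two_ne_zero).trans h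
  by_cases h2 : p ^ 2 ∣ nqT z
  · rw [if_pos h2, if_pos h2, if_pos (h h2)]
    norm_num
  · rw [if_neg h2, if_neg h2]
    split_ifs <;> norm_num

theorem loctt_cc1 {p : ℕ} (hp : p.Prime) (x : ℤ) :
    ((Finset.range (p ^ 2)).filter (fun y : ℕ => p ∣ nqT (x, (y : ℤ)))).card ≤ 2 * p := by
  rcases Finset.eq_empty_or_nonempty
    ((Finset.range (p ^ 2)).filter (fun y : ℕ => p ∣ nqT (x, (y : ℤ)))) with h0 | ⟨y0, hy0⟩
  · rw [h0, Finset.card_empty]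
    exact Nat.zero_le _
  have hpz : Prime (p : ℤ) := Nat.prime_iff_prime_int.1 hp
  have hsub : (Finset.range (p ^ 2)).filter (fun y : ℕ => p ∣ nqT (x, (y : ℤ))) ⊆
      (Finset.range (p ^ 2)).filter (fun y : ℕ => (p : ℤ) ∣ (y : ℤ) - (y0 : ℤ)) ∪
      (Finset.range (p ^ 2)).filter (fun y : ℕ => (p : ℤ) ∣ (y : ℤ) - (-(y0 : ℤ) - x)) := by
    intro y hy
    have h1 := (Finset.mem_filter.1 hy).2
    have h2 := (Finset.mem_filter.1 hy0).2
    rw [loctt_nq] at h1 h2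
    have h3 : (p : ℤ) ∣ ((y : ℤ) - y0) * ((y : ℤ) - (-(y0 : ℤ) - x)) := by
      have := dvd_sub h1 h2
      have e : (x ^ 2 + x * (y : ℤ) + (y : ℤ) ^ 2) - (x ^ 2 + x * (y0 : ℤ) + (y0 : ℤ) ^ 2) =
        ((y : ℤ) - y0) * ((y : ℤ) - (-(y0 : ℤ) - x)) := by ring
      rw [← e]
      exact this
    rcases hpz.dvd_or_dvd h3 with h | h
    · exact Finset.mem_union_left _ (Finset.mem_filter.2 ⟨(Finset.mem_filter.1 hy).1, h⟩)
    · exact Finset.mem_union_right _ (Finset.mem_filter.2 ⟨(Finset.mem_filter.1 hy).1, h⟩)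
  refine (Finset.card_le_card hsub).trans ((Finset.card_union_le _ _).trans ?_)
  have e1 := loct_c1 hp.pos (y0 : ℤ)
  have e2 := loct_c1 hp.pos (-(y0 : ℤ) - x)
  omega

theorem loctt_cc2 {p : ℕ} (hp : p.Prime) (hp2 : p ≠ 3) (x : ℤ) (hx : ¬ (p : ℤ) ∣ x) :
    ((Finset.range (p ^ 2)).filter (fun y : ℕ => p ^ 2 ∣ nqT (x, (y : ℤ)))).card ≤ 2 := by
  rcases Finset.eq_empty_or_nonempty
    ((Finset.range (p ^ 2)).filter (fun y : ℕ => p ^ 2 ∣ nqT (x, (y : ℤ)))) with h0 | ⟨y0, hy0⟩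
  · rw [h0, Finset.card_empty]
    exact Nat.zero_le _
  have hpz : Prime (p : ℤ) := Nat.prime_iff_prime_int.1 hp
  have h2 := (Finset.mem_filter.1 hy0).2
  rw [loctt_nq] at h2
  have hpp : (p : ℤ) ∣ ((p ^ 2 : ℕ) : ℤ) := by
    push_cast
    exact dvd_pow_self _ two_ne_zero
  have hy0n : ¬ (p : ℤ) ∣ 2 * (y0 : ℤ) + x := by
    intro h
    have h3 : (p : ℤ) ∣ x ^ 2 + x * (y0 : ℤ) + (y0 : ℤ) ^ 2 := hpp.trans h2
    have h4 : (p : ℤ) ∣ 3 * x ^ 2 := by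
      have e : 3 * x ^ 2 = 4 * (x ^ 2 + x * (y0 : ℤ) + (y0 : ℤ) ^ 2) -
        (2 * (y0 : ℤ) + x) * (2 * (y0 : ℤ) + x) := by ring
      rw [e]
      exact dvd_sub (h3.mul_left _) (h.mul_right _)
    rcases hpz.dvd_or_dvd h4 with h5 | h5
    · apply hp2
      have h7 : p ∣ 3 := by exact_mod_cast h5
      exact (Nat.prime_dvd_prime_iff_eq hp Nat.prime_three).1 h7
    · exact hx (hpz.dvd_of_dvd_pow h5)
  have hsub : (Finset.range (p ^ 2)).filter (fun y : ℕ => p ^ 2 ∣ nqT (x, (y : ℤ))) ⊆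
      (Finset.range (p ^ 2)).filter (fun y : ℕ => ((p ^ 2 : ℕ) : ℤ) ∣ (y : ℤ) - (y0 : ℤ)) ∪
      (Finset.range (p ^ 2)).filter (fun y : ℕ => ((p ^ 2 : ℕ) : ℤ) ∣ (y : ℤ) - (-(y0 : ℤ) - x)) := by
    intro y hy
    have h1 := (Finset.mem_filter.1 hy).2
    rw [loctt_nq] at h1
    have h3 : ((p ^ 2 : ℕ) : ℤ) ∣ ((y : ℤ) - y0) * ((y : ℤ) - (-(y0 : ℤ) - x)) := by
      have := dvd_sub h1 h2
      have e : (x ^ 2 + x * (y : ℤ) + (y : ℤ) ^ 2) - (x ^ 2 + x * (y0 : ℤ) + (y0 : ℤ) ^ 2) =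
        ((y : ℤ) - y0) * ((y : ℤ) - (-(y0 : ℤ) - x)) := by ring
      rw [← e]
      exact this
    push_cast at h3
    have hcp : ∀ t : ℤ, ¬ (p : ℤ) ∣ t → IsCoprime ((p : ℤ) ^ 2) t := by
      intro t ht
      exact IsCoprime.pow_left ((Prime.coprime_iff_not_dvd hpz).2 ht)
    by_cases h : (p : ℤ) ∣ (y : ℤ) - y0
    · have h' : ¬ (p : ℤ) ∣ (y : ℤ) - (-(y0 : ℤ) - x) := by
        intro h'
        have h5 : (p : ℤ) ∣ 2 * (y0 : ℤ) + x := by
          have := dvd_sub h' h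
          have e : ((y : ℤ) - (-(y0 : ℤ) - x)) - ((y : ℤ) - y0) = 2 * (y0 : ℤ) + x := by ring
          rwa [e] at this
        exact hy0n h5
      have h8 := (hcp _ h').dvd_of_dvd_mul_right h3
      refine Finset.mem_union_left _ (Finset.mem_filter.2 ⟨(Finset.mem_filter.1 hy).1, ?_⟩)
      push_cast
      exact h8
    · have h8 := (hcp _ h).dvd_of_dvd_mul_left h3
      refine Finset.mem_union_right _ (Finset.mem_filter.2 ⟨(Finset.mem_filter.1 hy).1, ?_⟩)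
      push_cast
      exact h8
  refine (Finset.card_le_card hsub).trans ((Finset.card_union_le _ _).trans ?_)
  have e1 := loct_c2 (p ^ 2) (y0 : ℤ)
  have e2 := loct_c2 (p ^ 2) (-(y0 : ℤ) - x)
  omega

theorem loctt_cc3 {p : ℕ} (hp : p.Prime) (x : ℤ) (hx : (p : ℤ) ∣ x) :
    ((Finset.range (p ^ 2)).filter (fun y : ℕ => p ^ 2 ∣ nqT (x, (y : ℤ)))).card ≤ p := by
  refine le_trans (Finset.card_le_card ?_) (loct_c1 hp.pos 0)
  intro y hy
  have hpz : Prime (p : ℤ) := Nat.prime_iff_prime_int.1 hp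
  have h1 := (Finset.mem_filter.1 hy).2
  rw [loctt_nq] at h1
  have hpp : (p : ℤ) ∣ ((p ^ 2 : ℕ) : ℤ) := by
    push_cast
    exact dvd_pow_self _ two_ne_zero
  have h3 : (p : ℤ) ∣ x ^ 2 + x * (y : ℤ) + (y : ℤ) ^ 2 := hpp.trans h1
  have h4 : (p : ℤ) ∣ x ^ 2 + x * (y : ℤ) :=
    dvd_add (hx.trans (dvd_pow_self _ two_ne_zero)) (hx.mul_right _)
  refine Finset.mem_filter.2 ⟨(Finset.mem_filter.1 hy).1, ?_⟩
  rw [sub_zero]
  exact hpz.dvd_of_dvd_pow ((dvd_add_right h4).1 h3)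

theorem loc_TT {p : ℕ} (hp : p.Prime) (h4 : p % 3 = 1) (Q : ℤ) (hQ : ¬ (p : ℤ) ∣ Q) (c0 : ℤ × ℤ) :
    Loc (fun z => TT p (c0 + Q • z)) p (tauT p) := by
  have hp0 : (0 : ℝ) < p := by exact_mod_cast hp.pos
  haveI : NeZero (p ^ 2) := ⟨(pow_pos hp.pos 2).ne'⟩
  refine ⟨?_, ?_, ?_, ?_⟩
  · intro z
    show 0 ≤ TT p _
    unfold TT
    split_ifs <;> norm_num
  · intro z
    show TT p _ ≤ 1
    unfold TT
    split_ifs <;> norm_num
  · intro z w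
    refine loctt_congr ?_ ?_
    · refine ⟨Q * w.1, ?_⟩
      simp only [Prod.fst_add, Prod.smul_fst, smul_eq_mul]
      push_cast
      ring
    · refine ⟨Q * w.2, ?_⟩
      simp only [Prod.snd_add, Prod.smul_snd, smul_eq_mul]
      push_cast
      ring
  · have hcop : IsCoprime ((p ^ 2 : ℕ) : ℤ) Q := by
      push_cast
      exact IsCoprime.pow_left
        ((Prime.coprime_iff_not_dvd (Nat.prime_iff_prime_int.1 hp)).2 hQ)
    have hval : ∀ t : ℤ, ((p ^ 2 : ℕ) : ℤ) ∣ t - (((t : ZMod (p ^ 2)).val : ℕ) : ℤ) := by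
      intro t
      rw [← ZMod.intCast_zmod_eq_zero_iff_dvd]
      push_cast
      rw [ZMod.natCast_zmod_val, sub_self]
    have e1 : tauT p * (p : ℝ) ^ 4 =
        ∑ x ∈ Finset.range (p ^ 2), ∑ y ∈ Finset.range (p ^ 2), TT p ((x : ℤ), (y : ℤ)) := by
      unfold tauT
      rw [div_mul_cancel₀]
      positivity
    rw [e1]
    have e2 : ∀ g : ℕ → ℕ → ℝ, ∑ x ∈ Finset.range (p ^ 2), ∑ y ∈ Finset.range (p ^ 2), g x y =
        ∑ u : ZMod (p ^ 2), ∑ v : ZMod (p ^ 2), g u.val v.val := by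
      intro g
      rw [loct_sum (p ^ 2) (fun x => ∑ y ∈ Finset.range (p ^ 2), g x y)]
      exact Finset.sum_congr rfl fun u _ => loct_sum (p ^ 2) (fun y => g u.val y)
    rw [e2, e2]
    rw [← loct_aff (p ^ 2) Q c0.1 hcop
      (fun u => ∑ v : ZMod (p ^ 2), TT p (((u.val : ℕ) : ℤ), ((v.val : ℕ) : ℤ)))]
    refine Finset.sum_congr rfl fun u _ => ?_
    rw [← loct_aff (p ^ 2) Q c0.2 hcop
      (fun v => TT p (((((c0.1 : ZMod (p ^ 2)) + (Q : ZMod (p ^ 2)) * u).val : ℕ) : ℤ),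
        ((v.val : ℕ) : ℤ)))]
    refine Finset.sum_congr rfl fun v _ => ?_
    refine loctt_congr ?_ ?_
    · have h := hval (c0.1 + Q * (u.val : ℤ))
      push_cast at h
      rw [ZMod.natCast_zmod_val] at h
      simp only [Prod.fst_add, Prod.smul_fst, smul_eq_mul]
      push_cast
      exact h
    · have h := hval (c0.2 + Q * (v.val : ℤ))
      push_cast at h
      rw [ZMod.natCast_zmod_val] at h
      simp only [Prod.snd_add, Prod.smul_snd, smul_eq_mul]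
      push_cast
      exact h

theorem tauT_le {p : ℕ} (hp : p.Prime) (h4 : p % 3 = 1) : tauT p ≤ 1 / p + 2 / (p : ℝ) ^ 2 := by
  have hp0 : (0 : ℝ) < p := by exact_mod_cast hp.pos
  have hp2 : p ≠ 3 := by rintro rfl; norm_num at h4
  have hrow : ∀ x ∈ Finset.range (p ^ 2), ∑ y ∈ Finset.range (p ^ 2), TT p ((x : ℤ), (y : ℤ)) ≤
      (p : ℝ) + (1 / 2) * (2 + (if (p : ℤ) ∣ (x : ℤ) - 0 then (p : ℝ) else 0)) := by
    intro x _
    have e1 : ∑ y ∈ Finset.range (p ^ 2), TT p ((x : ℤ), (y : ℤ)) =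
        (1 / 2) * (((Finset.range (p ^ 2)).filter (fun y : ℕ => p ∣ nqT ((x : ℤ), (y : ℤ)))).card : ℝ) +
        (1 / 2) * (((Finset.range (p ^ 2)).filter
          (fun y : ℕ => p ^ 2 ∣ nqT ((x : ℤ), (y : ℤ)))).card : ℝ) := by
      have e0 : ∀ y ∈ Finset.range (p ^ 2), TT p ((x : ℤ), (y : ℤ)) =
          (1 / 2) * (if p ∣ nqT ((x : ℤ), (y : ℤ)) then (1 : ℝ) else 0) + (1 / 2) *
          (if p ^ 2 ∣ nqT ((x : ℤ), (y : ℤ)) then (1 : ℝ) else 0) :=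
        fun y _ => loctt_split p ((x : ℤ), (y : ℤ))
      rw [Finset.sum_congr rfl e0]
      rw [Finset.sum_add_distrib, ← Finset.mul_sum, ← Finset.mul_sum, Finset.sum_boole,
        Finset.sum_boole]
    rw [e1]
    have h1 : (((Finset.range (p ^ 2)).filter
        (fun y : ℕ => p ∣ nqT ((x : ℤ), (y : ℤ)))).card : ℝ) ≤ 2 * p := by
      exact_mod_cast loctt_cc1 hp (x : ℤ)
    have h2 : (((Finset.range (p ^ 2)).filter
        (fun y : ℕ => p ^ 2 ∣ nqT ((x : ℤ), (y : ℤ)))).card : ℝ) ≤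
        2 + (if (p : ℤ) ∣ (x : ℤ) - 0 then (p : ℝ) else 0) := by
      rw [sub_zero]
      split_ifs with h
      · have := loctt_cc3 hp (x : ℤ) h
        have h' : (((Finset.range (p ^ 2)).filter
          (fun y : ℕ => p ^ 2 ∣ nqT ((x : ℤ), (y : ℤ)))).card : ℝ) ≤ p := by exact_mod_cast this
        linarith
      · have := loctt_cc2 hp hp2 (x : ℤ) h
        have h' : (((Finset.range (p ^ 2)).filter
          (fun y : ℕ => p ^ 2 ∣ nqT ((x : ℤ), (y : ℤ)))).card : ℝ) ≤ 2 := by exact_mod_cast this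
        linarith
    linarith
  have htot : ∑ x ∈ Finset.range (p ^ 2), ∑ y ∈ Finset.range (p ^ 2), TT p ((x : ℤ), (y : ℤ)) ≤
      (p : ℝ) ^ 3 + 2 * (p : ℝ) ^ 2 := by
    refine (Finset.sum_le_sum hrow).trans ?_
    rw [Finset.sum_add_distrib, ← Finset.mul_sum, Finset.sum_add_distrib, Finset.sum_const,
      Finset.sum_const, Finset.card_range, ← Finset.sum_filter, Finset.sum_const, nsmul_eq_mul,
      nsmul_eq_mul, nsmul_eq_mul]
    have h3 : (((Finset.range (p ^ 2)).filter (fun y : ℕ => (p : ℤ) ∣ (y : ℤ) - 0)).card : ℝ) ≤ p := by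
      exact_mod_cast loct_c1 hp.pos 0
    have h4 : (((Finset.range (p ^ 2)).filter (fun y : ℕ => (p : ℤ) ∣ (y : ℤ) - 0)).card : ℝ) * p ≤
        p * p := mul_le_mul_of_nonneg_right h3 hp0.le
    push_cast
    nlinarith [sq_nonneg (p : ℝ)]
  unfold tauT
  rw [div_le_iff₀ (by positivity)]
  refine htot.trans (le_of_eq ?_)
  field_simp

end Pool.Agent.Lib.DG
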