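import Pool.Agent.Lib.MP_1a9bf8_co.Defs

/-!
# LVL: the level
`cf n ≠ 0` implies `|n ∩ P_j| <= 2 (b0 + j) + 1` for all `j < J`.  So
`prod_n p <= prod_j y^((2 (b0+j) + 1)/2^j) <= y^(4 b0 + 6)` (real powers, `sum (2(b0+j)+1)/2^j = 4 b0 + 6`).
-/

set_option autoImplicit false

namespace Pool.Agent.Lib.DG

open Finset

theorem lvl_card (P : Finset ℕ) (blk b : ℕ → ℕ) (J : ℕ) (n : Finset ℕ) (hc : cf P blk b J n ≠ 0)
    (j : ℕ) (hj : j < J) : (n ∩ PB P blk j).card ≤ 2 * b j + 1 := by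
  have hjr : j ∈ range J := mem_range.2 hj
  by_contra hcon
  rw [not_le] at hcon
  apply hc
  unfold cf
  have h1 : av (b j) (n ∩ PB P blk j) = 0 := by
    unfold av
    rw [if_neg (by omega)]
  have h2 : ev (b j) (n ∩ PB P blk j) = 0 := by
    unfold ev
    rw [if_neg (by omega)]
  have h3 : ∏ j ∈ range J, av (b j) (n ∩ PB P blk j) = 0 := prod_eq_zero hjr h1
  have h4 : ∑ i ∈ range J, ev (b i) (n ∩ PB P blk i) *
      ∏ j ∈ (range J).erase i, av (b j) (n ∩ PB P blk j) = 0 := by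
    apply sum_eq_zero
    intro i _
    by_cases hij : i = j
    · subst hij
      rw [h2, zero_mul]
    · rw [prod_eq_zero (mem_erase.2 ⟨Ne.symm hij, hjr⟩) h1, mul_zero]
  rw [h3, h4, add_zero, mul_zero]

theorem lvl_sum (b0 J : ℕ) :
    ∑ j ∈ range J, (2 * ((b0 : ℝ) + j) + 1) * (1 / 2 : ℝ) ^ j =
      4 * b0 + 6 - (4 * b0 + 4 * J + 6) * (1 / 2 : ℝ) ^ J := by
  induction J with
  | zero => simp
  | succ J ih =>
    rw [sum_range_succ, ih, pow_succ]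
    push_cast
    ring

theorem lvl (P : Finset ℕ) (blk : ℕ → ℕ) (J b0 y : ℕ) (hy : 1 ≤ y) (hb : ∀ p ∈ P, blk p < J)
    (hp : ∀ p ∈ P, (p : ℝ) ≤ (y : ℝ) ^ ((1 / 2 : ℝ) ^ blk p)) (n : Finset ℕ) (hn : n ⊆ P)
    (hc : cf P blk (fun j => b0 + j) J n ≠ 0) : ∏ p ∈ n, p ≤ y ^ (4 * b0 + 6) := by
  have hy' : (1 : ℝ) ≤ y := by exact_mod_cast hy
  have hy0 : (0 : ℝ) < y := by linarith
  have h1 : (∏ p ∈ n, (p : ℝ)) ≤ (y : ℝ) ^ (∑ p ∈ n, (1 / 2 : ℝ) ^ blk p) := by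
    rw [Real.rpow_sum_of_pos hy0]
    exact prod_le_prod (fun p _ => Nat.cast_nonneg p) (fun p hpn => hp p (hn hpn))
  have h2 : ∑ p ∈ n, (1 / 2 : ℝ) ^ blk p =
      ∑ j ∈ range J, ((n ∩ PB P blk j).card : ℝ) * (1 / 2 : ℝ) ^ j := by
    rw [← sum_fiberwise_of_maps_to (t := range J) (g := blk)
      (fun p hpn => mem_range.2 (hb p (hn hpn)))]
    apply sum_congr rfl
    intro j _
    have e1 : n.filter (fun p => blk p = j) = n ∩ PB P blk j := by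
      ext p
      simp only [PB, mem_filter, mem_inter]
      constructor
      · rintro ⟨h3, h4⟩
        exact ⟨h3, hn h3, h4⟩
      · rintro ⟨h3, _, h4⟩
        exact ⟨h3, h4⟩
    rw [← e1, card_eq_sum_ones, Nat.cast_sum, sum_mul]
    apply sum_congr rfl
    intro p hpn
    rw [(mem_filter.1 hpn).2]
    simp
  have h3 : ∑ p ∈ n, (1 / 2 : ℝ) ^ blk p ≤ (4 * b0 + 6 : ℕ) := by
    rw [h2]
    calc _ ≤ ∑ j ∈ range J, (2 * ((b0 : ℝ) + j) + 1) * (1 / 2 : ℝ) ^ j := by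
          apply sum_le_sum
          intro j hj
          apply mul_le_mul_of_nonneg_right _ (by positivity)
          have := lvl_card P blk (fun j => b0 + j) J n hc j (mem_range.1 hj)
          have h5 : (((n ∩ PB P blk j).card : ℕ) : ℝ) ≤ ((2 * (b0 + j) + 1 : ℕ) : ℝ) := by
            exact_mod_cast this
          push_cast at h5
          exact h5
      _ = 4 * b0 + 6 - (4 * b0 + 4 * J + 6) * (1 / 2 : ℝ) ^ J := lvl_sum b0 J
      _ ≤ _ := by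
        push_cast
        have : 0 ≤ (4 * b0 + 4 * J + 6 : ℝ) * (1 / 2 : ℝ) ^ J := by positivity
        linarith
  have h4 : (∏ p ∈ n, (p : ℝ)) ≤ (y : ℝ) ^ (4 * b0 + 6) := by
    calc _ ≤ (y : ℝ) ^ (∑ p ∈ n, (1 / 2 : ℝ) ^ blk p) := h1
      _ ≤ (y : ℝ) ^ (((4 * b0 + 6 : ℕ)) : ℝ) := Real.rpow_le_rpow_of_exponent_le hy' h3
      _ = _ := Real.rpow_natCast _ _
  have h6 : ((∏ p ∈ n, p : ℕ) : ℝ) ≤ ((y ^ (4 * b0 + 6) : ℕ) : ℝ) := by
    rw [Nat.cast_prod, Nat.cast_pow]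
    exact h4
  exact Nat.cast_le.1 h6

end Pool.Agent.Lib.DG
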