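import Pool.Agent.Lib.MP_1a9bf8_co.LOCT
import Pool.Agent.Lib.MP_79499b_co.Q38MertensAP

/-!
# PRD: the density
`p >= 5`, `1 - τ >= 1 - 1/p - 2/p^2 >= exp(-1/p - C/p^2)`; `sum over p <= y, p = 1 mod 4 of 1/p <=
(1/2) loglog y + C` from `Q38.msum_one_le` minus `Q38.mertens_three_mod_four` (the primes `1 mod 4` and `3 mod 4` are
disjoint subsets of all primes).
-/

set_option autoImplicit false

namespace Pool.Agent.Lib.DG

open Finset
open Pool.Agent.Lib.MP_79499b_co.Q38 (msum msum_one_le mertens_three_mod_four)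

theorem prd_exp {t : ℝ} (h0 : 0 ≤ t) (h1 : t ≤ 1 / 2) : Real.exp (-(t + t ^ 2)) ≤ 1 - t := by
  have h2 : 1 + (t + t ^ 2) + (t + t ^ 2) ^ 2 / 2 ≤ Real.exp (t + t ^ 2) :=
    Real.quadratic_le_exp_of_nonneg (by positivity)
  have h3 : 1 ≤ (1 - t) * Real.exp (t + t ^ 2) := by
    have h4 : 1 ≤ (1 - t) * (1 + (t + t ^ 2) + (t + t ^ 2) ^ 2 / 2) := by
      have h5 : 0 ≤ 1 - t - t ^ 2 - t ^ 3 := by nlinarith [mul_nonneg h0 h0]
      nlinarith [mul_nonneg (mul_nonneg h0 h0) h5]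
    exact h4.trans (mul_le_mul_of_nonneg_left h2 (by linarith))
  rw [Real.exp_neg, inv_le_iff_one_le_mul₀ (Real.exp_pos _)]
  exact h3

theorem prd_factor {p : ℕ} (hp : p.Prime) (h4 : p % 4 = 1) :
    Real.exp (-(1 / p + 6 * (1 / (p : ℝ) ^ 2))) ≤ 1 - tau0 p := by
  have h5 : 5 ≤ p := by
    have := hp.two_le
    omega
  have h5' : (5 : ℝ) ≤ p := by exact_mod_cast h5
  have ht := tau0_le hp h4
  set t : ℝ := 1 / p + 2 / (p : ℝ) ^ 2 with htd
  have hp0 : (0 : ℝ) < p := by linarith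
  have e0 : 0 ≤ t := by positivity
  have e1 : t ≤ 2 / p := by
    have : 2 / (p : ℝ) ^ 2 ≤ 1 / p := by
      rw [div_le_div_iff₀ (by positivity) hp0]
      nlinarith
    rw [htd]
    calc 1 / (p : ℝ) + 2 / (p : ℝ) ^ 2 ≤ 1 / p + 1 / p := by linarith
      _ = 2 / p := by ring
  have e2 : t ≤ 1 / 2 := by
    refine e1.trans ?_
    rw [div_le_div_iff₀ hp0 (by norm_num)]
    linarith
  have e3 : t ^ 2 ≤ 4 * (1 / (p : ℝ) ^ 2) := by
    calc t ^ 2 ≤ (2 / p) ^ 2 := pow_le_pow_left₀ e0 e1 2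
      _ = _ := by rw [div_pow]; ring
  calc Real.exp (-(1 / p + 6 * (1 / (p : ℝ) ^ 2))) ≤ Real.exp (-(t + t ^ 2)) := by
        apply Real.exp_le_exp.2
        have : t = 1 / p + 2 * (1 / (p : ℝ) ^ 2) := by rw [htd]; ring
        linarith
    _ ≤ 1 - t := prd_exp e0 e2
    _ ≤ _ := by linarith

theorem prd_sq (N : ℕ) : ∑ n ∈ (range N).filter (fun n => 2 ≤ n), (1 : ℝ) / (n : ℝ) ^ 2 ≤ 1 := by
  have h : ∀ N : ℕ, 1 ≤ N → ∑ n ∈ (range (N + 1)).filter (fun n => 2 ≤ n), (1 : ℝ) / (n : ℝ) ^ 2 ≤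
      1 - 1 / (N : ℝ) := by
    intro N hN
    induction N, hN using Nat.le_induction with
    | base => simp [show (range 2).filter (fun n => 2 ≤ n) = ∅ by decide]
    | succ N hN ih =>
      rw [range_add_one, filter_insert, if_pos (by omega), sum_insert (by simp)]
      have hN' : (1 : ℝ) ≤ N := by exact_mod_cast hN
      have : 1 / ((N + 1 : ℕ) : ℝ) ^ 2 ≤ 1 / N - 1 / ((N + 1 : ℕ) : ℝ) := by
        push_cast
        rw [div_sub_div _ _ (by positivity) (by positivity), div_le_div_iff₀ (by positivity) (by positivity)]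
        nlinarith
      linarith
  rcases Nat.lt_or_ge N 2 with h1 | h1
  · have : (range N).filter (fun n => 2 ≤ n) = ∅ := by
      apply filter_eq_empty_iff.2
      intro n hn
      rw [mem_range] at hn
      omega
    rw [this]
    simp
  · have h2 := h (N - 1) (by omega)
    rw [Nat.sub_add_cancel (by omega)] at h2
    have : 0 ≤ 1 / ((N - 1 : ℕ) : ℝ) := by positivity
    linarith

theorem prd : ∃ c : ℝ, 0 < c ∧ ∀ w y : ℕ, 3 ≤ y →
    c / √(Real.log y) ≤ ∏ p ∈ PP w y, (1 - tau0 p) := by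
  obtain ⟨C1, hC1, h1⟩ := msum_one_le
  obtain ⟨C2, h2⟩ := mertens_three_mod_four
  refine ⟨Real.exp (-(Real.log 2 / 2 + C1 + C2 + 6)), Real.exp_pos _, fun w y hy => ?_⟩
  have hy' : (3 : ℝ) ≤ y := by exact_mod_cast hy
  have hly : 0 < Real.log y := Real.log_pos (by linarith)
  have hmem : ∀ p ∈ PP w y, p.Prime ∧ p % 4 = 1 ∧ p ≤ y := by
    intro p hp
    rw [PP, mem_filter, mem_Ioc] at hp
    exact ⟨hp.2.1, hp.2.2, hp.1.2⟩
  have e1 : ∑ p ∈ PP w y, (1 : ℝ) / p + msum 4 3 (y + 1) ≤ msum 1 0 (y + 1) := by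
    unfold msum
    have hd : Disjoint (PP w y) ((range (y + 1)).filter (fun p => p.Prime ∧ p % 4 = 3)) := by
      rw [disjoint_left]
      intro p hp hp'
      rw [mem_filter] at hp'
      have := (hmem p hp).2.1
      omega
    have e2 : ∑ p ∈ PP w y, (1 : ℝ) / p = ∑ p ∈ PP w y, ((p : ℝ))⁻¹ :=
      sum_congr rfl fun p _ => one_div _
    rw [e2, ← sum_union hd]
    apply sum_le_sum_of_subset_of_nonneg
    · intro p hp
      rw [mem_union] at hp
      rw [mem_filter, mem_range]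
      rcases hp with hp | hp
      · have := hmem p hp
        exact ⟨by omega, this.1, Nat.mod_one p⟩
      · rw [mem_filter, mem_range] at hp
        exact ⟨hp.1, hp.2.1, Nat.mod_one p⟩
    · intro p _ _
      positivity
  have e3 := h1 (y + 1) (by omega)
  have e4 := h2 (y + 1) (by omega)
  have e5 : Real.log (Real.log ((y + 1 : ℕ) : ℝ)) ≤ Real.log 2 + Real.log (Real.log y) := by
    rw [← Real.log_mul (by norm_num) hly.ne']
    apply Real.log_le_log
    · apply Real.log_pos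
      push_cast
      linarith
    · have h8 : ((y + 1 : ℕ) : ℝ) ≤ (y : ℝ) ^ 2 := by
        push_cast
        nlinarith
      calc Real.log ((y + 1 : ℕ) : ℝ) ≤ Real.log ((y : ℝ) ^ 2) := Real.log_le_log (by positivity) h8
        _ = _ := by rw [Real.log_pow]; norm_num
  have e6 : ∑ p ∈ PP w y, 1 / (p : ℝ) ^ 2 ≤ 1 := by
    refine le_trans ?_ (prd_sq (y + 1))
    apply sum_le_sum_of_subset_of_nonneg
    · intro p hp
      have := hmem p hp
      rw [mem_filter, mem_range]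
      exact ⟨by omega, this.1.two_le⟩
    · intro p _ _
      positivity
  have e7 : ∑ p ∈ PP w y, (1 : ℝ) / p ≤ Real.log 2 / 2 + Real.log (Real.log y) / 2 + C1 + C2 := by
    linarith
  calc Real.exp (-(Real.log 2 / 2 + C1 + C2 + 6)) / √(Real.log y)
      = Real.exp (-(Real.log 2 / 2 + C1 + C2 + 6)) * Real.exp (-(Real.log (Real.log y) / 2)) := by
        rw [Real.exp_neg (Real.log (Real.log y) / 2), Real.sqrt_eq_rpow,
          Real.rpow_def_of_pos hly, div_eq_mul_inv]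
        congr 3
        ring
    _ = Real.exp (-(Real.log 2 / 2 + Real.log (Real.log y) / 2 + C1 + C2) + (-(6 * 1))) := by
        rw [← Real.exp_add]
        congr 1
        ring
    _ ≤ Real.exp (∑ p ∈ PP w y, (-(1 / (p : ℝ) + 6 * (1 / (p : ℝ) ^ 2)))) := by
        apply Real.exp_le_exp.2
        rw [sum_neg_distrib, sum_add_distrib, ← mul_sum]
        linarith
    _ = ∏ p ∈ PP w y, Real.exp (-(1 / (p : ℝ) + 6 * (1 / (p : ℝ) ^ 2))) := Real.exp_sum _ _
    _ ≤ _ := prod_le_prod (fun p _ => (Real.exp_pos _).le)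
        (fun p hp => prd_factor (hmem p hp).1 (hmem p hp).2.1)

end Pool.Agent.Lib.DG
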