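import Pool.Agent.Lib.MP_1a9bf8_co.Defs

/-!
# REP: number of representations as a sum of two squares
Gaussian integers (Mathlib: GaussianInt, `Zsqrtd`, Euclidean domain, `GaussianInt.prime_of_nat_prime_of_mod_four_eq_three`,
`Nat.Prime.sq_add_sq`), or induction on `m`: for a prime `p = 3 mod 4` with `p | m`: `p` divides both coordinates,
`r(m) <= r(m / p^2)` (or `r = 0` if `p^2` does not divide `m`); `p = 2`: `z = (1+i) z'`, `r(m) <= r(m/2)`;
`p = 1 mod 4`, `p = π conj π`, `p^k || m`: every `z` of norm `m` is `π^j (conj π)^(k-j) z'` with `z'` of norm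
`m / p^k`, so `r(m) <= (k+1) r(m / p^k)`; `r(1) = 4`.
-/

set_option autoImplicit false

namespace Pool.Agent.Lib.DG

open Finset

/-- pairs as Gaussian integers -/
def repG (z : ℤ × ℤ) : GaussianInt := ⟨z.1, z.2⟩

/-- Gaussian integers as pairs -/
def repP (z : GaussianInt) : ℤ × ℤ := (z.re, z.im)

theorem rep_norm (z : ℤ × ℤ) : (repG z).norm = (nq z : ℤ) := by
  rw [Zsqrtd.norm_def]
  unfold repG nq
  push_cast
  rw [sq_abs, sq_abs]
  ring

theorem rep_norm' (z : GaussianInt) : (nq (repP z) : ℤ) = z.norm := by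
  rw [← rep_norm]
  rfl

theorem rep_mem (m : ℕ) (z : ℤ × ℤ) :
    z ∈ (Finset.Icc (-(m : ℤ)) m ×ˢ Finset.Icc (-(m : ℤ)) m).filter (fun z => nq z = m) ↔
      nq z = m := by
  rw [Finset.mem_filter]
  refine ⟨fun h => h.2, fun h => ⟨?_, h⟩⟩
  rw [Finset.mem_product, Finset.mem_Icc, Finset.mem_Icc]
  unfold nq at h
  have h1 : z.1.natAbs ≤ z.1.natAbs ^ 2 := Nat.le_self_pow (by norm_num) _
  have h2 : z.2.natAbs ≤ z.2.natAbs ^ 2 := Nat.le_self_pow (by norm_num) _
  have h3 : z.1.natAbs ≤ m := by omega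
  have h4 : z.2.natAbs ≤ m := by omega
  omega

theorem rep_cover {M a : ℕ} (S : Finset GaussianInt)
    (h : ∀ z : GaussianInt, z.norm = (M : ℤ) → ∃ g ∈ S, ∃ w : GaussianInt, w.norm = (a : ℤ) ∧
      z = g * w) : rp M ≤ S.card * rp a := by
  unfold rp
  have hsub : (Finset.Icc (-(M : ℤ)) M ×ˢ Finset.Icc (-(M : ℤ)) M).filter (fun z => nq z = M) ⊆
      (S ×ˢ (Finset.Icc (-(a : ℤ)) a ×ˢ Finset.Icc (-(a : ℤ)) a).filter
        (fun z => nq z = a)).image (fun x => repP (x.1 * repG x.2)) := by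
    intro z hz
    rw [rep_mem] at hz
    obtain ⟨g, hg, w, hw, hzw⟩ := h (repG z) (by rw [rep_norm, hz])
    rw [Finset.mem_image]
    refine ⟨(g, repP w), ?_, ?_⟩
    · rw [Finset.mem_product]
      refine ⟨hg, ?_⟩
      rw [rep_mem]
      have := rep_norm' w
      rw [hw] at this
      exact_mod_cast this
    · change repP (g * w) = z
      rw [← hzw]
      rfl
  calc _ ≤ _ := Finset.card_le_card hsub
    _ ≤ _ := Finset.card_image_le
    _ = _ := Finset.card_product _ _

theorem rep_prime {π : GaussianInt} {p : ℕ} (hp : p.Prime) (hπ : π.norm = (p : ℤ)) :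
    Prime π := by
  rw [← irreducible_iff_prime]
  rw [irreducible_iff]
  constructor
  · intro hu
    rw [← Zsqrtd.norm_eq_one_iff, hπ] at hu
    have : p = 1 := by simpa using hu
    exact hp.one_lt.ne' this
  · intro u v huv
    have h1 : u.norm * v.norm = (p : ℤ) := by rw [← Zsqrtd.norm_mul, ← huv, hπ]
    have h2 : u.norm.natAbs * v.norm.natAbs = p := by
      rw [← Int.natAbs_mul, h1]
      rfl
    rw [← Zsqrtd.norm_eq_one_iff, ← Zsqrtd.norm_eq_one_iff]
    rcases (Nat.prime_mul_iff.1 (h2 ▸ hp)) with h | h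
    · exact Or.inr h.2
    · exact Or.inl h.2

theorem rep_dvd {π z : GaussianInt} {p : ℕ} (hp : p.Prime) (hπ : π.norm = (p : ℤ))
    (h : (p : ℤ) ∣ z.norm) : π ∣ z ∨ star π ∣ z := by
  have h1 : π ∣ z * star z := by
    rw [← Zsqrtd.norm_eq_mul_conj]
    obtain ⟨c, hc⟩ := h
    rw [hc]
    push_cast
    have h2 : ((p : ℤ) : GaussianInt) = π * star π := by
      rw [← hπ, Zsqrtd.norm_eq_mul_conj]
    have h3 : ((p : ℕ) : GaussianInt) = π * star π := by
      rw [← h2]
      push_cast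
      rfl
    rw [h3]
    exact ⟨star π * c, by ring⟩
  rcases (rep_prime hp hπ).dvd_or_dvd h1 with h2 | h2
  · exact Or.inl h2
  · right
    obtain ⟨c, hc⟩ := h2
    refine ⟨star c, ?_⟩
    rw [← star_star z, hc, star_mul']

theorem rep_split {π : GaussianInt} {p : ℕ} (hp : p.Prime) (hπ : π.norm = (p : ℤ)) :
    ∀ (n : ℕ) (z : GaussianInt), ((p : ℤ) ^ n) ∣ z.norm →
      ∃ j ≤ n, π ^ j * (star π) ^ (n - j) ∣ z := by
  have hp0 : (p : ℤ) ≠ 0 := by exact_mod_cast hp.ne_zero
  intro n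
  induction n with
  | zero => intro z _; exact ⟨0, le_rfl, by simp⟩
  | succ n ih =>
    intro z hz
    have h1 : (p : ℤ) ∣ z.norm := (dvd_pow_self _ (by omega)).trans hz
    rcases rep_dvd hp hπ h1 with ⟨w, hw⟩ | ⟨w, hw⟩
    · have h2 : (p : ℤ) ^ n ∣ w.norm := by
        rw [hw, Zsqrtd.norm_mul, hπ, pow_succ, mul_comm (p : ℤ) w.norm] at hz
        exact Int.dvd_of_mul_dvd_mul_right hp0 hz
      obtain ⟨j, hj, hjw⟩ := ih w h2
      refine ⟨j + 1, by omega, ?_⟩
      rw [hw, show n + 1 - (j + 1) = n - j by omega, pow_succ]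
      obtain ⟨u, hu⟩ := hjw
      exact ⟨u, by rw [hu]; ring⟩
    · have h2 : (p : ℤ) ^ n ∣ w.norm := by
        rw [hw, Zsqrtd.norm_mul, Zsqrtd.norm_conj, hπ, pow_succ, mul_comm (p : ℤ) w.norm] at hz
        exact Int.dvd_of_mul_dvd_mul_right hp0 hz
      obtain ⟨j, hj, hjw⟩ := ih w h2
      refine ⟨j, by omega, ?_⟩
      rw [hw, show n + 1 - j = (n - j) + 1 by omega, pow_succ]
      obtain ⟨u, hu⟩ := hjw
      exact ⟨u, by rw [hu]; ring⟩

theorem rep_norm_pow (g : GaussianInt) (n : ℕ) : (g ^ n).norm = g.norm ^ n := by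
  induction n with
  | zero => rw [pow_zero, pow_zero]; rfl
  | succ n ih => rw [pow_succ, Zsqrtd.norm_mul, ih, pow_succ]

theorem rep_cancel {g w : GaussianInt} {p a n : ℕ} (hp : p.Prime) (hg : g.norm = (p : ℤ) ^ n)
    (h : (g * w).norm = ((p ^ n * a : ℕ) : ℤ)) : w.norm = (a : ℤ) := by
  rw [Zsqrtd.norm_mul, hg] at h
  push_cast at h
  have hp0 : (p : ℤ) ^ n ≠ 0 := pow_ne_zero _ (by exact_mod_cast hp.ne_zero)
  exact mul_left_cancel₀ hp0 h

theorem rep_one_mod {p a n : ℕ} (hp : p.Prime) {π : GaussianInt} (hπ : π.norm = (p : ℤ)) :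
    rp (p ^ n * a) ≤ (n + 1) * rp a := by
  refine (rep_cover (M := p ^ n * a) (a := a)
    ((Finset.range (n + 1)).image (fun j => π ^ j * (star π) ^ (n - j))) ?_).trans ?_
  · intro z hz
    obtain ⟨j, hj, w, hw⟩ := rep_split hp hπ n z (by rw [hz]; push_cast; exact dvd_mul_right _ _)
    refine ⟨π ^ j * (star π) ^ (n - j), ?_, w, ?_, hw⟩
    · rw [Finset.mem_image]
      exact ⟨j, Finset.mem_range.2 (by omega), rfl⟩
    · apply rep_cancel (g := π ^ j * (star π) ^ (n - j)) (p := p) (n := n) hp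
      · rw [Zsqrtd.norm_mul, rep_norm_pow, rep_norm_pow, Zsqrtd.norm_conj, hπ, ← pow_add]
        congr 1
        omega
      · rw [← hw, hz]
  · apply Nat.mul_le_mul_right
    refine Finset.card_image_le.trans ?_
    rw [Finset.card_range]

theorem rep_two {a n : ℕ} : rp (2 ^ n * a) ≤ rp a := by
  have hπ : (⟨1, 1⟩ : GaussianInt).norm = ((2 : ℕ) : ℤ) := by
    rw [Zsqrtd.norm_def]
    norm_num
  have h := rep_cover (M := 2 ^ n * a) (a := a) {(⟨1, 1⟩ : GaussianInt) ^ n} (by
    intro z hz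
    obtain ⟨j, hj, hjz⟩ := rep_split Nat.prime_two hπ n z
      (by rw [hz]; push_cast; exact dvd_mul_right _ _)
    have h1 : (star (⟨1, 1⟩ : GaussianInt)) = ⟨1, 1⟩ * ⟨0, -1⟩ := by
      ext <;> simp
    have h2 : (⟨1, 1⟩ : GaussianInt) ^ n ∣ z := by
      refine Dvd.dvd.trans ?_ hjz
      rw [h1, mul_pow, ← mul_assoc, ← pow_add, show j + (n - j) = n by omega]
      exact dvd_mul_right _ _
    obtain ⟨w, hw⟩ := h2
    refine ⟨_, Finset.mem_singleton_self _, w, ?_, hw⟩
    apply rep_cancel (g := (⟨1, 1⟩ : GaussianInt) ^ n) (p := 2) (n := n) Nat.prime_two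
    · rw [rep_norm_pow, hπ]
    · rw [← hw, hz])
  rwa [Finset.card_singleton, one_mul] at h

theorem rep_three_aux {p a : ℕ} (hp : p.Prime) (h3 : p % 4 = 3) (ha : ¬ p ∣ a) :
    ∀ (n : ℕ) (z : GaussianInt), z.norm = ((p ^ n * a : ℕ) : ℤ) →
      ∃ w : GaussianInt, w.norm = (a : ℤ) ∧ z = ((p : ℕ) : GaussianInt) ^ (n / 2) * w := by
  have : Fact p.Prime := ⟨hp⟩
  have hpp : Prime ((p : ℕ) : GaussianInt) := GaussianInt.prime_of_nat_prime_of_mod_four_eq_three p h3
  have hpn : ((p : ℕ) : GaussianInt).norm = (p : ℤ) * p := Zsqrtd.norm_natCast p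
  have hp0 : (p : ℤ) ≠ 0 := by exact_mod_cast hp.ne_zero
  have key : ∀ (n : ℕ) (z : GaussianInt), z.norm = ((p ^ (n + 1) * a : ℕ) : ℤ) →
      ∃ w : GaussianInt, z = (p : ℕ) * w ∧ (p : ℤ) * w.norm = ((p ^ n * a : ℕ) : ℤ) := by
    intro n z hz
    have h1 : ((p : ℕ) : GaussianInt) ∣ z * star z := by
      rw [← Zsqrtd.norm_eq_mul_conj, hz]
      push_cast
      rw [pow_succ]
      exact ⟨(p : GaussianInt) ^ n * a, by ring⟩
    have h2 : ((p : ℕ) : GaussianInt) ∣ z := by
      rcases hpp.dvd_or_dvd h1 with h | h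
      · exact h
      · obtain ⟨c, hc⟩ := h
        refine ⟨star c, ?_⟩
        rw [← star_star z, hc, star_mul', star_natCast]
    obtain ⟨w, hw⟩ := h2
    refine ⟨w, hw, ?_⟩
    rw [hw, Zsqrtd.norm_mul, hpn] at hz
    push_cast at hz ⊢
    apply mul_left_cancel₀ hp0
    rw [← mul_assoc, hz]
    ring
  intro n
  induction n using Nat.strong_induction_on with
  | _ n ih =>
    intro z hz
    rcases n with _ | _ | n
    · refine ⟨z, ?_, ?_⟩
      · rw [hz]; simp
      · simp
    · exfalso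
      obtain ⟨w, _, hw⟩ := key 0 z hz
      apply ha
      have h5 : (p : ℤ) ∣ (a : ℤ) := ⟨w.norm, by rw [hw]; simp⟩
      exact_mod_cast h5
    · obtain ⟨w, hw, hw2⟩ := key (n + 1) z hz
      have hw3 : w.norm = ((p ^ n * a : ℕ) : ℤ) := by
        apply mul_left_cancel₀ hp0
        rw [hw2]
        push_cast
        ring
      obtain ⟨u, hu, hwu⟩ := ih n (by omega) w hw3
      refine ⟨u, hu, ?_⟩
      rw [hw, hwu, show (n + 1 + 1) / 2 = n / 2 + 1 by omega, pow_succ]
      ring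

theorem rep_three {p a n : ℕ} (hp : p.Prime) (h3 : p % 4 = 3) (ha : ¬ p ∣ a) :
    rp (p ^ n * a) ≤ rp a := by
  have h := rep_cover (M := p ^ n * a) (a := a) {((p : ℕ) : GaussianInt) ^ (n / 2)} (by
    intro z hz
    obtain ⟨w, hw, hzw⟩ := rep_three_aux hp h3 ha n z hz
    exact ⟨_, Finset.mem_singleton_self _, w, hw, hzw⟩)
  rwa [Finset.card_singleton, one_mul] at h

theorem rep_rp_one : rp 1 ≤ 4 := by
  unfold rp nq
  decide

theorem rep_fac {p a n : ℕ} (hp : p.Prime) (ha : ¬ p ∣ a) (hn : 0 < n) (ha0 : a ≠ 0) :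
    ∏ q ∈ (p ^ n * a).primeFactors.filter (fun q => q % 4 = 1), ((p ^ n * a).factorization q + 1) =
      (if p % 4 = 1 then n + 1 else 1) *
        ∏ q ∈ a.primeFactors.filter (fun q => q % 4 = 1), (a.factorization q + 1) := by
  have hcop : Nat.Coprime (p ^ n) a := Nat.Coprime.pow_left n ((Nat.Prime.coprime_iff_not_dvd hp).2 ha)
  have hpf : (p ^ n * a).primeFactors = insert p a.primeFactors := by
    rw [hcop.primeFactors_mul, Nat.primeFactors_prime_pow hn.ne' hp]
    rfl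
  have hpa : p ∉ a.primeFactors := fun h => ha (Nat.dvd_of_mem_primeFactors h)
  have hfac : ∀ q, (p ^ n * a).factorization q = (if q = p then n else 0) + a.factorization q := by
    intro q
    rw [Nat.factorization_mul (pow_ne_zero _ hp.ne_zero) ha0, hp.factorization_pow]
    rw [Finsupp.add_apply, Finsupp.single_apply]
    congr 1
    by_cases h : q = p
    · rw [if_pos h, if_pos h.symm]
    · rw [if_neg h, if_neg (Ne.symm h)]
  have hfp : a.factorization p = 0 := Nat.factorization_eq_zero_of_not_dvd ha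
  rw [hpf, Finset.filter_insert]
  have hrest : ∏ q ∈ a.primeFactors.filter (fun q => q % 4 = 1), ((p ^ n * a).factorization q + 1) =
      ∏ q ∈ a.primeFactors.filter (fun q => q % 4 = 1), (a.factorization q + 1) := by
    refine Finset.prod_congr rfl fun q hq => ?_
    rw [Finset.mem_filter] at hq
    have : q ≠ p := fun h => hpa (h ▸ hq.1)
    rw [hfac, if_neg this, zero_add]
  by_cases h : p % 4 = 1
  · rw [if_pos h, if_pos h, Finset.prod_insert (fun h => hpa (Finset.mem_filter.1 h).1), hrest,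
      hfac, if_pos rfl, hfp, add_zero]
  · rw [if_neg h, if_neg h, one_mul, hrest]

theorem rep_le (m : ℕ) (hm : 1 ≤ m) :
    rp m ≤ 4 * ∏ p ∈ m.primeFactors.filter (fun p => p % 4 = 1), (m.factorization p + 1) := by
  induction m using Nat.recOnPrimePow with
  | zero => omega
  | one => simpa using rep_rp_one
  | prime_pow_mul a p n hp ha hn ih =>
    have ha0 : a ≠ 0 := by
      rintro rfl
      exact ha (dvd_zero p)
    have ih' := ih (by omega)
    have : Fact p.Prime := ⟨hp⟩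
    rw [rep_fac hp ha hn ha0]
    by_cases h1 : p % 4 = 1
    · rw [if_pos h1]
      obtain ⟨x, y, hxy⟩ := Nat.Prime.sq_add_sq (p := p) (by omega)
      have hπ : (⟨x, y⟩ : GaussianInt).norm = (p : ℤ) := by
        rw [Zsqrtd.norm_def, ← hxy]
        push_cast
        ring
      calc rp (p ^ n * a) ≤ (n + 1) * rp a := rep_one_mod hp hπ
        _ ≤ (n + 1) * _ := Nat.mul_le_mul_left _ ih'
        _ = _ := by ring
    · rw [if_neg h1, one_mul]
      refine le_trans ?_ ih'
      rcases hp.eq_two_or_odd with h2 | h2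
      · subst h2
        exact rep_two
      · exact rep_three hp (by omega) ha

end Pool.Agent.Lib.DG
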