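import Pool.Agent.Lib.MP_1a9bf8_co.Defs
import Pool.Agent.Lib.MP_79499b_co.Q38MertensAP

/-!
# MER3: lower Mertens bound for the primes `2 mod 3`
Exactly as `Q38.mertens_three_mod_four` (the sum over primes `1` minus the sum over primes with the nontrivial
character modulo 3, `exists_lower`, `exists_transfer`, `mertens_two`), character modulo 3 instead of 4.
-/

set_option autoImplicit false

namespace Pool.Agent.Lib.DG

open Finset Filter Topology
open Pool.Agent.Lib.MP_79499b_co.Q38

/-- the values of the nontrivial character modulo 3 -/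
noncomputable def x3f (n : ℕ) : ℂ := if n % 3 = 0 then 0 else if n % 3 = 1 then 1 else -1

theorem x3f_mul (m n : ℕ) : x3f (m * n) = x3f m * x3f n := by
  unfold x3f
  rw [Nat.mul_mod]
  have hm : m % 3 < 3 := Nat.mod_lt _ (by norm_num)
  have hn : n % 3 < 3 := Nat.mod_lt _ (by norm_num)
  generalize m % 3 = a at hm
  generalize n % 3 = b at hn
  interval_cases a <;> interval_cases b <;> norm_num

/-- the character mod 3 -/
noncomputable def x3 : ℕ →*₀ ℂ where
  toFun n := x3f n
  map_zero' := by simp [x3f]
  map_one' := by simp [x3f]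
  map_mul' m n := x3f_mul m n

theorem mertens_two_mod_three : ∃ C : ℝ, ∀ x : ℕ, 3 ≤ x →
    (1 / 2) * Real.log (Real.log x) - C ≤ Pool.Agent.Lib.MP_79499b_co.Q38.msum 3 2 x := by
  classical
  obtain ⟨C1, hC10, hC1⟩ := exists_transfer
  obtain ⟨C2, hC20, hC2⟩ := mertens_two
  have hx3 : ∀ n : ℕ, x3 n = if n % 3 = 0 then 0 else if n % 3 = 1 then 1 else -1 := fun n => rfl
  have hnorm : ∀ n, ‖x3 n‖ ≤ 1 := by
    intro n
    rw [hx3]
    split_ifs <;> simp
  have hper : ∀ n, x3 (n % 3) = x3 n := by
    intro n
    rw [hx3, hx3, Nat.mod_mod]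
  have hpart : ∀ N, ‖∑ i ∈ range N, x3 i‖ ≤ (3 : ℕ) := by
    intro N
    refine norm_sum_range_le (by norm_num) _ hper ?_ hnorm N
    simp only [Finset.sum_range_succ, Finset.sum_range_zero, hx3]
    norm_num
  set B : ℝ := Real.log (Real.log (3 : ℕ) + 4) + c2 with hB
  have hub : ∀ x : ℕ, 3 ≤ x → psum (fun n => (x3 n).re) (sx x) ≤ B := by
    intro x hx
    have h1 := abs_le.mp (psum_re_sub_log hnorm (sx_mem hx).1)
    have h2 := norm_tsum_tw_le hnorm (by norm_num) hpart (sx_mem hx).1
    have h5 : 0 ≤ Real.log (3 : ℕ) := Real.log_nonneg (by norm_num)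
    have h3 : Real.log ‖∑' n, tw x3 (sx x) n‖ ≤ Real.log (Real.log (3 : ℕ) + 4) := by
      rcases (norm_nonneg (∑' n, tw x3 (sx x) n)).eq_or_lt with h | h
      · rw [← h, Real.log_zero]
        exact Real.log_nonneg (by linarith)
      · exact Real.log_le_log h h2
    linarith [h1.2]
  refine ⟨C1 + (C1 + C2) / 2 + 1 + B / 2, fun x hx => ?_⟩
  have hs := (sx_mem hx).1
  rw [msum_eq_fsum]
  have h1 := abs_le.mp (hC1 (fun n => if n % 3 = 2 then 1 else 0) (fun n => by
    split_ifs <;> simp) x hx)
  have h1' := abs_le.mp (hC1 (fun _ => 1) (by simp) x hx)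
  have h2' := abs_le.mp (hC2 x hx)
  have h2 : psum (fun n => if n % 3 = 2 then 1 else 0) (sx x) ≥
      (1 / 2) * psum (fun _ => 1) (sx x) - 1 - (1 / 2) * psum (fun n => (x3 n).re) (sx x) := by
    have hsa := summable_psum (g := fun _ => 1) (by simp) hs
    have hsb := summable_psum (g := fun n => (x3 n).re)
      (fun n => (Complex.abs_re_le_norm _).trans (hnorm n)) hs
    have hsc := summable_psum (g := fun n => if n % 3 = 2 then (1 : ℝ) else 0) (fun n => by
      split_ifs <;> simp) hs
    have hsd : Summable (fun n : ℕ => if n = 3 then (1 : ℝ) else 0) :=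
      summable_of_ne_finset_zero (s := {3}) (fun n hn => if_neg (by simpa using hn))
    have h3 : (1 / 2) * psum (fun _ => 1) (sx x) - (1 / 2) * psum (fun n => (x3 n).re) (sx x) ≤
        psum (fun n => if n % 3 = 2 then 1 else 0) (sx x) + 1 := by
      have h4 : psum (fun n => if n % 3 = 2 then 1 else 0) (sx x) + 1 =
          psum (fun n => if n % 3 = 2 then 1 else 0) (sx x) +
            ∑' n : ℕ, if n = 3 then (1 : ℝ) else 0 := by
        rw [tsum_eq_single 3 (fun n hn => if_neg hn)]; simp
      rw [h4]
      unfold psum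
      rw [← tsum_mul_left, ← tsum_mul_left, ← (hsa.mul_left _).tsum_sub (hsb.mul_left _),
        ← hsc.tsum_add hsd]
      refine ((hsa.mul_left _).sub (hsb.mul_left _)).tsum_le_tsum (fun n => ?_) (hsc.add hsd)
      by_cases hp : n.Prime
      · simp only [hp, if_true]
        have hpow0 : 0 ≤ (n : ℝ) ^ (-(sx x)) := by positivity
        have hpow : (n : ℝ) ^ (-(sx x)) ≤ 1 :=
          Real.rpow_le_one_of_one_le_of_nonpos (by exact_mod_cast hp.one_lt.le) (by linarith)
        have hre : (x3 n).re = if n % 3 = 0 then 0 else if n % 3 = 1 then 1 else -1 := by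
          rw [hx3]
          split_ifs <;> simp
        rw [hre]
        generalize (n : ℝ) ^ (-(sx x)) = t at hpow0 hpow ⊢
        by_cases h3n : n = 3
        · subst h3n
          rw [if_pos (by norm_num : 3 % 3 = 0), if_neg (by norm_num : ¬ 3 % 3 = 2), if_pos rfl]
          linarith
        · have hn0 : ¬ n % 3 = 0 := by
            intro h
            exact h3n ((Nat.prime_dvd_prime_iff_eq Nat.prime_three hp).1 (Nat.dvd_of_mod_eq_zero h)).symm
          rw [if_neg hn0]
          rcases (by omega : n % 3 = 1 ∨ n % 3 = 2) with h4 | h4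
          · rw [if_pos h4, if_neg (by omega), if_neg h3n]
            linarith
          · rw [if_neg (by omega), if_pos h4, if_neg h3n]
            linarith
      · simp only [hp, if_false]
        split_ifs <;> simp
    linarith
  have h3 := hub x hx
  linarith [h1.1, h1'.2, h2'.1]

end Pool.Agent.Lib.DG
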