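import Pool.Agent.Lib.MP_1a9bf8_co.LOCTT
import Pool.Agent.Lib.MP_1a9bf8_co.MER3
import Pool.Agent.Lib.MP_1a9bf8_co.PRD

/-!
# PRDT: the density (as PRD, with MER3: primes `1 mod 3` = all primes minus the primes `2 mod 3`)
-/

set_option autoImplicit false

namespace Pool.Agent.Lib.DG

open Finset
open Pool.Agent.Lib.MP_79499b_co.Q38 (msum msum_one_le)

theorem prdT_factor {p : ℕ} (hp : p.Prime) (h4 : p % 3 = 1) :
    Real.exp (-(1 / p + 6 * (1 / (p : ℝ) ^ 2))) ≤ 1 - tauT p := by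
  have h5 : 5 ≤ p := by
    have h2 := hp.two_le
    have h3 : p ≠ 4 := by
      rintro rfl
      exact absurd hp (by norm_num)
    omega
  have h5' : (5 : ℝ) ≤ p := by exact_mod_cast h5
  have ht := tauT_le hp h4
  set t : ℝ := 1 / p + 2 / (p : ℝ) ^ 2 with htd
  have hp0 : (0 : ℝ) < p := by linarith
  have e0 : 0 ≤ t := by positivity
  have e1 : t ≤ 2 / p := by
    have : 2 / (p : ℝ) ^ 2 ≤ 1 / p := by
      rw [div_le_div_iff₀ (by positivity) hp0]
      nlinarith
    rw [htd]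
    calc 1 / (p : ℝ) + 2 / (p : ℝ) ^ 2 ≤ 1 / p + 1 / p := by linarith
      _ = 2 / p := by ring
  have e2 : t ≤ 1 / 2 := by
    refine e1.trans ?_
    rw [div_le_div_iff₀ hp0 (by norm_num)]
    linarith
  have e3 : t ^ 2 ≤ 4 * (1 / (p : ℝ) ^ 2) := by
    calc t ^ 2 ≤ (2 / p) ^ 2 := pow_le_pow_left₀ e0 e1 2
      _ = _ := by rw [div_pow]; ring
  calc Real.exp (-(1 / p + 6 * (1 / (p : ℝ) ^ 2))) ≤ Real.exp (-(t + t ^ 2)) := by
        apply Real.exp_le_exp.2
        have : t = 1 / p + 2 * (1 / (p : ℝ) ^ 2) := by rw [htd]; ring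
        linarith
    _ ≤ 1 - t := prd_exp e0 e2
    _ ≤ _ := by linarith

theorem prdT : ∃ c : ℝ, 0 < c ∧ ∀ w y : ℕ, 3 ≤ y →
    c / √(Real.log y) ≤ ∏ p ∈ PPT w y, (1 - tauT p) := by
  obtain ⟨C1, hC1, h1⟩ := msum_one_le
  obtain ⟨C2, h2⟩ := mertens_two_mod_three
  refine ⟨Real.exp (-(Real.log 2 / 2 + C1 + C2 + 6)), Real.exp_pos _, fun w y hy => ?_⟩
  have hy' : (3 : ℝ) ≤ y := by exact_mod_cast hy
  have hly : 0 < Real.log y := Real.log_pos (by linarith)
  have hmem : ∀ p ∈ PPT w y, p.Prime ∧ p % 3 = 1 ∧ p ≤ y := by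
    intro p hp
    rw [PPT, mem_filter, mem_Ioc] at hp
    exact ⟨hp.2.1, hp.2.2, hp.1.2⟩
  have e1 : ∑ p ∈ PPT w y, (1 : ℝ) / p + msum 3 2 (y + 1) ≤ msum 1 0 (y + 1) := by
    unfold msum
    have hd : Disjoint (PPT w y) ((range (y + 1)).filter (fun p => p.Prime ∧ p % 3 = 2)) := by
      rw [disjoint_left]
      intro p hp hp'
      rw [mem_filter] at hp'
      have := (hmem p hp).2.1
      omega
    have e2 : ∑ p ∈ PPT w y, (1 : ℝ) / p = ∑ p ∈ PPT w y, ((p : ℝ))⁻¹ :=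
      sum_congr rfl fun p _ => one_div _
    rw [e2, ← sum_union hd]
    apply sum_le_sum_of_subset_of_nonneg
    · intro p hp
      rw [mem_union] at hp
      rw [mem_filter, mem_range]
      rcases hp with hp | hp
      · have := hmem p hp
        exact ⟨by omega, this.1, Nat.mod_one p⟩
      · rw [mem_filter, mem_range] at hp
        exact ⟨hp.1, hp.2.1, Nat.mod_one p⟩
    · intro p _ _
      positivity
  have e3 := h1 (y + 1) (by omega)
  have e4 := h2 (y + 1) (by omega)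
  have e5 : Real.log (Real.log ((y + 1 : ℕ) : ℝ)) ≤ Real.log 2 + Real.log (Real.log y) := by
    rw [← Real.log_mul (by norm_num) hly.ne']
    apply Real.log_le_log
    · apply Real.log_pos
      push_cast
      linarith
    · have h8 : ((y + 1 : ℕ) : ℝ) ≤ (y : ℝ) ^ 2 := by
        push_cast
        nlinarith
      calc Real.log ((y + 1 : ℕ) : ℝ) ≤ Real.log ((y : ℝ) ^ 2) := Real.log_le_log (by positivity) h8
        _ = _ := by rw [Real.log_pow]; norm_num
  have e6 : ∑ p ∈ PPT w y, 1 / (p : ℝ) ^ 2 ≤ 1 := by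
    refine le_trans ?_ (prd_sq (y + 1))
    apply sum_le_sum_of_subset_of_nonneg
    · intro p hp
      have := hmem p hp
      rw [mem_filter, mem_range]
      exact ⟨by omega, this.1.two_le⟩
    · intro p _ _
      positivity
  have e7 : ∑ p ∈ PPT w y, (1 : ℝ) / p ≤ Real.log 2 / 2 + Real.log (Real.log y) / 2 + C1 + C2 := by
    linarith
  calc Real.exp (-(Real.log 2 / 2 + C1 + C2 + 6)) / √(Real.log y)
      = Real.exp (-(Real.log 2 / 2 + C1 + C2 + 6)) * Real.exp (-(Real.log (Real.log y) / 2)) := by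
        rw [Real.exp_neg (Real.log (Real.log y) / 2), Real.sqrt_eq_rpow,
          Real.rpow_def_of_pos hly, div_eq_mul_inv]
        congr 3
        ring
    _ = Real.exp (-(Real.log 2 / 2 + Real.log (Real.log y) / 2 + C1 + C2) + (-(6 * 1))) := by
        rw [← Real.exp_add]
        congr 1
        ring
    _ ≤ Real.exp (∑ p ∈ PPT w y, (-(1 / (p : ℝ) + 6 * (1 / (p : ℝ) ^ 2)))) := by
        apply Real.exp_le_exp.2
        rw [sum_neg_distrib, sum_add_distrib, ← mul_sum]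
        linarith
    _ = ∏ p ∈ PPT w y, Real.exp (-(1 / (p : ℝ) + 6 * (1 / (p : ℝ) ^ 2))) := Real.exp_sum _ _
    _ ≤ _ := prod_le_prod (fun p _ => (Real.exp_pos _).le)
        (fun p hp => prdT_factor (hmem p hp).1 (hmem p hp).2.1)

end Pool.Agent.Lib.DG
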