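import Pool.Agent.Lib.MP_1a9bf8_co.DefsT

/-!
# REPT: number of representations by `x^2 + x y + y^2`
Eisenstein integers `QuadraticAlgebra ℤ (-1) 1` (so `ω ^ 2 = ω - 1`, norm `x^2 + x y + y^2`), as in REP, without the
Euclidean algorithm: if `π` has norm `p` then
`(x b - y a)(x b + y a + y b) = b^2 N(x,y) - y^2 N(a,b)`, so `p | N z` implies `π | z` or `star π | z`.
Primes `2 mod 3`: `x^3 = y^3` and cubing is injective modulo `p`. Existence of `π` for `p = 1 mod 3`: an element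
of order `3` and the pigeonhole principle.
-/

set_option autoImplicit false

namespace Pool.Agent.Lib.DG

open Finset

/-- the Eisenstein integers -/
abbrev EI := QuadraticAlgebra ℤ (-1) 1

/-- pairs as Eisenstein integers -/
def retG (z : ℤ × ℤ) : EI := ⟨z.1, z.2⟩

/-- Eisenstein integers as pairs -/
def retP (z : EI) : ℤ × ℤ := (z.re, z.im)

theorem ret_nd (z : EI) : z.norm = z.re ^ 2 + z.re * z.im + z.im ^ 2 := by
  rw [QuadraticAlgebra.norm_def]
  ring

theorem ret_nonneg (x y : ℤ) : 0 ≤ x ^ 2 + x * y + y ^ 2 := by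
  nlinarith [sq_nonneg (x + y), sq_nonneg x, sq_nonneg y]

theorem ret_cast (z : ℤ × ℤ) : (nqT z : ℤ) = z.1 ^ 2 + z.1 * z.2 + z.2 ^ 2 := by
  unfold nqT
  exact Int.natAbs_of_nonneg (ret_nonneg _ _)

theorem ret_norm (z : ℤ × ℤ) : (retG z).norm = (nqT z : ℤ) := by
  rw [ret_cast, ret_nd]
  rfl

theorem ret_norm' (z : EI) : (nqT (retP z) : ℤ) = z.norm := by
  rw [← ret_norm]
  rfl

theorem ret_mem (m : ℕ) (z : ℤ × ℤ) :
    z ∈ (Finset.Icc (-(2 * m : ℤ)) (2 * m) ×ˢ Finset.Icc (-(2 * m : ℤ)) (2 * m)).filter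
      (fun z => nqT z = m) ↔ nqT z = m := by
  rw [Finset.mem_filter]
  refine ⟨fun h => h.2, fun h => ⟨?_, h⟩⟩
  rw [Finset.mem_product, Finset.mem_Icc, Finset.mem_Icc]
  have hc := ret_cast z
  rw [h] at hc
  have key : ∀ a b : ℤ, (m : ℤ) = a ^ 2 + a * b + b ^ 2 → |a| ≤ 2 * m := by
    intro a b hab
    have h1 : |a| ≤ a ^ 2 := by
      rw [← sq_abs]
      have h2 := abs_nonneg a
      rcases h2.eq_or_lt with h3 | h3
      · rw [← h3]; norm_num
      · nlinarith
    nlinarith [sq_nonneg (a + 2 * b)]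
  have h1 := abs_le.1 (key z.1 z.2 hc)
  have h2 := abs_le.1 (key z.2 z.1 (by rw [hc]; ring))
  exact ⟨h1, h2⟩

theorem ret_cover {M a : ℕ} (S : Finset EI)
    (h : ∀ z : EI, z.norm = (M : ℤ) → ∃ g ∈ S, ∃ w : EI, w.norm = (a : ℤ) ∧
      z = g * w) : rpT M ≤ S.card * rpT a := by
  classical
  unfold rpT
  have hsub : (Finset.Icc (-(2 * M : ℤ)) (2 * M) ×ˢ Finset.Icc (-(2 * M : ℤ)) (2 * M)).filter
      (fun z => nqT z = M) ⊆
      (S ×ˢ (Finset.Icc (-(2 * a : ℤ)) (2 * a) ×ˢ Finset.Icc (-(2 * a : ℤ)) (2 * a)).filter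
        (fun z => nqT z = a)).image (fun x => retP (x.1 * retG x.2)) := by
    intro z hz
    rw [ret_mem] at hz
    obtain ⟨g, hg, w, hw, hzw⟩ := h (retG z) (by rw [ret_norm, hz])
    rw [Finset.mem_image]
    refine ⟨(g, retP w), ?_, ?_⟩
    · rw [Finset.mem_product]
      refine ⟨hg, ?_⟩
      rw [ret_mem]
      have := ret_norm' w
      rw [hw] at this
      exact_mod_cast this
    · change retP (g * w) = z
      rw [← hzw]
      rfl
  calc _ ≤ _ := Finset.card_le_card hsub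
    _ ≤ _ := Finset.card_image_le
    _ = _ := Finset.card_product _ _

/-- the basic divisibility step -/
theorem ret_step {π z : EI} {p : ℕ} (hp : p.Prime) (hπ : π.norm = (p : ℤ))
    (h : (p : ℤ) ∣ z.norm) (h2 : (p : ℤ) ∣ z.im * π.re - z.re * π.im) : π ∣ z := by
  have hp0 : (p : ℤ) ≠ 0 := by exact_mod_cast hp.ne_zero
  have hpp : Prime (p : ℤ) := Nat.prime_iff_prime_int.1 hp
  obtain ⟨c, hc⟩ := h2
  obtain ⟨d, hd⟩ := h
  rw [ret_nd] at hd hπ
  -- first coordinate of `z * star π`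
  have e1 : (z.re * (π.re + π.im) + z.im * π.im) ^ 2 =
      (p : ℤ) * ((p : ℤ) * d - c * (z.re * (π.re + π.im) + z.im * π.im) - p * c ^ 2) := by
    have e2 : (z.re * (π.re + π.im) + z.im * π.im) ^ 2 +
        (z.re * (π.re + π.im) + z.im * π.im) * (z.im * π.re - z.re * π.im) +
        (z.im * π.re - z.re * π.im) ^ 2 =
        (z.re ^ 2 + z.re * z.im + z.im ^ 2) * (π.re ^ 2 + π.re * π.im + π.im ^ 2) := by ring
    rw [hc, hd, hπ] at e2
    linear_combination e2
  have h3 : (p : ℤ) ∣ z.re * (π.re + π.im) + z.im * π.im :=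
    hpp.dvd_of_dvd_pow (⟨_, e1⟩ : (p : ℤ) ∣ (z.re * (π.re + π.im) + z.im * π.im) ^ 2)
  obtain ⟨u, hu⟩ := h3
  refine ⟨⟨u, c⟩, ?_⟩
  ext
  · rw [QuadraticAlgebra.re_mul]
    apply mul_left_cancel₀ hp0
    linear_combination (-z.re) * hπ + π.re * hu - π.im * hc
  · rw [QuadraticAlgebra.im_mul]
    apply mul_left_cancel₀ hp0
    linear_combination (-z.im) * hπ + π.re * hc + π.im * hu + π.im * hc

theorem ret_dvd {π z : EI} {p : ℕ} (hp : p.Prime) (hπ : π.norm = (p : ℤ))
    (h : (p : ℤ) ∣ z.norm) : π ∣ z ∨ star π ∣ z := by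
  have hpp : Prime (p : ℤ) := Nat.prime_iff_prime_int.1 hp
  have h1 : (p : ℤ) ∣ (z.im * π.re - z.re * π.im) * (z.re * π.im + z.im * π.re + z.im * π.im) := by
    obtain ⟨d, hd⟩ := h
    have hd' := hd
    have hπ' := hπ
    rw [ret_nd] at hd' hπ'
    refine ⟨z.im ^ 2 - π.im ^ 2 * d, ?_⟩
    linear_combination z.im ^ 2 * hπ' - π.im ^ 2 * hd'
  rcases hpp.dvd_or_dvd h1 with h2 | h2
  · exact Or.inl (ret_step hp hπ h h2)
  · right
    refine ret_step hp (by rw [QuadraticAlgebra.norm_star, hπ]) h ?_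
    rw [QuadraticAlgebra.re_star, QuadraticAlgebra.im_star]
    obtain ⟨c, hc⟩ := h2
    exact ⟨c, by rw [← hc]; ring⟩

theorem ret_split {π : EI} {p : ℕ} (hp : p.Prime) (hπ : π.norm = (p : ℤ)) :
    ∀ (n : ℕ) (z : EI), ((p : ℤ) ^ n) ∣ z.norm →
      ∃ j ≤ n, π ^ j * (star π) ^ (n - j) ∣ z := by
  have hp0 : (p : ℤ) ≠ 0 := by exact_mod_cast hp.ne_zero
  intro n
  induction n with
  | zero => intro z _; exact ⟨0, le_rfl, by simp⟩
  | succ n ih =>
    intro z hz
    have h1 : (p : ℤ) ∣ z.norm := (dvd_pow_self _ (by omega)).trans hz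
    rcases ret_dvd hp hπ h1 with ⟨w, hw⟩ | ⟨w, hw⟩
    · have h2 : (p : ℤ) ^ n ∣ w.norm := by
        rw [hw, map_mul, hπ, pow_succ, mul_comm (p : ℤ) w.norm] at hz
        exact Int.dvd_of_mul_dvd_mul_right hp0 hz
      obtain ⟨j, hj, hjw⟩ := ih w h2
      refine ⟨j + 1, by omega, ?_⟩
      rw [hw, show n + 1 - (j + 1) = n - j by omega, pow_succ]
      obtain ⟨u, hu⟩ := hjw
      exact ⟨u, by rw [hu]; ring⟩
    · have h2 : (p : ℤ) ^ n ∣ w.norm := by
        rw [hw, map_mul, QuadraticAlgebra.norm_star, hπ, pow_succ, mul_comm (p : ℤ) w.norm] at hz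
        exact Int.dvd_of_mul_dvd_mul_right hp0 hz
      obtain ⟨j, hj, hjw⟩ := ih w h2
      refine ⟨j, by omega, ?_⟩
      rw [hw, show n + 1 - j = (n - j) + 1 by omega, pow_succ]
      obtain ⟨u, hu⟩ := hjw
      exact ⟨u, by rw [hu]; ring⟩

theorem ret_cancel {g w : EI} {p a n : ℕ} (hp : p.Prime) (hg : g.norm = (p : ℤ) ^ n)
    (h : (g * w).norm = ((p ^ n * a : ℕ) : ℤ)) : w.norm = (a : ℤ) := by
  rw [map_mul, hg] at h
  push_cast at h
  have hp0 : (p : ℤ) ^ n ≠ 0 := pow_ne_zero _ (by exact_mod_cast hp.ne_zero)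
  exact mul_left_cancel₀ hp0 h

theorem ret_one_mod {p a n : ℕ} (hp : p.Prime) {π : EI} (hπ : π.norm = (p : ℤ)) :
    rpT (p ^ n * a) ≤ (n + 1) * rpT a := by
  classical
  refine (ret_cover (M := p ^ n * a) (a := a)
    ((Finset.range (n + 1)).image (fun j => π ^ j * (star π) ^ (n - j))) ?_).trans ?_
  · intro z hz
    obtain ⟨j, hj, w, hw⟩ := ret_split hp hπ n z (by rw [hz]; push_cast; exact dvd_mul_right _ _)
    refine ⟨π ^ j * (star π) ^ (n - j), ?_, w, ?_, hw⟩
    · rw [Finset.mem_image]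
      exact ⟨j, Finset.mem_range.2 (by omega), rfl⟩
    · apply ret_cancel (g := π ^ j * (star π) ^ (n - j)) (p := p) (n := n) hp
      · rw [map_mul, map_pow, map_pow, QuadraticAlgebra.norm_star, hπ, ← pow_add]
        congr 1
        omega
      · rw [← hw, hz]
  · apply Nat.mul_le_mul_right
    refine Finset.card_image_le.trans ?_
    rw [Finset.card_range]

theorem ret_three {a n : ℕ} : rpT (3 ^ n * a) ≤ rpT a := by
  classical
  have hπ : (⟨1, 1⟩ : EI).norm = ((3 : ℕ) : ℤ) := by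
    rw [ret_nd]
    norm_num
  have h := ret_cover (M := 3 ^ n * a) (a := a) {(⟨1, 1⟩ : EI) ^ n} (by
    intro z hz
    obtain ⟨j, hj, hjz⟩ := ret_split Nat.prime_three hπ n z
      (by rw [hz]; push_cast; exact dvd_mul_right _ _)
    have h1 : (star (⟨1, 1⟩ : EI)) = ⟨1, 1⟩ * ⟨1, -1⟩ := by
      ext <;> simp
    have h2 : (⟨1, 1⟩ : EI) ^ n ∣ z := by
      refine Dvd.dvd.trans ?_ hjz
      rw [h1, mul_pow, ← mul_assoc, ← pow_add, show j + (n - j) = n by omega]
      exact dvd_mul_right _ _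
    obtain ⟨w, hw⟩ := h2
    refine ⟨_, Finset.mem_singleton_self _, w, ?_, hw⟩
    apply ret_cancel (g := (⟨1, 1⟩ : EI) ^ n) (p := 3) (n := n) Nat.prime_three
    · rw [map_pow, hπ]
    · rw [← hw, hz])
  rwa [Finset.card_singleton, one_mul] at h

/-- primes `2 mod 3` divide both coordinates -/
theorem ret_inert {p : ℕ} (hp : p.Prime) (h3 : p % 3 = 2) {x y : ℤ}
    (h : (p : ℤ) ∣ x ^ 2 + x * y + y ^ 2) : (p : ℤ) ∣ x ∧ (p : ℤ) ∣ y := by
  have : Fact p.Prime := ⟨hp⟩
  rw [← ZMod.intCast_zmod_eq_zero_iff_dvd] at h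
  rw [← ZMod.intCast_zmod_eq_zero_iff_dvd, ← ZMod.intCast_zmod_eq_zero_iff_dvd]
  push_cast at h
  set X : ZMod p := (x : ZMod p) with hX
  set Y : ZMod p := (y : ZMod p) with hY
  have hcube : X ^ 3 = Y ^ 3 := by linear_combination (X - Y) * h
  have hpow : ∀ Z : ZMod p, Z ^ (2 * p - 1) = Z := by
    intro Z
    have h1 : 2 * p - 1 = p + (p - 1) := by have := hp.one_lt; omega
    have h2 : 1 + (p - 1) = p := by have := hp.one_lt; omega
    rw [h1, pow_add, ZMod.pow_card]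
    calc Z * Z ^ (p - 1) = Z ^ (1 + (p - 1)) := by rw [pow_add, pow_one]
      _ = Z := by rw [h2, ZMod.pow_card]
  obtain ⟨k, hk⟩ : ∃ k, 2 * p - 1 = 3 * k := ⟨(2 * p - 1) / 3, by have := hp.one_lt; omega⟩
  have hXY : X = Y := by
    rw [← hpow X, ← hpow Y, hk, pow_mul, pow_mul, hcube]
  rw [← hXY] at h
  have h3' : (3 : ZMod p) ≠ 0 := by
    have h4 : ((3 : ℕ) : ZMod p) ≠ 0 := by
      rw [Ne, ZMod.natCast_eq_zero_iff]
      intro h5
      have := (Nat.prime_dvd_prime_iff_eq hp Nat.prime_three).1 h5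
      omega
    exact_mod_cast h4
  have h5 : 3 * X ^ 2 = 0 := by linear_combination h
  have h6 : X = 0 := by
    rcases mul_eq_zero.1 h5 with h7 | h7
    · exact absurd h7 h3'
    · exact pow_eq_zero_iff (two_ne_zero) |>.1 h7
  exact ⟨h6, hXY ▸ h6⟩

theorem ret_two_aux {p a : ℕ} (hp : p.Prime) (h3 : p % 3 = 2) (ha : ¬ p ∣ a) :
    ∀ (n : ℕ) (z : EI), z.norm = ((p ^ n * a : ℕ) : ℤ) →
      ∃ w : EI, w.norm = (a : ℤ) ∧ z = ((p : ℕ) : EI) ^ (n / 2) * w := by
  have hp0 : (p : ℤ) ≠ 0 := by exact_mod_cast hp.ne_zero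
  have key : ∀ (n : ℕ) (z : EI), z.norm = ((p ^ (n + 1) * a : ℕ) : ℤ) →
      ∃ w : EI, z = (p : ℕ) * w ∧ (p : ℤ) * w.norm = ((p ^ n * a : ℕ) : ℤ) := by
    intro n z hz
    have h1 : (p : ℤ) ∣ z.re ^ 2 + z.re * z.im + z.im ^ 2 := by
      rw [← ret_nd, hz]
      push_cast
      exact ⟨(p : ℤ) ^ n * a, by ring⟩
    obtain ⟨⟨u, hu⟩, ⟨v, hv⟩⟩ := ret_inert hp h3 h1
    refine ⟨⟨u, v⟩, ?_, ?_⟩
    · ext
      · rw [QuadraticAlgebra.re_mul, QuadraticAlgebra.re_natCast, QuadraticAlgebra.im_natCast, hu]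
        ring
      · rw [QuadraticAlgebra.im_mul, QuadraticAlgebra.re_natCast, QuadraticAlgebra.im_natCast, hv]
        ring
    · rw [ret_nd, hu, hv] at hz
      rw [ret_nd]
      push_cast at hz ⊢
      apply mul_left_cancel₀ hp0
      rw [pow_succ] at hz
      linear_combination hz
  intro n
  induction n using Nat.strong_induction_on with
  | _ n ih =>
    intro z hz
    rcases n with _ | _ | n
    · refine ⟨z, ?_, ?_⟩
      · rw [hz]; simp
      · simp
    · exfalso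
      obtain ⟨w, _, hw⟩ := key 0 z hz
      apply ha
      have h5 : (p : ℤ) ∣ (a : ℤ) := ⟨w.norm, by rw [hw]; simp⟩
      exact_mod_cast h5
    · obtain ⟨w, hw, hw2⟩ := key (n + 1) z hz
      have hw3 : w.norm = ((p ^ n * a : ℕ) : ℤ) := by
        apply mul_left_cancel₀ hp0
        rw [hw2]
        push_cast
        ring
      obtain ⟨u, hu, hwu⟩ := ih n (by omega) w hw3
      refine ⟨u, hu, ?_⟩
      rw [hw, hwu, show (n + 1 + 1) / 2 = n / 2 + 1 by omega, pow_succ]
      ring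

theorem ret_two {p a n : ℕ} (hp : p.Prime) (h3 : p % 3 = 2) (ha : ¬ p ∣ a) :
    rpT (p ^ n * a) ≤ rpT a := by
  classical
  have h := ret_cover (M := p ^ n * a) (a := a) {((p : ℕ) : EI) ^ (n / 2)} (by
    intro z hz
    obtain ⟨w, hw, hzw⟩ := ret_two_aux hp h3 ha n z hz
    exact ⟨_, Finset.mem_singleton_self _, w, hw, hzw⟩)
  rwa [Finset.card_singleton, one_mul] at h

/-- an element with `t^2 + t + 1 = 0` -/
theorem ret_root {p : ℕ} (hp : p.Prime) (h3 : p % 3 = 1) : ∃ t : ZMod p, t ^ 2 + t + 1 = 0 := by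
  have : Fact p.Prime := ⟨hp⟩
  have hcard : 3 ∣ Fintype.card (ZMod p)ˣ := by
    rw [ZMod.card_units p]
    have := hp.one_lt
    omega
  have : Fact (Nat.Prime 3) := ⟨Nat.prime_three⟩
  obtain ⟨u, hu⟩ := exists_prime_orderOf_dvd_card 3 hcard
  refine ⟨(u : ZMod p), ?_⟩
  have h1 : (u : ZMod p) ^ 3 = 1 := by
    have := pow_orderOf_eq_one u
    rw [hu] at this
    rw [← Units.val_pow_eq_pow_val, this, Units.val_one]
  have h2 : (u : ZMod p) ≠ 1 := by
    intro h
    have : u = 1 := Units.val_eq_one.1 h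
    rw [this, orderOf_one] at hu
    norm_num at hu
  have h4 : ((u : ZMod p) - 1) * ((u : ZMod p) ^ 2 + u + 1) = 0 := by linear_combination h1
  rcases mul_eq_zero.1 h4 with h5 | h5
  · exact absurd (sub_eq_zero.1 h5) h2
  · exact h5

/-- primes `1 mod 3` are norms -/
theorem ret_exists {p : ℕ} (hp : p.Prime) (h3 : p % 3 = 1) :
    ∃ x y : ℤ, x ^ 2 + x * y + y ^ 2 = (p : ℤ) := by
  have : Fact p.Prime := ⟨hp⟩
  obtain ⟨t, ht⟩ := ret_root hp h3
  set k : ℕ := Nat.sqrt p with hk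
  have hk1 : p < (k + 1) * (k + 1) := Nat.lt_succ_sqrt p
  have hk2 : k * k ≤ p := Nat.sqrt_le p
  have hk3 : k * k ≠ p := by
    intro h
    rcases (Nat.prime_mul_iff.1 (h ▸ hp : (k * k).Prime)) with h5 | h5
    · exact h5.1.one_lt.ne' h5.2
    · exact h5.1.one_lt.ne' h5.2
  have hcard : (Finset.univ : Finset (ZMod p)).card <
      (Finset.range (k + 1) ×ˢ Finset.range (k + 1)).card := by
    rw [Finset.card_univ, ZMod.card, Finset.card_product, Finset.card_range]
    exact hk1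
  obtain ⟨u, hu, v, hv, huv, huv2⟩ := Finset.exists_ne_map_eq_of_card_lt_of_maps_to hcard
    (f := fun q : ℕ × ℕ => (q.1 : ZMod p) - t * (q.2 : ZMod p)) (fun _ _ => Finset.mem_univ _)
  rw [Finset.mem_product, Finset.mem_range, Finset.mem_range] at hu hv
  set x : ℤ := (u.1 : ℤ) - v.1 with hx
  set y : ℤ := (u.2 : ℤ) - v.2 with hy
  have hxy : (x : ZMod p) = t * (y : ZMod p) := by
    rw [hx, hy]
    push_cast
    linear_combination huv2
  have hdvd : (p : ℤ) ∣ x ^ 2 + x * y + y ^ 2 := by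
    rw [← ZMod.intCast_zmod_eq_zero_iff_dvd]
    push_cast
    rw [hxy]
    linear_combination (y : ZMod p) ^ 2 * ht
  have hx1 : |x| ≤ k := by rw [abs_le]; omega
  have hy1 : |y| ≤ k := by rw [abs_le]; omega
  have hne : x ≠ 0 ∨ y ≠ 0 := by
    by_contra h
    push Not at h
    apply huv
    ext
    · have := h.1
      omega
    · have := h.2
      omega
  have hpos : 0 < x ^ 2 + x * y + y ^ 2 := by
    rcases hne with h | h
    · have := sq_nonneg (x + 2 * y)
      have h6 : 0 < x ^ 2 := by positivity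
      nlinarith
    · have := sq_nonneg (2 * x + y)
      have h6 : 0 < y ^ 2 := by positivity
      nlinarith
  have hx2 : x ^ 2 ≤ (k : ℤ) * k := by
    have := sq_abs x
    nlinarith [abs_nonneg x]
  have hy2 : y ^ 2 ≤ (k : ℤ) * k := by
    have := sq_abs y
    nlinarith [abs_nonneg y]
  have hkp : (k : ℤ) * k < p := by
    have : k * k < p := lt_of_le_of_ne hk2 hk3
    exact_mod_cast this
  have hlt : x ^ 2 + x * y + y ^ 2 < 3 * p := by
    nlinarith [sq_nonneg (x - y)]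
  obtain ⟨c, hc⟩ := hdvd
  have hp1 : (0 : ℤ) < p := by exact_mod_cast hp.pos
  have hc1 : 0 < c := by
    rw [hc] at hpos
    exact pos_of_mul_pos_right hpos hp1.le
  have hc2 : c < 3 := by
    rw [hc] at hlt
    nlinarith
  have hc3 : c ≠ 2 := by
    rintro rfl
    have h2 : ((2 : ℕ) : ℤ) ∣ x ^ 2 + x * y + y ^ 2 := ⟨p, by rw [hc]; push_cast; ring⟩
    obtain ⟨⟨i, hi⟩, ⟨j, hj⟩⟩ := ret_inert Nat.prime_two (by norm_num) h2
    rw [hi, hj] at hc
    push_cast at hc
    have h5 : (p : ℤ) = 2 * (i ^ 2 + i * j + j ^ 2) := by linarith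
    have h6 : (2 : ℤ) ∣ (p : ℤ) := ⟨_, h5⟩
    have h7 : 2 ∣ p := by exact_mod_cast h6
    have h8 := (Nat.prime_dvd_prime_iff_eq Nat.prime_two hp).1 h7
    omega
  have hc4 : c = 1 := by omega
  exact ⟨x, y, by rw [hc, hc4, mul_one]⟩

theorem ret_rp_one : rpT 1 ≤ 6 := by
  unfold rpT nqT
  decide

theorem ret_fac {p a n : ℕ} (hp : p.Prime) (ha : ¬ p ∣ a) (hn : 0 < n) (ha0 : a ≠ 0) :
    ∏ q ∈ (p ^ n * a).primeFactors.filter (fun q => q % 3 = 1), ((p ^ n * a).factorization q + 1) =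
      (if p % 3 = 1 then n + 1 else 1) *
        ∏ q ∈ a.primeFactors.filter (fun q => q % 3 = 1), (a.factorization q + 1) := by
  have hcop : Nat.Coprime (p ^ n) a := Nat.Coprime.pow_left n ((Nat.Prime.coprime_iff_not_dvd hp).2 ha)
  have hpf : (p ^ n * a).primeFactors = insert p a.primeFactors := by
    rw [hcop.primeFactors_mul, Nat.primeFactors_prime_pow hn.ne' hp]
    rfl
  have hpa : p ∉ a.primeFactors := fun h => ha (Nat.dvd_of_mem_primeFactors h)
  have hfac : ∀ q, (p ^ n * a).factorization q = (if q = p then n else 0) + a.factorization q := by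
    intro q
    rw [Nat.factorization_mul (pow_ne_zero _ hp.ne_zero) ha0, hp.factorization_pow]
    rw [Finsupp.add_apply, Finsupp.single_apply]
    congr 1
    by_cases h : q = p
    · rw [if_pos h, if_pos h.symm]
    · rw [if_neg h, if_neg (Ne.symm h)]
  have hfp : a.factorization p = 0 := Nat.factorization_eq_zero_of_not_dvd ha
  rw [hpf, Finset.filter_insert]
  have hrest : ∏ q ∈ a.primeFactors.filter (fun q => q % 3 = 1), ((p ^ n * a).factorization q + 1) =
      ∏ q ∈ a.primeFactors.filter (fun q => q % 3 = 1), (a.factorization q + 1) := by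
    refine Finset.prod_congr rfl fun q hq => ?_
    rw [Finset.mem_filter] at hq
    have : q ≠ p := fun h => hpa (h ▸ hq.1)
    rw [hfac, if_neg this, zero_add]
  by_cases h : p % 3 = 1
  · rw [if_pos h, if_pos h, Finset.prod_insert (fun h => hpa (Finset.mem_filter.1 h).1), hrest,
      hfac, if_pos rfl, hfp, add_zero]
  · rw [if_neg h, if_neg h, one_mul, hrest]

theorem repT_le (m : ℕ) (hm : 1 ≤ m) :
    rpT m ≤ 6 * ∏ p ∈ m.primeFactors.filter (fun p => p % 3 = 1), (m.factorization p + 1) := by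
  induction m using Nat.recOnPrimePow with
  | zero => omega
  | one => simpa using ret_rp_one
  | prime_pow_mul a p n hp ha hn ih =>
    have ha0 : a ≠ 0 := by
      rintro rfl
      exact ha (dvd_zero p)
    have ih' := ih (by omega)
    rw [ret_fac hp ha hn ha0]
    by_cases h1 : p % 3 = 1
    · rw [if_pos h1]
      obtain ⟨x, y, hxy⟩ := ret_exists hp h1
      have hπ : (⟨x, y⟩ : EI).norm = (p : ℤ) := by
        rw [ret_nd, ← hxy]
      calc rpT (p ^ n * a) ≤ (n + 1) * rpT a := ret_one_mod hp hπ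
        _ ≤ (n + 1) * _ := Nat.mul_le_mul_left _ ih'
        _ = _ := by ring
    · rw [if_neg h1, one_mul]
      refine le_trans ?_ ih'
      by_cases h2 : p = 3
      · subst h2
        exact ret_three
      · refine ret_two hp ?_ ha
        have h4 : p % 3 ≠ 0 := by
          intro h5
          exact h2 ((Nat.prime_dvd_prime_iff_eq Nat.prime_three hp).1
            (Nat.dvd_of_mod_eq_zero h5)).symm
        omega

end Pool.Agent.Lib.DG
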