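import Pool.Agent.Lib.MP_1a9bf8_co.DefsT

/-!
# SMLT: residue classes modulo `Q` (as SML)
For fixed `z2` two solutions `x, x'` of `p^K | x^2 + x z2 + z2^2` satisfy `p^K | (x - x')(x + x' + z2)`, so `p^h` divides
one of the factors, `K = 2h`.  (`p >= 7`.)
-/

set_option autoImplicit false

namespace Pool.Agent.Lib.DG

open Finset

theorem smlT_nq (z : ℤ × ℤ) : ((nqT z : ℕ) : ℤ) = z.1 ^ 2 + z.1 * z.2 + z.2 ^ 2 := by
  unfold nqT
  rw [Int.natCast_natAbs, abs_of_nonneg]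
  nlinarith [sq_nonneg (z.1 + z.2), sq_nonneg z.1, sq_nonneg z.2]

/-- one residue class in `[0, N)` -/
theorem smlT_cls (N m : ℕ) (hm : 1 ≤ m) (r : ℤ) :
    (((Finset.Ico (0 : ℤ) N).filter fun x => (m : ℤ) ∣ x - r).card : ℝ) ≤ (N : ℝ) / m + 1 := by
  have hm0 : (0 : ℤ) < m := by exact_mod_cast hm
  have hmR : (0 : ℝ) < m := by exact_mod_cast hm
  have h1 : ((Finset.Ico (0 : ℤ) N).filter fun x => (m : ℤ) ∣ x - r) =
      (Finset.Ico (0 : ℤ) N).filter fun x => x ≡ r [ZMOD m] := by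
    refine filter_congr fun x _ => ?_
    rw [Int.modEq_iff_dvd, ← dvd_neg, neg_sub]
  rw [h1]
  have h2 := Int.Ico_filter_modEq_card (0 : ℤ) N hm0 r
  have h3 : (((((Finset.Ico (0 : ℤ) N).filter fun x => x ≡ r [ZMOD m]).card : ℕ) : ℤ) : ℚ) ≤
      (N : ℚ) / m + 1 := by
    rw [h2]
    have g5 : (0 : ℚ) ≤ (N : ℚ) / m + 1 := by positivity
    rw [Int.cast_max]
    refine max_le ?_ (by simpa using g5)
    have g1 := Int.ceil_lt_add_one ((((N : ℤ) : ℚ) - r) / ((m : ℤ) : ℚ))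
    have g2 := Int.le_ceil ((((0 : ℤ) : ℚ) - r) / ((m : ℤ) : ℚ))
    have g4 : (((N : ℤ) : ℚ) - r) / ((m : ℤ) : ℚ) - (((0 : ℤ) : ℚ) - r) / ((m : ℤ) : ℚ) =
        (N : ℚ) / m := by
      push_cast
      ring
    rw [Int.cast_sub]
    linarith
  have h4 := (Rat.cast_le (K := ℝ)).2 h3
  push_cast at h4
  exact h4

theorem smlT_pow {p : ℕ} (hp : p.Prime) (h : ℕ) (u v : ℤ) (hd : (p : ℤ) ^ (2 * h) ∣ u * v) :
    (p : ℤ) ^ h ∣ u ∨ (p : ℤ) ^ h ∣ v := by
  have hpi : Prime (p : ℤ) := Nat.prime_iff_prime_int.1 hp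
  by_contra hc
  push Not at hc
  obtain ⟨h1, h2⟩ := hc
  rw [pow_dvd_iff_le_emultiplicity] at h1 h2 hd
  push Not at h1 h2
  rw [emultiplicity_mul hpi] at hd
  have h3 := hd.trans_lt (ENat.add_lt_add h1 h2)
  have h4 : ((2 * h : ℕ) : ℕ∞) = (h : ℕ∞) + h := by
    push_cast
    ring
  rw [h4] at h3
  exact lt_irrefl _ h3

theorem smlT_line {p : ℕ} (hp : p.Prime) (h N : ℕ) (b : ℤ × ℤ) (y : ℤ) :
    (((Finset.Ico (0 : ℤ) N).filter fun x => p ^ (2 * h) ∣ nqT ((x, y) - b)).card : ℝ) ≤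
      2 * ((N : ℝ) / (p : ℝ) ^ h + 1) := by
  by_cases he : ((Finset.Ico (0 : ℤ) N).filter fun x => p ^ (2 * h) ∣ nqT ((x, y) - b)) = ∅
  · rw [he]
    simp only [card_empty, Nat.cast_zero]
    positivity
  · obtain ⟨x0, hx0⟩ := nonempty_iff_ne_empty.2 he
    rw [mem_filter] at hx0
    have hsub : ((Finset.Ico (0 : ℤ) N).filter fun x => p ^ (2 * h) ∣ nqT ((x, y) - b)) ⊆
        ((Finset.Ico (0 : ℤ) N).filter fun x => ((p ^ h : ℕ) : ℤ) ∣ x - x0) ∪
        ((Finset.Ico (0 : ℤ) N).filter fun x => ((p ^ h : ℕ) : ℤ) ∣ x - (2 * b.1 + b.2 - y - x0)) := by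
      intro x hx
      rw [mem_filter] at hx
      have d1 : (p : ℤ) ^ (2 * h) ∣ (x - b.1) ^ 2 + (x - b.1) * (y - b.2) + (y - b.2) ^ 2 := by
        have := Int.natCast_dvd_natCast.2 hx.2
        rw [smlT_nq] at this
        push_cast at this
        exact this
      have d2 : (p : ℤ) ^ (2 * h) ∣ (x0 - b.1) ^ 2 + (x0 - b.1) * (y - b.2) + (y - b.2) ^ 2 := by
        have := Int.natCast_dvd_natCast.2 hx0.2
        rw [smlT_nq] at this
        push_cast at this
        exact this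
      have d3 : (p : ℤ) ^ (2 * h) ∣ (x - x0) * (x - (2 * b.1 + b.2 - y - x0)) := by
        have e : (x - x0) * (x - (2 * b.1 + b.2 - y - x0)) =
            ((x - b.1) ^ 2 + (x - b.1) * (y - b.2) + (y - b.2) ^ 2) -
              ((x0 - b.1) ^ 2 + (x0 - b.1) * (y - b.2) + (y - b.2) ^ 2) := by ring
        rw [e]
        exact dvd_sub d1 d2
      rw [mem_union, mem_filter, mem_filter]
      push_cast
      rcases smlT_pow hp h _ _ d3 with g | g
      · exact Or.inl ⟨hx.1, g⟩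
      · exact Or.inr ⟨hx.1, g⟩
    have hph : 1 ≤ p ^ h := Nat.one_le_pow _ _ hp.pos
    have c1 := smlT_cls N (p ^ h) hph x0
    have c2 := smlT_cls N (p ^ h) hph (2 * b.1 + b.2 - y - x0)
    push_cast at c1 c2
    have c3 : (((Finset.Ico (0 : ℤ) N).filter fun x => p ^ (2 * h) ∣ nqT ((x, y) - b)).card : ℝ) ≤
        ((((Finset.Ico (0 : ℤ) N).filter fun x => ((p ^ h : ℕ) : ℤ) ∣ x - x0).card : ℕ) : ℝ) +
        ((((Finset.Ico (0 : ℤ) N).filter fun x =>
          ((p ^ h : ℕ) : ℤ) ∣ x - (2 * b.1 + b.2 - y - x0)).card : ℕ) : ℝ) := by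
      exact_mod_cast (card_le_card hsub).trans (card_union_le _ _)
    push_cast at c3
    linarith

theorem smlT_box {p : ℕ} (hp : p.Prime) (h N : ℕ) (b : ℤ × ℤ) :
    (((box N).filter fun a => p ^ (2 * h) ∣ nqT (a - b)).card : ℝ) ≤
      (N : ℝ) * (2 * ((N : ℝ) / (p : ℝ) ^ h + 1)) := by
  have h1 : ((box N).filter fun a => p ^ (2 * h) ∣ nqT (a - b)).card =
      ∑ y ∈ Finset.Ico (0 : ℤ) N,
        ((Finset.Ico (0 : ℤ) N).filter fun x => p ^ (2 * h) ∣ nqT ((x, y) - b)).card := by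
    rw [card_eq_sum_card_fiberwise (f := Prod.snd) (t := Finset.Ico (0 : ℤ) N)]
    · refine sum_congr rfl fun y hy => ?_
      refine (card_bij' (fun z _ => z.1) (fun x _ => (x, y)) ?_ ?_ ?_ ?_)
      · intro z hz
        rw [mem_filter, mem_filter] at hz
        obtain ⟨⟨z1, z2⟩, z3⟩ := hz
        rw [box, mem_product] at z1
        rw [mem_filter]
        refine ⟨z1.1, ?_⟩
        have : (z.1, y) = z := by
          rw [← z3]
        rw [this]
        exact z2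
      · intro x hx
        rw [mem_filter] at hx
        rw [mem_filter, mem_filter]
        refine ⟨⟨?_, hx.2⟩, rfl⟩
        rw [box, mem_product]
        exact ⟨hx.1, hy⟩
      · intro z hz
        have := (mem_filter.1 hz).2
        rw [← this]
      · intro x hx
        rfl
    · intro z hz
      have := (mem_filter.1 hz).1
      rw [box, mem_product] at this
      exact this.2
  rw [h1]
  push_cast
  refine (sum_le_sum fun y _ => smlT_line hp h N b y).trans ?_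
  rw [sum_const, Int.card_Ico]
  simp

theorem smlT (δ : ℝ) (hδ : 0 < δ) (w : ℕ) : ∃ K Q N0 : ℕ, 1 ≤ K ∧ 1 ≤ Q ∧
    (∀ p : ℕ, p.Prime → p ∣ Q → p ≤ w) ∧
    ∀ (N : ℕ) (A B : Finset (ℤ × ℤ)), N0 ≤ N → A ⊆ box N → B ⊆ box N →
    δ * (N : ℝ) ^ 2 ≤ A.card → δ * (N : ℝ) ^ 2 ≤ B.card →
    ∃ c c' : ℤ × ℤ, c ∈ box Q ∧ c' ∈ box Q ∧
      (1 / 2) * ((A.card : ℝ) * B.card) / (Q : ℝ) ^ 4 ≤
        ((A.filter fun a => (Q : ℤ) ∣ a.1 - c.1 ∧ (Q : ℤ) ∣ a.2 - c.2).card : ℝ) *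
          (B.filter fun b => (Q : ℤ) ∣ b.1 - c'.1 ∧ (Q : ℤ) ∣ b.2 - c'.2).card ∧
      ∀ a b : ℤ × ℤ, (Q : ℤ) ∣ a.1 - c.1 → (Q : ℤ) ∣ a.2 - c.2 → (Q : ℤ) ∣ b.1 - c'.1 →
        (Q : ℤ) ∣ b.2 - c'.2 → ∀ p : ℕ, p.Prime → p ≤ w → p % 3 = 1 → ¬ p ^ K ∣ nqT (a - b) := by
  classical
  set PQ : Finset ℕ := (Finset.range (w + 1)).filter fun p => p.Prime ∧ p % 3 = 1 with hPQ
  have hPm : ∀ p, p ∈ PQ ↔ p.Prime ∧ p ≤ w ∧ p % 3 = 1 := by
    intro p
    rw [hPQ, mem_filter, mem_range]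
    constructor
    · rintro ⟨g1, g2, g3⟩
      exact ⟨g2, by omega, g3⟩
    · rintro ⟨g1, g2, g3⟩
      exact ⟨by omega, g1, g3⟩
  -- choice of `h`
  obtain ⟨h, hh1, hh2⟩ : ∃ h : ℕ, 1 ≤ h ∧ 8 * (w : ℝ) / δ ≤ 2 ^ h := by
    obtain ⟨h, hh⟩ := pow_unbounded_of_one_lt (8 * (w : ℝ) / δ) (by norm_num : (1 : ℝ) < 2)
    refine ⟨h + 1, by omega, hh.le.trans ?_⟩
    exact pow_le_pow_right₀ (by norm_num) (by omega)
  obtain ⟨N1, hN1⟩ := exists_nat_ge (8 * (w : ℝ) / δ)
  set W : ℕ := ∏ p ∈ PQ, p with hW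
  set Q : ℕ := W ^ (2 * h) with hQ
  have hW0 : 0 < W := prod_pos fun p hp => ((hPm p).1 hp).1.pos
  have hQ0 : 0 < Q := pow_pos hW0 _
  have hQR : (0 : ℝ) < Q := by exact_mod_cast hQ0
  refine ⟨2 * h, Q, N1 + 1, by omega, hQ0, ?_, ?_⟩
  · intro p hp hpQ
    have h1 : p ∣ W := hp.dvd_of_dvd_pow hpQ
    obtain ⟨q, hq, hpq⟩ := (Prime.dvd_finsetProd_iff hp.prime _).1 h1
    have h2 := (hPm q).1 hq
    rw [(Nat.prime_dvd_prime_iff_eq hp h2.1).1 hpq]
    exact h2.2.1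
  · intro N A B hN hA hB hAc hBc
    have hNpos : (0 : ℝ) < N := by
      have : 0 < N := by omega
      exact_mod_cast this
    have hNbig : 8 * (w : ℝ) / δ ≤ N := by
      refine hN1.trans ?_
      have : N1 ≤ N := by omega
      exact_mod_cast this
    have hA0 : (0 : ℝ) < A.card := lt_of_lt_of_le (by positivity) hAc
    have hB0 : (0 : ℝ) < B.card := lt_of_lt_of_le (by positivity) hBc
    set bad : Finset ((ℤ × ℤ) × (ℤ × ℤ)) :=
      (A ×ˢ B).filter fun x => ∃ p ∈ PQ, p ^ (2 * h) ∣ nqT (x.1 - x.2) with hbad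
    set good : Finset ((ℤ × ℤ) × (ℤ × ℤ)) :=
      (A ×ˢ B).filter fun x => ¬ ∃ p ∈ PQ, p ^ (2 * h) ∣ nqT (x.1 - x.2) with hgood
    have hcount : (bad.card : ℝ) + good.card = A.card * B.card := by
      have := card_filter_add_card_filter_not (s := A ×ˢ B)
        (fun x => ∃ p ∈ PQ, p ^ (2 * h) ∣ nqT (x.1 - x.2))
      rw [card_product] at this
      exact_mod_cast this
    have hbadle : (bad.card : ℝ) ≤ (1 / 2) * (A.card * B.card) := by
      have s1 : bad ⊆ PQ.biUnion fun p => (A ×ˢ B).filter fun x => p ^ (2 * h) ∣ nqT (x.1 - x.2) := by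
        intro x hx
        rw [hbad, mem_filter] at hx
        obtain ⟨hx1, p, hp, hx2⟩ := hx
        rw [mem_biUnion]
        exact ⟨p, hp, mem_filter.2 ⟨hx1, hx2⟩⟩
      have s2 : (bad.card : ℝ) ≤ ∑ p ∈ PQ,
          (((A ×ˢ B).filter fun x => p ^ (2 * h) ∣ nqT (x.1 - x.2)).card : ℝ) := by
        exact_mod_cast (card_le_card s1).trans card_biUnion_le
      have s3 : ∀ p ∈ PQ, (((A ×ˢ B).filter fun x => p ^ (2 * h) ∣ nqT (x.1 - x.2)).card : ℝ) ≤
          B.card * ((N : ℝ) * (2 * ((N : ℝ) / 2 ^ h + 1))) := by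
        intro p hp
        have hpp := ((hPm p).1 hp).1
        have t1 : ((A ×ˢ B).filter fun x => p ^ (2 * h) ∣ nqT (x.1 - x.2)).card =
            ∑ b ∈ B, (A.filter fun a => p ^ (2 * h) ∣ nqT (a - b)).card := by
          rw [card_filter, sum_product_right]
          refine sum_congr rfl fun b _ => ?_
          rw [card_filter]
        rw [t1]
        push_cast
        rw [← nsmul_eq_mul]
        refine sum_le_card_nsmul _ _ _ fun b _ => ?_
        have t2 : ((A.filter fun a => p ^ (2 * h) ∣ nqT (a - b)).card : ℝ) ≤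
            (((box N).filter fun a => p ^ (2 * h) ∣ nqT (a - b)).card : ℝ) := by
          exact_mod_cast card_le_card (filter_subset_filter _ hA)
        refine t2.trans ((smlT_box hpp h N b).trans ?_)
        have t3 : (2 : ℝ) ^ h ≤ (p : ℝ) ^ h := by
          have : (2 : ℝ) ≤ p := by exact_mod_cast hpp.two_le
          exact pow_le_pow_left₀ (by norm_num) this h
        have t4 : (N : ℝ) / (p : ℝ) ^ h ≤ (N : ℝ) / 2 ^ h :=
          div_le_div_of_nonneg_left hNpos.le (by positivity) t3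
        refine mul_le_mul_of_nonneg_left ?_ hNpos.le
        linarith
      have s4 : ∑ p ∈ PQ, (((A ×ˢ B).filter fun x => p ^ (2 * h) ∣ nqT (x.1 - x.2)).card : ℝ) ≤
          (w : ℝ) * (B.card * ((N : ℝ) * (2 * ((N : ℝ) / 2 ^ h + 1)))) := by
        refine (sum_le_sum s3).trans ?_
        rw [sum_const, nsmul_eq_mul]
        refine mul_le_mul_of_nonneg_right ?_ (by positivity)
        have : PQ.card ≤ w := by
          have g : PQ ⊆ Finset.Ioc 0 w := by
            intro p hp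
            have := (hPm p).1 hp
            rw [mem_Ioc]
            exact ⟨this.1.pos, this.2.1⟩
          have := card_le_card g
          simpa using this
        exact_mod_cast this
      refine (s2.trans s4).trans ?_
      have u1 : (w : ℝ) * (2 * ((N : ℝ) / 2 ^ h)) ≤ δ * N / 4 := by
        have v1 : 8 * (w : ℝ) ≤ δ * 2 ^ h := by
          rw [div_le_iff₀ hδ] at hh2
          linarith
        have v2 : (0 : ℝ) < 2 ^ h := by positivity
        have v3 : (w : ℝ) / 2 ^ h ≤ δ / 8 := by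
          rw [div_le_iff₀ v2]
          linarith
        have v4 : (w : ℝ) * (2 * ((N : ℝ) / 2 ^ h)) = 2 * N * ((w : ℝ) / 2 ^ h) := by ring
        rw [v4]
        have v5 := mul_le_mul_of_nonneg_left v3 (by positivity : (0 : ℝ) ≤ 2 * N)
        linarith
      have u2 : (w : ℝ) * 2 ≤ δ * N / 4 := by
        rw [div_le_iff₀ hδ] at hNbig
        linarith
      have u3 : (w : ℝ) * (B.card * ((N : ℝ) * (2 * ((N : ℝ) / 2 ^ h + 1)))) =
          B.card * N * ((w : ℝ) * (2 * ((N : ℝ) / 2 ^ h)) + (w : ℝ) * 2) := by ring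
      rw [u3]
      have u4 : B.card * N * ((w : ℝ) * (2 * ((N : ℝ) / 2 ^ h)) + (w : ℝ) * 2) ≤
          B.card * N * (δ * N / 4 + δ * N / 4) :=
        mul_le_mul_of_nonneg_left (add_le_add u1 u2) (by positivity)
      refine u4.trans ?_
      have u5 : B.card * N * (δ * N / 4 + δ * N / 4) = (1 / 2) * ((δ * (N : ℝ) ^ 2) * B.card) := by
        ring
      rw [u5]
      exact mul_le_mul_of_nonneg_left (mul_le_mul_of_nonneg_right hAc hB0.le) (by norm_num)
    have hgoodge : (1 / 2) * ((A.card : ℝ) * B.card) ≤ good.card := by linarith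
    -- pigeonhole
    set f : (ℤ × ℤ) × (ℤ × ℤ) → (ℤ × ℤ) × (ℤ × ℤ) := fun x =>
      ((x.1.1 % Q, x.1.2 % Q), (x.2.1 % Q, x.2.2 % Q)) with hf
    have hQi : (0 : ℤ) < Q := by exact_mod_cast hQ0
    have hmaps : ∀ x ∈ good, f x ∈ box Q ×ˢ box Q := by
      intro x _
      rw [hf]
      simp only [box, mem_product, mem_Ico]
      exact ⟨⟨⟨Int.emod_nonneg _ hQi.ne', Int.emod_lt_of_pos _ hQi⟩,
        ⟨Int.emod_nonneg _ hQi.ne', Int.emod_lt_of_pos _ hQi⟩⟩,
        ⟨⟨Int.emod_nonneg _ hQi.ne', Int.emod_lt_of_pos _ hQi⟩,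
        ⟨Int.emod_nonneg _ hQi.ne', Int.emod_lt_of_pos _ hQi⟩⟩⟩
    have hcardt : (box Q ×ˢ box Q).card = Q ^ 4 := by
      rw [card_product, box, card_product, Int.card_Ico]
      simp
      ring
    have hne : (box Q ×ˢ box Q).Nonempty := by
      rw [← card_pos, hcardt]
      positivity
    have hbb : (box Q ×ˢ box Q).card • ((1 / 2) * ((A.card : ℝ) * B.card) / (Q : ℝ) ^ 4) ≤
        good.card := by
      rw [hcardt, nsmul_eq_mul]
      push_cast
      rw [mul_div_cancel₀ _ (by positivity : ((Q : ℝ) ^ 4) ≠ 0)]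
      exact hgoodge
    obtain ⟨⟨c, c'⟩, hc, hcc⟩ := exists_le_card_fiber_of_nsmul_le_card_of_maps_to hmaps hne hbb
    rw [mem_product] at hc
    have hcong : ∀ x y : ℤ, x % Q = y → (Q : ℤ) ∣ x - y := by
      intro x y hxy
      rw [← hxy]
      exact Int.dvd_self_sub_emod
    have hfib : ∀ x ∈ good.filter (fun x => f x = (c, c')),
        x.1 ∈ (A.filter fun a => (Q : ℤ) ∣ a.1 - c.1 ∧ (Q : ℤ) ∣ a.2 - c.2) ∧
        x.2 ∈ (B.filter fun b => (Q : ℤ) ∣ b.1 - c'.1 ∧ (Q : ℤ) ∣ b.2 - c'.2) := by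
      intro x hx
      rw [mem_filter] at hx
      obtain ⟨hx1, hx2⟩ := hx
      rw [hgood, mem_filter, mem_product] at hx1
      rw [hf] at hx2
      simp only [Prod.mk.injEq] at hx2
      rw [mem_filter, mem_filter]
      obtain ⟨e1, e2⟩ := hx2
      refine ⟨⟨hx1.1.1, ?_, ?_⟩, ⟨hx1.1.2, ?_, ?_⟩⟩
      · exact hcong _ _ (by rw [← e1])
      · exact hcong _ _ (by rw [← e1])
      · exact hcong _ _ (by rw [← e2])
      · exact hcong _ _ (by rw [← e2])
    refine ⟨c, c', hc.1, hc.2, ?_, ?_⟩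
    · refine hcc.trans ?_
      have : good.filter (fun x => f x = (c, c')) ⊆
          (A.filter fun a => (Q : ℤ) ∣ a.1 - c.1 ∧ (Q : ℤ) ∣ a.2 - c.2) ×ˢ
          (B.filter fun b => (Q : ℤ) ∣ b.1 - c'.1 ∧ (Q : ℤ) ∣ b.2 - c'.2) := by
        intro x hx
        rw [mem_product]
        exact hfib x hx
      have g := card_le_card this
      rw [card_product] at g
      exact_mod_cast g
    · have hpos : (0 : ℝ) < (good.filter (fun x => f x = (c, c'))).card :=
        lt_of_lt_of_le (by positivity) hcc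
      obtain ⟨x0, hx0⟩ := card_pos.1 (by exact_mod_cast hpos :
        0 < (good.filter (fun x => f x = (c, c'))).card)
      obtain ⟨q1, q2⟩ := hfib x0 hx0
      rw [mem_filter] at q1 q2
      have hg0 := (mem_filter.1 (mem_filter.1 hx0).1).2
      intro a b a1 a2 b1 b2 p hp hpw hp4 hdvd
      apply hg0
      refine ⟨p, (hPm p).2 ⟨hp, hpw, hp4⟩, ?_⟩
      have hpQ : (p : ℤ) ^ (2 * h) ∣ Q := by
        have : p ^ (2 * h) ∣ Q := by
          rw [hQ]
          exact pow_dvd_pow_of_dvd (dvd_prod_of_mem _ ((hPm p).2 ⟨hp, hpw, hp4⟩)) _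
        exact_mod_cast this
      have r1 : (p : ℤ) ^ (2 * h) ∣ (a - b).1 ^ 2 + (a - b).1 * (a - b).2 + (a - b).2 ^ 2 := by
        rw [← smlT_nq]
        exact_mod_cast hdvd
      have r2 : (p : ℤ) ^ (2 * h) ∣ (x0.1 - x0.2).1 ^ 2 +
          (x0.1 - x0.2).1 * (x0.1 - x0.2).2 + (x0.1 - x0.2).2 ^ 2 := by
        have k1 : (p : ℤ) ^ (2 * h) ∣ (x0.1 - x0.2).1 - (a - b).1 := by
          have l1 := hpQ.trans q1.2.1
          have l2 := hpQ.trans q2.2.1
          have l3 := hpQ.trans a1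
          have l4 := hpQ.trans b1
          have e : (x0.1 - x0.2).1 - (a - b).1 =
              (x0.1.1 - c.1 - (x0.2.1 - c'.1)) - (a.1 - c.1 - (b.1 - c'.1)) := by
            rw [Prod.fst_sub, Prod.fst_sub]
            ring
          rw [e]
          exact dvd_sub (dvd_sub l1 l2) (dvd_sub l3 l4)
        have k2 : (p : ℤ) ^ (2 * h) ∣ (x0.1 - x0.2).2 - (a - b).2 := by
          have l1 := hpQ.trans q1.2.2
          have l2 := hpQ.trans q2.2.2
          have l3 := hpQ.trans a2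
          have l4 := hpQ.trans b2
          have e : (x0.1 - x0.2).2 - (a - b).2 =
              (x0.1.2 - c.2 - (x0.2.2 - c'.2)) - (a.2 - c.2 - (b.2 - c'.2)) := by
            rw [Prod.snd_sub, Prod.snd_sub]
            ring
          rw [e]
          exact dvd_sub (dvd_sub l1 l2) (dvd_sub l3 l4)
        have k3 := dvd_add r1 (dvd_add
          (k1.mul_right ((x0.1 - x0.2).1 + (a - b).1 + (x0.1 - x0.2).2))
          (k2.mul_right ((x0.1 - x0.2).2 + (a - b).2 + (a - b).1)))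
        have e : (x0.1 - x0.2).1 ^ 2 + (x0.1 - x0.2).1 * (x0.1 - x0.2).2 + (x0.1 - x0.2).2 ^ 2 =
            (a - b).1 ^ 2 + (a - b).1 * (a - b).2 + (a - b).2 ^ 2 +
              (((x0.1 - x0.2).1 - (a - b).1) *
                ((x0.1 - x0.2).1 + (a - b).1 + (x0.1 - x0.2).2) +
                ((x0.1 - x0.2).2 - (a - b).2) *
                ((x0.1 - x0.2).2 + (a - b).2 + (a - b).1)) := by ring
        rw [e]
        exact k3
      have r3 : ((p ^ (2 * h) : ℕ) : ℤ) ∣ ((nqT (x0.1 - x0.2) : ℕ) : ℤ) := by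
        rw [smlT_nq]
        push_cast
        exact r2
      exact Int.natCast_dvd_natCast.1 r3

end Pool.Agent.Lib.DG
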