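import Pool.Agent.Lib.MP_1a9bf8_co.SIE
import Pool.Agent.Lib.MP_1a9bf8_co.REPT
import Pool.Agent.Lib.MP_1a9bf8_co.CNTT
import Pool.Agent.Lib.MP_1a9bf8_co.LOCTT
import Pool.Agent.Lib.MP_1a9bf8_co.PRDT
import Pool.Agent.Lib.MP_1a9bf8_co.SMLT
import Pool.Agent.Lib.MP_1a9bf8_co.BIGT

/-!
# MAINT: as MAIN
-/

set_option autoImplicit false

namespace Pool.Agent.Lib.DG

open Finset

theorem mainT_root (s n : ℕ) (hs : 1 ≤ s) : ∃ y : ℕ, y ^ s ≤ n ∧ n < (y + 1) ^ s := by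
  have hex : ∃ y : ℕ, n < (y + 1) ^ s := by
    refine ⟨n, ?_⟩
    calc n < n + 1 := Nat.lt_succ_self n
      _ = (n + 1) ^ 1 := (pow_one _).symm
      _ ≤ (n + 1) ^ s := Nat.pow_le_pow_right (Nat.succ_pos n) hs
  classical
  refine ⟨Nat.find hex, ?_, Nat.find_spec hex⟩
  rcases Nat.eq_zero_or_pos (Nat.find hex) with h0 | hpos
  · rw [h0, Nat.zero_pow (by omega)]
    exact Nat.zero_le _
  · have := Nat.find_min hex (m := Nat.find hex - 1) (by omega)
    rw [Nat.sub_add_cancel hpos] at this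
    exact not_lt.mp this

/-- the residue class of `c` in `A` -/
noncomputable def mainT_mcl (A : Finset (ℤ × ℤ)) (Q : ℕ) (c : ℤ × ℤ) : Finset (ℤ × ℤ) :=
  A.filter fun a => (Q : ℤ) ∣ a.1 - c.1 ∧ (Q : ℤ) ∣ a.2 - c.2

/-- the rescaled point -/
def mainT_msc (Q : ℕ) (c a : ℤ × ℤ) : ℤ × ℤ := ((a.1 - c.1) / Q, (a.2 - c.2) / Q)

theorem mainT_msc_eq {A : Finset (ℤ × ℤ)} {Q : ℕ} {c a : ℤ × ℤ} (ha : a ∈ mainT_mcl A Q c) :
    c + (Q : ℤ) • mainT_msc Q c a = a := by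
  rw [mainT_mcl, mem_filter] at ha
  obtain ⟨-, h1, h2⟩ := ha
  ext
  · simp only [mainT_msc, Prod.fst_add, Prod.smul_fst, smul_eq_mul]
    rw [Int.mul_ediv_cancel' h1]
    ring
  · simp only [mainT_msc, Prod.snd_add, Prod.smul_snd, smul_eq_mul]
    rw [Int.mul_ediv_cancel' h2]
    ring

theorem mainT_msc_inj {A : Finset (ℤ × ℤ)} {Q : ℕ} {c : ℤ × ℤ} :
    Set.InjOn (mainT_msc Q c) (mainT_mcl A Q c) := by
  intro a ha b hb hab
  rw [← mainT_msc_eq ha, ← mainT_msc_eq hb, hab]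

theorem mainT_msc_coord {N Q : ℕ} (hQ : 1 ≤ Q) {x c : ℤ} (hx0 : 0 ≤ x) (hx : x < N) (hc0 : 0 ≤ c)
    (hc : c < Q) (hd : (Q : ℤ) ∣ x - c) : 0 ≤ (x - c) / Q ∧ (x - c) / Q < ((N / Q + 1 : ℕ) : ℤ) := by
  have hQ' : (0 : ℤ) < Q := by exact_mod_cast hQ
  obtain ⟨k, hk⟩ := hd
  rw [hk, Int.mul_ediv_cancel_left k hQ'.ne']
  constructor
  · by_contra hneg
    have : k ≤ -1 := by omega
    nlinarith
  · push_cast
    have h1 : (Q : ℤ) * k ≤ N := by omega
    have h2 : k ≤ (N : ℤ) / Q := by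
      rw [Int.le_ediv_iff_mul_le hQ']
      linarith [mul_comm (Q : ℤ) k]
    omega

theorem mainT_msc_box {A : Finset (ℤ × ℤ)} {N Q : ℕ} {c : ℤ × ℤ} (hQ : 1 ≤ Q) (hA : A ⊆ box N)
    (hc : c ∈ box Q) : (mainT_mcl A Q c).image (mainT_msc Q c) ⊆ box (N / Q + 1) := by
  intro z hz
  obtain ⟨a, ha, rfl⟩ := mem_image.mp hz
  have haA : a ∈ box N := hA (mem_filter.mp ha).1
  have hd := (mem_filter.mp ha).2
  simp only [box, mem_product, mem_Ico] at haA hc ⊢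
  have h1 := mainT_msc_coord hQ haA.1.1 haA.1.2 hc.1.1 hc.1.2 hd.1
  have h2 := mainT_msc_coord hQ haA.2.1 haA.2.2 hc.2.1 hc.2.2 hd.2
  exact ⟨h1, h2⟩

theorem mainT_msc_sum {A B : Finset (ℤ × ℤ)} {Q : ℕ} {c c' : ℤ × ℤ} (F : ℤ × ℤ → ℝ) :
    ∑ a ∈ (mainT_mcl A Q c).image (mainT_msc Q c), ∑ b ∈ (mainT_mcl B Q c').image (mainT_msc Q c'),
      F (c - c' + (Q : ℤ) • (a - b)) = ∑ a ∈ mainT_mcl A Q c, ∑ b ∈ mainT_mcl B Q c', F (a - b) := by
  rw [sum_image mainT_msc_inj]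
  refine sum_congr rfl fun a ha => ?_
  rw [sum_image mainT_msc_inj]
  refine sum_congr rfl fun b hb => ?_
  congr 1
  conv_rhs => rw [← mainT_msc_eq ha, ← mainT_msc_eq hb]
  rw [smul_sub]
  abel

theorem mainT_four (x y : ℤ) : 3 * x ^ 2 ≤ 4 * (x ^ 2 + x * y + y ^ 2) ∧
    3 * y ^ 2 ≤ 4 * (x ^ 2 + x * y + y ^ 2) := by
  constructor
  · nlinarith [sq_nonneg (x + 2 * y)]
  · nlinarith [sq_nonneg (2 * x + y)]

theorem mainT_nonneg (x y : ℤ) : 0 ≤ x ^ 2 + x * y + y ^ 2 := by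
  nlinarith [sq_nonneg (x + y), sq_nonneg x, sq_nonneg y]

theorem mainT_nq_cast (z : ℤ × ℤ) : ((nqT z : ℕ) : ℤ) = z.1 ^ 2 + z.1 * z.2 + z.2 ^ 2 := by
  unfold nqT
  exact Int.natAbs_of_nonneg (mainT_nonneg _ _)

theorem mainT_nq_eq_zero {z : ℤ × ℤ} (h : nqT z = 0) : z = 0 := by
  have h0 := mainT_nq_cast z
  rw [h] at h0
  have h1 := mainT_four z.1 z.2
  rw [← h0] at h1
  have hx : z.1 ^ 2 = 0 := le_antisymm (by have := h1.1; push_cast at this; linarith) (sq_nonneg _)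
  have hy : z.2 ^ 2 = 0 := le_antisymm (by have := h1.2; push_cast at this; linarith) (sq_nonneg _)
  ext
  · simpa using hx
  · simpa using hy

theorem mainT_coord {x m : ℤ} (hm : 0 ≤ m) (h : 3 * x ^ 2 ≤ 4 * m) : -(2 * m) ≤ x ∧ x ≤ 2 * m := by
  have h2 : |x| ≤ x ^ 2 := by
    rcases eq_or_ne x 0 with rfl | hx
    · simp
    · rw [← sq_abs]
      have := Int.one_le_abs hx
      nlinarith
  have h3 : |x| ≤ 2 * m := by linarith
  exact ⟨by linarith [neg_abs_le x], by linarith [le_abs_self x]⟩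

theorem mainT_rp_pos {z : ℤ × ℤ} : 1 ≤ rpT (nqT z) := by
  unfold rpT
  rw [Nat.one_le_iff_ne_zero, ← Nat.pos_iff_ne_zero, card_pos]
  refine ⟨z, mem_filter.mpr ⟨?_, rfl⟩⟩
  have h0 := mainT_nq_cast z
  have h1 := mainT_four z.1 z.2
  rw [← h0] at h1
  have hm : (0 : ℤ) ≤ ((nqT z : ℕ) : ℤ) := Int.natCast_nonneg _
  have hx := mainT_coord hm h1.1
  have hy := mainT_coord hm h1.2
  simp only [mem_product, mem_Icc]
  exact ⟨hx, hy⟩

theorem mainT_nq_le_box {N : ℕ} {a b : ℤ × ℤ} (ha : a ∈ box N) (hb : b ∈ box N) :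
    nqT (a - b) ≤ 3 * N ^ 2 := by
  simp only [box, mem_product, mem_Ico] at ha hb
  have h0 := mainT_nq_cast (a - b)
  have hx1 : -(N : ℤ) ≤ (a - b).1 := by rw [Prod.fst_sub]; omega
  have hx2 : (a - b).1 ≤ (N : ℤ) := by rw [Prod.fst_sub]; omega
  have hy1 : -(N : ℤ) ≤ (a - b).2 := by rw [Prod.snd_sub]; omega
  have hy2 : (a - b).2 ≤ (N : ℤ) := by rw [Prod.snd_sub]; omega
  set x := (a - b).1
  set y := (a - b).2
  have hx : x ^ 2 ≤ (N : ℤ) ^ 2 := by nlinarith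
  have hy : y ^ 2 ≤ (N : ℤ) ^ 2 := by nlinarith
  have hxy : 2 * (x * y) ≤ x ^ 2 + y ^ 2 := by nlinarith [sq_nonneg (x - y)]
  have h3 : ((nqT (a - b) : ℕ) : ℤ) ≤ ((3 * N ^ 2 : ℕ) : ℤ) := by
    rw [h0]
    push_cast
    linarith
  exact_mod_cast h3

theorem mainT_T0_le_one (p : ℕ) (z : ℤ × ℤ) : TT p z ≤ 1 := by
  unfold TT
  split_ifs <;> norm_num

theorem mainT_T0_prod_nonneg (w y : ℕ) (z : ℤ × ℤ) : 0 ≤ ∏ p ∈ PPT w y, (1 - TT p z) :=
  prod_nonneg fun p _ => sub_nonneg.mpr (mainT_T0_le_one p z)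

/-- one pair -/
theorem mainT_pair {K w y s N : ℕ} (hK : 1 ≤ K) (hN : N < (y + 1) ^ s) (hy : 1 ≤ y)
    (hne : (PPT w y).Nonempty) {a b : ℤ × ℤ} (ha : a ∈ box N) (hb : b ∈ box N)
    (hs : ∀ p : ℕ, p.Prime → p ≤ w → p % 3 = 1 → ¬ p ^ K ∣ nqT (a - b)) :
    ∏ p ∈ PPT w y, (1 - TT p (a - b)) ≤
      6 * ((K : ℝ) ^ w * 2 ^ (2 * s + 1)) * (if a = b then (0 : ℝ) else 1 / rpT (nqT (a - b))) := by
  split_ifs with hab
  · obtain ⟨p, hp⟩ := hne
    rw [mul_zero]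
    refine le_of_eq (prod_eq_zero hp ?_)
    subst hab
    have : nqT (a - a) = 0 := by rw [sub_self]; rfl
    unfold TT
    rw [this]
    simp
  · have hz0 : nqT (a - b) ≠ 0 := fun h => hab (sub_eq_zero.mp (mainT_nq_eq_zero h))
    have h1 := bigT K w y s N hK hN hy (a - b) hz0 (mainT_nq_le_box ha hb) hs
    have h2 := repT_le (nqT (a - b)) (Nat.one_le_iff_ne_zero.mpr hz0)
    have h3 : (rpT (nqT (a - b)) : ℝ) ≤ 6 * ∏ p ∈ (nqT (a - b)).primeFactors.filter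
        (fun p => p % 3 = 1), (((nqT (a - b)).factorization p : ℝ) + 1) := by
      have := (Nat.cast_le (α := ℝ)).mpr h2
      push_cast at this
      exact this
    have h4 : (1 : ℝ) ≤ rpT (nqT (a - b)) := by exact_mod_cast mainT_rp_pos
    have h0 := mainT_T0_prod_nonneg w y (a - b)
    rw [mul_one_div, le_div_iff₀ (by linarith)]
    calc (∏ p ∈ PPT w y, (1 - TT p (a - b))) * (rpT (nqT (a - b)) : ℝ)
        ≤ (∏ p ∈ PPT w y, (1 - TT p (a - b))) * (6 * ∏ p ∈ (nqT (a - b)).primeFactors.filter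
          (fun p => p % 3 = 1), (((nqT (a - b)).factorization p : ℝ) + 1)) :=
          mul_le_mul_of_nonneg_left h3 h0
      _ = 6 * ((∏ p ∈ (nqT (a - b)).primeFactors.filter
          (fun p => p % 3 = 1), (((nqT (a - b)).factorization p : ℝ) + 1)) *
            ∏ p ∈ PPT w y, (1 - TT p (a - b))) := by ring
      _ ≤ 6 * ((K : ℝ) ^ w * 2 ^ (2 * s + 1)) := by linarith

theorem main_gridT (δ : ℝ) (hδ : 0 < δ) : ∃ c : ℝ, 0 < c ∧ ∃ N0 : ℕ, ∀ (N : ℕ)
    (A B : Finset (ℤ × ℤ)), N0 ≤ N → A ⊆ box N → B ⊆ box N → δ * (N : ℝ) ^ 2 ≤ A.card →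
    δ * (N : ℝ) ^ 2 ≤ B.card →
    c * (N : ℝ) ^ 2 / √(Real.log N) ≤ ((A ×ˢ B).image (fun x => nqT (x.1 - x.2))).card := by
  obtain ⟨w, s, hw2, hs1, hsie⟩ := sie 3 (δ / 8) (by norm_num) (by positivity)
  obtain ⟨K, Q, N0, hK, hQ, hQp, hsml⟩ := smlT δ hδ w
  obtain ⟨c1, hc1, hprd⟩ := prdT
  obtain ⟨p0, hp0, hwp0, hp04⟩ := Nat.exists_prime_gt_modEq_one (k := 3) w (by norm_num)
  have hKr : (1 : ℝ) ≤ K := by exact_mod_cast hK
  have hQr : (1 : ℝ) ≤ Q := by exact_mod_cast hQ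
  set M : ℝ := (K : ℝ) ^ w * 2 ^ (2 * (s + 1) + 1) with hMdef
  have hM : 0 < M := by positivity
  set R : ℕ := max Q (max 3 p0) with hRdef
  refine ⟨c1 * δ ^ 2 / (48 * M * (Q : ℝ) ^ 4 * √2), by positivity,
    max (max N0 2) (Q * R ^ s), ?_⟩
  intro N A B hN hA hB hAc hBc
  have hN0 : N0 ≤ N := le_trans (le_trans (le_max_left _ _) (le_max_left _ _)) hN
  have hN2 : 2 ≤ N := le_trans (le_trans (le_max_right _ _) (le_max_left _ _)) hN
  have hNR : Q * R ^ s ≤ N := le_trans (le_max_right _ _) hN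
  have hR1 : 1 ≤ R := le_trans hQ (le_max_left _ _)
  have hNQ : Q ≤ N := le_trans (Nat.le_mul_of_pos_right Q (Nat.pow_pos hR1)) hNR
  set N1 : ℕ := N / Q + 1 with hN1def
  obtain ⟨y, hy1, hy2⟩ := mainT_root s N1 hs1
  have hRN1 : R ^ s ≤ N1 := by
    have : R ^ s ≤ N / Q := (Nat.le_div_iff_mul_le (by omega)).mpr (by
      rw [mul_comm]; exact hNR)
    omega
  have hRy : R ≤ y := by
    by_contra hlt
    have h1 : y + 1 ≤ R := by omega
    have h2 := Nat.pow_le_pow_left h1 s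
    omega
  have hQy : Q ≤ y := le_trans (le_max_left _ _) hRy
  have h3y : 3 ≤ y := le_trans (le_trans (le_max_left _ _) (le_max_right _ _)) hRy
  have hp0y : p0 ≤ y := le_trans (le_trans (le_max_right _ _) (le_max_right _ _)) hRy
  have hNy : N < (y + 1) ^ (s + 1) := by
    have h1 : N < Q * N1 := by
      rw [hN1def]
      have := Nat.lt_div_mul_add (a := N) (b := Q) (by omega)
      rw [mul_add, mul_one, mul_comm Q]
      exact this
    have h2 : Q * N1 ≤ (y + 1) * (y + 1) ^ s := Nat.mul_le_mul (by omega) hy2.le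
    rw [pow_succ, mul_comm ((y + 1) ^ s)]
    omega
  have hne : (PPT w y).Nonempty := by
    refine ⟨p0, ?_⟩
    simp only [PPT, mem_filter, mem_Ioc]
    refine ⟨⟨hwp0, hp0y⟩, hp0, ?_⟩
    simpa [Nat.ModEq] using hp04
  have hNr : (2 : ℝ) ≤ N := by exact_mod_cast hN2
  have hQNr : (Q : ℝ) ≤ N := by exact_mod_cast hNQ
  -- sizes
  have hN1r : (N1 : ℝ) ≤ 2 * N / Q := by
    rw [hN1def]
    push_cast
    have h1 : ((N / Q : ℕ) : ℝ) ≤ (N : ℝ) / Q := Nat.cast_div_le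
    have h2 : (1 : ℝ) ≤ (N : ℝ) / Q := by
      rw [le_div_iff₀ (by linarith)]
      linarith
    rw [two_mul, add_div]
    linarith
  obtain ⟨c, c', hc, hc', hsz, hgood⟩ := hsml N A B hN0 hA hB hAc hBc
  have hAB : δ ^ 2 * (N : ℝ) ^ 4 ≤ (A.card : ℝ) * B.card := by
    calc δ ^ 2 * (N : ℝ) ^ 4 = (δ * (N : ℝ) ^ 2) * (δ * (N : ℝ) ^ 2) := by ring
      _ ≤ (A.card : ℝ) * B.card := mul_le_mul hAc hBc (by positivity) (by positivity)
  have hcard : δ ^ 2 * (N : ℝ) ^ 4 / (2 * (Q : ℝ) ^ 4) ≤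
      ((mainT_mcl A Q c).card : ℝ) * (mainT_mcl B Q c').card := by
    refine le_trans ?_ hsz
    rw [div_le_div_iff₀ (by positivity) (by positivity)]
    nlinarith [pow_pos (show (0 : ℝ) < Q by linarith) 4]
  set A1 := (mainT_mcl A Q c).image (mainT_msc Q c) with hA1
  set B1 := (mainT_mcl B Q c').image (mainT_msc Q c') with hB1
  have hA1c : A1.card = (mainT_mcl A Q c).card := card_image_of_injOn mainT_msc_inj
  have hB1c : B1.card = (mainT_mcl B Q c').card := card_image_of_injOn mainT_msc_inj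
  have hA1b : A1 ⊆ box N1 := mainT_msc_box hQ hA hc
  have hB1b : B1 ⊆ box N1 := mainT_msc_box hQ hB hc'
  have hsize : (δ / 8) ^ 2 * (N1 : ℝ) ^ 4 ≤ (A1.card : ℝ) * B1.card := by
    rw [hA1c, hB1c]
    refine le_trans ?_ hcard
    have h1 : (N1 : ℝ) ^ 4 ≤ (2 * N / Q) ^ 4 := pow_le_pow_left₀ (by positivity) hN1r 4
    calc (δ / 8) ^ 2 * (N1 : ℝ) ^ 4 ≤ (δ / 8) ^ 2 * (2 * N / Q) ^ 4 :=
          mul_le_mul_of_nonneg_left h1 (by positivity)
      _ = δ ^ 2 * (N : ℝ) ^ 4 / (4 * (Q : ℝ) ^ 4) := by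
          rw [div_pow, div_pow, mul_pow]
          field_simp
          ring
      _ ≤ δ ^ 2 * (N : ℝ) ^ 4 / (2 * (Q : ℝ) ^ 4) := by
          apply div_le_div_of_nonneg_left (by positivity) (by positivity)
          nlinarith [pow_pos (show (0 : ℝ) < Q by linarith) 4]
  -- sieve
  have hS := hsie N1 y (PPT w y) (fun p z => TT p (c - c' + (Q : ℤ) • z)) tauT hy1
    (fun p hp => by
      simp only [PPT, mem_filter, mem_Ioc] at hp
      exact ⟨hp.2.1, hp.1.1, hp.1.2⟩)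
    (fun p hp => by
      simp only [PPT, mem_filter, mem_Ioc] at hp
      obtain ⟨⟨hwp, -⟩, hpp, hp4⟩ := hp
      refine ⟨loc_TT hpp hp4 (Q : ℤ) ?_ (c - c'), ?_⟩
      · intro hd
        have := hQp p hpp (by exact_mod_cast hd)
        omega
      · refine le_trans (tauT_le hpp hp4) ?_
        have hp1 : (1 : ℝ) ≤ p := by exact_mod_cast hpp.one_lt.le
        have : 2 / (p : ℝ) ^ 2 ≤ 2 / p := by
          apply div_le_div_of_nonneg_left (by norm_num) (by linarith)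
          nlinarith
        have h3 : (3 : ℝ) / p = 1 / p + 2 / p := by ring
        rw [h3]
        linarith)
    A1 B1 hA1b hB1b hsize
  rw [hA1, hB1, mainT_msc_sum (fun z => ∏ p ∈ PPT w y, (1 - TT p z)), ← hA1, ← hB1, hA1c, hB1c] at hS
  -- compare with the number of distances
  have hup : ∑ a ∈ mainT_mcl A Q c, ∑ b ∈ mainT_mcl B Q c', ∏ p ∈ PPT w y, (1 - TT p (a - b)) ≤
      6 * M * ((N : ℝ) ^ 2 * ((A ×ˢ B).image (fun x => nqT (x.1 - x.2))).card) := by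
    calc ∑ a ∈ mainT_mcl A Q c, ∑ b ∈ mainT_mcl B Q c', ∏ p ∈ PPT w y, (1 - TT p (a - b))
        ≤ ∑ a ∈ mainT_mcl A Q c, ∑ b ∈ mainT_mcl B Q c', 6 * M *
            (if a = b then (0 : ℝ) else 1 / rpT (nqT (a - b))) := by
          refine sum_le_sum fun a ha => sum_le_sum fun b hb => ?_
          have ha' := mem_filter.mp ha
          have hb' := mem_filter.mp hb
          exact mainT_pair hK hNy (by omega) hne (hA ha'.1) (hB hb'.1)
            (hgood a b ha'.2.1 ha'.2.2 hb'.2.1 hb'.2.2)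
      _ = 6 * M * ∑ a ∈ mainT_mcl A Q c, ∑ b ∈ mainT_mcl B Q c',
            (if a = b then (0 : ℝ) else 1 / rpT (nqT (a - b))) := by
          simp only [mul_sum]
      _ ≤ 6 * M * (((mainT_mcl B Q c').card : ℝ) *
            ((mainT_mcl A Q c ×ˢ mainT_mcl B Q c').image (fun x => nqT (x.1 - x.2))).card) :=
          mul_le_mul_of_nonneg_left (cntT _ _) (by positivity)
      _ ≤ 6 * M * ((N : ℝ) ^ 2 * ((A ×ˢ B).image (fun x => nqT (x.1 - x.2))).card) := by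
          refine mul_le_mul_of_nonneg_left ?_ (by positivity)
          refine mul_le_mul ?_ ?_ (by positivity) (by positivity)
          · have h1 : (mainT_mcl B Q c').card ≤ (box N).card :=
              card_le_card (le_trans (filter_subset _ _) hB)
            have h2 : (box N).card = N ^ 2 := by
              unfold box
              rw [card_product, Int.card_Ico]
              simp [sq]
            rw [h2] at h1
            exact_mod_cast h1
          · exact_mod_cast card_le_card (image_subset_image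
              (product_subset_product (filter_subset _ _) (filter_subset _ _)))
  have hpr := hprd w y h3y
  have hlogN : 0 < Real.log N := Real.log_pos (by linarith)
  have hyr : (3 : ℝ) ≤ y := by exact_mod_cast h3y
  have hlogy : 0 < Real.log y := Real.log_pos (by linarith)
  have hlog : Real.log y ≤ 2 * Real.log N := by
    have h1 : y ≤ N1 := le_trans (by
      calc y = y ^ 1 := (pow_one y).symm
        _ ≤ y ^ s := Nat.pow_le_pow_right (by omega) hs1) hy1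
    have h2 : N1 ≤ N * N := by
      rw [hN1def]
      have : N / Q ≤ N := Nat.div_le_self N Q
      nlinarith
    have h3 : (y : ℝ) ≤ (N : ℝ) * N := by exact_mod_cast le_trans h1 h2
    calc Real.log y ≤ Real.log ((N : ℝ) * N) := Real.log_le_log (by linarith) h3
      _ = 2 * Real.log N := by
          rw [Real.log_mul (by linarith) (by linarith)]
          ring
  have hsq : c1 / (√2 * √(Real.log N)) ≤ ∏ p ∈ PPT w y, (1 - tauT p) := by
    refine le_trans ?_ hpr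
    apply div_le_div_of_nonneg_left hc1.le (Real.sqrt_pos.mpr hlogy)
    rw [← Real.sqrt_mul (by norm_num)]
    exact Real.sqrt_le_sqrt hlog
  have hsl : 0 < √(Real.log N) := Real.sqrt_pos.mpr hlogN
  have hs2 : 0 < √(2 : ℝ) := Real.sqrt_pos.mpr (by norm_num)
  have hmain : 1 / 4 * (c1 / (√2 * √(Real.log N))) * (δ ^ 2 * (N : ℝ) ^ 4 / (2 * (Q : ℝ) ^ 4)) ≤
      6 * M * ((N : ℝ) ^ 2 * ((A ×ˢ B).image (fun x => nqT (x.1 - x.2))).card) := by
    refine le_trans ?_ (le_trans hS hup)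
    refine mul_le_mul ?_ hcard (by positivity) ?_
    · linarith
    · have := le_trans (by positivity : (0 : ℝ) ≤ c1 / (√2 * √(Real.log N))) hsq
      linarith
  set Z : ℝ := (((A ×ˢ B).image (fun x => nqT (x.1 - x.2))).card : ℝ) with hZ
  have hNN : 0 < (N : ℝ) ^ 2 := by positivity
  have hfin : (6 * M * (N : ℝ) ^ 2) * (c1 * δ ^ 2 / (48 * M * (Q : ℝ) ^ 4 * √2) * (N : ℝ) ^ 2 /
      √(Real.log N)) ≤ (6 * M * (N : ℝ) ^ 2) * Z := by
    calc (6 * M * (N : ℝ) ^ 2) * (c1 * δ ^ 2 / (48 * M * (Q : ℝ) ^ 4 * √2) * (N : ℝ) ^ 2 /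
        √(Real.log N)) = 1 / 4 * (c1 / (√2 * √(Real.log N))) *
          (δ ^ 2 * (N : ℝ) ^ 4 / (2 * (Q : ℝ) ^ 4)) := by
          field_simp
          ring
      _ ≤ 6 * M * ((N : ℝ) ^ 2 * Z) := hmain
      _ = (6 * M * (N : ℝ) ^ 2) * Z := by ring
  exact le_of_mul_le_mul_left hfin (by positivity)

end Pool.Agent.Lib.DG
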