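import Pool.Agent.Lib.MP_1a9bf8_co.CB1
import Pool.Agent.Lib.MP_1a9bf8_co.CB3
import Pool.Agent.Lib.MP_1a9bf8_co.BLK
import Pool.Agent.Lib.MP_1a9bf8_co.LVL
import Pool.Agent.Lib.MP_1a9bf8_co.CHB
import Pool.Agent.Lib.MP_1a9bf8_co.LEV

/-!
# SIE: sieve for differences of dense sets
`S = C0 S1` (BLK), `b0` from CHB with `M = exp(2S)`, `b j = b0 + j`, `D = y^(4 b0 + 6)`, `s = 9 (4 b0 + 6)`,
`ρ = C0 / w`, `w >= 2 C0`, `w >= 3 exp(3S) C0`, `w >= 24 exp(3S) C0 / δ` (τ p <= C0/p < C0/w).  Pointwise the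
sieve function is `<= prod (1 - T p (a-b))` (CB1), LEV with `ε = 6 exp(3S) ρ Ssum ∅` (CB3), and
`2 ε N^2 sqrt(|A||B|) <= 1/2 Ssum ∅ |A||B|` since `sqrt(|A||B|) >= δ N^2`; then CB2.  If `P` is empty or `N = 0`
everything is trivial; `y = 0` forces `P = ∅`.
-/

set_option autoImplicit false

namespace Pool.Agent.Lib.DG

open Finset

theorem sie (C0 δ : ℝ) (hC0 : 1 ≤ C0) (hδ : 0 < δ) : ∃ w s : ℕ, 2 ≤ w ∧ 1 ≤ s ∧
    ∀ (N y : ℕ) (P : Finset ℕ) (T : ℕ → ℤ × ℤ → ℝ) (τ : ℕ → ℝ), y ^ s ≤ N →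
    (∀ p ∈ P, p.Prime ∧ w < p ∧ p ≤ y) → (∀ p ∈ P, Loc (T p) p (τ p) ∧ τ p ≤ C0 / p) →
    ∀ A B : Finset (ℤ × ℤ), A ⊆ box N → B ⊆ box N →
    δ ^ 2 * (N : ℝ) ^ 4 ≤ (A.card : ℝ) * B.card →
    (1 / 4) * (∏ p ∈ P, (1 - τ p)) * ((A.card : ℝ) * B.card) ≤
      ∑ a ∈ A, ∑ b ∈ B, ∏ p ∈ P, (1 - T p (a - b)) := by
  obtain ⟨S1, hS1, hblk⟩ := blk
  have hC00 : (0 : ℝ) ≤ C0 := le_trans zero_le_one hC0
  set S : ℝ := C0 * S1 with hSdef
  have hS0 : 0 ≤ S := mul_nonneg hC00 hS1.le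
  obtain ⟨b0, hb0⟩ := chb S (Real.exp (2 * S)) hS0 (Real.exp_pos _).le
  obtain ⟨w, hw⟩ := exists_nat_ge
    (2 + 2 * C0 + 3 * Real.exp (3 * S) * C0 + 24 * Real.exp (3 * S) * C0 / δ)
  have he : 0 < Real.exp (3 * S) := Real.exp_pos _
  have ht1 : 0 ≤ 3 * Real.exp (3 * S) * C0 := by positivity
  have ht2 : 0 ≤ 24 * Real.exp (3 * S) * C0 / δ := by positivity
  have hw2 : (2 : ℝ) ≤ w := by linarith
  have hwpos : (0 : ℝ) < w := by linarith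
  have hw1 : 2 * C0 ≤ w := by linarith
  have hw3 : 3 * Real.exp (3 * S) * C0 ≤ w := by linarith
  have hw4 : 24 * Real.exp (3 * S) * C0 / δ ≤ w := by linarith
  refine ⟨w, 9 * (4 * b0 + 6), by exact_mod_cast hw2, by omega, ?_⟩
  intro N y P T τ hyN hP hT A B hA hB hAB
  have hABnn : (0 : ℝ) ≤ (A.card : ℝ) * B.card := by positivity
  rcases P.eq_empty_or_nonempty with rfl | hPne
  · simp only [Finset.prod_empty, Finset.sum_const, nsmul_eq_mul, mul_one]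
    linarith
  obtain ⟨p0, hp0⟩ := hPne
  have hy1 : 1 ≤ y := by
    have := hP p0 hp0
    have := this.1.one_lt
    omega
  have hτ0 : ∀ p ∈ P, 0 ≤ τ p := by
    intro p hp
    have hL := (hT p hp).1
    have hm := hL.mean
    have hpos : (0 : ℝ) < (p : ℝ) ^ 4 := by
      have := (hP p hp).1.pos
      positivity
    have hs : 0 ≤ τ p * (p : ℝ) ^ 4 := by
      rw [← hm]
      exact Finset.sum_nonneg fun x _ => Finset.sum_nonneg fun z _ => hL.nonneg _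
    exact nonneg_of_mul_nonneg_left hs hpos
  set ρ : ℝ := C0 / w with hρdef
  have hρ0 : 0 ≤ ρ := div_nonneg hC00 hwpos.le
  have hτρ : ∀ p ∈ P, τ p ≤ ρ := by
    intro p hp
    refine (hT p hp).2.trans ?_
    have : (w : ℝ) ≤ p := by exact_mod_cast (hP p hp).2.1.le
    exact div_le_div_of_nonneg_left hC00 hwpos this
  have hρhalf : ρ ≤ 1 / 2 := by
    rw [hρdef, div_le_iff₀ hwpos]
    linarith
  have hρ1 : 3 * Real.exp (3 * S) * ρ ≤ 1 := by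
    rw [hρdef, ← mul_div_assoc, div_le_one hwpos]
    exact hw3
  have hρ2 : 12 * Real.exp (3 * S) * ρ ≤ δ / 2 := by
    rw [hρdef, ← mul_div_assoc, div_le_iff₀ hwpos]
    rw [div_le_iff₀ hδ] at hw4
    linarith
  have hτhalf : ∀ p ∈ P, τ p ≤ 1 / 2 := fun p hp => (hτρ p hp).trans hρhalf
  obtain ⟨bk, J, hbJ, hbsum, hbpow⟩ := hblk y w P (by exact_mod_cast hw2) hP
  have hSsum : ∀ j < J, ∑ p ∈ PB P bk j, τ p ≤ S := by
    intro j _
    calc ∑ p ∈ PB P bk j, τ p ≤ ∑ p ∈ PB P bk j, C0 * ((1 : ℝ) / p) := by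
          refine Finset.sum_le_sum fun p hp => ?_
          have hpP : p ∈ P := (Finset.mem_filter.mp hp).1
          have := (hT p hpP).2
          rw [mul_one_div]
          exact this
      _ = C0 * ∑ p ∈ PB P bk j, (1 : ℝ) / p := by rw [Finset.mul_sum]
      _ ≤ C0 * S1 := mul_le_mul_of_nonneg_left (hbsum j) hC00
  have hη : ∑ j ∈ range J, Real.exp (2 * S) *
      (S ^ (2 * (fun j => b0 + j) j + 1) / (2 * (fun j => b0 + j) j + 1).factorial) ≤ 1 / 2 :=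
    hb0 J
  obtain ⟨hcb2a, hcb2b, hcb2c, hcb2d⟩ := cb2 P bk (fun j => b0 + j) J hbJ τ hτ0 hτhalf S hS0 hSsum hη
  set SS0 : ℝ := Ssum P (cf P bk (fun j => b0 + j) J) τ ∅ with hSS0
  have hprod0 : 0 ≤ ∏ p ∈ P, (1 - τ p) :=
    Finset.prod_nonneg fun p hp => by have := hτhalf p hp; linarith
  have hSS0nn : 0 ≤ SS0 := by linarith
  set ε : ℝ := 6 * Real.exp (3 * S) * ρ * SS0 with hεdef
  have hε0 : 0 ≤ ε := by positivity
  have hlev := lev (P := P) (fun p hp => (hP p hp).1) (T := T) (τ := τ) (fun p hp => (hT p hp).1)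
    (cf P bk (fun j => b0 + j) J) (D := y ^ (4 * b0 + 6)) (N := N) (Nat.one_le_pow _ _ hy1)
    (fun n hn hc => lvl P bk J b0 y hy1 hbJ hbpow n (Finset.mem_powerset.mp hn) hc)
    (by rw [← pow_mul]; rwa [mul_comm]) (ε := ε) hε0
    (fun E hE hne => cb3 P bk (fun j => b0 + j) J hbJ τ hτ0 hτhalf S hS0 hSsum hη ρ hτρ hρ0 hρ1
      E hE hne) hA hB
  have hlow := (abs_le.mp hlev).1
  have hcb1 : ∑ a ∈ A, ∑ b ∈ B, ∑ n ∈ P.powerset, cf P bk (fun j => b0 + j) J n *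
      ∏ p ∈ n, T p (a - b) ≤ ∑ a ∈ A, ∑ b ∈ B, ∏ p ∈ P, (1 - T p (a - b)) := by
    refine Finset.sum_le_sum fun a _ => Finset.sum_le_sum fun b _ => ?_
    exact cb1 P bk (fun j => b0 + j) J hbJ (fun p => T p (a - b))
      (fun p hp => (hT p hp).1.nonneg _) (fun p hp => (hT p hp).1.le_one _)
  have hsq : δ * (N : ℝ) ^ 2 ≤ √((A.card : ℝ) * B.card) := by
    refine Real.le_sqrt_of_sq_le ?_
    calc (δ * (N : ℝ) ^ 2) ^ 2 = δ ^ 2 * (N : ℝ) ^ 4 := by ring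
      _ ≤ _ := hAB
  have hsqnn : 0 ≤ √((A.card : ℝ) * B.card) := Real.sqrt_nonneg _
  have hmulself : √((A.card : ℝ) * B.card) * √((A.card : ℝ) * B.card) = (A.card : ℝ) * B.card :=
    Real.mul_self_sqrt hABnn
  have herr : 2 * ε * (N : ℝ) ^ 2 * √((A.card : ℝ) * B.card) ≤
      1 / 2 * SS0 * ((A.card : ℝ) * B.card) := by
    have h1 : 2 * ε * (N : ℝ) ^ 2 = (12 * Real.exp (3 * S) * ρ) * (SS0 * (N : ℝ) ^ 2) := by
      rw [hεdef]; ring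
    rw [h1]
    have h2 : (12 * Real.exp (3 * S) * ρ) * (SS0 * (N : ℝ) ^ 2) ≤
        (δ / 2) * (SS0 * (N : ℝ) ^ 2) :=
      mul_le_mul_of_nonneg_right hρ2 (by positivity)
    calc (12 * Real.exp (3 * S) * ρ) * (SS0 * (N : ℝ) ^ 2) * √((A.card : ℝ) * B.card)
        ≤ (δ / 2) * (SS0 * (N : ℝ) ^ 2) * √((A.card : ℝ) * B.card) :=
          mul_le_mul_of_nonneg_right h2 hsqnn
      _ = (1 / 2 * SS0) * ((δ * (N : ℝ) ^ 2) * √((A.card : ℝ) * B.card)) := by ring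
      _ ≤ (1 / 2 * SS0) * (√((A.card : ℝ) * B.card) * √((A.card : ℝ) * B.card)) := by
          refine mul_le_mul_of_nonneg_left (mul_le_mul_of_nonneg_right hsq hsqnn) (by positivity)
      _ = 1 / 2 * SS0 * ((A.card : ℝ) * B.card) := by rw [hmulself]
  have hfin : (1 / 4) * (∏ p ∈ P, (1 - τ p)) * ((A.card : ℝ) * B.card) ≤
      1 / 2 * SS0 * ((A.card : ℝ) * B.card) := by
    refine mul_le_mul_of_nonneg_right ?_ hABnn
    linarith
  linarith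

end Pool.Agent.Lib.DG
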