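import Pool.Agent.Lib.MP_1a9bf8_co.FACT

/-!
# SS: product formula for `Ssum`
For `n ⊆ P`: `E ⊆ n` (with `E ⊆ P`) iff `E ∩ P_j ⊆ n ∩ P_j` for all `j`; `(-1)^|n|` and `prod over n \ E` are
products over the blocks.  Apply `fact` to each of the `J + 1` summands of `cf`.
-/

set_option autoImplicit false

namespace Pool.Agent.Lib.DG

open Finset

theorem ss_inter (P : Finset ℕ) (blk : ℕ → ℕ) (j : ℕ) {n : Finset ℕ} (hn : n ⊆ P) :
    n ∩ PB P blk j = n.filter (fun p => blk p = j) := by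
  ext p
  simp only [PB, mem_inter, mem_filter]
  constructor
  · rintro ⟨h1, _, h3⟩
    exact ⟨h1, h3⟩
  · rintro ⟨h1, h3⟩
    exact ⟨h1, hn h1, h3⟩

theorem ss_prod (P : Finset ℕ) (blk : ℕ → ℕ) (J : ℕ) (hb : ∀ p ∈ P, blk p < J) {n : Finset ℕ}
    (hn : n ⊆ P) (E : Finset ℕ) (g : ℕ → ℝ) :
    ∏ j ∈ range J, ∏ p ∈ (n ∩ PB P blk j) \ E, g p = ∏ p ∈ n \ E, g p := by
  rw [← prod_fiberwise_of_maps_to (s := n \ E) (t := range J) (g := blk) (f := g)
    (fun p hp => mem_range.2 (hb p (hn (mem_sdiff.1 hp).1)))]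
  refine prod_congr rfl fun j _ => ?_
  refine prod_congr ?_ fun _ _ => rfl
  rw [ss_inter P blk j hn]
  ext p
  simp only [mem_sdiff, mem_filter]
  tauto

theorem ss_sub (P : Finset ℕ) (blk : ℕ → ℕ) (J : ℕ) (hb : ∀ p ∈ P, blk p < J) {n E : Finset ℕ}
    (hE : E ⊆ P) : E ⊆ n ↔ ∀ j ∈ range J, E ∩ PB P blk j ⊆ n ∩ PB P blk j := by
  constructor
  · intro h j _
    exact inter_subset_inter h (subset_refl _)
  · intro h p hp
    have h1 := h (blk p) (mem_range.2 (hb p (hE hp)))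
    have h2 : p ∈ E ∩ PB P blk (blk p) := by
      rw [mem_inter, PB, mem_filter]
      exact ⟨hp, hE hp, rfl⟩
    exact (mem_inter.1 (h1 h2)).1

theorem ss_gen (P : Finset ℕ) (blk : ℕ → ℕ) (J : ℕ) (hb : ∀ p ∈ P, blk p < J) (τ : ℕ → ℝ)
    (E : Finset ℕ) (hE : E ⊆ P) (w : ℕ → Finset ℕ → ℝ) :
    ∑ n ∈ P.powerset with E ⊆ n, ((-1) ^ n.card * ∏ j ∈ range J, w j (n ∩ PB P blk j)) *
      ∏ p ∈ n \ E, τ p = ∏ j ∈ range J, ∑ m ∈ (PB P blk j).powerset with E ∩ PB P blk j ⊆ m,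
        w j m * ((-1) ^ m.card * ∏ p ∈ m \ E, τ p) := by
  have h1 := fact P blk J hb (fun j m => if E ∩ PB P blk j ⊆ m then
    w j m * ((-1) ^ m.card * ∏ p ∈ m \ E, τ p) else 0)
  have h2 : ∀ j, ∑ m ∈ (PB P blk j).powerset with E ∩ PB P blk j ⊆ m,
      w j m * ((-1) ^ m.card * ∏ p ∈ m \ E, τ p) = ∑ m ∈ (PB P blk j).powerset,
      if E ∩ PB P blk j ⊆ m then w j m * ((-1) ^ m.card * ∏ p ∈ m \ E, τ p) else 0 := by
    intro j
    rw [sum_filter]
  rw [prod_congr rfl fun j _ => h2 j, ← h1, sum_filter]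
  refine sum_congr rfl fun n hn => ?_
  rw [mem_powerset] at hn
  by_cases hEn : E ⊆ n
  · rw [if_pos hEn]
    have h3 := (ss_sub P blk J hb hE).1 hEn
    rw [prod_congr rfl fun j hj => if_pos (h3 j hj)]
    rw [prod_mul_distrib, prod_mul_distrib, ss_prod P blk J hb hn E τ]
    have h4 : ∏ j ∈ range J, (-1 : ℝ) ^ (n ∩ PB P blk j).card = (-1) ^ n.card := by
      have h5 := ss_prod P blk J hb hn ∅ (fun _ => (-1 : ℝ))
      simp only [sdiff_empty, prod_const] at h5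
      exact h5
    rw [h4]
    ring
  · rw [if_neg hEn]
    have h3 : ¬ ∀ j ∈ range J, E ∩ PB P blk j ⊆ n ∩ PB P blk j :=
      fun h => hEn ((ss_sub P blk J hb hE).2 h)
    push Not at h3
    obtain ⟨j, hj, hj2⟩ := h3
    exact (prod_eq_zero hj (if_neg hj2)).symm

theorem ssum_eq (P : Finset ℕ) (blk b : ℕ → ℕ) (J : ℕ) (hb : ∀ p ∈ P, blk p < J) (τ : ℕ → ℝ)
    (E : Finset ℕ) (hE : E ⊆ P) :
    Ssum P (cf P blk b J) τ E = ∏ j ∈ range J, al τ E (PB P blk j) (b j) +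
      ∑ i ∈ range J, be τ E (PB P blk i) (b i) *
        ∏ j ∈ (range J).erase i, al τ E (PB P blk j) (b j) := by
  have h0 := ss_gen P blk J hb τ E hE (fun j => av (b j))
  have hi : ∀ i ∈ range J, ∑ n ∈ P.powerset with E ⊆ n,
      ((-1) ^ n.card * (ev (b i) (n ∩ PB P blk i) *
        ∏ j ∈ (range J).erase i, av (b j) (n ∩ PB P blk j))) * ∏ p ∈ n \ E, τ p =
      be τ E (PB P blk i) (b i) * ∏ j ∈ (range J).erase i, al τ E (PB P blk j) (b j) := by
    intro i hi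
    have h1 := ss_gen P blk J hb τ E hE (fun j m => if j = i then ev (b i) m else av (b j) m)
    rw [← mul_prod_erase (range J) _ hi] at h1
    simp only [if_true] at h1
    have h2 : ∏ x ∈ (range J).erase i,
        ∑ m ∈ (PB P blk x).powerset with E ∩ PB P blk x ⊆ m,
          (if x = i then ev (b i) m else av (b x) m) * ((-1) ^ m.card * ∏ p ∈ m \ E, τ p) =
        ∏ j ∈ (range J).erase i, al τ E (PB P blk j) (b j) := by
      refine prod_congr rfl fun j hj => ?_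
      rw [al]
      refine sum_congr rfl fun m _ => ?_
      rw [if_neg (mem_erase.1 hj).1]
    rw [h2] at h1
    rw [be, ← h1]
    refine sum_congr rfl fun n _ => ?_
    congr 2
    rw [← mul_prod_erase (range J) _ hi, if_pos rfl]
    congr 1
    refine prod_congr rfl fun j hj => ?_
    rw [if_neg (mem_erase.1 hj).1]
  rw [← sum_congr rfl hi]
  have h0' : ∏ j ∈ range J, al τ E (PB P blk j) (b j) = ∑ n ∈ P.powerset with E ⊆ n,
      ((-1) ^ n.card * ∏ j ∈ range J, av (b j) (n ∩ PB P blk j)) * ∏ p ∈ n \ E, τ p := by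
    rw [h0]
    rfl
  rw [h0', sum_comm, ← sum_add_distrib, Ssum]
  refine sum_congr rfl fun n _ => ?_
  rw [cf, mul_add, add_mul, ← sum_mul, mul_sum]

end Pool.Agent.Lib.DG
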